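import Pool.Agent.MP_72d76c_lc.Defs

/-!
# Closure properties of `ComputesIn`
-/

namespace Pool.Agent.MP_72d76c_lc

open Finset

variable {ι κ μ : Type*}

theorem Avail.mono {L L' : List ((ι → ℝ) → ℝ)} (h : ∀ f ∈ L, f ∈ L') {f : (ι → ℝ) → ℝ}
    (hf : Avail L f) : Avail L' f := by
  cases hf with
  | input i => exact .input i
  | mem h' => exact .mem (h _ h')

theorem Avail.append_left {L : List ((ι → ℝ) → ℝ)} (L' : List ((ι → ℝ) → ℝ))
    {f : (ι → ℝ) → ℝ} (hf : Avail L f) : Avail (L' ++ L) f :=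
  hf.mono fun _ h => List.mem_append_right _ h

theorem Avail.append_right {L' : List ((ι → ℝ) → ℝ)} (L : List ((ι → ℝ) → ℝ))
    {f : (ι → ℝ) → ℝ} (hf : Avail L' f) : Avail (L' ++ L) f :=
  hf.mono fun _ h => List.mem_append_left _ h

/-- Substituting available functions for the inputs of a program. -/
theorem Avail.subst {F : (ι → ℝ) → (κ → ℝ)} {L : List ((ι → ℝ) → ℝ)}
    (hF : ∀ j, Avail L (fun x => F x j)) {G : List ((κ → ℝ) → ℝ)} {g : (κ → ℝ) → ℝ}
    (hg : Avail G g) : Avail (G.map (fun g x => g (F x)) ++ L) (fun x => g (F x)) := by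
  cases hg with
  | input j => exact (hF j).append_left _
  | mem h => exact .mem (List.mem_append_left _ (List.mem_map.2 ⟨g, h, rfl⟩))

theorem Prog.subst {F : (ι → ℝ) → (κ → ℝ)} {L : List ((ι → ℝ) → ℝ)} (hL : Prog L)
    (hF : ∀ j, Avail L (fun x => F x j)) {G : List ((κ → ℝ) → ℝ)} (hG : Prog G) :
    Prog (G.map (fun g x => g (F x)) ++ L) := by
  induction hG with
  | nil => simpa using hL
  | const c _ ih => exact .const c ih
  | add _ hf hg ih => exact .add ih (hf.subst hF) (hg.subst hF)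
  | sub _ hf hg ih => exact .sub ih (hf.subst hF) (hg.subst hF)
  | mul _ hf hg ih => exact .mul ih (hf.subst hF) (hg.subst hF)
  | sel _ hf hg hu hv ih =>
    exact .sel ih (hf.subst hF) (hg.subst hF) (hu.subst hF) (hv.subst hF)

theorem ComputesIn.mono {T T' : ℕ} {F : (ι → ℝ) → (κ → ℝ)} (h : ComputesIn T F)
    (hT : T ≤ T') : ComputesIn T' F := by
  obtain ⟨L, h1, h2, h3⟩ := h
  exact ⟨L, h1, h2.trans hT, h3⟩

theorem ComputesIn.congr {T : ℕ} {F G : (ι → ℝ) → (κ → ℝ)} (h : ComputesIn T F)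
    (hT : ∀ x j, F x j = G x j) : ComputesIn T G := by
  have : F = G := by funext x j; exact hT x j
  exact this ▸ h

/-- Renaming, duplicating and dropping wires is free. -/
theorem computesIn_reindex (σ : κ → ι) : ComputesIn 0 (fun (x : ι → ℝ) (j : κ) => x (σ j)) :=
  ⟨[], .nil, le_rfl, fun j => .input (σ j)⟩

theorem computesIn_id : ComputesIn 0 (fun (x : ι → ℝ) => x) :=
  ⟨[], .nil, le_rfl, fun j => .input j⟩

theorem ComputesIn.comp {T T' : ℕ} {F : (ι → ℝ) → (κ → ℝ)} {G : (κ → ℝ) → (μ → ℝ)}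
    (hG : ComputesIn T' G) (hF : ComputesIn T F) : ComputesIn (T + T') (fun x => G (F x)) := by
  obtain ⟨L, h1, h2, h3⟩ := hF
  obtain ⟨L', h1', h2', h3'⟩ := hG
  refine ⟨_, Prog.subst h1 h3 h1', ?_, fun j => (h3' j).subst h3⟩
  simp only [List.length_append, List.length_map]
  omega

theorem ComputesIn.out {T : ℕ} {F : (ι → ℝ) → (κ → ℝ)} (hF : ComputesIn T F) (σ : μ → κ) :
    ComputesIn T (fun x j => F x (σ j)) := by
  obtain ⟨L, h1, h2, h3⟩ := hF
  exact ⟨L, h1, h2, fun j => h3 (σ j)⟩

/-- Running a program on renamed inputs. -/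
theorem ComputesIn.inp {T : ℕ} {F : (ι → ℝ) → (κ → ℝ)} (hF : ComputesIn T F) (σ : ι → μ) :
    ComputesIn T (fun (x : μ → ℝ) => F (fun i => x (σ i))) := by
  simpa using hF.comp (computesIn_reindex σ)

theorem ComputesIn.pair {T T' : ℕ} {κ' : Type*} {F : (ι → ℝ) → (κ → ℝ)}
    {G : (ι → ℝ) → (κ' → ℝ)} (hF : ComputesIn T F) (hG : ComputesIn T' G) :
    ComputesIn (T + T') (fun x => (Sum.elim (F x) (G x) : κ ⊕ κ' → ℝ)) := by
  obtain ⟨L, h1, h2, h3⟩ := hF
  obtain ⟨L', h1', h2', h3'⟩ := hG
  have hin : ∀ j : ι, Avail L (fun x : ι → ℝ => x j) := fun j => .input j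
  refine ⟨L' ++ L, ?_, ?_, ?_⟩
  · simpa using Prog.subst h1 hin h1'
  · simp only [List.length_append]; omega
  · rintro (j | j)
    · exact (h3 j).append_left _
    · exact (h3' j).append_right _

/-- Computing a finite family of outputs one after the other. -/
theorem ComputesIn.pi_finset {α : Type*} [DecidableEq α] (s : Finset α) (t : α → ℕ)
    {κ' : α → Type*} {F : ∀ a, (ι → ℝ) → (κ' a → ℝ)} (h : ∀ a ∈ s, ComputesIn (t a) (F a)) :
    ∃ L : List ((ι → ℝ) → ℝ), Prog L ∧ L.length ≤ ∑ a ∈ s, t a ∧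
      ∀ a ∈ s, ∀ j, Avail L (fun x => F a x j) := by
  induction s using Finset.induction_on with
  | empty => exact ⟨[], .nil, by simp, by simp⟩
  | insert a s ha ih =>
    obtain ⟨L, h1, h2, h3⟩ := ih fun b hb => h b (Finset.mem_insert_of_mem hb)
    obtain ⟨L', h1', h2', h3'⟩ := h a (Finset.mem_insert_self _ _)
    have hin : ∀ j : ι, Avail L (fun x : ι → ℝ => x j) := fun j => .input j
    refine ⟨L' ++ L, by simpa using Prog.subst h1 hin h1', ?_, ?_⟩
    · rw [Finset.sum_insert ha, List.length_append]; omega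
    · intro b hb j
      rcases Finset.mem_insert.1 hb with rfl | hb
      · exact (h3' j).append_right _
      · exact (h3 b hb j).append_left _

theorem ComputesIn.sigma {α : Type*} [Fintype α] [DecidableEq α] (t : α → ℕ)
    {κ' : α → Type*} {F : ∀ a, (ι → ℝ) → (κ' a → ℝ)} (h : ∀ a, ComputesIn (t a) (F a)) :
    ComputesIn (∑ a, t a) (fun x => (fun p : (a : α) × κ' a => F p.1 x p.2)) := by
  obtain ⟨L, h1, h2, h3⟩ := ComputesIn.pi_finset Finset.univ t (F := F) fun a _ => h a
  exact ⟨L, h1, h2, fun p => h3 p.1 (Finset.mem_univ _) p.2⟩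

theorem ComputesIn.prod {α κ' : Type*} [Fintype α] [DecidableEq α] (t : α → ℕ)
    {F : α → (ι → ℝ) → (κ' → ℝ)} (h : ∀ a, ComputesIn (t a) (F a)) :
    ComputesIn (∑ a, t a) (fun x => (fun p : α × κ' => F p.1 x p.2)) := by
  obtain ⟨L, h1, h2, h3⟩ := ComputesIn.pi_finset Finset.univ t (F := F) fun a _ => h a
  exact ⟨L, h1, h2, fun p => h3 p.1 (Finset.mem_univ _) p.2⟩

theorem ComputesIn.pi {α : Type*} [Fintype α] [DecidableEq α] (t : α → ℕ)
    {F : (ι → ℝ) → (α → ℝ)} (h : ∀ a, ComputesIn (t a) (fun x (_ : Unit) => F x a)) :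
    ComputesIn (∑ a, t a) F := by
  obtain ⟨L, h1, h2, h3⟩ := ComputesIn.pi_finset Finset.univ t
    (F := fun a x (_ : Unit) => F x a) fun a _ => h a
  exact ⟨L, h1, h2, fun a => h3 a (Finset.mem_univ _) ()⟩

theorem ComputesIn.pi_const {α : Type*} [Fintype α] [DecidableEq α] (t : ℕ)
    {F : (ι → ℝ) → (α → ℝ)} (h : ∀ a, ComputesIn t (fun x (_ : Unit) => F x a)) :
    ComputesIn (Fintype.card α * t) F := by
  simpa using ComputesIn.pi (fun _ => t) h

/-! ### Single gates -/

theorem computesIn_const (c : ℝ) : ComputesIn 1 (fun (_ : ι → ℝ) (_ : Unit) => c) :=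
  ⟨[fun _ => c], .const c .nil, by simp, fun _ => .mem (by simp)⟩

section gates

variable {T T' T'' T''' : ℕ} {F G U V : (ι → ℝ) → (Unit → ℝ)}

theorem ComputesIn.add₁ (hF : ComputesIn T F) (hG : ComputesIn T' G) :
    ComputesIn (T + T' + 1) (fun x j => F x j + G x j) := by
  obtain ⟨L, h1, h2, h3⟩ := hF.pair hG
  refine ⟨_, Prog.add h1 (h3 (Sum.inl ())) (h3 (Sum.inr ())), ?_, fun j => .mem ?_⟩
  · simp only [List.length_cons]; omega
  · simp

theorem ComputesIn.sub₁ (hF : ComputesIn T F) (hG : ComputesIn T' G) :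
    ComputesIn (T + T' + 1) (fun x j => F x j - G x j) := by
  obtain ⟨L, h1, h2, h3⟩ := hF.pair hG
  refine ⟨_, Prog.sub h1 (h3 (Sum.inl ())) (h3 (Sum.inr ())), ?_, fun j => .mem ?_⟩
  · simp only [List.length_cons]; omega
  · simp

theorem ComputesIn.mul₁ (hF : ComputesIn T F) (hG : ComputesIn T' G) :
    ComputesIn (T + T' + 1) (fun x j => F x j * G x j) := by
  obtain ⟨L, h1, h2, h3⟩ := hF.pair hG
  refine ⟨_, Prog.mul h1 (h3 (Sum.inl ())) (h3 (Sum.inr ())), ?_, fun j => .mem ?_⟩
  · simp only [List.length_cons]; omega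
  · simp

theorem ComputesIn.sel₁ (hF : ComputesIn T F) (hG : ComputesIn T' G)
    (hU : ComputesIn T'' U) (hV : ComputesIn T''' V) :
    ComputesIn (T + T' + T'' + T''' + 1)
      (fun x j => if F x j ≤ G x j then U x j else V x j) := by
  obtain ⟨L, h1, h2, h3⟩ := ((hF.pair hG).pair hU).pair hV
  refine ⟨_, Prog.sel h1 (h3 (Sum.inl (Sum.inl (Sum.inl ())))) (h3 (Sum.inl (Sum.inl (Sum.inr ()))))
    (h3 (Sum.inl (Sum.inr ()))) (h3 (Sum.inr ())), ?_, fun j => .mem ?_⟩
  · simp only [List.length_cons]; omega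
  · simp

theorem ComputesIn.coord (i : ι) : ComputesIn 0 (fun (x : ι → ℝ) (_ : Unit) => x i) :=
  computesIn_reindex fun _ => i

end gates

/-! ### Pointwise operations -/

section pointwise

variable [Fintype κ] [DecidableEq κ] {T T' : ℕ} {F G : (ι → ℝ) → (κ → ℝ)}

/-- A binary gate applied coordinatewise to two computed vectors. -/
theorem ComputesIn.map₂ (c : ℕ) (op : ℝ → ℝ → ℝ)
    (hop : ComputesIn c (fun (x : Bool → ℝ) (_ : Unit) => op (x false) (x true)))
    (hF : ComputesIn T F) (hG : ComputesIn T' G) :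
    ComputesIn (T + T' + Fintype.card κ * c) (fun x j => op (F x j) (G x j)) := by
  have h := hF.pair hG
  have h2 : ComputesIn (Fintype.card κ * c)
      (fun (y : κ ⊕ κ → ℝ) (j : κ) => op (y (Sum.inl j)) (y (Sum.inr j))) := by
    refine ComputesIn.pi_const c fun a => ?_
    have := hop.inp (fun b : Bool => if b then (Sum.inr a : κ ⊕ κ) else Sum.inl a)
    simpa using this
  simpa using h2.comp h

/-- A unary gate applied coordinatewise. -/
theorem ComputesIn.map₁ (c : ℕ) (op : ℝ → ℝ)
    (hop : ComputesIn c (fun (x : Unit → ℝ) (_ : Unit) => op (x ()))) (hF : ComputesIn T F) :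
    ComputesIn (T + Fintype.card κ * c) (fun x j => op (F x j)) := by
  have h2 : ComputesIn (Fintype.card κ * c) (fun (y : κ → ℝ) (j : κ) => op (y j)) := by
    refine ComputesIn.pi_const c fun a => ?_
    exact hop.inp (fun _ : Unit => a)
  exact h2.comp hF

theorem ComputesIn.add (hF : ComputesIn T F) (hG : ComputesIn T' G) :
    ComputesIn (T + T' + Fintype.card κ) (fun x j => F x j + G x j) := by
  simpa using ComputesIn.map₂ 1 (· + ·)
    (by simpa using (ComputesIn.coord false).add₁ (ComputesIn.coord (ι := Bool) true)) hF hG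

theorem ComputesIn.sub (hF : ComputesIn T F) (hG : ComputesIn T' G) :
    ComputesIn (T + T' + Fintype.card κ) (fun x j => F x j - G x j) := by
  simpa using ComputesIn.map₂ 1 (· - ·)
    (by simpa using (ComputesIn.coord false).sub₁ (ComputesIn.coord (ι := Bool) true)) hF hG

theorem ComputesIn.mul (hF : ComputesIn T F) (hG : ComputesIn T' G) :
    ComputesIn (T + T' + Fintype.card κ) (fun x j => F x j * G x j) := by
  simpa using ComputesIn.map₂ 1 (· * ·)
    (by simpa using (ComputesIn.coord false).mul₁ (ComputesIn.coord (ι := Bool) true)) hF hG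

theorem ComputesIn.max (hF : ComputesIn T F) (hG : ComputesIn T' G) :
    ComputesIn (T + T' + Fintype.card κ) (fun x j => max (F x j) (G x j)) := by
  have : ComputesIn 1 (fun (x : Bool → ℝ) (_ : Unit) => Max.max (x false) (x true)) := by
    refine ((ComputesIn.coord false).sel₁ (ComputesIn.coord (ι := Bool) true)
      (ComputesIn.coord true) (ComputesIn.coord false)).congr fun x j => ?_
    simp [max_def]
  simpa using ComputesIn.map₂ 1 (fun a b => Max.max a b) this hF hG

theorem ComputesIn.min (hF : ComputesIn T F) (hG : ComputesIn T' G) :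
    ComputesIn (T + T' + Fintype.card κ) (fun x j => min (F x j) (G x j)) := by
  have : ComputesIn 1 (fun (x : Bool → ℝ) (_ : Unit) => Min.min (x false) (x true)) := by
    refine ((ComputesIn.coord false).sel₁ (ComputesIn.coord (ι := Bool) true)
      (ComputesIn.coord false) (ComputesIn.coord true)).congr fun x j => ?_
    simp [min_def]
  simpa using ComputesIn.map₂ 1 (fun a b => Min.min a b) this hF hG

/-- Multiplication of every coordinate by its own constant. -/
theorem ComputesIn.constMul (c : κ → ℝ) (hF : ComputesIn T F) :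
    ComputesIn (T + Fintype.card κ * 2) (fun x j => c j * F x j) := by
  have h2 : ComputesIn (Fintype.card κ * 2) (fun (y : κ → ℝ) (j : κ) => c j * y j) := by
    refine ComputesIn.pi_const 2 fun a => ?_
    simpa using (computesIn_const (ι := κ) (c a)).mul₁ (ComputesIn.coord a)
  exact h2.comp hF

theorem ComputesIn.abs (hF : ComputesIn T F) :
    ComputesIn (T + Fintype.card κ * 4) (fun x j => |F x j|) := by
  have : ComputesIn 4 (fun (x : Unit → ℝ) (_ : Unit) => |x ()|) := by
    refine ((computesIn_const 0).sel₁ (ComputesIn.coord (ι := Unit) ()) (ComputesIn.coord ())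
      ((computesIn_const 0).sub₁ (ComputesIn.coord ()))).congr fun x j => ?_
    simp only [zero_sub]
    split_ifs with h
    · exact (abs_of_nonneg h).symm
    · exact (abs_of_neg (not_le.1 h)).symm
  simpa using ComputesIn.map₁ 4 (fun a => |a|) this hF

end pointwise

/-! ### Sums and linear maps -/

theorem computesIn_sum [DecidableEq ι] (s : Finset ι) :
    ComputesIn (s.card + 1) (fun (x : ι → ℝ) (_ : Unit) => ∑ i ∈ s, x i) := by
  induction s using Finset.induction_on with
  | empty => simpa using computesIn_const (ι := ι) 0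
  | insert a s ha ih =>
    refine ((ComputesIn.coord a).add₁ ih).mono ?_ |>.congr fun x j => ?_
    · rw [Finset.card_insert_of_notMem ha]; omega
    · rw [Finset.sum_insert ha]

theorem computesIn_wsum [DecidableEq ι] (s : Finset ι) (c : ι → ℝ) :
    ComputesIn (3 * s.card + 1) (fun (x : ι → ℝ) (_ : Unit) => ∑ i ∈ s, c i * x i) := by
  induction s using Finset.induction_on with
  | empty => simpa using computesIn_const (ι := ι) 0
  | insert a s ha ih =>
    refine (((computesIn_const (c a)).mul₁ (ComputesIn.coord a)).add₁ ih).mono ?_ |>.congr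
      fun x j => ?_
    · rw [Finset.card_insert_of_notMem ha]; omega
    · rw [Finset.sum_insert ha]

theorem ComputesIn.finsetSum [DecidableEq κ] {T : ℕ} {F : (ι → ℝ) → (κ → ℝ)}
    (hF : ComputesIn T F) (s : Finset κ) :
    ComputesIn (T + (s.card + 1)) (fun x (_ : Unit) => ∑ j ∈ s, F x j) :=
  (computesIn_sum s).comp hF

/-- A sparse linear map: row `j` only involves the coordinates in `S j`. -/
theorem computesIn_sparse [DecidableEq ι] [Fintype κ] [DecidableEq κ] (S : κ → Finset ι)
    (A : κ → ι → ℝ) :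
    ComputesIn (∑ j, (3 * (S j).card + 1))
      (fun (x : ι → ℝ) (j : κ) => ∑ i ∈ S j, A j i * x i) :=
  ComputesIn.pi _ fun j => computesIn_wsum (S j) (A j)

/-- A dense linear map. -/
theorem computesIn_mulVec [Fintype ι] [DecidableEq ι] [Fintype κ] [DecidableEq κ]
    (A : Matrix κ ι ℝ) :
    ComputesIn (Fintype.card κ * (3 * Fintype.card ι + 1)) (fun (x : ι → ℝ) => A.mulVec x) := by
  refine ((computesIn_sparse (fun _ : κ => (Finset.univ : Finset ι)) (fun j i => A j i)).mono
    ?_).congr fun x j => rfl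
  simp

/-- The unweighted sparse sums. -/
theorem computesIn_sums [DecidableEq ι] [Fintype κ] [DecidableEq κ] (S : κ → Finset ι) :
    ComputesIn (∑ j, ((S j).card + 1)) (fun (x : ι → ℝ) (j : κ) => ∑ i ∈ S j, x i) :=
  ComputesIn.pi _ fun j => computesIn_sum (S j)

/-! ### Iteration -/

theorem ComputesIn.iterate {T : ℕ} {F : (κ → ℝ) → (κ → ℝ)} (h : ComputesIn T F) (r : ℕ) :
    ComputesIn (r * T) (F^[r]) := by
  induction r with
  | zero => exact (computesIn_id (ι := κ)).mono (Nat.zero_le _)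
  | succ r ih =>
    refine (h.comp ih).mono ?_ |>.congr fun x j => ?_
    · rw [Nat.succ_mul]
    · rw [Function.iterate_succ_apply']

/-- Iteration of a step which also reads a fixed input `x`. -/
theorem ComputesIn.iterateWith {T T₀ : ℕ} {G : (ι → ℝ) → (κ → ℝ) → (κ → ℝ)}
    (h : ComputesIn T (fun w : ι ⊕ κ → ℝ => G (fun i => w (.inl i)) (fun j => w (.inr j))))
    {Z : (ι → ℝ) → (κ → ℝ)} (hZ : ComputesIn T₀ Z) (r : ℕ) :
    ComputesIn (T₀ + r * T) (fun x => (G x)^[r] (Z x)) := by
  induction r with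
  | zero => simpa using hZ
  | succ r ih =>
    refine (h.comp (computesIn_id.pair ih)).mono ?_ |>.congr fun x j => ?_
    · rw [Nat.succ_mul]; omega
    · rw [Function.iterate_succ_apply']
      rfl

end Pool.Agent.MP_72d76c_lc
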