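import Mathlib

/-!
# Definitions for MP_72d76c_lc (deterministic L2/L1 sparse recovery in near-linear time)

Vectors are plain functions `ι → ℝ`; `nsq x` is the squared Euclidean norm, `nnz x` the number
of nonzero coordinates, `l1 x` the `ℓ¹` norm and `sigma k x` the best `k`-term `ℓ¹` error.

Running time: `ComputesIn T F` says that the map `F : (ι → ℝ) → (κ → ℝ)` is computed by a
straight-line program with at most `T` unit-cost operations on real numbers.
-/

namespace Pool.Agent.MP_72d76c_lc

open Finset

section vec
variable {ι : Type*} [Fintype ι]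

/-- Squared Euclidean norm. -/
def nsq (x : ι → ℝ) : ℝ := ∑ i, x i ^ 2

/-- `ℓ¹` norm. -/
def l1 (x : ι → ℝ) : ℝ := ∑ i, |x i|

open Classical in
/-- Number of nonzero coordinates. -/
noncomputable def nnz (x : ι → ℝ) : ℕ := (univ.filter (fun i => x i ≠ 0)).card

/-- Best `k`-term approximation error in the `ℓ¹` norm. -/
noncomputable def sigma (k : ℕ) (x : ι → ℝ) : ℝ :=
  sInf {t : ℝ | ∃ x' : ι → ℝ, nnz x' ≤ k ∧ t = l1 (x - x')}

end vec

section comp
variable {ι κ : Type*}

/-- The functions of the input that are available after the values in `L` have been computed: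
the input coordinates and the members of `L`. -/
inductive Avail (L : List ((ι → ℝ) → ℝ)) : ((ι → ℝ) → ℝ) → Prop
  | input (i : ι) : Avail L (fun x => x i)
  | mem {f : (ι → ℝ) → ℝ} (h : f ∈ L) : Avail L f

/-- `Prog L`: `L` is the list (latest value first) of the values computed by a straight-line
program whose instructions are: load a real constant; add, subtract or multiply two available
values; compare two available values and select one of two available values accordingly. -/
inductive Prog : List ((ι → ℝ) → ℝ) → Prop
  | nil : Prog []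
  | const {L : List ((ι → ℝ) → ℝ)} (c : ℝ) (h : Prog L) : Prog ((fun _ => c) :: L)
  | add {L : List ((ι → ℝ) → ℝ)} {f g : (ι → ℝ) → ℝ} (h : Prog L) (hf : Avail L f)
      (hg : Avail L g) : Prog ((fun x => f x + g x) :: L)
  | sub {L : List ((ι → ℝ) → ℝ)} {f g : (ι → ℝ) → ℝ} (h : Prog L) (hf : Avail L f)
      (hg : Avail L g) : Prog ((fun x => f x - g x) :: L)
  | mul {L : List ((ι → ℝ) → ℝ)} {f g : (ι → ℝ) → ℝ} (h : Prog L) (hf : Avail L f)
      (hg : Avail L g) : Prog ((fun x => f x * g x) :: L)
  | sel {L : List ((ι → ℝ) → ℝ)} {f g u v : (ι → ℝ) → ℝ} (h : Prog L) (hf : Avail L f)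
      (hg : Avail L g) (hu : Avail L u) (hv : Avail L v) :
      Prog ((fun x => if f x ≤ g x then u x else v x) :: L)

/-- `F` is computed by a straight-line program with at most `T` unit-cost operations. -/
def ComputesIn (T : ℕ) (F : (ι → ℝ) → (κ → ℝ)) : Prop :=
  ∃ L : List ((ι → ℝ) → ℝ), Prog L ∧ L.length ≤ T ∧ ∀ j, Avail L (fun x => F x j)

end comp

end Pool.Agent.MP_72d76c_lc
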