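import Pool.Agent.MP_72d76c_lc.Defs

/-!
# Shared definitions of the modules T3, T4, T5
-/

namespace Pool.Agent.MP_72d76c_lc

open Finset Matrix

open Classical in
/-- The indices at least half of whose buckets contain another element of `B`. -/
noncomputable def Cor {n d R : ℕ} (h : Fin d → Fin n → Fin R) (B : Finset (Fin n)) :
    Finset (Fin n) :=
  univ.filter fun i =>
    d ≤ 2 * (univ.filter (fun j : Fin d => ∃ i' ∈ B, i' ≠ i ∧ h j i' = h j i)).card

/-- One round of median corrections. -/
noncomputable def medStep {n d R : ℕ} (h : Fin d → Fin n → Fin R) (med : (Fin d → ℝ) → ℝ)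
    (x z : Fin n → ℝ) : Fin n → ℝ :=
  fun i => z i + med (fun j => ∑ i' ∈ univ.filter (fun i' => h j i' = h j i), (x i' - z i'))

/-- One step of iterative hard thresholding with threshold functional `thr`. -/
noncomputable def ihtStep {m n : ℕ} (A : Matrix (Fin m) (Fin n) ℝ) (thr : (Fin n → ℝ) → ℝ)
    (y : Fin m → ℝ) (w : Fin n → ℝ) : Fin n → ℝ :=
  let a : Fin n → ℝ := w + Aᵀ *ᵥ (y - A *ᵥ w)
  let t : ℝ := thr (fun i => |a i|)
  fun i => if |a i| ≤ t then 0 else a i

end Pool.Agent.MP_72d76c_lc
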