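import Pool.Agent.MP_72d76c_lc.Defs

/-!
# T7(c): exponential moments of the squared norm of a subgaussian vector
-/

namespace Pool.Agent.MP_72d76c_lc

open MeasureTheory Matrix Finset ProbabilityTheory Real

theorem exp_line (x : ℝ) (h0 : 0 ≤ x) (h1 : x ≤ 1 / 4) : Real.exp (-(14 / 5 * x)) ≤ 1 - 2 * x := by
  have hconv := convexOn_exp.2 (Set.mem_univ (0 : ℝ)) (Set.mem_univ (-(7 / 10) : ℝ))
    (show (0 : ℝ) ≤ 1 - 4 * x by linarith) (show (0 : ℝ) ≤ 4 * x by linarith)
    (show (1 - 4 * x) + 4 * x = 1 by ring)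
  simp only [smul_eq_mul, mul_zero, zero_add, Real.exp_zero, mul_one] at hconv
  have e : 4 * x * (-(7 / 10)) = -(14 / 5 * x) := by ring
  rw [e] at hconv
  have h2 : Real.exp (-(7 / 10)) ≤ 1 / 2 := by
    rw [← Real.exp_log (show (0 : ℝ) < 1 / 2 by norm_num), Real.exp_le_exp]
    rw [one_div, Real.log_inv]
    have := Real.log_two_lt_d9
    linarith
  nlinarith

theorem integrable_exp_sq_gaussian (s : ℝ) (hs : s ≤ 1 / 4) :
    Integrable (fun g : ℝ => Real.exp (s * g ^ 2)) (gaussianReal 0 1) := by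
  rw [gaussianReal_of_var_ne_zero 0 one_ne_zero]
  rw [integrable_withDensity_iff_integrable_smul₀' (by fun_prop)
    (Filter.Eventually.of_forall fun x => gaussianPDF_lt_top)]
  have h1 : (fun x : ℝ => (gaussianPDF 0 1 x).toReal • Real.exp (s * x ^ 2)) =
      fun x => (√(2 * π))⁻¹ * Real.exp (-(1 / 2 - s) * x ^ 2) := by
    funext x
    rw [toReal_gaussianPDF, gaussianPDFReal_def, smul_eq_mul]
    simp only [NNReal.coe_one, mul_one, sub_zero]
    rw [mul_assoc, ← Real.exp_add]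
    congr 2
    ring
  rw [h1]
  exact (integrable_exp_neg_mul_sq (by linarith)).const_mul _

theorem integral_exp_sq_gaussian (s : ℝ) (hs0 : 0 ≤ s) (hs : s ≤ 1 / 4) :
    ∫ g, Real.exp (s * g ^ 2) ∂(gaussianReal 0 1) ≤ Real.exp (7 / 5 * s) := by
  rw [integral_gaussianReal_eq_integral_smul one_ne_zero]
  have h1 : (fun x : ℝ => gaussianPDFReal 0 1 x • Real.exp (s * x ^ 2)) =
      fun x => (√(2 * π))⁻¹ * Real.exp (-(1 / 2 - s) * x ^ 2) := by
    funext x
    rw [gaussianPDFReal_def, smul_eq_mul]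
    simp only [NNReal.coe_one, mul_one, sub_zero]
    rw [mul_assoc, ← Real.exp_add]
    congr 2
    ring
  rw [h1, integral_const_mul, integral_gaussian]
  have hpos : 0 < 1 - 2 * s := by linarith
  have h2 : (√(2 * π))⁻¹ * √(π / (1 / 2 - s)) = √((1 - 2 * s)⁻¹) := by
    rw [← Real.sqrt_inv, ← Real.sqrt_mul (by positivity)]
    congr 1
    have : (1 / 2 - s) = (1 - 2 * s) / 2 := by ring
    rw [this]
    field_simp
  rw [h2]
  have h3 : Real.exp (7 / 5 * s) = √(Real.exp (14 / 5 * s)) := by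
    rw [← Real.sqrt_sq (Real.exp_pos (7 / 5 * s)).le, ← Real.exp_nat_mul]
    congr 2
    push_cast
    ring
  rw [h3]
  refine Real.sqrt_le_sqrt ?_
  have h4 := exp_line s hs0 hs
  rw [Real.exp_neg] at h4
  rw [inv_le_comm₀ hpos (Real.exp_pos _)]
  exact h4

theorem integrable_exp_mul_gaussian (t : ℝ) :
    Integrable (fun g : ℝ => Real.exp (t * g)) (gaussianReal 0 1) :=
  integrable_exp_mul_gaussianReal t

theorem integral_exp_mul_gaussian (t : ℝ) :
    ∫ g, Real.exp (t * g) ∂(gaussianReal 0 1) = Real.exp (t ^ 2 / 2) := by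
  have := congrFun (mgf_fun_id_gaussianReal (μ := 0) (v := 1)) t
  simpa [mgf] using this

section pi

variable {κ : Type*} [Fintype κ]

/-- The standard Gaussian measure on `κ → ℝ`. -/
noncomputable def gam (κ : Type*) [Fintype κ] : Measure (κ → ℝ) :=
  Measure.pi fun _ => gaussianReal 0 1

instance : IsProbabilityMeasure (gam κ) := by unfold gam; infer_instance

theorem lintegral_exp_lin_gam (a : κ → ℝ) :
    ∫⁻ g, ENNReal.ofReal (Real.exp (∑ i, a i * g i)) ∂(gam κ) =
      ENNReal.ofReal (Real.exp (∑ i, a i ^ 2 / 2)) := by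
  have hint : Integrable (fun g : κ → ℝ => ∏ i, Real.exp (a i * g i)) (gam κ) :=
    Integrable.fintype_prod fun i => integrable_exp_mul_gaussian (a i)
  simp_rw [Real.exp_sum]
  rw [← ofReal_integral_eq_lintegral_ofReal hint
    (Filter.Eventually.of_forall fun g => prod_nonneg fun i _ => (Real.exp_pos _).le)]
  congr 1
  unfold gam
  rw [integral_fintype_prod_eq_prod (fun i (x : ℝ) => Real.exp (a i * x))]
  exact prod_congr rfl fun i _ => integral_exp_mul_gaussian (a i)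

theorem lintegral_exp_sq_gam (b : κ → ℝ) (h0 : ∀ i, 0 ≤ b i) (h1 : ∀ i, b i ≤ 1 / 4) :
    ∫⁻ g, ENNReal.ofReal (Real.exp (∑ i, b i * g i ^ 2)) ∂(gam κ) ≤
      ENNReal.ofReal (Real.exp (7 / 5 * ∑ i, b i)) := by
  have hint : Integrable (fun g : κ → ℝ => ∏ i, Real.exp (b i * g i ^ 2)) (gam κ) :=
    Integrable.fintype_prod (f := fun i (x : ℝ) => Real.exp (b i * x ^ 2))
      fun i => integrable_exp_sq_gaussian (b i) (h1 i)
  simp_rw [Real.exp_sum]
  rw [← ofReal_integral_eq_lintegral_ofReal hint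
    (Filter.Eventually.of_forall fun g => prod_nonneg fun i _ => (Real.exp_pos _).le)]
  refine ENNReal.ofReal_le_ofReal ?_
  unfold gam
  rw [integral_fintype_prod_eq_prod (fun i (x : ℝ) => Real.exp (b i * x ^ 2)), mul_sum,
    Real.exp_sum]
  refine prod_le_prod (fun i _ => integral_nonneg fun x => (Real.exp_pos _).le) fun i _ => ?_
  exact integral_exp_sq_gaussian (b i) (h0 i) (h1 i)

end pi

section quad

variable {κ : Type*} [Fintype κ] [DecidableEq κ]

omit [DecidableEq κ] in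
theorem nsq_eq_dotProduct (x : κ → ℝ) : nsq x = x ⬝ᵥ x := by
  simp [nsq, dotProduct, pow_two]

/-- An orthonormal eigenbasis of a real symmetric matrix, in coordinates. -/
theorem exists_eigenbasis (S : Matrix κ κ ℝ) (hS : S.IsHermitian) :
    ∃ (e : κ → κ → ℝ) (l : κ → ℝ), (∀ i j, e i ⬝ᵥ e j = if i = j then 1 else 0) ∧
      (∀ x : κ → ℝ, nsq x = ∑ i, (x ⬝ᵥ e i) ^ 2) ∧ (∀ i, S *ᵥ e i = l i • e i) ∧
      S.trace = ∑ i, l i := by
  refine ⟨fun i => (hS.eigenvectorBasis i).ofLp, hS.eigenvalues, ?_, ?_, ?_, ?_⟩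
  · intro i j
    have h := (orthonormal_iff_ite.1 hS.eigenvectorBasis.orthonormal) j i
    rw [EuclideanSpace.inner_eq_star_dotProduct] at h
    simp only [star_trivial] at h
    rw [h]
    simp only [eq_comm]
  · intro x
    have h := hS.eigenvectorBasis.sum_sq_inner_right (WithLp.toLp 2 x)
    rw [EuclideanSpace.norm_sq_eq] at h
    simp only [Real.norm_eq_abs, sq_abs] at h
    rw [nsq, ← h]
    refine sum_congr rfl fun i _ => ?_
    rw [EuclideanSpace.inner_eq_star_dotProduct]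
    simp
  · intro i
    exact hS.mulVec_eigenvectorBasis i
  · have := hS.trace_eq_sum_eigenvalues
    simpa using this

/-- **Exponential moment of the squared norm** of a subgaussian random vector. -/
theorem lintegral_exp_nsq_le {Ω : Type*} [MeasurableSpace Ω] (P : Measure Ω)
    [IsProbabilityMeasure P] (X : Ω → κ → ℝ) (hX : ∀ i, Measurable fun ω => X ω i)
    (S : Matrix κ κ ℝ) (hS : S.IsHermitian)
    (hmgf : ∀ w : κ → ℝ, ∫⁻ ω, ENNReal.ofReal (Real.exp (X ω ⬝ᵥ w)) ∂P ≤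
      ENNReal.ofReal (Real.exp ((w ⬝ᵥ (S *ᵥ w)) / 2)))
    (μ σ : ℝ) (hμ : 0 ≤ μ) (hσ : ∀ w : κ → ℝ, w ⬝ᵥ (S *ᵥ w) ≤ σ * nsq w)
    (hpos : ∀ w : κ → ℝ, 0 ≤ w ⬝ᵥ (S *ᵥ w)) (hμσ : μ * σ ≤ 1 / 4) :
    ∫⁻ ω, ENNReal.ofReal (Real.exp (μ * nsq (X ω))) ∂P ≤
      ENNReal.ofReal (Real.exp (7 / 5 * (μ * S.trace))) := by
  obtain ⟨e, l, horth, hpars, heig, htr⟩ := exists_eigenbasis S hS
  -- the eigenvalues are in `[0, σ]`
  have hee : ∀ i, e i ⬝ᵥ (S *ᵥ e i) = l i := by
    intro i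
    rw [heig, dotProduct_smul, horth, if_pos rfl, smul_eq_mul, mul_one]
  have hl0 : ∀ i, 0 ≤ l i := fun i => hee i ▸ hpos (e i)
  have hl1 : ∀ i, l i ≤ σ := by
    intro i
    have := hσ (e i)
    rw [hee, nsq_eq_dotProduct, horth, if_pos rfl, mul_one] at this
    exact this
  set c : ℝ := √(2 * μ) with hc
  have hc2 : c ^ 2 = 2 * μ := Real.sq_sqrt (by positivity)
  set w : (κ → ℝ) → (κ → ℝ) := fun g => ∑ i, (c * g i) • e i with hw
  have hxw : ∀ (x g : κ → ℝ), x ⬝ᵥ w g = ∑ i, (c * (x ⬝ᵥ e i)) * g i := by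
    intro x g
    simp only [hw, dotProduct_sum, dotProduct_smul, smul_eq_mul]
    exact sum_congr rfl fun i _ => by ring
  have hlin : ∀ x : κ → ℝ, ENNReal.ofReal (Real.exp (μ * nsq x)) =
      ∫⁻ g, ENNReal.ofReal (Real.exp (x ⬝ᵥ w g)) ∂(gam κ) := by
    intro x
    simp_rw [hxw]
    rw [lintegral_exp_lin_gam]
    congr 2
    rw [hpars x, mul_sum]
    refine sum_congr rfl fun i _ => ?_
    rw [mul_pow, hc2]; ring
  have hSw : ∀ g : κ → ℝ, (w g) ⬝ᵥ (S *ᵥ (w g)) / 2 = ∑ i, (μ * l i) * g i ^ 2 := by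
    intro g
    have h1 : S *ᵥ (w g) = ∑ i, (c * g i * l i) • e i := by
      simp only [hw, mulVec_sum, mulVec_smul, heig, smul_smul]
    rw [h1, dotProduct_sum, Finset.sum_div]
    refine sum_congr rfl fun i _ => ?_
    rw [dotProduct_smul, smul_eq_mul]
    have h2 : w g ⬝ᵥ e i = c * g i := by
      rw [hw]
      simp only [sum_dotProduct, smul_dotProduct, horth, smul_eq_mul, mul_ite, mul_one, mul_zero]
      rw [Finset.sum_ite_eq' univ i (fun j => c * g j)]
      simp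
    rw [h2]
    have : c * g i * l i * (c * g i) = c ^ 2 * (l i * g i ^ 2) := by ring
    rw [this, hc2]; ring
  calc ∫⁻ ω, ENNReal.ofReal (Real.exp (μ * nsq (X ω))) ∂P
      = ∫⁻ ω, ∫⁻ g, ENNReal.ofReal (Real.exp (X ω ⬝ᵥ w g)) ∂(gam κ) ∂P := by
        simp_rw [hlin]
    _ = ∫⁻ g, ∫⁻ ω, ENNReal.ofReal (Real.exp (X ω ⬝ᵥ w g)) ∂P ∂(gam κ) := by
        refine lintegral_lintegral_swap ?_
        refine Measurable.aemeasurable ?_
        refine ENNReal.measurable_ofReal.comp (Real.measurable_exp.comp ?_)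
        have : (fun a : Ω × (κ → ℝ) => X a.1 ⬝ᵥ w a.2) =
            fun a => ∑ i, (c * (∑ j, X a.1 j * e i j)) * a.2 i := by
          funext a; rw [hxw]; rfl
        show Measurable (fun a : Ω × (κ → ℝ) => X a.1 ⬝ᵥ w a.2)
        rw [this]
        refine Finset.measurable_sum _ fun i _ => ?_
        refine Measurable.mul ?_ ((measurable_pi_apply i).comp measurable_snd)
        refine Measurable.const_mul ?_ _
        exact Finset.measurable_sum _ fun j _ => ((hX j).comp measurable_fst).mul_const _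
    _ ≤ ∫⁻ g, ENNReal.ofReal (Real.exp (∑ i, (μ * l i) * g i ^ 2)) ∂(gam κ) := by
        refine lintegral_mono fun g => ?_
        have := hmgf (w g)
        rwa [hSw] at this
    _ ≤ ENNReal.ofReal (Real.exp (7 / 5 * ∑ i, μ * l i)) := by
        refine lintegral_exp_sq_gam _ (fun i => mul_nonneg hμ (hl0 i)) fun i => ?_
        exact (mul_le_mul_of_nonneg_left (hl1 i) hμ).trans hμσ
    _ = ENNReal.ofReal (Real.exp (7 / 5 * (μ * S.trace))) := by
        simp only [htr, mul_sum]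

end quad

end Pool.Agent.MP_72d76c_lc
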