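import Pool.Agent.MP_72d76c_lc.Defs

/-!
# T7(a): a random orthogonal matrix with subgaussian bilinear forms
-/

namespace Pool.Agent.MP_72d76c_lc

open MeasureTheory Matrix Finset

section householder

variable {β : Type} [Fintype β] [DecidableEq β]

/-- A Householder reflection carries `u` to `u'` when they have the same norm. -/
theorem exists_reflection (u u' : β → ℝ) (h : nsq u = nsq u') :
    ∃ R ∈ Matrix.orthogonalGroup β ℝ, Rᵀ *ᵥ u = u' := by
  classical
  by_cases hw : u = u'
  · exact ⟨1, one_mem _, by simp [hw]⟩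
  set w : β → ℝ := u - u' with hwdef
  have hww : w ⬝ᵥ w ≠ 0 := by
    intro h0
    rw [dotProduct_self_eq_zero] at h0
    exact hw (sub_eq_zero.1 h0)
  set c : ℝ := 2 / (w ⬝ᵥ w) with hc
  have hcw : c * (w ⬝ᵥ w) = 2 := by rw [hc]; field_simp
  set R : Matrix β β ℝ := 1 - c • vecMulVec w w with hR
  have hRT : Rᵀ = R := by
    rw [hR, transpose_sub, transpose_one, transpose_smul, transpose_vecMulVec]
  have hRR : R * R = 1 := by
    have hv : vecMulVec w w * vecMulVec w w = (w ⬝ᵥ w) • vecMulVec w w := by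
      rw [vecMulVec_mul_vecMulVec]
      simp
    rw [hR, sub_mul, mul_sub, mul_sub, smul_mul_smul_comm, hv, one_mul, one_mul, mul_one, smul_smul]
    have : c * c * (w ⬝ᵥ w) = c + c := by
      rw [mul_assoc, hcw]; ring
    rw [this, add_smul]
    abel
  refine ⟨R, ?_, ?_⟩
  · rw [Matrix.mem_orthogonalGroup_iff]
    rw [hRT, hRR]
  · rw [hRT, hR, sub_mulVec, one_mulVec, smul_mulVec, vecMulVec_mulVec]
    have hwu : c * (w ⬝ᵥ u) = 1 := by
      have h1 : w ⬝ᵥ w = 2 * (w ⬝ᵥ u) := by
        have e1 : u ⬝ᵥ u = u' ⬝ᵥ u' := by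
          simpa [nsq, dotProduct, pow_two] using h
        have e2 : u' ⬝ᵥ u = u ⬝ᵥ u' := dotProduct_comm _ _
        rw [hwdef]
        simp only [sub_dotProduct, dotProduct_sub]
        rw [e2, ← e1]; ring
      have h2 : c * (w ⬝ᵥ w) = 2 := hcw
      rw [h1] at h2
      linarith
    ext i
    simp only [Pi.sub_apply, Pi.smul_apply, smul_eq_mul, MulOpposite.smul_eq_mul_unop,
      MulOpposite.unop_op]
    have : c * (w i * (w ⬝ᵥ u)) = w i := by
      calc c * (w i * (w ⬝ᵥ u)) = w i * (c * (w ⬝ᵥ u)) := by ring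
        _ = w i := by rw [hwu, mul_one]
    rw [this]
    simp [hwdef]

end householder

section haar

variable {β : Type} [Fintype β] [DecidableEq β]

theorem isCompact_orthogonalGroup :
    IsCompact ((Matrix.orthogonalGroup β ℝ : Submonoid _) : Set (Matrix β β ℝ)) := by
  have hcl : IsClosed ((Matrix.orthogonalGroup β ℝ : Submonoid _) : Set (Matrix β β ℝ)) :=
    isClosed_unitary
  refine IsCompact.of_isClosed_subset
    (IsCompact.matrix (m := β) (n := β) (isCompact_Icc (a := (-1 : ℝ)) (b := 1))) hcl ?_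
  intro M hM
  rw [Set.mem_matrix]
  intro i j
  have := entry_norm_bound_of_unitary (𝕜 := ℝ) hM i j
  rw [Real.norm_eq_abs, abs_le] at this
  exact this

instance instCompactSpaceOG : CompactSpace (Matrix.orthogonalGroup β ℝ) :=
  isCompact_iff_compactSpace.1 isCompact_orthogonalGroup

/-- Averages of exponentials over sign vectors. -/
theorem sum_signs_exp (a : β → ℝ) :
    ∑ ε : β → Bool, Real.exp (∑ i, (if ε i then a i else -a i)) = ∏ i, (2 * Real.cosh (a i)) := by
  have h1 : ∀ ε : β → Bool, Real.exp (∑ i, (if ε i then a i else -a i)) =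
      ∏ i, (if ε i then Real.exp (a i) else Real.exp (-a i)) := by
    intro ε
    rw [Real.exp_sum]
    refine prod_congr rfl fun i _ => ?_
    split_ifs <;> rfl
  simp_rw [h1]
  have h2 := (Finset.prod_univ_sum (fun _ : β => (univ : Finset Bool))
    (fun i b => if b then Real.exp (a i) else Real.exp (-a i)))
  rw [Fintype.piFinset_univ] at h2
  rw [← h2]
  refine prod_congr rfl fun i _ => ?_
  simp [Real.cosh_eq]
  ring

theorem exists_random_rotation (β : Type) [Fintype β] [DecidableEq β] [Nonempty β] :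
    ∃ (Ω : Type) (mΩ : MeasurableSpace Ω) (P : Measure Ω) (_ : IsProbabilityMeasure P)
      (Q : Ω → Matrix β β ℝ), (∀ i j, Measurable fun ω => Q ω i j) ∧
      (∀ ω, Q ω * (Q ω)ᵀ = 1) ∧
      ∀ y u : β → ℝ, ∫ ω, Real.exp ((Q ω *ᵥ y) ⬝ᵥ u) ∂P ≤
        Real.exp (nsq y * nsq u / (2 * Fintype.card β)) := by
  let _ : MeasurableSpace (Matrix.orthogonalGroup β ℝ) := borel _
  have _ : BorelSpace (Matrix.orthogonalGroup β ℝ) := ⟨rfl⟩
  set K : TopologicalSpace.PositiveCompacts (Matrix.orthogonalGroup β ℝ) := ⊤ with hK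
  set P : Measure (Matrix.orthogonalGroup β ℝ) := Measure.haarMeasure K with hP
  have hPu : P Set.univ = 1 := by
    have := Measure.haarMeasure_self (K₀ := K)
    simpa [hK] using this
  have _ : IsProbabilityMeasure P := ⟨hPu⟩
  have hcont : ∀ i j, Continuous fun ω : Matrix.orthogonalGroup β ℝ => (ω : Matrix β β ℝ) i j :=
    fun i j => continuous_subtype_val.matrix_elem i j
  refine ⟨_, inferInstance, P, inferInstance, fun ω => (ω : Matrix β β ℝ), ?_, ?_, ?_⟩
  · exact fun i j => (hcont i j).measurable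
  · intro ω
    have := (Matrix.mem_orthogonalGroup_iff β ℝ).1 ω.2
    exact this
  · intro y u
    have hcontF : ∀ v : β → ℝ, Continuous fun ω : Matrix.orthogonalGroup β ℝ =>
        Real.exp (((ω : Matrix β β ℝ) *ᵥ y) ⬝ᵥ v) := by
      intro v
      refine Real.continuous_exp.comp ?_
      refine Continuous.dotProduct ?_ continuous_const
      exact Continuous.matrix_mulVec continuous_subtype_val continuous_const
    have hint : ∀ v : β → ℝ, Integrable (fun ω : Matrix.orthogonalGroup β ℝ =>
        Real.exp (((ω : Matrix β β ℝ) *ᵥ y) ⬝ᵥ v)) P :=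
      fun v => (hcontF v).integrable_of_hasCompactSupport (HasCompactSupport.of_compactSpace _)
    -- invariance
    have hinv : ∀ v : β → ℝ, nsq u = nsq v →
        ∫ ω, Real.exp (((ω : Matrix β β ℝ) *ᵥ y) ⬝ᵥ u) ∂P =
          ∫ ω, Real.exp (((ω : Matrix β β ℝ) *ᵥ y) ⬝ᵥ v) ∂P := by
      intro v hv
      obtain ⟨R, hR, hRu⟩ := exists_reflection u v hv
      have h1 := integral_mul_left_eq_self (μ := P)
        (fun ω : Matrix.orthogonalGroup β ℝ => Real.exp (((ω : Matrix β β ℝ) *ᵥ y) ⬝ᵥ u)) ⟨R, hR⟩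
      rw [← h1]
      refine integral_congr_ae (Filter.Eventually.of_forall fun ω => ?_)
      simp only [Submonoid.coe_mul]
      congr 1
      rw [← mulVec_mulVec, ← hRu, dotProduct_mulVec, vecMul_transpose]
    set B : ℝ := ((Fintype.card β : ℕ) : ℝ) with hB
    have hBpos : 0 < B := by rw [hB]; exact_mod_cast Fintype.card_pos
    set r : ℝ := Real.sqrt (nsq u / B) with hr
    have hnu : 0 ≤ nsq u := Finset.sum_nonneg fun i _ => sq_nonneg _
    have hr2 : r ^ 2 = nsq u / B := Real.sq_sqrt (div_nonneg hnu hBpos.le)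
    set s : (β → Bool) → (β → ℝ) := fun ε i => if ε i then r else -r with hs
    have hns : ∀ ε, nsq u = nsq (s ε) := by
      intro ε
      have : ∀ i, s ε i ^ 2 = r ^ 2 := by
        intro i; simp only [hs]; split_ifs <;> ring
      simp only [nsq, this, sum_const, card_univ, nsmul_eq_mul]
      rw [hr2, ← hB]
      simp only [nsq]
      field_simp
    set M : ℝ := ((Fintype.card (β → Bool) : ℕ) : ℝ) with hM
    have hMval : M = ∏ _i : β, (2 : ℝ) := by
      rw [hM]; simp
    have hMpos : 0 < M := by rw [hMval]; positivity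
    have hsum : M * ∫ ω, Real.exp (((ω : Matrix β β ℝ) *ᵥ y) ⬝ᵥ u) ∂P =
        ∫ ω, ∑ ε : β → Bool, Real.exp (((ω : Matrix β β ℝ) *ᵥ y) ⬝ᵥ s ε) ∂P := by
      rw [integral_finset_sum _ fun ε _ => hint (s ε)]
      rw [← Finset.sum_congr rfl fun ε _ => hinv (s ε) (hns ε)]
      simp [hM]
    have hbound : ∀ ω : Matrix.orthogonalGroup β ℝ,
        ∑ ε : β → Bool, Real.exp (((ω : Matrix β β ℝ) *ᵥ y) ⬝ᵥ s ε) ≤
          M * Real.exp (nsq y * nsq u / (2 * B)) := by
      intro ω
      set v : β → ℝ := (ω : Matrix β β ℝ) *ᵥ y with hv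
      have hvn : nsq v = nsq y := by
        have h1 : nsq v = v ⬝ᵥ v := by simp [nsq, dotProduct, pow_two]
        have h2 : nsq y = y ⬝ᵥ y := by simp [nsq, dotProduct, pow_two]
        have h3 : (ω : Matrix β β ℝ)ᵀ * (ω : Matrix β β ℝ) = 1 := by
          have := (Matrix.mem_orthogonalGroup_iff' β ℝ).1 ω.2
          exact this
        rw [h1, h2, hv, dotProduct_mulVec, ← mulVec_transpose, mulVec_mulVec, h3, one_mulVec]
      have h4 : ∀ ε : β → Bool, v ⬝ᵥ s ε = ∑ i, (if ε i then v i * r else -(v i * r)) := by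
        intro ε
        simp only [dotProduct, hs]
        refine sum_congr rfl fun i _ => ?_
        split_ifs <;> ring
      simp_rw [h4]
      rw [sum_signs_exp (fun i => v i * r), prod_mul_distrib, ← hMval]
      refine mul_le_mul_of_nonneg_left ?_ hMpos.le
      calc ∏ i, Real.cosh (v i * r) ≤ ∏ i, Real.exp ((v i * r) ^ 2 / 2) :=
            prod_le_prod (fun i _ => (Real.cosh_pos _).le)
              fun i _ => Real.cosh_le_exp_half_sq _
        _ = Real.exp (∑ i, (v i * r) ^ 2 / 2) := (Real.exp_sum _ _).symm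
        _ = Real.exp (nsq y * nsq u / (2 * B)) := by
            congr 1
            rw [← hvn]
            have : ∑ i, (v i * r) ^ 2 / 2 = (∑ i, v i ^ 2) * (r ^ 2 / 2) := by
              rw [Finset.sum_mul]
              exact sum_congr rfl fun i _ => by ring
            rw [this, hr2]
            simp only [nsq]
            ring
    have hfin : M * ∫ ω, Real.exp (((ω : Matrix β β ℝ) *ᵥ y) ⬝ᵥ u) ∂P ≤
        M * Real.exp (nsq y * nsq u / (2 * B)) := by
      rw [hsum]
      calc ∫ ω, ∑ ε : β → Bool, Real.exp (((ω : Matrix β β ℝ) *ᵥ y) ⬝ᵥ s ε) ∂P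
          ≤ ∫ _ω, M * Real.exp (nsq y * nsq u / (2 * B)) ∂P := by
            refine integral_mono (integrable_finset_sum _ fun ε _ => hint (s ε))
              (integrable_const _) hbound
        _ = M * Real.exp (nsq y * nsq u / (2 * B)) := by simp
    exact le_of_mul_le_mul_left hfin hMpos

end haar

end Pool.Agent.MP_72d76c_lc
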