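import Pool.Agent.MP_72d76c_lc.Defs

/-!
# Sanity lemmas for the definitions of MP_72d76c_lc

The infimum in the definition of `sigma` is a minimum.
-/

namespace Pool.Agent.MP_72d76c_lc

open Finset

open Classical in
/-- The best `k`-term error `sigma k x` is attained: the infimum in its definition is a
minimum. -/
theorem sigma_isLeast {ι : Type*} [Fintype ι] (k : ℕ) (x : ι → ℝ) :
    IsLeast {t : ℝ | ∃ x' : ι → ℝ, nnz x' ≤ k ∧ t = l1 (x - x')} (sigma k x) := by
  -- the finite set of restriction errors
  set V : Finset (Finset ι) := univ.filter (fun S : Finset ι => S.card ≤ k) with hV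
  have hVne : V.Nonempty := ⟨∅, by simp [hV]⟩
  obtain ⟨S, hS, hmin⟩ := V.exists_min_image (fun S => ∑ i ∈ Sᶜ, |x i|) hVne
  have hSk : S.card ≤ k := by simpa [hV] using hS
  have key : IsLeast {t : ℝ | ∃ x' : ι → ℝ, nnz x' ≤ k ∧ t = l1 (x - x')}
      (∑ i ∈ Sᶜ, |x i|) := by
    constructor
    · refine ⟨fun i => if i ∈ S then x i else 0, ?_, ?_⟩
      · refine le_trans (card_le_card ?_) hSk
        intro i hi
        rw [mem_filter] at hi
        by_contra hiS
        exact hi.2 (by simp [hiS])
      · unfold l1
        rw [← sum_add_sum_compl S]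
        have h1 : ∑ i ∈ S, |(x - fun i => if i ∈ S then x i else 0) i| = 0 :=
          sum_eq_zero fun i hi => by simp [hi]
        have h2 : ∑ i ∈ Sᶜ, |(x - fun i => if i ∈ S then x i else 0) i| = ∑ i ∈ Sᶜ, |x i| :=
          sum_congr rfl fun i hi => by
            have : i ∉ S := by simpa using hi
            simp [this]
        rw [h1, h2, zero_add]
    · rintro t ⟨x', hx', rfl⟩
      set S' : Finset ι := univ.filter (fun i => x' i ≠ 0) with hS'
      have h0 : S' ∈ V := by
        rw [hV, mem_filter]
        exact ⟨mem_univ _, hx'⟩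
      refine le_trans (hmin S' h0) ?_
      unfold l1
      rw [← sum_add_sum_compl S' (fun i => |(x - x') i|)]
      have h1 : 0 ≤ ∑ i ∈ S', |(x - x') i| := sum_nonneg fun i _ => abs_nonneg _
      have h2 : ∑ i ∈ S'ᶜ, |(x - x') i| = ∑ i ∈ S'ᶜ, |x i| :=
        sum_congr rfl fun i hi => by
          have : x' i = 0 := by
            by_contra hne
            exact (mem_compl.mp hi) (by simp [hS', hne])
          simp [this]
      linarith
  unfold sigma
  rw [key.csInf_eq]
  exact key

end Pool.Agent.MP_72d76c_lc
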