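import Pool.Agent.MP_72d76c_lc.Defs

/-!
# T6: weak uncertainty principle by chaining
-/

namespace Pool.Agent.MP_72d76c_lc

open Finset Matrix

namespace T6

/-- Hoeffding's lemma for a finite distribution, with a non-optimal constant. -/
lemma hoeffding_fin {α : Type*} [Fintype α] (p z : α → ℝ) (hp : ∀ a, 0 ≤ p a)
    (hs : ∑ a, p a = 1) {b : ℝ} (hz : ∀ a, |z a| ≤ b) (μ : ℝ) :
    ∑ a, p a * Real.exp (μ * (z a - ∑ a', p a' * z a')) ≤ Real.exp (2 * μ ^ 2 * b ^ 2) := by
  set m : ℝ := ∑ a', p a' * z a' with hm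
  have hJ : Real.exp (-(μ * m)) ≤ ∑ a', p a' * Real.exp (-(μ * z a')) := by
    have h := convexOn_exp.map_sum_le (t := (univ : Finset α)) (w := p)
      (p := fun a => -(μ * z a)) (fun a _ => hp a) hs (fun a _ => Set.mem_univ _)
    simp only [smul_eq_mul] at h
    have h2 : ∑ a, p a * -(μ * z a) = -(μ * m) := by
      rw [hm, Finset.mul_sum, ← Finset.sum_neg_distrib]
      exact Finset.sum_congr rfl (fun a _ => by ring)
    rwa [h2] at h
  have h1 : ∑ a, p a * Real.exp (μ * (z a - m)) ≤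
      ∑ a, ∑ a', p a * p a' * Real.exp (μ * (z a - z a')) := by
    refine Finset.sum_le_sum (fun a _ => ?_)
    have e1 : Real.exp (μ * (z a - m)) = Real.exp (μ * z a) * Real.exp (-(μ * m)) := by
      rw [← Real.exp_add]; congr 1; ring
    rw [e1]
    calc p a * (Real.exp (μ * z a) * Real.exp (-(μ * m)))
        ≤ p a * (Real.exp (μ * z a) * ∑ a', p a' * Real.exp (-(μ * z a'))) := by
          apply mul_le_mul_of_nonneg_left _ (hp a)
          exact mul_le_mul_of_nonneg_left hJ (Real.exp_pos _).le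
      _ = _ := by
          rw [Finset.mul_sum, Finset.mul_sum]
          refine Finset.sum_congr rfl (fun a' _ => ?_)
          have : Real.exp (μ * (z a - z a')) = Real.exp (μ * z a) * Real.exp (-(μ * z a')) := by
            rw [← Real.exp_add]; congr 1; ring
          rw [this]; ring
  have h2 : ∑ a, ∑ a', p a * p a' * Real.exp (μ * (z a - z a')) =
      ∑ a, ∑ a', p a * p a' * Real.exp (-(μ * (z a - z a'))) := by
    rw [Finset.sum_comm]
    refine Finset.sum_congr rfl (fun a _ => Finset.sum_congr rfl (fun a' _ => ?_))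
    rw [mul_comm (p a') (p a)]
    congr 2; ring
  have h3 : ∑ a, ∑ a', p a * p a' * Real.exp (μ * (z a - z a')) =
      ∑ a, ∑ a', p a * p a' * Real.cosh (μ * (z a - z a')) := by
    have : 2 * ∑ a, ∑ a', p a * p a' * Real.exp (μ * (z a - z a')) =
        2 * ∑ a, ∑ a', p a * p a' * Real.cosh (μ * (z a - z a')) := by
      conv_lhs => rw [two_mul]
      nth_rw 2 [h2]
      rw [← Finset.sum_add_distrib, Finset.mul_sum]
      refine Finset.sum_congr rfl (fun a _ => ?_)
      rw [← Finset.sum_add_distrib, Finset.mul_sum]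
      refine Finset.sum_congr rfl (fun a' _ => ?_)
      rw [Real.cosh_eq]; ring
    linarith
  have h4 : ∑ a, ∑ a', p a * p a' * Real.cosh (μ * (z a - z a')) ≤
      ∑ a, ∑ a', p a * p a' * Real.exp (2 * μ ^ 2 * b ^ 2) := by
    refine Finset.sum_le_sum (fun a _ => Finset.sum_le_sum (fun a' _ => ?_))
    apply mul_le_mul_of_nonneg_left _ (mul_nonneg (hp a) (hp a'))
    refine (Real.cosh_le_exp_half_sq _).trans (Real.exp_le_exp.mpr ?_)
    have hab : |z a - z a'| ≤ 2 * b := by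
      have := abs_sub (z a) (z a')
      have h1 := hz a
      have h2 := hz a'
      calc |z a - z a'| ≤ |z a| + |z a'| := by
            exact abs_sub _ _
        _ ≤ 2 * b := by linarith
    have hsq : (z a - z a') ^ 2 ≤ (2 * b) ^ 2 := by
      rw [← sq_abs (z a - z a')]
      exact pow_le_pow_left₀ (abs_nonneg _) hab 2
    have : (μ * (z a - z a')) ^ 2 ≤ μ ^ 2 * (2 * b) ^ 2 := by
      rw [mul_pow]
      exact mul_le_mul_of_nonneg_left hsq (sq_nonneg _)
    nlinarith [this]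
  have h5 : ∑ a, ∑ a', p a * p a' * Real.exp (2 * μ ^ 2 * b ^ 2) =
      Real.exp (2 * μ ^ 2 * b ^ 2) := by
    simp_rw [← Finset.sum_mul, ← Finset.mul_sum]
    rw [hs]; simp [hs]
  calc _ ≤ _ := h1
    _ = _ := h3
    _ ≤ _ := h4
    _ = _ := h5

/-- A weighted average is at least one of the values. -/
lemma exists_le_wavg {α : Type*} [Fintype α] (p g : α → ℝ) (hp : ∀ a, 0 ≤ p a)
    (hs : ∑ a, p a = 1) {C : ℝ} (hg : ∑ a, p a * g a ≤ C) : ∃ a, g a ≤ C := by
  by_contra hcon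
  push Not at hcon
  have h1 : ∑ a, p a * C ≤ ∑ a, p a * g a :=
    Finset.sum_le_sum (fun a _ => mul_le_mul_of_nonneg_left (hcon a).le (hp a))
  rw [← Finset.sum_mul, hs, one_mul] at h1
  have heq : ∑ a, p a * (g a - C) = 0 := by
    simp_rw [mul_sub]
    rw [Finset.sum_sub_distrib, ← Finset.sum_mul, hs]
    linarith
  have hz := (Finset.sum_eq_zero_iff_of_nonneg (fun a _ =>
    mul_nonneg (hp a) (sub_nonneg.mpr (hcon a).le))).mp heq
  have hp0 : ∀ a, p a = 0 := by
    intro a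
    have := hz a (mem_univ a)
    rcases mul_eq_zero.mp this with h | h
    · exact h
    · exact absurd h (ne_of_gt (sub_pos.mpr (hcon a)))
  simp [hp0] at hs

/-- Potential function of the Maurey process. -/
noncomputable def pot {ι : Type*} [Fintype ι] (μ : ℝ) (S : ι → ℝ) : ℝ :=
  ∑ i, (Real.exp (μ * S i) + Real.exp (-μ * S i))

lemma pot_step {α ι : Type*} [Fintype α] [Fintype ι] (p : α → ℝ) (hp : ∀ a, 0 ≤ p a)
    (hs : ∑ a, p a = 1) (Y : α → ι → ℝ) {b : ℝ} (hY : ∀ a i, |Y a i| ≤ b) (μ : ℝ)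
    (S : ι → ℝ) : ∃ a, pot μ (fun i => (Y a i - ∑ a', p a' * Y a' i) + S i) ≤
      Real.exp (2 * μ ^ 2 * b ^ 2) * pot μ S := by
  apply exists_le_wavg p _ hp hs
  unfold pot
  simp_rw [Finset.mul_sum (s := (univ : Finset ι))]
  rw [Finset.sum_comm]
  refine Finset.sum_le_sum (fun i _ => ?_)
  have h1 := hoeffding_fin p (fun a => Y a i) hp hs (fun a => hY a i) μ
  have h2 := hoeffding_fin p (fun a => Y a i) hp hs (fun a => hY a i) (-μ)
  have e2 : (-μ) ^ 2 = μ ^ 2 := by ring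
  rw [e2] at h2
  have e3 : ∑ a, p a * (Real.exp (μ * (Y a i - ∑ a', p a' * Y a' i + S i)) +
      Real.exp (-μ * (Y a i - ∑ a', p a' * Y a' i + S i))) =
      Real.exp (μ * S i) * (∑ a, p a * Real.exp (μ * (Y a i - ∑ a', p a' * Y a' i))) +
      Real.exp (-μ * S i) *
        (∑ a, p a * Real.exp (-μ * (Y a i - ∑ a', p a' * Y a' i))) := by
    rw [Finset.mul_sum, Finset.mul_sum, ← Finset.sum_add_distrib]
    refine Finset.sum_congr rfl (fun a _ => ?_)
    rw [mul_add μ, mul_add (-μ), Real.exp_add, Real.exp_add]; ring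
  rw [e3, mul_add]
  have p1 := Real.exp_pos (μ * S i)
  have p2 := Real.exp_pos (-μ * S i)
  calc _ ≤ Real.exp (μ * S i) * Real.exp (2 * μ ^ 2 * b ^ 2) +
        Real.exp (-μ * S i) * Real.exp (2 * μ ^ 2 * b ^ 2) := by
        exact add_le_add (mul_le_mul_of_nonneg_left h1 p1.le)
          (mul_le_mul_of_nonneg_left h2 p2.le)
    _ = _ := by ring

lemma maurey_pot {α ι : Type*} [Fintype α] [Fintype ι] (p : α → ℝ) (hp : ∀ a, 0 ≤ p a)
    (hs : ∑ a, p a = 1) (Y : α → ι → ℝ) {b : ℝ} (hY : ∀ a i, |Y a i| ≤ b) (μ : ℝ) (q : ℕ) :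
    ∃ f : Fin q → α, pot μ (fun i => ∑ k, (Y (f k) i - ∑ a, p a * Y a i)) ≤
      2 * Fintype.card ι * Real.exp (2 * μ ^ 2 * b ^ 2) ^ q := by
  induction q with
  | zero =>
    refine ⟨fun k => k.elim0, ?_⟩
    simp [pot, mul_comm]
    linarith
  | succ q ih =>
    obtain ⟨f, hf⟩ := ih
    obtain ⟨a, ha⟩ := pot_step p hp hs Y hY μ (fun i => ∑ k, (Y (f k) i - ∑ a, p a * Y a i))
    refine ⟨Fin.cons a f, ?_⟩
    simp only [Fin.sum_univ_succ, Fin.cons_zero, Fin.cons_succ]
    calc _ ≤ _ := ha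
      _ ≤ Real.exp (2 * μ ^ 2 * b ^ 2) *
          (2 * Fintype.card ι * Real.exp (2 * μ ^ 2 * b ^ 2) ^ q) :=
        mul_le_mul_of_nonneg_left hf (Real.exp_pos _).le
      _ = _ := by ring

/-- Maurey's empirical method in the sup norm. -/
lemma maurey {α ι : Type*} [Fintype α] [Fintype ι] [Nonempty ι] (p : α → ℝ)
    (hp : ∀ a, 0 ≤ p a) (hs : ∑ a, p a = 1) (Y : α → ι → ℝ) {b : ℝ} (hb : 0 < b)
    (hY : ∀ a i, |Y a i| ≤ b) (q : ℕ) (t : ℝ) (ht : 0 < t)
    (htq : t ^ 2 * q = 8 * b ^ 2 * Real.log (2 * Fintype.card ι)) :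
    ∃ f : Fin q → α, ∀ i, |∑ k, Y (f k) i - q * ∑ a, p a * Y a i| ≤ q * t := by
  set L : ℝ := Real.log (2 * Fintype.card ι) with hL
  have hN : (0 : ℝ) < 2 * Fintype.card ι := by
    have : 0 < Fintype.card ι := Fintype.card_pos
    positivity
  set μ : ℝ := t / (4 * b ^ 2) with hμ
  have hμ0 : 0 < μ := by positivity
  have hb2 : b ^ 2 ≠ 0 := by positivity
  have e1 : 2 * μ ^ 2 * b ^ 2 * q = L := by
    have : 2 * μ ^ 2 * b ^ 2 * q = (t ^ 2 * q) / (8 * b ^ 2) := by
      rw [hμ]; field_simp; ring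
    rw [this, htq]; field_simp
  have e2 : μ * (q * t) = 2 * L := by
    have : μ * (q * t) = (t ^ 2 * q) / (4 * b ^ 2) := by
      rw [hμ]; field_simp
    rw [this, htq]; field_simp; ring
  obtain ⟨f, hf⟩ := maurey_pot p hp hs Y hY μ q
  refine ⟨f, fun i => ?_⟩
  set S : ι → ℝ := fun i => ∑ k, (Y (f k) i - ∑ a, p a * Y a i) with hS
  have hSi : ∑ k, Y (f k) i - q * ∑ a, p a * Y a i = S i := by
    simp [hS, Finset.sum_sub_distrib]
  rw [hSi]
  have hle : 2 * (Fintype.card ι : ℝ) * Real.exp (2 * μ ^ 2 * b ^ 2) ^ q = Real.exp (2 * L) := by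
    rw [← Real.exp_nat_mul, two_mul L, Real.exp_add]
    have : (q : ℝ) * (2 * μ ^ 2 * b ^ 2) = L := by rw [← e1]; ring
    rw [this]
    congr 1
    rw [hL, Real.exp_log hN]
  rw [hle] at hf
  have hterm : Real.exp (μ * S i) + Real.exp (-μ * S i) ≤ Real.exp (2 * L) := by
    refine le_trans ?_ hf
    unfold pot
    exact Finset.single_le_sum (f := fun i => Real.exp (μ * S i) + Real.exp (-μ * S i))
      (fun j _ => add_nonneg (Real.exp_pos _).le (Real.exp_pos _).le) (mem_univ i)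
  have h1 : μ * S i ≤ 2 * L := by
    apply Real.exp_le_exp.mp
    have := Real.exp_pos (-μ * S i)
    linarith
  have h2 : -μ * S i ≤ 2 * L := by
    apply Real.exp_le_exp.mp
    have := Real.exp_pos (μ * S i)
    linarith
  rw [← e2] at h1 h2
  rw [abs_le]
  constructor
  · have : μ * (-(S i)) ≤ μ * (q * t) := by linarith
    have := le_of_mul_le_mul_left this hμ0
    linarith
  · exact le_of_mul_le_mul_left h1 hμ0

/-- The exponential moments of a Rademacher sum. -/
lemma sum_signs_exp {ι : Type*} [Fintype ι] [DecidableEq ι] (a : ι → ℝ) (μ : ℝ) :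
    ∑ e : ι → Bool, Real.exp (μ * ∑ i, (if e i then (1 : ℝ) else -1) * a i) ≤
      2 ^ Fintype.card ι * Real.exp (μ ^ 2 * (∑ i, a i ^ 2) / 2) := by
  have h1 : ∀ e : ι → Bool, Real.exp (μ * ∑ i, (if e i then (1 : ℝ) else -1) * a i) =
      ∏ i, Real.exp (μ * ((if e i then (1 : ℝ) else -1) * a i)) := by
    intro e
    rw [Finset.mul_sum, Real.exp_sum]
  simp_rw [h1]
  have h2 : ∑ e : ι → Bool, ∏ i, Real.exp (μ * ((if e i then (1 : ℝ) else -1) * a i)) =
      ∏ i, ∑ c : Bool, Real.exp (μ * ((if c then (1 : ℝ) else -1) * a i)) := by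
    rw [Finset.prod_univ_sum, Fintype.piFinset_univ]
  rw [h2]
  have h3 : ∀ i, ∑ c : Bool, Real.exp (μ * ((if c then (1 : ℝ) else -1) * a i)) ≤
      2 * Real.exp (μ ^ 2 * a i ^ 2 / 2) := by
    intro i
    have hc := Real.cosh_le_exp_half_sq (μ * a i)
    rw [Real.cosh_eq] at hc
    simp only [Fintype.sum_bool, if_true, Bool.false_eq_true, if_false]
    have e1 : μ * (1 * a i) = μ * a i := by ring
    have e2 : μ * (-1 * a i) = -(μ * a i) := by ring
    have e3 : μ ^ 2 * a i ^ 2 / 2 = (μ * a i) ^ 2 / 2 := by ring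
    rw [e1, e2, e3]
    linarith
  calc ∏ i, ∑ c : Bool, Real.exp (μ * ((if c then (1 : ℝ) else -1) * a i))
      ≤ ∏ i, (2 * Real.exp (μ ^ 2 * a i ^ 2 / 2)) := by
        refine Finset.prod_le_prod (fun i _ => ?_) (fun i _ => h3 i)
        exact Finset.sum_nonneg (fun c _ => (Real.exp_pos _).le)
    _ = _ := by
        rw [Finset.prod_mul_distrib, ← Real.exp_sum]
        simp only [Finset.prod_const, Finset.card_univ]
        congr 2
        rw [Finset.mul_sum, Finset.sum_div]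

/-- Existence of signs by the union bound, levels indexed by `j < J`. -/
lemma exists_signs {ι K : Type*} [Fintype ι] [DecidableEq ι] (J : ℕ) (S : ℕ → Finset K)
    (a : K → ι → ℝ) (v : ℕ → ℝ) (hv : ∀ j, 0 < v j)
    (hav : ∀ j < J, ∀ k ∈ S j, ∑ i, a k i ^ 2 ≤ v j) (l : ℝ) (hl : 0 ≤ l)
    (hsum : ∑ j ∈ range J, ((S j).card : ℝ) * (2 * Real.exp (-(l ^ 2 / (2 * v j)))) < 1) :
    ∃ ε : ι → ℝ, (∀ i, ε i = 1 ∨ ε i = -1) ∧
      ∀ j < J, ∀ k ∈ S j, |∑ i, ε i * a k i| ≤ l := by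
  set W : (ι → Bool) → ℝ := fun e => ∑ j ∈ range J, ∑ k ∈ S j,
    (Real.exp (l / v j * ∑ i, (if e i then (1 : ℝ) else -1) * a k i) +
      Real.exp (-(l / v j) * ∑ i, (if e i then (1 : ℝ) else -1) * a k i)) *
      Real.exp (-(l / v j * l)) with hW
  have hWsum : ∑ e, W e ≤ 2 ^ Fintype.card ι *
      ∑ j ∈ range J, ((S j).card : ℝ) * (2 * Real.exp (-(l ^ 2 / (2 * v j)))) := by
    rw [hW]
    rw [Finset.sum_comm, Finset.mul_sum]
    refine Finset.sum_le_sum (fun j hj => ?_)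
    rw [Finset.sum_comm]
    have hk : ∀ k ∈ S j, ∑ e : ι → Bool,
        (Real.exp (l / v j * ∑ i, (if e i then (1 : ℝ) else -1) * a k i) +
        Real.exp (-(l / v j) * ∑ i, (if e i then (1 : ℝ) else -1) * a k i)) *
        Real.exp (-(l / v j * l)) ≤ 2 ^ Fintype.card ι *
          (2 * Real.exp (-(l ^ 2 / (2 * v j)))) := by
      intro k hk
      rw [← Finset.sum_mul, Finset.sum_add_distrib]
      have h1 := sum_signs_exp (a k) (l / v j)
      have h2 := sum_signs_exp (a k) (-(l / v j))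
      rw [neg_sq] at h2
      have hle : (l / v j) ^ 2 * (∑ i, a k i ^ 2) / 2 ≤ l ^ 2 / (2 * v j) := by
        have hvj := hv j
        have := hav j (mem_range.mp hj) k hk
        calc (l / v j) ^ 2 * (∑ i, a k i ^ 2) / 2 ≤ (l / v j) ^ 2 * v j / 2 := by
              have : (l / v j) ^ 2 * (∑ i, a k i ^ 2) ≤ (l / v j) ^ 2 * v j :=
                mul_le_mul_of_nonneg_left this (sq_nonneg _)
              linarith
          _ = l ^ 2 / (2 * v j) := by field_simp
      have h3 : (∑ e : ι → Bool,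
          Real.exp (l / v j * ∑ i, (if e i then (1 : ℝ) else -1) * a k i) +
          ∑ e : ι → Bool,
          Real.exp (-(l / v j) * ∑ i, (if e i then (1 : ℝ) else -1) * a k i)) ≤
          2 ^ Fintype.card ι * (2 * Real.exp (l ^ 2 / (2 * v j))) := by
        have h4 := Real.exp_le_exp.mpr hle
        have h5 : (0 : ℝ) < 2 ^ Fintype.card ι := by positivity
        have h6 := mul_le_mul_of_nonneg_left h4 h5.le
        linarith
      calc _ ≤ 2 ^ Fintype.card ι * (2 * Real.exp (l ^ 2 / (2 * v j))) *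
            Real.exp (-(l / v j * l)) :=
            mul_le_mul_of_nonneg_right h3 (Real.exp_pos _).le
        _ = _ := by
            have hvj := hv j
            rw [mul_assoc, mul_assoc, ← Real.exp_add]
            congr 3
            field_simp
            ring
    calc _ ≤ ∑ k ∈ S j, 2 ^ Fintype.card ι * (2 * Real.exp (-(l ^ 2 / (2 * v j)))) :=
          Finset.sum_le_sum hk
      _ = _ := by rw [Finset.sum_const, nsmul_eq_mul]; ring
  have hex : ∃ e, W e < 1 := by
    by_contra hcon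
    push Not at hcon
    have h1 : ∑ e : ι → Bool, (1 : ℝ) ≤ ∑ e, W e := Finset.sum_le_sum (fun e _ => hcon e)
    have h2 : ∑ e : ι → Bool, (1 : ℝ) = 2 ^ Fintype.card ι := by simp
    rw [h2] at h1
    have h3 : (0 : ℝ) < 2 ^ Fintype.card ι := by positivity
    have h4 := mul_lt_mul_of_pos_left hsum h3
    linarith
  obtain ⟨e, he⟩ := hex
  refine ⟨fun i => if e i then 1 else -1, fun i => by by_cases h : e i <;> simp [h],
    fun j hj k hk => ?_⟩
  set X : ℝ := ∑ i, (if e i then (1 : ℝ) else -1) * a k i with hX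
  have hterm : (Real.exp (l / v j * X) + Real.exp (-(l / v j) * X)) *
      Real.exp (-(l / v j * l)) < 1 := by
    refine lt_of_le_of_lt ?_ he
    rw [hW]
    have hnn : ∀ j k, 0 ≤ (Real.exp (l / v j * ∑ i, (if e i then (1 : ℝ) else -1) * a k i) +
      Real.exp (-(l / v j) * ∑ i, (if e i then (1 : ℝ) else -1) * a k i)) *
      Real.exp (-(l / v j * l)) := fun j k => by positivity
    calc _ ≤ ∑ k ∈ S j,
        (Real.exp (l / v j * ∑ i, (if e i then (1 : ℝ) else -1) * a k i) +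
        Real.exp (-(l / v j) * ∑ i, (if e i then (1 : ℝ) else -1) * a k i)) *
        Real.exp (-(l / v j * l)) :=
          Finset.single_le_sum (f := fun k =>
            (Real.exp (l / v j * ∑ i, (if e i then (1 : ℝ) else -1) * a k i) +
            Real.exp (-(l / v j) * ∑ i, (if e i then (1 : ℝ) else -1) * a k i)) *
            Real.exp (-(l / v j * l))) (fun k _ => hnn j k) hk
      _ ≤ _ := Finset.single_le_sum (f := fun j => ∑ k ∈ S j,
            (Real.exp (l / v j * ∑ i, (if e i then (1 : ℝ) else -1) * a k i) +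
            Real.exp (-(l / v j) * ∑ i, (if e i then (1 : ℝ) else -1) * a k i)) *
            Real.exp (-(l / v j * l))) (fun j _ => Finset.sum_nonneg (fun k _ => hnn j k))
            (mem_range.mpr hj)
  by_contra hcon
  push Not at hcon
  have hvj := hv j
  have hlv : 0 ≤ l / v j := div_nonneg hl hvj.le
  have h1 : 1 ≤ Real.exp (l / v j * X) * Real.exp (-(l / v j * l)) ∨
      1 ≤ Real.exp (-(l / v j) * X) * Real.exp (-(l / v j * l)) := by
    rcases lt_abs.mp hcon with h | h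
    · left
      rw [← Real.exp_add]
      apply Real.one_le_exp
      have := mul_le_mul_of_nonneg_left h.le hlv
      linarith
    · right
      rw [← Real.exp_add]
      apply Real.one_le_exp
      have := mul_le_mul_of_nonneg_left h.le hlv
      linarith
  have p1 : 0 < Real.exp (l / v j * X) * Real.exp (-(l / v j * l)) := by positivity
  have p2 : 0 < Real.exp (-(l / v j) * X) * Real.exp (-(l / v j * l)) := by positivity
  rw [add_mul] at hterm
  rcases h1 with h | h <;> linarith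

/-- Membership in the set of `s`-sparse vectors of the unit ball. -/
def InT {ι : Type*} [Fintype ι] (s : ℕ) (x : ι → ℝ) : Prop := nsq x ≤ 1 ∧ nnz x ≤ s

lemma inT_zero {ι : Type*} [Fintype ι] (s : ℕ) : InT s (0 : ι → ℝ) := by
  constructor
  · simp [nsq]
  · simp [nnz]

lemma l1_le {ι : Type*} [Fintype ι] {s : ℕ} {x : ι → ℝ} (hx : InT s x) :
    ∑ i, |x i| ≤ Real.sqrt s := by
  classical
  apply Real.le_sqrt_of_sq_le
  have h1 : ∑ i, |x i| = ∑ i ∈ univ.filter (fun i => x i ≠ 0), |x i| * 1 := by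
    rw [Finset.sum_filter]
    refine Finset.sum_congr rfl (fun i _ => ?_)
    by_cases h : x i = 0 <;> simp [h]
  rw [h1]
  refine (Finset.sum_mul_sq_le_sq_mul_sq _ _ _).trans ?_
  have h2 : ∑ i ∈ univ.filter (fun i => x i ≠ 0), |x i| ^ 2 ≤ 1 := by
    refine le_trans ?_ hx.1
    unfold nsq
    simp_rw [sq_abs]
    exact Finset.sum_le_sum_of_subset_of_nonneg (Finset.filter_subset _ _)
      (fun i _ _ => sq_nonneg _)
  have h3 : ∑ i ∈ univ.filter (fun i => x i ≠ 0), (1 : ℝ) ^ 2 ≤ s := by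
    simp only [one_pow, Finset.sum_const, nsmul_eq_mul, mul_one]
    have := hx.2
    unfold nnz at this
    exact_mod_cast (by convert this)
  have h4 : 0 ≤ ∑ i ∈ univ.filter (fun i => x i ≠ 0), |x i| ^ 2 :=
    Finset.sum_nonneg (fun i _ => sq_nonneg _)
  calc _ ≤ 1 * (s : ℝ) := mul_le_mul h2 h3 (Finset.sum_nonneg (fun i _ => sq_nonneg _)) zero_le_one
    _ = s := one_mul _

/-- The net. -/
lemma exists_net {ι : Type*} [Fintype ι] [DecidableEq ι] [Nonempty ι] (H : Matrix ι ι ℝ)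
    {b : ℝ} (hb : 0 < b) (s : ℕ) (hs : 1 ≤ s) (hH : ∀ i j, Real.sqrt s * |H i j| ≤ b)
    (q : ℕ) (hq : 1 ≤ q) (t : ℝ) (ht : 0 < t)
    (htq : t ^ 2 * q = 8 * b ^ 2 * Real.log (2 * Fintype.card ι)) :
    ∃ T : Finset (ι → ℝ), T.card ≤ (2 * Fintype.card ι) ^ q ∧ (∀ x ∈ T, InT s x) ∧
      ∀ x, InT s x → ∃ x' ∈ T, ∀ i, |(H *ᵥ x) i - (H *ᵥ x') i| ≤ 2 * t := by
  classical
  set Y : ι × Bool → ι → ℝ := fun a i => (if a.2 then Real.sqrt s else -Real.sqrt s) * H i a.1
    with hYdef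
  have hY : ∀ a i, |Y a i| ≤ b := by
    intro a i
    rw [hYdef]
    simp only [abs_mul]
    have : |if a.2 = true then Real.sqrt s else -Real.sqrt s| = Real.sqrt s := by
      split_ifs
      · exact abs_of_nonneg (Real.sqrt_nonneg _)
      · rw [abs_neg]; exact abs_of_nonneg (Real.sqrt_nonneg _)
    rw [this]
    exact hH i a.1
  have hs0 : 0 < Real.sqrt s := Real.sqrt_pos.mpr (by exact_mod_cast hs)
  have hN : (0 : ℝ) < Fintype.card ι := by
    have : 0 < Fintype.card ι := Fintype.card_pos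
    exact_mod_cast this
  -- approximation of one vector
  have happ : ∀ x : ι → ℝ, InT s x → ∃ f : Fin q → ι × Bool,
      ∀ i, |∑ k, Y (f k) i - q * (H *ᵥ x) i| ≤ q * t := by
    intro x hx
    have hl1 := l1_le hx
    set δ : ℝ := (1 - (∑ i, |x i|) / Real.sqrt s) / (2 * Fintype.card ι) with hδ
    have hδ0 : 0 ≤ δ := by
      apply div_nonneg _ (by positivity)
      rw [sub_nonneg, div_le_one hs0]
      exact hl1
    set p : ι × Bool → ℝ := fun a => (if a.2 then max (x a.1) 0 else max (-(x a.1)) 0) /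
      Real.sqrt s + δ with hp
    have hp0 : ∀ a, 0 ≤ p a := by
      intro a
      rw [hp]
      apply add_nonneg _ hδ0
      apply div_nonneg _ hs0.le
      split_ifs <;> exact le_max_right _ _
    have hp1 : ∑ a, p a = 1 := by
      rw [Fintype.sum_prod_type]
      simp only [hp, Fintype.sum_bool, if_true, Bool.false_eq_true, if_false]
      have h1 : ∀ i, max (x i) 0 / Real.sqrt s + δ + (max (-(x i)) 0 / Real.sqrt s + δ) =
          |x i| / Real.sqrt s + 2 * δ := by
        intro i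
        have : max (x i) 0 + max (-(x i)) 0 = |x i| := by
          rcases le_total 0 (x i) with h | h
          · rw [max_eq_left h, max_eq_right (by linarith), abs_of_nonneg h]; ring
          · rw [max_eq_right h, max_eq_left (by linarith), abs_of_nonpos h]; ring
        rw [← this]; ring
      simp_rw [h1]
      rw [Finset.sum_add_distrib, ← Finset.sum_div]
      simp only [Finset.sum_const, Finset.card_univ, nsmul_eq_mul]
      rw [hδ]
      field_simp
      ring
    have hpy : ∀ i, ∑ a, p a * Y a i = (H *ᵥ x) i := by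
      intro i
      rw [Fintype.sum_prod_type]
      simp only [hp, hYdef, Fintype.sum_bool, if_true, Bool.false_eq_true, if_false]
      simp only [Matrix.mulVec, dotProduct]
      refine Finset.sum_congr rfl (fun j _ => ?_)
      have : max (x j) 0 - max (-(x j)) 0 = x j := by
        rcases le_total 0 (x j) with h | h
        · rw [max_eq_left h, max_eq_right (by linarith)]; ring
        · rw [max_eq_right h, max_eq_left (by linarith)]; ring
      have h2 : (max (x j) 0 / Real.sqrt s + δ) * (Real.sqrt s * H i j) +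
          (max (-(x j)) 0 / Real.sqrt s + δ) * (-Real.sqrt s * H i j) =
          (max (x j) 0 - max (-(x j)) 0) * H i j := by
        field_simp
        ring
      rw [h2, this]; ring
    obtain ⟨f, hf⟩ := maurey p hp0 hp1 Y hb hY q t ht htq
    refine ⟨f, fun i => ?_⟩
    have := hf i
    rwa [hpy i] at this
  set pick : (Fin q → ι × Bool) → (ι → ℝ) := fun f =>
    if h : ∃ x : ι → ℝ, InT s x ∧ ∀ i, |∑ k, Y (f k) i - q * (H *ᵥ x) i| ≤ q * t then h.choose
    else 0 with hpick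
  refine ⟨univ.image pick, ?_, ?_, ?_⟩
  · refine Finset.card_image_le.trans ?_
    rw [Finset.card_univ, Fintype.card_fun]
    simp [mul_comm]
  · intro x hx
    obtain ⟨f, _, rfl⟩ := Finset.mem_image.mp hx
    rw [hpick]
    by_cases h : ∃ x : ι → ℝ, InT s x ∧ ∀ i, |∑ k, Y (f k) i - q * (H *ᵥ x) i| ≤ q * t
    · simp only [h, dif_pos]
      exact h.choose_spec.1
    · simp only [h, dif_neg, not_false_iff]
      exact inT_zero s
  · intro x hx
    obtain ⟨f, hf⟩ := happ x hx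
    have h : ∃ x : ι → ℝ, InT s x ∧ ∀ i, |∑ k, Y (f k) i - q * (H *ᵥ x) i| ≤ q * t :=
      ⟨x, hx, hf⟩
    refine ⟨pick f, Finset.mem_image_of_mem _ (mem_univ _), fun i => ?_⟩
    have hpf : pick f = h.choose := by
      rw [hpick]; simp only [h, dif_pos]
    rw [hpf]
    have h1 := h.choose_spec.2 i
    have h2 := hf i
    have hq0 : (0 : ℝ) < q := by exact_mod_cast hq
    rw [abs_le] at h1 h2 ⊢
    constructor
    · have : (q : ℝ) * (-(2 * t)) ≤ q * ((H *ᵥ x) i - (H *ᵥ h.choose) i) := by linarith [h1.1, h1.2, h2.1, h2.2]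
      exact le_of_mul_le_mul_left this hq0
    · have : (q : ℝ) * ((H *ᵥ x) i - (H *ᵥ h.choose) i) ≤ q * (2 * t) := by linarith [h1.1, h1.2, h2.1, h2.2]
      exact le_of_mul_le_mul_left this hq0

lemma nsq_mulVec {ι : Type*} [Fintype ι] [DecidableEq ι] {H : Matrix ι ι ℝ} (hH : H * Hᵀ = 1)
    (x : ι → ℝ) : nsq (H *ᵥ x) = nsq x := by
  have h1 : Hᵀ * H = 1 := mul_eq_one_comm.mp hH
  have h2 : ∀ v : ι → ℝ, nsq v = v ⬝ᵥ v := by
    intro v
    simp only [nsq, dotProduct]
    exact Finset.sum_congr rfl (fun i _ => by ring)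
  rw [h2, h2, Matrix.dotProduct_mulVec, ← Matrix.mulVec_transpose, Matrix.mulVec_mulVec, h1,
    Matrix.one_mulVec]

/-- The chain of nets. -/
lemma exists_nets {ι : Type*} [Fintype ι] [DecidableEq ι] [Nonempty ι] (H : Matrix ι ι ℝ)
    (hH2 : ∀ i j, H i j ^ 2 ≤ 1 / Fintype.card ι) (s : ℕ) (hs : 1 ≤ s) (R : ℝ) (hR : 0 < R)
    (hR2 : R ^ 2 = 32 * (s / Fintype.card ι) * Real.log (2 * Fintype.card ι)) :
    ∃ net : ℕ → Finset (ι → ℝ), net 0 = {0} ∧
      (∀ j, (net j).card ≤ (2 * Fintype.card ι) ^ (4 ^ j)) ∧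
      (∀ j, ∀ x ∈ net j, InT s x) ∧
      (∀ j x, InT s x → ∃ x' ∈ net j, ∀ i, |(H *ᵥ x) i - (H *ᵥ x') i| ≤ R / 2 ^ j) := by
  have hNn : 0 < Fintype.card ι := Fintype.card_pos
  have hN : (0 : ℝ) < Fintype.card ι := by exact_mod_cast hNn
  have hN1 : (1 : ℝ) ≤ Fintype.card ι := by exact_mod_cast hNn
  have hs0 : (0 : ℝ) < s := by exact_mod_cast hs
  set b : ℝ := Real.sqrt (s / Fintype.card ι) with hb
  have hb0 : 0 < b := Real.sqrt_pos.mpr (by positivity)
  have hb2 : b ^ 2 = s / Fintype.card ι := Real.sq_sqrt (by positivity)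
  have hH : ∀ i j, Real.sqrt s * |H i j| ≤ b := by
    intro i j
    rw [hb]
    apply Real.le_sqrt_of_sq_le
    rw [mul_pow, Real.sq_sqrt hs0.le, sq_abs]
    calc (s : ℝ) * H i j ^ 2 ≤ s * (1 / Fintype.card ι) :=
          mul_le_mul_of_nonneg_left (hH2 i j) hs0.le
      _ = s / Fintype.card ι := by ring
  have hL : 1 / 2 ≤ Real.log (2 * Fintype.card ι) := by
    have h1 : Real.log 2 ≤ Real.log (2 * Fintype.card ι) :=
      Real.log_le_log (by norm_num) (by linarith)
    have := Real.log_two_gt_d9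
    linarith
  have hnet : ∀ j : ℕ, ∃ T : Finset (ι → ℝ), T.card ≤ (2 * Fintype.card ι) ^ (4 ^ j) ∧
      (∀ x ∈ T, InT s x) ∧
      ∀ x, InT s x → ∃ x' ∈ T, ∀ i, |(H *ᵥ x) i - (H *ᵥ x') i| ≤ 2 * (R / 2 / 2 ^ j) := by
    intro j
    apply exists_net H hb0 s hs hH (4 ^ j) (Nat.one_le_pow _ _ (by norm_num)) (R / 2 / 2 ^ j)
      (by positivity)
    push_cast
    have h4 : (4 : ℝ) ^ j = 2 ^ j * 2 ^ j := by
      rw [← mul_pow]; norm_num
    rw [h4, hb2]
    have : (R / 2 / 2 ^ j) ^ 2 * (2 ^ j * 2 ^ j) = R ^ 2 / 4 := by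
      field_simp
      ring
    rw [this, hR2]
    ring
  choose T hT1 hT2 hT3 using hnet
  refine ⟨fun j => if j = 0 then {0} else T j, by simp, ?_, ?_, ?_⟩
  · intro j
    by_cases h : j = 0
    · subst h
      simp
      omega
    · simp only [h, if_false]
      exact hT1 j
  · intro j x hx
    by_cases h : j = 0
    · simp only [h, if_true, Finset.mem_singleton] at hx
      rw [hx]; exact inT_zero s
    · simp only [h, if_false] at hx
      exact hT2 j x hx
  · intro j x hx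
    by_cases h : j = 0
    · subst h
      refine ⟨0, by simp, fun i => ?_⟩
      simp only [Matrix.mulVec_zero, Pi.zero_apply, sub_zero, pow_zero, div_one]
      have hbR : b ≤ R := by
        apply le_of_sq_le_sq _ hR.le
        rw [hb2, hR2]
        have : (0 : ℝ) < s / Fintype.card ι := by positivity
        nlinarith
      refine le_trans ?_ hbR
      simp only [Matrix.mulVec, dotProduct]
      refine (Finset.abs_sum_le_sum_abs _ _).trans ?_
      have h1 : ∀ j, |H i j * x j| ≤ b / Real.sqrt s * |x j| := by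
        intro j
        rw [abs_mul]
        apply mul_le_mul_of_nonneg_right _ (abs_nonneg _)
        rw [le_div_iff₀ (Real.sqrt_pos.mpr hs0), mul_comm]
        exact hH i j
      refine (Finset.sum_le_sum (fun j _ => h1 j)).trans ?_
      rw [← Finset.mul_sum]
      have h2 := l1_le hx
      calc _ ≤ b / Real.sqrt s * Real.sqrt s :=
            mul_le_mul_of_nonneg_left h2 (by positivity)
        _ = b := by
            have := Real.sqrt_pos.mpr hs0
            field_simp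
    · obtain ⟨x', hx', h'⟩ := hT3 j x hx
      refine ⟨x', by simp only [h, if_false]; exact hx', fun i => ?_⟩
      have := h' i
      have e : 2 * (R / 2 / 2 ^ j) = R / 2 ^ j := by ring
      rwa [e] at this

/-- The bilinear form. -/
def form {ι : Type*} [Fintype ι] (ε : ι → ℝ) (p r : ι → ℝ) : ℝ := ∑ i, ε i * (p i * r i)

lemma sum_abs_le_sqrt {ι : Type*} [Fintype ι] (p : ι → ℝ) (hp : nsq p ≤ 1) :
    ∑ i, |p i| ≤ Real.sqrt (Fintype.card ι) := by
  apply Real.le_sqrt_of_sq_le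
  have h1 : ∑ i, |p i| = ∑ i, |p i| * 1 := by simp
  rw [h1]
  refine (Finset.sum_mul_sq_le_sq_mul_sq _ _ _).trans ?_
  simp only [sq_abs, one_pow, Finset.sum_const, Finset.card_univ, nsmul_eq_mul, mul_one]
  have : ∑ i, p i ^ 2 ≤ 1 := hp
  have h2 : (0 : ℝ) ≤ Fintype.card ι := by positivity
  nlinarith

lemma coef_sq {ι : Type*} [Fintype ι] (p r p' r' : ι → ℝ) (δ : ℝ) (hr : nsq r ≤ 1)
    (hp' : nsq p' ≤ 1) (h1 : ∀ i, |p i - p' i| ≤ δ) (h2 : ∀ i, |r i - r' i| ≤ δ) :
    ∑ i, (p i * r i - p' i * r' i) ^ 2 ≤ 4 * δ ^ 2 := by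
  have hi : ∀ i, (p i * r i - p' i * r' i) ^ 2 ≤ 2 * δ ^ 2 * r i ^ 2 + 2 * δ ^ 2 * p' i ^ 2 := by
    intro i
    have e : p i * r i - p' i * r' i = (p i - p' i) * r i + p' i * (r i - r' i) := by ring
    rw [e]
    have h3 : (p i - p' i) ^ 2 ≤ δ ^ 2 := by
      rw [← sq_abs]; exact pow_le_pow_left₀ (abs_nonneg _) (h1 i) 2
    have h4 : (r i - r' i) ^ 2 ≤ δ ^ 2 := by
      rw [← sq_abs]; exact pow_le_pow_left₀ (abs_nonneg _) (h2 i) 2
    have h5 : ((p i - p' i) * r i) ^ 2 ≤ δ ^ 2 * r i ^ 2 := by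
      rw [mul_pow]; exact mul_le_mul_of_nonneg_right h3 (sq_nonneg _)
    have h6 : (p' i * (r i - r' i)) ^ 2 ≤ δ ^ 2 * p' i ^ 2 := by
      rw [mul_pow, mul_comm]; exact mul_le_mul_of_nonneg_right h4 (sq_nonneg _)
    nlinarith [sq_nonneg ((p i - p' i) * r i - p' i * (r i - r' i))]
  refine (Finset.sum_le_sum (fun i _ => hi i)).trans ?_
  rw [Finset.sum_add_distrib, ← Finset.mul_sum, ← Finset.mul_sum]
  have hr' : ∑ i, r i ^ 2 ≤ 1 := hr
  have hp'' : ∑ i, p' i ^ 2 ≤ 1 := hp'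
  have := sq_nonneg δ
  nlinarith

lemma form_diff {ι : Type*} [Fintype ι] (ε : ι → ℝ) (hε : ∀ i, ε i = 1 ∨ ε i = -1)
    (p r p' r' : ι → ℝ) (δ : ℝ) (hδ : 0 ≤ δ) (hr : nsq r ≤ 1)
    (hp' : nsq p' ≤ 1) (h1 : ∀ i, |p i - p' i| ≤ δ) (h2 : ∀ i, |r i - r' i| ≤ δ) :
    |form ε p r - form ε p' r'| ≤ 2 * δ * Real.sqrt (Fintype.card ι) := by
  unfold form
  rw [← Finset.sum_sub_distrib]
  refine (Finset.abs_sum_le_sum_abs _ _).trans ?_
  have hi : ∀ i, |ε i * (p i * r i) - ε i * (p' i * r' i)| ≤ δ * |r i| + δ * |p' i| := by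
    intro i
    have e : ε i * (p i * r i) - ε i * (p' i * r' i) =
      ε i * ((p i - p' i) * r i + p' i * (r i - r' i)) := by ring
    rw [e, abs_mul]
    have : |ε i| = 1 := by rcases hε i with h | h <;> simp [h]
    rw [this, one_mul]
    refine (abs_add_le _ _).trans ?_
    rw [abs_mul, abs_mul]
    have h3 := mul_le_mul_of_nonneg_right (h1 i) (abs_nonneg (r i))
    have h4 := mul_le_mul_of_nonneg_left (h2 i) (abs_nonneg (p' i))
    linarith
  refine (Finset.sum_le_sum (fun i _ => hi i)).trans ?_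
  rw [Finset.sum_add_distrib, ← Finset.mul_sum, ← Finset.mul_sum]
  have h3 := mul_le_mul_of_nonneg_left (sum_abs_le_sqrt r hr) hδ
  have h4 := mul_le_mul_of_nonneg_left (sum_abs_le_sqrt p' hp') hδ
  linarith

/-- The sum of the failure probabilities. -/
lemma union_sum (J : ℕ) (L : ℝ) (hL : Real.log 2 ≤ L) (c : ℕ → ℝ) (v : ℕ → ℝ)
    (hc : ∀ j, c j ≤ Real.exp (10 * 4 ^ j * L)) (hv : ∀ j, 12 * 4 ^ j * L ≤ v j) :
    ∑ j ∈ range J, c j * (2 * Real.exp (-(v j))) < 1 := by
  have h1 : ∀ j, c j * (2 * Real.exp (-(v j))) ≤ (1 / 2) * (1 / 4) ^ j := by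
    intro j
    have h4 : (j : ℝ) + 1 ≤ 4 ^ j := by
      have := one_add_mul_le_pow (a := (3 : ℝ)) (by norm_num) j
      have h0 : (0 : ℝ) ≤ j := by positivity
      have e : (1 + 3 : ℝ) ^ j = 4 ^ j := by norm_num
      rw [e] at this
      linarith
    have hl2 : 0 < Real.log 2 := Real.log_pos (by norm_num)
    have hjL : ((j : ℝ) + 1) * Real.log 2 ≤ 4 ^ j * L := by
      apply mul_le_mul h4 hL hl2.le (by positivity)
    calc c j * (2 * Real.exp (-(v j)))
        ≤ Real.exp (10 * 4 ^ j * L) * (2 * Real.exp (-(12 * 4 ^ j * L))) := by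
          apply mul_le_mul (hc j) _ (by positivity) (Real.exp_pos _).le
          apply mul_le_mul_of_nonneg_left _ (by norm_num)
          apply Real.exp_le_exp.mpr
          have := hv j
          linarith
      _ = 2 * Real.exp (-(2 * (4 ^ j * L))) := by
          rw [mul_left_comm, ← Real.exp_add]
          congr 2; ring
      _ ≤ 2 * Real.exp (-(2 * (((j : ℝ) + 1) * Real.log 2))) := by
          apply mul_le_mul_of_nonneg_left _ (by norm_num)
          apply Real.exp_le_exp.mpr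
          linarith
      _ = (1 / 2) * (1 / 4) ^ j := by
          have e1 : Real.exp (-(2 * (((j : ℝ) + 1) * Real.log 2))) = (1 / 4) ^ (j + 1) := by
            have : -(2 * (((j : ℝ) + 1) * Real.log 2)) = ((j + 1 : ℕ) : ℝ) * (-2 * Real.log 2) := by
              push_cast; ring
            rw [this, Real.exp_nat_mul]
            congr 1
            have : -2 * Real.log 2 = -(Real.log 2 + Real.log 2) := by ring
            rw [this, Real.exp_neg, Real.exp_add, Real.exp_log (by norm_num)]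
            norm_num
          rw [e1, pow_succ]; ring
  calc _ ≤ ∑ j ∈ range J, (1 / 2 : ℝ) * (1 / 4) ^ j := Finset.sum_le_sum (fun j _ => h1 j)
    _ = 1 / 2 * ∑ j ∈ range J, (1 / 4 : ℝ) ^ j := by rw [Finset.mul_sum]
    _ < 1 := by
        have e := geom_sum_eq (x := (1 / 4 : ℝ)) (by norm_num) J
        rw [e]
        have : (0 : ℝ) < (1 / 4) ^ J := by positivity
        have e2 : (((1 / 4 : ℝ)) ^ J - 1) / (1 / 4 - 1) = (4 / 3) * (1 - (1 / 4) ^ J) := by ring
        rw [e2]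
        linarith

/-- Core estimate. -/
lemma core {ι : Type} [Fintype ι] [DecidableEq ι] [Nonempty ι]
    (H : Matrix ι ι ℝ) (hHH : H * Hᵀ = 1) (hH2 : ∀ i j, H i j ^ 2 ≤ 1 / Fintype.card ι)
    (s : ℕ) (hs : 1 ≤ s)
    (hsmall : (s : ℝ) * (Real.log (2 * Fintype.card ι)) ^ 4 ≤ 1 / 10 ^ 6 * Fintype.card ι) :
    ∃ ε : ι → ℝ, (∀ i, ε i = 1 ∨ ε i = -1) ∧
      ∀ x u : ι → ℝ, InT s x → InT s u → |form ε (H *ᵥ x) (H *ᵥ u)| ≤ 1 / 4 := by
  classical
  have hNn : 0 < Fintype.card ι := Fintype.card_pos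
  have hN : (0 : ℝ) < Fintype.card ι := by exact_mod_cast hNn
  have hN1 : (1 : ℝ) ≤ Fintype.card ι := by exact_mod_cast hNn
  have hs0 : (0 : ℝ) < s := by exact_mod_cast hs
  set N : ℝ := (Fintype.card ι : ℝ) with hNdef
  set L : ℝ := Real.log (2 * N) with hLdef
  have hL2 : Real.log 2 ≤ L := Real.log_le_log (by norm_num) (by linarith)
  have hL : 1 / 2 ≤ L := by
    have := Real.log_two_gt_d9
    linarith
  set b : ℝ := Real.sqrt (s / N) with hb
  have hb0 : 0 < b := Real.sqrt_pos.mpr (by positivity)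
  have hb2 : b ^ 2 = s / N := Real.sq_sqrt (by positivity)
  set R : ℝ := Real.sqrt (32 * (s / N) * L) with hRdef
  have hR0 : 0 < R := Real.sqrt_pos.mpr (by positivity)
  have hR2 : R ^ 2 = 32 * (s / N) * L := Real.sq_sqrt (by positivity)
  obtain ⟨net, hnet0, hnetc, hnetT, hnetR⟩ := exists_nets H hH2 s hs R hR0 hR2
  -- the family of quadruples
  set S : ℕ → Finset ((ι → ℝ) × (ι → ℝ) × (ι → ℝ) × (ι → ℝ)) := fun j =>
    (net (j + 1) ×ˢ net (j + 1) ×ˢ net j ×ˢ net j).filter (fun k =>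
      (∀ i, |(H *ᵥ k.1) i - (H *ᵥ k.2.2.1) i| ≤ 3 * R / 2 ^ (j + 1)) ∧
      (∀ i, |(H *ᵥ k.2.1) i - (H *ᵥ k.2.2.2) i| ≤ 3 * R / 2 ^ (j + 1))) with hSdef
  set a : ((ι → ℝ) × (ι → ℝ) × (ι → ℝ) × (ι → ℝ)) → ι → ℝ := fun k i =>
    (H *ᵥ k.1) i * (H *ᵥ k.2.1) i - (H *ᵥ k.2.2.1) i * (H *ᵥ k.2.2.2) i with hadef
  set v : ℕ → ℝ := fun j => 9 * R ^ 2 / 4 ^ j with hvdef
  have hv : ∀ j, 0 < v j := fun j => by rw [hvdef]; positivity
  set l : ℝ := 84 * b * L with hldef
  have hl : 0 ≤ l := by rw [hldef]; positivity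
  set J : ℕ := Nat.log 2 (2 * Fintype.card ι) with hJ
  have hav : ∀ j < J, ∀ k ∈ S j, ∑ i, a k i ^ 2 ≤ v j := by
    intro j _ k hk
    rw [hSdef] at hk
    obtain ⟨hk1, hk2, hk3⟩ := Finset.mem_filter.mp hk
    simp only [Finset.mem_product] at hk1
    obtain ⟨m1, m2, m3, m4⟩ := hk1
    have h := coef_sq (H *ᵥ k.1) (H *ᵥ k.2.1) (H *ᵥ k.2.2.1) (H *ᵥ k.2.2.2)
      (3 * R / 2 ^ (j + 1)) (by rw [nsq_mulVec hHH]; exact (hnetT _ _ m2).1)
      (by rw [nsq_mulVec hHH]; exact (hnetT _ _ m3).1) hk2 hk3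
    refine h.trans (le_of_eq ?_)
    rw [hvdef]
    simp only
    have e4 : (4 : ℝ) ^ j = 2 ^ j * 2 ^ j := by rw [← mul_pow]; norm_num
    rw [e4, pow_succ]
    field_simp
    ring
  have hsum : ∑ j ∈ range J, ((S j).card : ℝ) * (2 * Real.exp (-(l ^ 2 / (2 * v j)))) < 1 := by
    apply union_sum J L hL2
    · intro j
      have h1 : (S j).card ≤ (2 * Fintype.card ι) ^ (10 * 4 ^ j) := by
        rw [hSdef]
        refine (Finset.card_filter_le _ _).trans ?_
        simp only [Finset.card_product]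
        calc _ ≤ (2 * Fintype.card ι) ^ (4 ^ (j + 1)) * ((2 * Fintype.card ι) ^ (4 ^ (j + 1)) *
              ((2 * Fintype.card ι) ^ (4 ^ j) * (2 * Fintype.card ι) ^ (4 ^ j))) :=
              Nat.mul_le_mul (hnetc _) (Nat.mul_le_mul (hnetc _)
                (Nat.mul_le_mul (hnetc _) (hnetc _)))
          _ = _ := by
              rw [← pow_add, ← pow_add, ← pow_add]
              congr 1
              rw [pow_succ]; ring
      have h2 : ((S j).card : ℝ) ≤ (2 * N) ^ (10 * 4 ^ j) := by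
        have : ((S j).card : ℝ) ≤ ((2 * Fintype.card ι : ℕ) : ℝ) ^ (10 * 4 ^ j) := by
          exact_mod_cast h1
        push_cast at this
        exact this
      refine h2.trans (le_of_eq ?_)
      have h2N : (0 : ℝ) < 2 * N := by linarith
      have h3 : (10 * 4 ^ j : ℝ) * L = ((10 * 4 ^ j : ℕ) : ℝ) * L := by push_cast; ring
      rw [h3, Real.exp_nat_mul, hLdef, Real.exp_log h2N]
    · intro j
      have hbN : (0 : ℝ) < s / N := by positivity
      rw [hldef, hvdef]
      simp only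
      have e : (84 * b * L) ^ 2 / (2 * (9 * R ^ 2 / 4 ^ j)) = 49 / 4 * 4 ^ j * L := by
        rw [mul_pow, mul_pow, hb2, hR2]
        have : (4 : ℝ) ^ j ≠ 0 := by positivity
        have hL' : L ≠ 0 := by positivity
        field_simp
        ring
      rw [e]
      have : (0 : ℝ) < 4 ^ j * L := by positivity
      linarith
  obtain ⟨ε, hε, hbound⟩ := exists_signs J S a v hv hav l hl hsum
  refine ⟨ε, hε, fun x u hx hu => ?_⟩
  choose! px hpx1 hpx2 using fun j => hnetR j x hx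
  choose! pu hpu1 hpu2 using fun j => hnetR j u hu
  have hpx0 : px 0 = 0 := by
    have := hpx1 0
    rw [hnet0] at this
    exact Finset.mem_singleton.mp this
  -- increments
  have hinc : ∀ j < J, |form ε (H *ᵥ px (j + 1)) (H *ᵥ pu (j + 1)) -
      form ε (H *ᵥ px j) (H *ᵥ pu j)| ≤ l := by
    intro j hj
    have hclose : ∀ (w : ι → ℝ) (p : ℕ → ι → ℝ),
        (∀ j i, |(H *ᵥ w) i - (H *ᵥ p j) i| ≤ R / 2 ^ j) →
        ∀ i, |(H *ᵥ p (j + 1)) i - (H *ᵥ p j) i| ≤ 3 * R / 2 ^ (j + 1) := by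
      intro w p hp i
      have h1 := hp (j + 1) i
      have h2 := hp j i
      have e : (3 : ℝ) * R / 2 ^ (j + 1) = R / 2 ^ (j + 1) + R / 2 ^ j := by
        rw [pow_succ]; field_simp; ring
      rw [e]
      rw [abs_le] at h1 h2 ⊢
      constructor <;> linarith [h1.1, h1.2, h2.1, h2.2]
    have hk : (px (j + 1), pu (j + 1), px j, pu j) ∈ S j := by
      rw [hSdef]
      refine Finset.mem_filter.mpr ⟨?_, hclose x px hpx2, hclose u pu hpu2⟩
      simp only [Finset.mem_product]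
      exact ⟨hpx1 _, hpu1 _, hpx1 _, hpu1 _⟩
    have := hbound j hj _ hk
    have e : ∑ i, ε i * a (px (j + 1), pu (j + 1), px j, pu j) i =
        form ε (H *ᵥ px (j + 1)) (H *ᵥ pu (j + 1)) - form ε (H *ᵥ px j) (H *ᵥ pu j) := by
      unfold form
      rw [← Finset.sum_sub_distrib]
      refine Finset.sum_congr rfl (fun i _ => ?_)
      rw [hadef]
      ring
    rwa [e] at this
  have htel : |form ε (H *ᵥ px J) (H *ᵥ pu J)| ≤ J * l := by
    have h0 : form ε (H *ᵥ px 0) (H *ᵥ pu 0) = 0 := by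
      rw [hpx0]; simp [form]
    have h1 := Finset.sum_range_sub (fun j => form ε (H *ᵥ px j) (H *ᵥ pu j)) J
    simp only [h0, sub_zero] at h1
    rw [← h1]
    refine (Finset.abs_sum_le_sum_abs _ _).trans ?_
    refine (Finset.sum_le_sum (fun j hj => hinc j (mem_range.mp hj))).trans ?_
    simp
  have hfin : |form ε (H *ᵥ x) (H *ᵥ u) - form ε (H *ᵥ px J) (H *ᵥ pu J)| ≤
      2 * (R / 2 ^ J) * Real.sqrt N := by
    apply form_diff ε hε _ _ _ _ (R / 2 ^ J) (by positivity)
    · rw [nsq_mulVec hHH]; exact hu.1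
    · rw [nsq_mulVec hHH]; exact (hnetT _ _ (hpx1 J)).1
    · exact hpx2 J
    · exact hpu2 J
  -- the number of levels
  have hJ1 : (J : ℝ) ≤ 2 * L := by
    have h1 : 2 ^ J ≤ 2 * Fintype.card ι := Nat.pow_log_le_self 2 (by omega)
    have h2 : (2 : ℝ) ^ J ≤ 2 * N := by
      have : (((2 ^ J : ℕ)) : ℝ) ≤ ((2 * Fintype.card ι : ℕ) : ℝ) := by exact_mod_cast h1
      push_cast at this
      exact this
    have h3 : (J : ℝ) * Real.log 2 ≤ L := by
      rw [← Real.log_pow]
      exact Real.log_le_log (by positivity) h2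
    have h4 := Real.log_two_gt_d9
    have h5 : (0 : ℝ) ≤ J := by positivity
    nlinarith
  have hJ2 : Real.sqrt N ≤ 2 ^ J := by
    have h1 : 2 * Fintype.card ι < 2 ^ (J + 1) := Nat.lt_pow_succ_log_self (by norm_num) _
    have h2 : Fintype.card ι < 2 ^ J := by
      rw [pow_succ] at h1; omega
    have h3 : N ≤ 2 ^ J := by
      have : ((Fintype.card ι : ℕ) : ℝ) ≤ ((2 ^ J : ℕ) : ℝ) := by exact_mod_cast h2.le
      push_cast at this
      exact this
    apply Real.sqrt_le_iff.mpr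
    refine ⟨by positivity, ?_⟩
    have h4 : (1 : ℝ) ≤ 2 ^ J := one_le_pow₀ (by norm_num)
    nlinarith
  have hfin2 : 2 * (R / 2 ^ J) * Real.sqrt N ≤ 2 * R := by
    have h1 : R / 2 ^ J * Real.sqrt N ≤ R := by
      rw [div_mul_eq_mul_div, div_le_iff₀ (by positivity)]
      exact mul_le_mul_of_nonneg_left hJ2 hR0.le
    linarith
  have hbL : b * L ^ 2 ≤ 1 / 1000 := by
    have h1 : (b * L ^ 2) ^ 2 ≤ (1 / 1000) ^ 2 := by
      have e : (b * L ^ 2) ^ 2 = (s * L ^ 4) / N := by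
        rw [mul_pow, hb2]; ring
      rw [e, div_le_iff₀ hN]
      calc _ ≤ _ := hsmall
        _ = _ := by norm_num
    exact (pow_le_pow_iff_left₀ (by positivity) (by norm_num) (by norm_num)).mp h1
  have hRb : R ≤ 24 * (b * L ^ 2) := by
    have h1 : R ^ 2 ≤ (24 * (b * L ^ 2)) ^ 2 := by
      have e : (24 * (b * L ^ 2)) ^ 2 = 576 * (s / N) * L ^ 4 := by
        rw [mul_pow, mul_pow, hb2]; ring
      rw [e, hR2]
      have h3 : 32 * L ≤ 576 * L ^ 4 := by
        have h4 : (1 / 2 : ℝ) ^ 3 ≤ L ^ 3 := pow_le_pow_left₀ (by norm_num) hL 3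
        have h5 : (0 : ℝ) < L := by linarith
        have h6 : 1 / 18 * L ≤ L ^ 3 * L := mul_le_mul_of_nonneg_right (by linarith) h5.le
        have h7 : L ^ 3 * L = L ^ 4 := by ring
        linarith
      have h8 : (0 : ℝ) < s / N := by positivity
      have := mul_le_mul_of_nonneg_left h3 h8.le
      linarith
    exact (pow_le_pow_iff_left₀ hR0.le (by positivity) (by norm_num)).mp h1
  have hJl : (J : ℝ) * l ≤ 168 * (b * L ^ 2) := by
    calc (J : ℝ) * l ≤ (2 * L) * l := mul_le_mul_of_nonneg_right hJ1 hl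
      _ = 168 * (b * L ^ 2) := by rw [hldef]; ring
  have htri : |form ε (H *ᵥ x) (H *ᵥ u)| ≤
      |form ε (H *ᵥ x) (H *ᵥ u) - form ε (H *ᵥ px J) (H *ᵥ pu J)| +
      |form ε (H *ᵥ px J) (H *ᵥ pu J)| := by
    have := abs_add_le (form ε (H *ᵥ x) (H *ᵥ u) - form ε (H *ᵥ px J) (H *ᵥ pu J))
      (form ε (H *ᵥ px J) (H *ᵥ pu J))
    simpa using this
  linarith

/-- Normalisation. -/
lemma exists_normalized {ι : Type*} [Fintype ι] {s : ℕ} (x : ι → ℝ) (hx : nnz x ≤ s) :
    ∃ (y : ι → ℝ) (α : ℝ), InT s y ∧ x = α • y ∧ α ^ 2 = nsq x := by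
  classical
  have hn : 0 ≤ nsq x := Finset.sum_nonneg (fun i _ => sq_nonneg _)
  rcases eq_or_lt_of_le hn with h | h
  · refine ⟨0, 0, inT_zero s, ?_, by rw [← h]; norm_num⟩
    funext i
    have h1 := (Finset.sum_eq_zero_iff_of_nonneg (fun i _ => sq_nonneg (x i))).mp h.symm i
      (mem_univ i)
    simpa using h1
  · set α : ℝ := Real.sqrt (nsq x) with hα
    have hα0 : 0 < α := Real.sqrt_pos.mpr h
    have hα2 : α ^ 2 = nsq x := Real.sq_sqrt hn
    refine ⟨α⁻¹ • x, α, ⟨?_, ?_⟩, ?_, hα2⟩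
    · have : nsq (α⁻¹ • x) = (α⁻¹) ^ 2 * nsq x := by
        simp only [nsq, Pi.smul_apply, smul_eq_mul, mul_pow, Finset.mul_sum]
      rw [this, ← hα2]
      apply le_of_eq
      field_simp
    · refine le_trans ?_ hx
      unfold nnz
      apply Finset.card_le_card
      intro i hi
      simp only [Finset.mem_filter, mem_univ, true_and, Pi.smul_apply, smul_eq_mul] at hi ⊢
      exact fun h0 => hi (by rw [h0, mul_zero])
    · rw [smul_smul, mul_inv_cancel₀ hα0.ne', one_smul]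

end T6

theorem T6_wup : ∃ c : ℝ, 0 < c ∧ ∀ (ι : Type) [Fintype ι] [DecidableEq ι] [Nonempty ι]
    (H : Matrix ι ι ℝ), H * Hᵀ = 1 → (∀ i j, H i j ^ 2 ≤ 1 / Fintype.card ι) →
    ∀ s : ℕ, (s : ℝ) * (Real.log (2 * Fintype.card ι)) ^ 4 ≤ c * Fintype.card ι →
    ∃ ε : ι → ℝ, (∀ i, ε i = 1 ∨ ε i = -1) ∧
      ∀ x u : ι → ℝ, nnz x ≤ s → nnz u ≤ s →
        (∑ i, ε i * (H *ᵥ x) i * (H *ᵥ u) i) ^ 2 ≤ 1 / 16 * nsq x * nsq u := by
  refine ⟨1 / 10 ^ 6, by norm_num, ?_⟩
  intro ι _ _ _ H hHH hH2 s hs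
  rcases Nat.eq_zero_or_pos s with h0 | hpos
  · refine ⟨fun _ => 1, fun _ => Or.inl rfl, fun x u hx _ => ?_⟩
    subst h0
    obtain ⟨y, α, hy, hxy, hα⟩ := T6.exists_normalized x hx
    have hy0 : y = 0 := by
      classical
      funext i
      by_contra hne
      have := hy.2
      unfold nnz at this
      have h1 := Finset.card_eq_zero.mp (Nat.le_zero.mp this)
      have h2 : i ∈ (univ.filter (fun i => y i ≠ 0)) := by simpa using hne
      have h3 : i ∈ (∅ : Finset ι) := by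
        rw [← h1]; convert h2
      exact absurd h3 (Finset.notMem_empty i)
    rw [hxy, hy0]
    simp [nsq]
  · obtain ⟨ε, hε, hb⟩ := T6.core H hHH hH2 s hpos hs
    refine ⟨ε, hε, fun x u hx hu => ?_⟩
    obtain ⟨y, α, hy, hxy, hα⟩ := T6.exists_normalized x hx
    obtain ⟨w, β, hw, huw, hβ⟩ := T6.exists_normalized u hu
    have hb' := hb y w hy hw
    have e : ∑ i, ε i * (H *ᵥ x) i * (H *ᵥ u) i =
        α * β * T6.form ε (H *ᵥ y) (H *ᵥ w) := by
      rw [hxy, huw, Matrix.mulVec_smul, Matrix.mulVec_smul]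
      unfold T6.form
      rw [Finset.mul_sum]
      refine Finset.sum_congr rfl (fun i _ => ?_)
      simp only [Pi.smul_apply, smul_eq_mul]
      ring
    rw [e, mul_pow, mul_pow, hα, hβ]
    have h2 : T6.form ε (H *ᵥ y) (H *ᵥ w) ^ 2 ≤ 1 / 16 := by
      rw [← sq_abs]
      calc _ ≤ (1 / 4 : ℝ) ^ 2 := pow_le_pow_left₀ (abs_nonneg _) hb' 2
        _ = 1 / 16 := by norm_num
    have hnx : 0 ≤ nsq x := Finset.sum_nonneg (fun i _ => sq_nonneg _)
    have hnu : 0 ≤ nsq u := Finset.sum_nonneg (fun i _ => sq_nonneg _)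
    have := mul_le_mul_of_nonneg_left h2 (mul_nonneg hnx hnu)
    linarith

end Pool.Agent.MP_72d76c_lc
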