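import Pool.Agent.MP_72d76c_lc.Defs

/-!
# Module T8b: nets of sparse vectors
-/

namespace Pool.Agent.MP_72d76c_lc

open Finset Matrix

namespace T8b

/-! ### Counting -/

/-- The weight of an integer. -/
noncomputable def w (μ : ℝ) (k : ℤ) : ℝ := if k = 0 then 1 else μ * Real.exp (-(k : ℝ) ^ 2)

lemma w_nonneg {μ : ℝ} (hμ : 0 ≤ μ) (k : ℤ) : 0 ≤ w μ k := by
  unfold w
  split_ifs
  · norm_num
  · positivity

lemma w_le (μ : ℝ) (hμ : 0 ≤ μ) (M : ℕ) (k : ℤ) (hk : k = (M : ℤ) + 1 ∨ k = -((M : ℤ) + 1)) :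
    w μ k ≤ μ * (1 / 2) ^ (M + 1) := by
  have hk0 : k ≠ 0 := by omega
  unfold w
  rw [if_neg hk0]
  apply mul_le_mul_of_nonneg_left _ hμ
  have hsq : ((k : ℝ)) ^ 2 = ((M : ℝ) + 1) ^ 2 := by
    rcases hk with rfl | rfl <;> push_cast <;> ring
  rw [hsq]
  have h1 : Real.exp (-((M : ℝ) + 1) ^ 2) ≤ Real.exp (-(((M + 1 : ℕ) : ℝ))) := by
    apply Real.exp_le_exp.mpr
    push_cast
    nlinarith [(Nat.cast_nonneg M : (0 : ℝ) ≤ M)]
  have h2 : Real.exp (-(((M + 1 : ℕ) : ℝ))) = (Real.exp (-1)) ^ (M + 1) := by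
    rw [← Real.exp_nat_mul]; ring_nf
  have h3 : Real.exp (-1) ≤ 1 / 2 := by
    rw [Real.exp_neg, inv_eq_one_div]
    apply one_div_le_one_div_of_le (by norm_num)
    have := Real.add_one_le_exp (1 : ℝ)
    linarith
  calc _ ≤ _ := h1
    _ = _ := h2
    _ ≤ _ := pow_le_pow_left₀ (Real.exp_pos _).le h3 _

lemma sum_w (μ : ℝ) (hμ : 0 ≤ μ) (M : ℕ) :
    ∑ k ∈ Icc (-(M : ℤ)) M, w μ k ≤ 1 + 2 * μ * (1 - (1 / 2) ^ M) := by
  induction M with
  | zero => simp [w]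
  | succ M ih =>
    have hI : Icc (-((M + 1 : ℕ) : ℤ)) ((M + 1 : ℕ) : ℤ) =
        insert ((M : ℤ) + 1) (insert (-((M : ℤ) + 1)) (Icc (-(M : ℤ)) M)) := by
      ext k; simp only [mem_Icc, mem_insert]; push_cast; omega
    rw [hI, sum_insert, sum_insert]
    · have h1 := w_le μ hμ M ((M : ℤ) + 1) (Or.inl rfl)
      have h2 := w_le μ hμ M (-((M : ℤ) + 1)) (Or.inr rfl)
      have h3 : ((1 : ℝ) / 2) ^ M = 2 * (1 / 2) ^ (M + 1) := by rw [pow_succ]; ring
      rw [h3] at ih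
      nlinarith
    · simp only [mem_Icc]; omega
    · simp only [mem_Icc, mem_insert]; omega

open Classical in
/-- The set of integer vectors. -/
noncomputable def Z (n s : ℕ) : Finset (Fin n → ℤ) :=
  (Fintype.piFinset (fun _ : Fin n => Icc (-((8 * s : ℕ) : ℤ)) ((8 * s : ℕ) : ℤ))).filter
    (fun z => (univ.filter (fun i => z i ≠ 0)).card ≤ s ∧ ∑ i, (z i) ^ 2 ≤ 64 * (s : ℤ))

open Classical in
lemma prod_w (n s : ℕ) (hs : 1 ≤ s) (hn : s ≤ n) (z : Fin n → ℤ) (hz : z ∈ Z n s) :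
    ((s : ℝ) / n) ^ s * Real.exp (-(64 * s)) ≤ ∏ i, w ((s : ℝ) / n) (z i) := by
  have hz' := (mem_filter.mp hz).2
  have hsn : (s : ℝ) / n ≤ 1 := by
    apply div_le_one_of_le₀ (by exact_mod_cast hn) (by positivity)
  have hs0 : (0 : ℝ) ≤ (s : ℝ) / n := by positivity
  have h1 : ∏ i, w ((s : ℝ) / n) (z i) =
      ((s : ℝ) / n) ^ (univ.filter (fun i => z i ≠ 0)).card *
        Real.exp (-((∑ i, (z i) ^ 2 : ℤ) : ℝ)) := by
    have h2 : ∀ i, w ((s : ℝ) / n) (z i) =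
        (if z i ≠ 0 then (s : ℝ) / n else 1) * Real.exp (-((z i : ℝ)) ^ 2) := by
      intro i
      unfold w
      by_cases h : z i = 0
      · simp [h]
      · simp [h]
    rw [Finset.prod_congr rfl (fun i _ => h2 i), Finset.prod_mul_distrib, ← Real.exp_sum]
    congr 1
    · rw [Finset.prod_ite]; simp [div_pow]
    · push_cast
      rw [Finset.sum_neg_distrib]
  rw [h1]
  apply mul_le_mul
  · exact pow_le_pow_of_le_one hs0 hsn hz'.1
  · apply Real.exp_le_exp.mpr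
    have : ((∑ i, (z i) ^ 2 : ℤ) : ℝ) ≤ ((64 * (s : ℤ) : ℤ) : ℝ) := by exact_mod_cast hz'.2
    push_cast at this ⊢
    linarith
  · positivity
  · positivity

lemma card_Z (n s : ℕ) (hs : 1 ≤ s) (hn : s ≤ n) :
    ((Z n s).card : ℝ) ≤ Real.exp (100 * s * Real.log (2 * n / s)) := by
  classical
  have hs' : (0 : ℝ) < s := by exact_mod_cast hs
  have hn' : (0 : ℝ) < n := by exact_mod_cast (lt_of_lt_of_le hs hn)
  set μ : ℝ := (s : ℝ) / n with hμ
  have hμ0 : 0 < μ := by positivity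
  have h1 : ((Z n s).card : ℝ) * (μ ^ s * Real.exp (-(64 * s))) ≤ (1 + 2 * μ) ^ n := by
    calc ((Z n s).card : ℝ) * (μ ^ s * Real.exp (-(64 * s)))
        = ∑ z ∈ Z n s, (μ ^ s * Real.exp (-(64 * s))) := by
          rw [sum_const, nsmul_eq_mul]
      _ ≤ ∑ z ∈ Z n s, ∏ i, w μ (z i) := sum_le_sum (fun z hz => prod_w n s hs hn z hz)
      _ ≤ ∑ z ∈ Fintype.piFinset (fun _ : Fin n => Icc (-((8 * s : ℕ) : ℤ)) ((8 * s : ℕ) : ℤ)),
            ∏ i, w μ (z i) := by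
          apply sum_le_sum_of_subset_of_nonneg (filter_subset _ _)
          intro z _ _
          exact prod_nonneg (fun i _ => w_nonneg hμ0.le _)
      _ = ∏ i : Fin n, ∑ k ∈ Icc (-((8 * s : ℕ) : ℤ)) ((8 * s : ℕ) : ℤ), w μ k := by
          rw [Finset.prod_univ_sum]
      _ ≤ ∏ i : Fin n, (1 + 2 * μ) := by
          apply prod_le_prod
          · intro i _
            exact sum_nonneg (fun k _ => w_nonneg hμ0.le _)
          · intro i _
            refine (sum_w μ hμ0.le (8 * s)).trans ?_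
            have : (0 : ℝ) ≤ (1 / 2) ^ (8 * s) := by positivity
            nlinarith
      _ = (1 + 2 * μ) ^ n := by simp
  have h2 : (1 + 2 * μ) ^ n ≤ Real.exp (2 * s) := by
    calc (1 + 2 * μ) ^ n ≤ (Real.exp (2 * μ)) ^ n := by
          apply pow_le_pow_left₀ (by positivity)
          have := Real.add_one_le_exp (2 * μ)
          linarith
      _ = Real.exp (2 * s) := by
          rw [← Real.exp_nat_mul, hμ]
          congr 1
          field_simp
  have h3 : μ ^ s * Real.exp (-(64 * s)) = Real.exp (-(s * Real.log (n / s)) - 64 * s) := by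
    rw [sub_eq_add_neg, Real.exp_add]
    congr 1
    have h9 : Real.log (s / n) = - Real.log (n / s) := by rw [← Real.log_inv, inv_div]
    rw [show -(↑s * Real.log (n / s)) = (s : ℝ) * Real.log (s / n) by rw [h9]; ring]
    rw [Real.exp_nat_mul, Real.exp_log (by positivity)]
  rw [h3] at h1
  have h4 : ((Z n s).card : ℝ) ≤ Real.exp (2 * s + s * Real.log (n / s) + 64 * s) := by
    have h5 := h1.trans h2
    rw [show (2 * s + s * Real.log (n / s) + 64 * s : ℝ) =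
      2 * s - (-(s * Real.log (n / s)) - 64 * s) by ring, Real.exp_sub, le_div_iff₀ (Real.exp_pos _)]
    exact h5
  refine h4.trans (Real.exp_le_exp.mpr ?_)
  have h6 : Real.log (2 * n / s) = Real.log 2 + Real.log (n / s) := by
    rw [mul_div_assoc, Real.log_mul (by norm_num) (by positivity)]
  have h7 : 0 ≤ Real.log (n / s) := by
    apply Real.log_nonneg
    rw [le_div_iff₀ hs']
    simpa using (by exact_mod_cast hn : (s : ℝ) ≤ n)
  rw [h6]
  have h8 := Real.log_two_gt_d9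
  nlinarith [mul_nonneg hs'.le h7]

/-! ### Rounding -/

/-- Rounding towards zero. -/
noncomputable def rnd (x : ℝ) : ℤ := if 0 ≤ x then ⌊x⌋ else ⌈x⌉

lemma rnd_prop (x : ℝ) : (0 ≤ x → 0 ≤ (rnd x : ℝ) ∧ (rnd x : ℝ) ≤ x ∧ x ≤ rnd x + 1) ∧
    (x < 0 → (rnd x : ℝ) ≤ 0 ∧ x ≤ rnd x ∧ (rnd x : ℝ) - 1 ≤ x) := by
  constructor
  · intro h
    have h1 : rnd x = ⌊x⌋ := if_pos h
    rw [h1]
    refine ⟨?_, Int.floor_le x, (Int.lt_floor_add_one x).le⟩
    exact_mod_cast Int.floor_nonneg.mpr h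
  · intro h
    have h1 : rnd x = ⌈x⌉ := if_neg (not_le.mpr h)
    rw [h1]
    refine ⟨?_, Int.le_ceil x, ?_⟩
    · have : ⌈x⌉ ≤ 0 := Int.ceil_le.mpr (by simpa using h.le)
      exact_mod_cast this
    · have := Int.ceil_lt_add_one x
      linarith

lemma rnd_sq (x : ℝ) : (rnd x : ℝ) ^ 2 ≤ x ^ 2 := by
  rcases le_or_gt 0 x with h | h
  · obtain ⟨h1, h2, h3⟩ := (rnd_prop x).1 h
    nlinarith
  · obtain ⟨h1, h2, h3⟩ := (rnd_prop x).2 h
    nlinarith

lemma rnd_sub (x : ℝ) : (x - rnd x) ^ 2 ≤ 1 := by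
  rcases le_or_gt 0 x with h | h
  · obtain ⟨h1, h2, h3⟩ := (rnd_prop x).1 h
    nlinarith
  · obtain ⟨h1, h2, h3⟩ := (rnd_prop x).2 h
    nlinarith

lemma rnd_add (x : ℝ) : (x + rnd x) ^ 2 ≤ 4 * x ^ 2 := by
  rcases le_or_gt 0 x with h | h
  · obtain ⟨h1, h2, h3⟩ := (rnd_prop x).1 h
    nlinarith
  · obtain ⟨h1, h2, h3⟩ := (rnd_prop x).2 h
    nlinarith

lemma rnd_zero : rnd 0 = 0 := by simp [rnd]

/-! ### The quadratic form -/

section quad
variable {m n : ℕ} (A : Matrix (Fin m) (Fin n) ℝ)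

/-- The quadratic form `|Av|^2 - |v|^2`. -/
noncomputable def Q (v : Fin n → ℝ) : ℝ := nsq (A *ᵥ v) - nsq v

/-- Its polar form. -/
noncomputable def P (u v : Fin n → ℝ) : ℝ := ∑ i, (A *ᵥ u) i * (A *ᵥ v) i - ∑ i, u i * v i

lemma Q_comb (u v : Fin n → ℝ) (a b : ℝ) :
    Q A (a • u + b • v) = a ^ 2 * Q A u + b ^ 2 * Q A v + 2 * a * b * P A u v := by
  unfold Q P nsq
  rw [Matrix.mulVec_add, Matrix.mulVec_smul, Matrix.mulVec_smul]
  simp only [Pi.add_apply, Pi.smul_apply, smul_eq_mul, mul_sub, mul_sum]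
  have h : ∀ (k : ℕ) (f g : Fin k → ℝ), ∑ i, (a * f i + b * g i) ^ 2 =
      ∑ i, a ^ 2 * f i ^ 2 + ∑ i, b ^ 2 * g i ^ 2 + ∑ i, 2 * a * b * (f i * g i) := by
    intro k f g
    rw [← sum_add_distrib, ← sum_add_distrib]
    exact sum_congr rfl (fun i _ => by ring)
  rw [h, h]
  ring

lemma Q_smul (v : Fin n → ℝ) (a : ℝ) : Q A (a • v) = a ^ 2 * Q A v := by
  have := Q_comb A v v a 0
  simpa using this

lemma nsq_smul (v : Fin n → ℝ) (a : ℝ) : nsq (a • v) = a ^ 2 * nsq v := by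
  unfold nsq
  rw [mul_sum]
  exact sum_congr rfl (fun i _ => by simp [mul_pow])

lemma nsq_nonneg (v : Fin n → ℝ) : 0 ≤ nsq v := sum_nonneg (fun i _ => sq_nonneg _)

lemma nsq_add_sub (u v : Fin n → ℝ) : nsq (u + v) + nsq (u - v) = 2 * nsq u + 2 * nsq v := by
  unfold nsq
  rw [mul_sum, mul_sum, ← sum_add_distrib, ← sum_add_distrib]
  exact sum_congr rfl (fun i _ => by simp only [Pi.add_apply, Pi.sub_apply]; ring)

/-- `v` is supported in `S`. -/
def Supp (S : Finset (Fin n)) (v : Fin n → ℝ) : Prop := ∀ i, i ∉ S → v i = 0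

/-- A bound for the quadratic form on vectors supported in `S`. -/
def Bd (S : Finset (Fin n)) (D : ℝ) : Prop := ∀ v, Supp S v → |Q A v| ≤ D * nsq v

lemma polar_bound {S : Finset (Fin n)} {D : ℝ} (hD : Bd A S D) {u v : Fin n → ℝ}
    (hu : Supp S u) (hv : Supp S v) (hu1 : nsq u ≤ 1 / 64) (hv1 : nsq v ≤ 4) (hD0 : 0 ≤ D) :
    |P A u v| ≤ D / 4 := by
  have h1 := Q_comb A u v 16 1
  have h2 := Q_comb A u v 16 (-1)
  have h3 : P A u v = (Q A ((16 : ℝ) • u + (1 : ℝ) • v) - Q A ((16 : ℝ) • u + (-1 : ℝ) • v)) / 64 := by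
    rw [h1, h2]; ring
  have h4 := hD ((16 : ℝ) • u + (1 : ℝ) • v) (fun i hi => by simp [hu i hi, hv i hi])
  have h5 := hD ((16 : ℝ) • u + (-1 : ℝ) • v) (fun i hi => by simp [hu i hi, hv i hi])
  have h6 := nsq_add_sub ((16 : ℝ) • u) v
  rw [nsq_smul] at h6
  have h7 : (16 : ℝ) • u + (1 : ℝ) • v = (16 : ℝ) • u + v := by simp
  have h8 : (16 : ℝ) • u + (-1 : ℝ) • v = (16 : ℝ) • u - v := by simp [sub_eq_add_neg]
  rw [h3, h7, h8]
  rw [h7] at h4
  rw [h8] at h5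
  rw [abs_le] at h4 h5 ⊢
  constructor <;> nlinarith

lemma exists_bd : ∃ K : ℝ, 0 ≤ K ∧ ∀ S : Finset (Fin n), Bd A S K := by
  refine ⟨(∑ i, ∑ j, A i j ^ 2) + 1, by positivity, fun S v _ => ?_⟩
  have h1 : nsq (A *ᵥ v) ≤ (∑ i, ∑ j, A i j ^ 2) * nsq v := by
    unfold nsq
    rw [sum_mul]
    apply sum_le_sum
    intro i _
    exact Finset.sum_mul_sq_le_sq_mul_sq univ (fun j => A i j) v
  have h2 := nsq_nonneg v
  have h3 : 0 ≤ nsq (A *ᵥ v) := nsq_nonneg _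
  unfold Q
  rw [abs_le]
  constructor <;> nlinarith [mul_nonneg (by positivity : (0 : ℝ) ≤ ∑ i, ∑ j, A i j ^ 2) h2]

end quad

/-- The net. -/
noncomputable def Y (n s : ℕ) : Finset (Fin n → ℝ) := by
  classical
  exact (Z n s).image (fun z i => (z i : ℝ) * (1 / (8 * Real.sqrt s)))

lemma card_Y (n s : ℕ) (hs : 1 ≤ s) (hn : s ≤ n) :
    ((Y n s).card : ℝ) ≤ Real.exp (100 * s * Real.log (2 * n / s)) := by
  refine le_trans ?_ (card_Z n s hs hn)
  exact_mod_cast Finset.card_image_le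

lemma eta_sq (s : ℕ) (hs : 1 ≤ s) : (1 / (8 * Real.sqrt s)) ^ 2 = 1 / (64 * (s : ℝ)) := by
  rw [div_pow, mul_pow, Real.sq_sqrt (by positivity)]
  norm_num

lemma Y_nsq (n s : ℕ) (hs : 1 ≤ s) (v : Fin n → ℝ) (hv : v ∈ Y n s) : nsq v ≤ 1 := by
  classical
  unfold Y at hv
  obtain ⟨z, hz, rfl⟩ := mem_image.mp hv
  have hz' := (mem_filter.mp hz).2.2
  have hs' : (0 : ℝ) < s := by exact_mod_cast hs
  unfold nsq
  simp only [mul_pow]
  rw [eta_sq s hs, ← sum_mul]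
  have : ((∑ i, (z i) ^ 2 : ℤ) : ℝ) ≤ ((64 * (s : ℤ) : ℤ) : ℝ) := by exact_mod_cast hz'
  push_cast at this
  rw [mul_one_div, div_le_one (by positivity)]
  exact this

/-- Approximation of a unit vector supported in a small set by the net. -/
lemma Y_approx (n s : ℕ) (hs : 1 ≤ s) (S : Finset (Fin n)) (hS : S.card ≤ s) (v : Fin n → ℝ)
    (hv : Supp S v) (hv1 : nsq v ≤ 1) :
    ∃ y ∈ Y n s, Supp S y ∧ nsq (v - y) ≤ 1 / 64 ∧ nsq (v + y) ≤ 4 := by
  classical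
  have hs' : (0 : ℝ) < s := by exact_mod_cast hs
  set η : ℝ := 1 / (8 * Real.sqrt s) with hη
  have hη0 : 0 < η := by positivity
  have hη2 : η ^ 2 = 1 / (64 * (s : ℝ)) := eta_sq s hs
  set z : Fin n → ℤ := fun i => rnd (v i / η) with hz
  have hzS : ∀ i, i ∉ S → z i = 0 := by
    intro i hi
    simp only [hz, hv i hi, zero_div, rnd_zero]
  have hzsq : ∑ i, ((z i : ℝ)) ^ 2 ≤ 64 * s := by
    calc ∑ i, ((z i : ℝ)) ^ 2 ≤ ∑ i, (v i / η) ^ 2 := sum_le_sum (fun i _ => rnd_sq _)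
      _ = nsq v * (64 * s) := by
        unfold nsq
        rw [sum_mul]
        refine sum_congr rfl (fun i _ => ?_)
        rw [div_pow, hη2]
        field_simp
      _ ≤ 64 * s := by nlinarith
  have hzint : ∑ i, (z i) ^ 2 ≤ 64 * (s : ℤ) := by exact_mod_cast hzsq
  have hzmem : z ∈ Z n s := by
    unfold Z
    refine mem_filter.mpr ⟨?_, ?_, hzint⟩
    · rw [Fintype.mem_piFinset]
      intro i
      have h1 : (z i) ^ 2 ≤ 64 * (s : ℤ) :=
        (single_le_sum (f := fun i => (z i) ^ 2) (fun j _ => sq_nonneg _) (mem_univ i)).trans hzint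
      have h2 : (z i) ^ 2 ≤ (8 * (s : ℤ)) ^ 2 := by
        have : (1 : ℤ) ≤ s := by exact_mod_cast hs
        nlinarith
      have h3 := abs_le_of_sq_le_sq' h2 (by positivity)
      rw [mem_Icc]
      push_cast
      exact h3
    · refine (card_le_card ?_).trans hS
      intro i hi
      by_contra h
      exact (mem_filter.mp hi).2 (hzS i h)
  refine ⟨fun i => (z i : ℝ) * η, ?_, ?_, ?_, ?_⟩
  · unfold Y
    exact mem_image.mpr ⟨z, hzmem, rfl⟩
  · intro i hi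
    simp [hzS i hi]
  · have h1 : nsq (v - fun i => (z i : ℝ) * η) ≤ ∑ i ∈ S, η ^ 2 := by
      unfold nsq
      rw [← Finset.sum_subset (subset_univ S)]
      · apply sum_le_sum
        intro i _
        have h2 := rnd_sub (v i / η)
        have h3 : (v - fun i => (z i : ℝ) * η) i = η * (v i / η - rnd (v i / η)) := by
          simp only [Pi.sub_apply, hz]
          field_simp
        rw [h3, mul_pow]
        nlinarith [sq_nonneg η]
      · intro i _ hi
        simp [hv i hi, hzS i hi]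
    refine h1.trans ?_
    rw [sum_const, nsmul_eq_mul, hη2]
    have : (S.card : ℝ) ≤ s := by exact_mod_cast hS
    rw [mul_one_div, div_le_div_iff₀ (by positivity) (by norm_num)]
    linarith
  · have h1 : nsq (v + fun i => (z i : ℝ) * η) ≤ 4 * nsq v := by
      unfold nsq
      rw [mul_sum]
      apply sum_le_sum
      intro i _
      have h2 := rnd_add (v i / η)
      have h3 : (v + fun i => (z i : ℝ) * η) i = η * (v i / η + rnd (v i / η)) := by
        simp only [Pi.add_apply, hz]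
        field_simp
      have h4 : η ^ 2 * (v i / η) ^ 2 = v i ^ 2 := by
        field_simp
      rw [h3, mul_pow]
      nlinarith [sq_nonneg η]
    linarith

/-- Bootstrapping step. -/
lemma bootstrap {m n s : ℕ} (hs : 1 ≤ s) (A : Matrix (Fin m) (Fin n) ℝ)
    (hA : ∀ v ∈ Y n s, |nsq (A *ᵥ v) - nsq v| ≤ 1 / 8) (S : Finset (Fin n)) (hS : S.card ≤ s)
    (D : ℝ) (hD0 : 0 ≤ D) (hD : Bd A S D) : Bd A S (1 / 8 + D / 4) := by
  have key : ∀ x, Supp S x → nsq x ≤ 1 → |Q A x| ≤ 1 / 8 + D / 4 := by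
    intro x hx hx1
    obtain ⟨y, hyY, hyS, hy1, hy2⟩ := Y_approx n s hs S hS x hx hx1
    have h1 := polar_bound A hD (u := x - y) (v := x + y)
      (fun i hi => by simp [hx i hi, hyS i hi]) (fun i hi => by simp [hx i hi, hyS i hi]) hy1 hy2 hD0
    have h2 : Q A x - Q A y = P A (x - y) (x + y) := by
      unfold Q P nsq
      rw [Matrix.mulVec_add, Matrix.mulVec_sub]
      rw [sub_sub_sub_comm, ← sum_sub_distrib, ← sum_sub_distrib]
      congr 1 <;>
        exact sum_congr rfl (fun i _ => by simp only [Pi.add_apply, Pi.sub_apply]; ring)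
    have h3 := hA y hyY
    change |Q A y| ≤ 1 / 8 at h3
    rw [← h2] at h1
    rw [abs_le] at h1 h3 ⊢
    constructor <;> linarith
  intro v hv
  rcases eq_or_lt_of_le (nsq_nonneg v) with h0 | h0
  · have hv0 : v = 0 := by
      ext i
      have := (sum_eq_zero_iff_of_nonneg (fun i _ => sq_nonneg (v i))).mp h0.symm i (mem_univ i)
      simpa using this
    subst hv0
    simp [Q, nsq]
  · set r : ℝ := Real.sqrt (nsq v) with hr
    have hr0 : 0 < r := Real.sqrt_pos.mpr h0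
    have hr2 : r ^ 2 = nsq v := Real.sq_sqrt h0.le
    have h1 := key (r⁻¹ • v) (fun i hi => by simp [hv i hi]) (by
      rw [nsq_smul, inv_pow, hr2, inv_mul_cancel₀ h0.ne'])
    rw [Q_smul, abs_mul, abs_of_nonneg (by positivity), inv_pow, hr2, inv_mul_le_iff₀ h0] at h1
    linarith

lemma bootstrap_iter {m n s : ℕ} (hs : 1 ≤ s) (A : Matrix (Fin m) (Fin n) ℝ)
    (hA : ∀ v ∈ Y n s, |nsq (A *ᵥ v) - nsq v| ≤ 1 / 8) (S : Finset (Fin n)) (hS : S.card ≤ s)
    (K : ℝ) (hK0 : 0 ≤ K) (hK : Bd A S K) (j : ℕ) : Bd A S (1 / 6 + K * (1 / 4) ^ j) := by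
  induction j with
  | zero =>
    intro v hv
    have := hK v hv
    have h2 := nsq_nonneg v
    refine this.trans ?_
    nlinarith
  | succ j ih =>
    have := bootstrap hs A hA S hS _ (by positivity) ih
    convert this using 1
    rw [pow_succ]; ring

end T8b

theorem T8b_net : ∃ C : ℝ, 0 < C ∧ ∀ n s : ℕ, 1 ≤ s → s ≤ n →
    ∃ Y : Finset (Fin n → ℝ), (Y.card : ℝ) ≤ Real.exp (C * s * Real.log (2 * n / s)) ∧
      (∀ v ∈ Y, nsq v ≤ 1) ∧
      ∀ (m : ℕ) (A : Matrix (Fin m) (Fin n) ℝ),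
        (∀ v ∈ Y, |nsq (A *ᵥ v) - nsq v| ≤ 1 / 8) →
        ∀ v : Fin n → ℝ, nnz v ≤ s → |nsq (A *ᵥ v) - nsq v| ≤ 1 / 4 * nsq v := by
  refine ⟨100, by norm_num, fun n s hs hn => ⟨T8b.Y n s, T8b.card_Y n s hs hn,
    fun v hv => T8b.Y_nsq n s hs v hv, fun m A hA v hv => ?_⟩⟩
  obtain ⟨K, hK0, hK⟩ := T8b.exists_bd A
  obtain ⟨j, hj⟩ : ∃ j : ℕ, K * (1 / 4 : ℝ) ^ j ≤ 1 / 12 := by
    obtain ⟨j, hj⟩ := exists_pow_lt_of_lt_one (show (0 : ℝ) < 1 / (12 * (K + 1)) by positivity)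
      (show (1 / 4 : ℝ) < 1 by norm_num)
    refine ⟨j, ?_⟩
    rw [lt_div_iff₀ (by positivity)] at hj
    have : (0 : ℝ) ≤ (1 / 4) ^ j := by positivity
    nlinarith
  have h1 := T8b.bootstrap_iter hs A hA (univ.filter (fun i => v i ≠ 0)) hv K hK0
    (hK _) j v (fun i hi => by simpa using hi)
  have h2 := T8b.nsq_nonneg v
  change |T8b.Q A v| ≤ _
  refine h1.trans ?_
  nlinarith

end Pool.Agent.MP_72d76c_lc
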