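import Pool.Agent.MP_72d76c_lc.T10d
import Pool.Agent.MP_72d76c_lc.T6
import Pool.Agent.MP_72d76c_lc.T8b

/-!
# T10: fast matrices with the optimal restricted isometry property
-/

namespace Pool.Agent.MP_72d76c_lc

open Matrix Finset

theorem T10_exp {p D B s₀ : ℕ} (hD : 1 ≤ D) (hs₀ : 1 ≤ s₀)
    (h : 2 ^ p ≤ 2 * D * (p + 1) ^ 4 * s₀) (hB : B = 700 * D ^ 2 * (p + 1) ^ 8) :
    (2 ^ p : ℝ) * Real.exp (-(3 / 20) * (B * s₀ / (6 * 2 ^ p))) ≤ Real.log 2 := by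
  have hDr : (1 : ℝ) ≤ D := by exact_mod_cast hD
  have hs : (1 : ℝ) ≤ s₀ := by exact_mod_cast hs₀
  have hP : (1 : ℝ) ≤ (p : ℝ) + 1 := by
    have : (0 : ℝ) ≤ (p : ℝ) := Nat.cast_nonneg p
    linarith
  have hN : (0 : ℝ) < 2 ^ p := by positivity
  have hr : (2 : ℝ) ^ p ≤ 2 * D * ((p : ℝ) + 1) ^ 4 * s₀ := by exact_mod_cast h
  have hBr : (B : ℝ) = 700 * (D : ℝ) ^ 2 * ((p : ℝ) + 1) ^ 8 := by rw [hB]; push_cast; ring
  have h1 : ((p : ℝ) + 1) ≤ 3 / 20 * (B * s₀ / (6 * 2 ^ p)) := by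
    rw [← mul_div_assoc, le_div_iff₀ (by positivity)]
    have h2 : ((p : ℝ) + 1) * (6 * 2 ^ p) ≤ ((p : ℝ) + 1) * (6 * (2 * D * ((p : ℝ) + 1) ^ 4 * s₀)) := by
      gcongr
    refine h2.trans ?_
    rw [hBr]
    have h3 : ((p : ℝ) + 1) ^ 5 ≤ ((p : ℝ) + 1) ^ 8 := pow_le_pow_right₀ hP (by norm_num)
    have h4 : (D : ℝ) ≤ D ^ 2 := by nlinarith
    calc ((p : ℝ) + 1) * (6 * (2 * D * ((p : ℝ) + 1) ^ 4 * s₀))
        = 12 * (D * (((p : ℝ) + 1) ^ 5 * s₀)) := by ring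
      _ ≤ 12 * (D ^ 2 * (((p : ℝ) + 1) ^ 8 * s₀)) := by gcongr
      _ ≤ 105 * (D ^ 2 * (((p : ℝ) + 1) ^ 8 * s₀)) := by
          have : (0 : ℝ) ≤ D ^ 2 * (((p : ℝ) + 1) ^ 8 * s₀) := by positivity
          linarith
      _ = 3 / 20 * (700 * (D : ℝ) ^ 2 * ((p : ℝ) + 1) ^ 8 * s₀) := by ring
  have h2 : Real.exp (-(3 / 20) * (B * s₀ / (6 * 2 ^ p))) ≤ Real.exp (-((p : ℝ) + 1)) :=
    Real.exp_le_exp.2 (by linarith)
  have h3 : Real.exp (-((p : ℝ) + 1)) ≤ 1 / 2 ^ (p + 1) := by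
    rw [Real.exp_neg, ← one_div]
    apply one_div_le_one_div_of_le (by positivity)
    have : Real.exp ((p : ℝ) + 1) = Real.exp 1 ^ (p + 1) := by
      rw [← Real.exp_nat_mul]
      push_cast
      ring_nf
    rw [this]
    exact pow_le_pow_left₀ (by norm_num) (by linarith [Real.add_one_le_exp (1 : ℝ)]) _
  calc (2 ^ p : ℝ) * Real.exp (-(3 / 20) * (B * s₀ / (6 * 2 ^ p)))
      ≤ 2 ^ p * (1 / 2 ^ (p + 1)) := mul_le_mul_of_nonneg_left (h2.trans h3) hN.le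
    _ = 1 / 2 := by rw [pow_succ]; field_simp
    _ ≤ Real.log 2 := by linarith [Real.log_two_gt_d9]

theorem T10_h3 {p D B s₀ : ℕ} {Λ : ℝ} (hs₀ : 1 ≤ s₀)
    (h : 2 ^ p ≤ 2 * D * (p + 1) ^ 4 * s₀) (hB : B = 700 * D ^ 2 * (p + 1) ^ 8) (hB1 : 1 ≤ B)
    (hΛ0 : 0 < Λ) (hΛ : Λ ≤ 2 ^ p) :
    (1 / 4 : ℝ) ^ (p + 1) + 4 / 3 * (64 * Λ / (s₀ * B)) ≤ s₀ / 2 ^ p := by
  have hs : (1 : ℝ) ≤ s₀ := by exact_mod_cast hs₀
  have hBr1 : (1 : ℝ) ≤ B := by exact_mod_cast hB1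
  have hN : (0 : ℝ) < 2 ^ p := by positivity
  have hr : (2 : ℝ) ^ p ≤ 2 * D * ((p : ℝ) + 1) ^ 4 * s₀ := by exact_mod_cast h
  have hBr : (B : ℝ) = 700 * (D : ℝ) ^ 2 * ((p : ℝ) + 1) ^ 8 := by rw [hB]; push_cast; ring
  have h1 : (1 / 4 : ℝ) ^ (p + 1) ≤ 1 / 2 * (s₀ / 2 ^ p) := by
    have h4 : (4 : ℝ) ^ (p + 1) = 4 * (2 ^ p * 2 ^ p) := by
      rw [pow_succ, ← mul_pow]; norm_num; ring
    rw [div_pow, one_pow, h4, ← mul_div_assoc, div_le_div_iff₀ (by positivity) (by positivity)]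
    have h5 : (1 : ℝ) ≤ 2 ^ p := one_le_pow₀ (by norm_num)
    have h6 : (2 : ℝ) ^ p ≤ 2 ^ p * 2 ^ p := le_mul_of_one_le_left hN.le h5
    nlinarith [mul_le_mul_of_nonneg_right hs (by positivity : (0 : ℝ) ≤ 2 ^ p * 2 ^ p)]
  have h2 : 4 / 3 * (64 * Λ / (s₀ * B)) ≤ 1 / 2 * (s₀ / 2 ^ p) := by
    rw [← mul_div_assoc, ← mul_div_assoc, div_le_div_iff₀ (by positivity) (by positivity)]
    have h7 : Λ * 2 ^ p ≤ 2 ^ p * 2 ^ p := mul_le_mul_of_nonneg_right hΛ hN.le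
    have h8 : (2 : ℝ) ^ p * 2 ^ p ≤ (2 * D * ((p : ℝ) + 1) ^ 4 * s₀) *
        (2 * D * ((p : ℝ) + 1) ^ 4 * s₀) := mul_le_mul hr hr hN.le (hN.le.trans hr)
    have h9 : (2 * D * ((p : ℝ) + 1) ^ 4 * s₀) * (2 * D * ((p : ℝ) + 1) ^ 4 * s₀) =
        4 * (D ^ 2 * ((p : ℝ) + 1) ^ 8 * s₀ ^ 2) := by ring
    have h10 : (0 : ℝ) ≤ D ^ 2 * ((p : ℝ) + 1) ^ 8 * s₀ ^ 2 := by positivity
    have h11 : 1 / 2 * (s₀ : ℝ) * (s₀ * B) = 350 * (D ^ 2 * ((p : ℝ) + 1) ^ 8 * s₀ ^ 2) := by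
      rw [hBr]; ring
    rw [h11]
    nlinarith
  linarith

theorem T10_h4 {p B s₀ : ℕ} {Λ : ℝ} (hB1 : 1 ≤ B) (hΛ1 : 1 ≤ Λ) (hsN : s₀ ≤ 2 ^ p) :
    (1 / 4 : ℝ) ^ (p + B) * (s₀ / 2 ^ p) + 4 / 3 * (328 * Λ / (2 ^ p * B)) ≤
      440 * Λ / (2 ^ p * B) := by
  have hBr1 : (1 : ℝ) ≤ B := by exact_mod_cast hB1
  have hN : (0 : ℝ) < 2 ^ p := by positivity
  have hs : (s₀ : ℝ) ≤ 2 ^ p := by exact_mod_cast hsN
  have hB2 : (B : ℝ) ≤ 4 ^ B := by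
    have : B < 4 ^ B := Nat.lt_pow_self (by norm_num)
    exact_mod_cast this.le
  have h4 : (4 : ℝ) ^ (p + B) = 2 ^ p * 2 ^ p * 4 ^ B := by
    rw [pow_add, ← mul_pow]; norm_num
  have h1 : (1 / 4 : ℝ) ^ (p + B) * (s₀ / 2 ^ p) ≤ 2 * Λ / (2 ^ p * B) := by
    rw [div_pow, one_pow, h4, div_mul_div_comm, one_mul,
      div_le_div_iff₀ (by positivity) (by positivity)]
    have h5 : (1 : ℝ) ≤ 2 ^ p := one_le_pow₀ (by norm_num)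
    calc (s₀ : ℝ) * (2 ^ p * B) ≤ 2 ^ p * (2 ^ p * 4 ^ B) := by gcongr
      _ ≤ Λ * (2 ^ p * (2 ^ p * 4 ^ B)) := le_mul_of_one_le_left (by positivity) hΛ1
      _ ≤ Λ * (2 ^ p * (2 ^ p * 4 ^ B)) * 2 ^ p :=
          le_mul_of_one_le_right (by positivity) h5
      _ ≤ 2 * Λ * (2 ^ p * 2 ^ p * 4 ^ B * 2 ^ p) := by
          have : 0 ≤ Λ * (2 ^ p * (2 ^ p * 4 ^ B)) * 2 ^ p := by positivity
          nlinarith
  have h2 : 2 * Λ / (2 ^ p * B) + 4 / 3 * (328 * Λ / (2 ^ p * B)) ≤ 440 * Λ / (2 ^ p * B) := by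
    rw [← mul_div_assoc, ← add_div]
    apply div_le_div_of_nonneg_right _ (by positivity)
    linarith
  linarith

theorem T10_cost {N P B C9 p : ℕ} (hP : P = p + 1) (hB1 : 1 ≤ B) :
    (p + B + (p + 1)) * roundCost N B (C9 * N * (p + 1)) + 5 * (N * B) ≤
      (9 * C9 + 35) * (N * (B ^ 3 * P ^ 2)) := by
  have hP1 : 1 ≤ P := by omega
  rw [← hP]
  have h1 : roundCost N B (C9 * N * P) ≤ (3 * C9 + 10) * (N * (B ^ 2 * P)) := by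
    unfold roundCost
    have e1 : B * (C9 * N * P) ≤ C9 * (N * (B ^ 2 * P)) := by
      calc B * (C9 * N * P) = C9 * (N * (B * P)) := by ring
        _ ≤ C9 * (N * (B ^ 2 * P)) := by
          gcongr
          nlinarith
    have e2 : N * (B * (3 * B + 1)) ≤ 4 * (N * (B ^ 2 * P)) := by
      calc N * (B * (3 * B + 1)) ≤ N * (B * (3 * B + B)) := by gcongr
        _ = 4 * (N * (B ^ 2 * 1)) := by ring
        _ ≤ 4 * (N * (B ^ 2 * P)) := by gcongr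
    have e3 : B * (2 * (C9 * N * P) + N * 2) ≤ (2 * C9 + 2) * (N * (B ^ 2 * P)) := by
      calc B * (2 * (C9 * N * P) + N * 2) = 2 * (B * (C9 * N * P)) + 2 * (N * (B * 1 * 1)) := by ring
        _ ≤ 2 * (C9 * (N * (B ^ 2 * P))) + 2 * (N * (B * B * P)) := by gcongr
        _ = (2 * C9 + 2) * (N * (B ^ 2 * P)) := by ring
    linarith
  have h2 : p + B + P ≤ 3 * (B * P) := by
    have : p ≤ P := by omega
    nlinarith
  calc (p + B + P) * roundCost N B (C9 * N * P) + 5 * (N * B)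
      ≤ (3 * (B * P)) * ((3 * C9 + 10) * (N * (B ^ 2 * P))) + 5 * (N * (B * 1 * 1 * 1)) := by
        have := Nat.mul_le_mul h2 h1
        linarith
    _ ≤ (3 * (B * P)) * ((3 * C9 + 10) * (N * (B ^ 2 * P))) + 5 * (N * (B * (B ^ 2) * P * P)) := by
        gcongr
        exact Nat.one_le_pow _ _ hB1
    _ = (9 * C9 + 35) * (N * (B ^ 3 * P ^ 2)) := by ring

theorem T10_K (D W : ℕ) : ∃ K : ℕ, W ≤ 2 ^ K ∧ ∀ x : ℕ, K ≤ x → D * (x + 1) ^ 4 ≤ 2 ^ x := by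
  have h := tendsto_pow_const_div_const_pow_of_one_lt 4 (show (1 : ℝ) < 2 by norm_num)
  have h2 := h.eventually (gt_mem_nhds (show (0 : ℝ) < 1 / (16 * (D + 1)) by positivity))
  obtain ⟨K₁, hK₁⟩ := Filter.eventually_atTop.1 h2
  refine ⟨K₁ + W + 1, ?_, fun x hx => ?_⟩
  · calc W ≤ 2 ^ W := (Nat.lt_pow_self (by norm_num)).le
      _ ≤ 2 ^ (K₁ + W + 1) := Nat.pow_le_pow_right (by norm_num) (by omega)
  · have h3 := hK₁ x (by omega)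
    rw [div_lt_div_iff₀ (by positivity) (by positivity)] at h3
    have hx1 : (1 : ℝ) ≤ x := by exact_mod_cast (by omega : 1 ≤ x)
    have h4 : ((x : ℝ) + 1) ^ 4 ≤ 16 * (x : ℝ) ^ 4 := by
      calc ((x : ℝ) + 1) ^ 4 ≤ (2 * x) ^ 4 := by gcongr; linarith
        _ = 16 * (x : ℝ) ^ 4 := by ring
    have h5 : (D : ℝ) * ((x : ℝ) + 1) ^ 4 ≤ 2 ^ x := by
      calc (D : ℝ) * ((x : ℝ) + 1) ^ 4 ≤ (D + 1) * (16 * (x : ℝ) ^ 4) := by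
            gcongr
            linarith
        _ = (x : ℝ) ^ 4 * (16 * (D + 1)) := by ring
        _ ≤ 2 ^ x := by linarith
    exact_mod_cast h5

theorem T10_W (C9 D K : ℕ) (hD : 1 ≤ D) : ∃ W : ℕ, ∀ n p B : ℕ, B = 700 * D ^ 2 * (p + 1) ^ 8 →
    2 ^ p ≤ 2 ^ (K + 1) * n → p + 1 ≤ (K + 2) * (Nat.log 2 n + 1) →
    (p + B + (p + 1)) * roundCost (2 ^ p) B (C9 * 2 ^ p * (p + 1)) + 5 * (2 ^ p * B) ≤
      W * n * (Nat.log 2 n + 1) ^ 26 := by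
  refine ⟨(9 * C9 + 35) * ((700 * D ^ 2) ^ 3 * (2 ^ (K + 1) * (K + 2) ^ 26)), ?_⟩
  intro n p B hB hN2 hPle
  have hB1 : 1 ≤ B := by
    rw [hB]
    exact Nat.one_le_iff_ne_zero.2 (by positivity)
  refine (T10_cost rfl hB1).trans ?_
  rw [hB]
  generalize 700 * D ^ 2 = KB
  generalize 2 ^ p = N at hN2 ⊢
  generalize p + 1 = P at hPle ⊢
  generalize Nat.log 2 n + 1 = l at hPle ⊢
  generalize 2 ^ (K + 1) = E at hN2 ⊢
  generalize K + 2 = F at hPle ⊢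
  calc (9 * C9 + 35) * (N * ((KB * P ^ 8) ^ 3 * P ^ 2))
      = (9 * C9 + 35) * (KB ^ 3 * (N * P ^ 26)) := by ring
    _ ≤ (9 * C9 + 35) * (KB ^ 3 * ((E * n) * (F * l) ^ 26)) := by gcongr
    _ = (9 * C9 + 35) * (KB ^ 3 * (E * F ^ 26)) * n * l ^ 26 := by
        rw [mul_pow]
        ring

theorem T10_rip : ∃ C a : ℕ, ∀ n s : ℕ, 1 ≤ s → s ≤ n →
    ∃ (m : ℕ) (A : Matrix (Fin m) (Fin n) ℝ),
      (m : ℝ) ≤ C * s * Real.log (2 * n / s) ∧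
      ComputesIn (C * n * (Nat.log 2 n + 1) ^ a) (fun x => A *ᵥ x) ∧
      ComputesIn (C * n * (Nat.log 2 n + 1) ^ a) (fun y => Aᵀ *ᵥ y) ∧
      ∀ v : Fin n → ℝ, nnz v ≤ s → |nsq (A *ᵥ v) - nsq v| ≤ 1 / 4 * nsq v := by
  obtain ⟨C8, hC8, hnet⟩ := T8b_net
  obtain ⟨C9, hwh⟩ := T9_wh_cost
  obtain ⟨c, hc, hwup⟩ := T6_wup
  obtain ⟨K8, hK8⟩ := exists_nat_ge C8
  obtain ⟨D0, hD0⟩ := exists_nat_ge (1 / c)
  obtain ⟨D, hDdef⟩ : ∃ D : ℕ, D = D0 + 6 := ⟨_, rfl⟩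
  have hDc : 1 ≤ c * D := by
    rw [div_le_iff₀ hc] at hD0
    rw [hDdef]
    push_cast
    nlinarith
  have hD6 : 6 ≤ D := by omega
  obtain ⟨K, hK1, hK2⟩ := T10_K D (4 * 10 ^ 7 * (K8 + 2))
  obtain ⟨W, hW0⟩ := T10_W C9 D K (by omega)
  refine ⟨2 * 10 ^ 7 * (K8 + 2) + W, 26, fun n s hs hsn => ?_⟩
  have hn1 : 1 ≤ n := hs.trans hsn
  have hsr : (1 : ℝ) ≤ s := by exact_mod_cast hs
  have hsnr : (s : ℝ) ≤ n := by exact_mod_cast hsn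
  have hnr : (1 : ℝ) ≤ n := by exact_mod_cast hn1
  have hq : (2 : ℝ) ≤ 2 * n / s := by
    rw [le_div_iff₀ (by linarith)]
    linarith
  obtain ⟨ℓ, hℓ⟩ : ∃ ℓ : ℝ, ℓ = Real.log (2 * n / s) := ⟨_, rfl⟩
  have hℓ2 : Real.log 2 ≤ ℓ := by
    rw [hℓ]
    exact Real.log_le_log (by norm_num) hq
  have hl2 := Real.log_two_gt_d9
  have hℓpos : 0 < ℓ := by linarith
  have hsℓ : (s : ℝ) * ℓ ≤ 2 * n := by
    have h1 : ℓ ≤ 2 * n / s := by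
      rw [hℓ]
      exact (Real.log_le_sub_one_of_pos (by linarith)).trans (by linarith)
    calc (s : ℝ) * ℓ ≤ s * (2 * n / s) := by gcongr
      _ = 2 * n := by field_simp
  have hsℓ2 : 69 / 100 ≤ (s : ℝ) * ℓ := by nlinarith
  obtain ⟨Λ, hΛdef⟩ : ∃ Λ : ℝ, Λ = (K8 + 2) * (s * ℓ) := ⟨_, rfl⟩
  have hK8r : (0 : ℝ) ≤ K8 := Nat.cast_nonneg _
  have hΛ1 : 1 ≤ Λ := by rw [hΛdef]; nlinarith
  have hΛn : Λ ≤ 2 * (K8 + 2) * n := by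
    rw [hΛdef]
    calc ((K8 : ℝ) + 2) * (s * ℓ) ≤ (K8 + 2) * (2 * n) := by gcongr
      _ = 2 * (K8 + 2) * n := by ring
  obtain ⟨Y, hYc, hY1, hYnet⟩ := hnet n s hs hsn
  obtain ⟨M, hMdef⟩ : ∃ M : ℕ, M = max 1 Y.card := ⟨_, rfl⟩
  have hM1 : 1 ≤ M := by rw [hMdef]; exact le_max_left _ _
  have hYM : Y.card ≤ M := by rw [hMdef]; exact le_max_right _ _
  have hMΛ : Real.log (3 * M) ≤ Λ := by
    have h1 : (M : ℝ) ≤ Real.exp (K8 * (s * ℓ)) := by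
      rw [hMdef]
      push_cast
      refine max_le (Real.one_le_exp (by positivity)) (hYc.trans (Real.exp_le_exp.2 ?_))
      rw [← hℓ, mul_assoc]
      gcongr
    have hMr : (1 : ℝ) ≤ M := by exact_mod_cast hM1
    rw [Real.log_mul (by norm_num) (by linarith)]
    have h2 : Real.log M ≤ K8 * (s * ℓ) := by
      rw [← Real.log_exp (K8 * (s * ℓ))]
      exact Real.log_le_log (by linarith) h1
    have h3 : Real.log 3 ≤ 2 * (s * ℓ) := by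
      have : Real.log 3 ≤ Real.log (2 ^ 2) := Real.log_le_log (by norm_num) (by norm_num)
      rw [Real.log_pow] at this
      push_cast at this
      nlinarith
    rw [hΛdef]
    linarith
  -- the number of rows
  obtain ⟨r₀, hr₀, hr₁⟩ := exists_nat_pow_near (x := 10 ^ 7 * Λ) (y := (2 : ℝ)) (by linarith)
    (by norm_num)
  obtain ⟨r, hr⟩ : ∃ r : ℕ, r = r₀ + 1 := ⟨_, rfl⟩
  rw [← hr] at hr₁
  have hr₂ : (2 : ℝ) ^ r ≤ 2 * (10 ^ 7 * Λ) := by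
    rw [hr, pow_succ]
    linarith
  -- the exponent p
  obtain ⟨p, hp⟩ : ∃ p : ℕ, p = Nat.log 2 n + 1 + K := ⟨_, rfl⟩
  have hnp : n * 2 ^ K ≤ 2 ^ p := by
    rw [hp, pow_add]
    exact Nat.mul_le_mul_right _ (Nat.lt_pow_succ_log_self (by norm_num) n).le
  have hK1r : 4 * 10 ^ 7 * ((K8 : ℝ) + 2) ≤ 2 ^ K := by exact_mod_cast hK1
  have hnpr : (n : ℝ) * 2 ^ K ≤ 2 ^ p := by exact_mod_cast hnp
  have hKn : 4 * 10 ^ 7 * ((K8 : ℝ) + 2) * n ≤ 2 ^ p := by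
    calc 4 * 10 ^ 7 * ((K8 : ℝ) + 2) * n ≤ 2 ^ K * n := by gcongr
      _ = n * 2 ^ K := by ring
      _ ≤ 2 ^ p := hnpr
  have hrp : r ≤ p := by
    have h1 : (2 : ℝ) ^ r ≤ 2 ^ p := by
      refine hr₂.trans (le_trans ?_ hKn)
      calc 2 * (10 ^ 7 * Λ) ≤ 2 * (10 ^ 7 * (2 * ((K8 : ℝ) + 2) * n)) := by gcongr
        _ = 4 * 10 ^ 7 * ((K8 : ℝ) + 2) * n := by ring
    exact (pow_le_pow_iff_right₀ (by norm_num)).1 h1
  have hn2p : n ≤ 2 ^ p := (Nat.le_mul_of_pos_right n (by positivity)).trans hnp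
  have hΛp : Λ ≤ 2 ^ p := by
    refine hΛn.trans (le_trans ?_ hKn)
    gcongr
    norm_num
  have hN2 : 2 ^ p ≤ 2 ^ (K + 1) * n := by
    rw [hp]
    have h1 : 2 ^ Nat.log 2 n ≤ n := Nat.pow_log_le_self 2 (by omega)
    calc 2 ^ (Nat.log 2 n + 1 + K) = 2 ^ (K + 1) * 2 ^ Nat.log 2 n := by
          rw [← pow_add]; congr 1; omega
      _ ≤ 2 ^ (K + 1) * n := Nat.mul_le_mul_left _ h1
  have hPle : p + 1 ≤ (K + 2) * (Nat.log 2 n + 1) := by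
    calc p + 1 = Nat.log 2 n + (K + 2) := by rw [hp]; ring
      _ ≤ K * Nat.log 2 n + Nat.log 2 n + Nat.log 2 n + (K + 2) := by
          have := Nat.zero_le (K * Nat.log 2 n)
          omega
      _ = (K + 2) * (Nat.log 2 n + 1) := by ring
  -- the sparsity s₀
  have hDp : D * (p + 1) ^ 4 ≤ 2 ^ p := hK2 p (by omega)
  have hDpos : 0 < D * (p + 1) ^ 4 := by positivity
  obtain ⟨s₀, hs₀def⟩ : ∃ s₀ : ℕ, s₀ = 2 ^ p / (D * (p + 1) ^ 4) := ⟨_, rfl⟩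
  have hs₀ : 1 ≤ s₀ := by
    rw [hs₀def]
    exact (Nat.one_le_div_iff hDpos).2 hDp
  have hs₀a : D * (p + 1) ^ 4 * s₀ ≤ 2 ^ p := by
    rw [hs₀def]
    exact Nat.mul_div_le _ _
  have hs₀b : 2 ^ p ≤ 2 * D * (p + 1) ^ 4 * s₀ := by
    have h1 : 2 ^ p < D * (p + 1) ^ 4 * (s₀ + 1) := by
      rw [hs₀def]
      exact Nat.lt_mul_div_succ _ hDpos
    have h2 : D * (p + 1) ^ 4 * (s₀ + 1) ≤ D * (p + 1) ^ 4 * (2 * s₀) :=
      Nat.mul_le_mul_left _ (by omega)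
    calc 2 ^ p ≤ D * (p + 1) ^ 4 * (2 * s₀) := h1.le.trans h2
      _ = 2 * D * (p + 1) ^ 4 * s₀ := by ring
  have hP1 : 1 ≤ (p + 1) ^ 4 := Nat.one_le_pow _ _ (by omega)
  have hsN : 6 * s₀ ≤ 2 ^ p := by
    refine le_trans ?_ hs₀a
    calc 6 * s₀ = 6 * 1 * s₀ := by ring
      _ ≤ D * (p + 1) ^ 4 * s₀ := by gcongr
  -- weak uncertainty principle
  obtain ⟨ε, hε, hW⟩ := hwup (Fin p → Bool) (wh p) (by rw [T9_wh_symm, T9_wh_mul_self])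
    (fun i j => by
      rw [T9_wh_entry, Fintype.card_fun, Fintype.card_bool, Fintype.card_fin]
      push_cast
      exact le_rfl) s₀ (by
      rw [Fintype.card_fun, Fintype.card_bool, Fintype.card_fin]
      push_cast
      have h1 : (2 : ℝ) * 2 ^ p = 2 ^ (p + 1) := by ring
      rw [h1, Real.log_pow]
      push_cast
      have h2 : ((p : ℝ) + 1) * Real.log 2 ≤ (p : ℝ) + 1 := by
        have : Real.log 2 ≤ 1 := by linarith [Real.log_two_lt_d9]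
        have h0 : (0 : ℝ) ≤ (p : ℝ) + 1 := by positivity
        nlinarith
      have h3 : (((p : ℝ) + 1) * Real.log 2) ^ 4 ≤ ((p : ℝ) + 1) ^ 4 := by
        have : 0 ≤ ((p : ℝ) + 1) * Real.log 2 := by positivity
        gcongr
      have h4 : (D : ℝ) * ((p : ℝ) + 1) ^ 4 * s₀ ≤ 2 ^ p := by exact_mod_cast hs₀a
      calc (s₀ : ℝ) * (((p : ℝ) + 1) * Real.log 2) ^ 4 ≤ s₀ * ((p : ℝ) + 1) ^ 4 := by gcongr
        _ ≤ (c * D) * (s₀ * ((p : ℝ) + 1) ^ 4) := le_mul_of_one_le_left (by positivity) hDc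
        _ = c * (D * ((p : ℝ) + 1) ^ 4 * s₀) := by ring
        _ ≤ c * 2 ^ p := by gcongr)
  obtain ⟨B, hB⟩ : ∃ B : ℕ, B = 700 * D ^ 2 * (p + 1) ^ 8 := ⟨_, rfl⟩
  have hB1 : 1 ≤ B := by
    rw [hB]
    exact Nat.one_le_iff_ne_zero.2 (by positivity)
  obtain ⟨A, hA1, hA2, hA3⟩ := T10_core (cH := C9 * 2 ^ p * (p + 1)) hB1 hrp hn2p
    (fast_wh (hwh p)) ε hε s₀ hs₀ hW hsN M hM1 Λ hMΛ
    (T10_exp (by omega) hs₀ hs₀b hB) (p + 1) (p + B)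
    (T10_h3 hs₀ hs₀b hB hB1 (by linarith) hΛp)
    (T10_h4 hB1 hΛ1 (by omega)) hr₁.le Y hYM hY1
  have hcost : (p + B + (p + 1)) * roundCost (2 ^ p) B (C9 * 2 ^ p * (p + 1)) + 5 * (2 ^ p * B) ≤
      (2 * 10 ^ 7 * (K8 + 2) + W) * n * (Nat.log 2 n + 1) ^ 26 := by
    refine (hW0 n p B hB hN2 hPle).trans ?_
    exact Nat.mul_le_mul_right _ (Nat.mul_le_mul_right _ (Nat.le_add_left _ _))
  refine ⟨2 ^ r, A, ?_, hA1.mono hcost, hA2.mono hcost, hYnet _ A hA3⟩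
  push_cast
  rw [← hℓ]
  refine hr₂.trans ?_
  rw [hΛdef]
  calc 2 * (10 ^ 7 * (((K8 : ℝ) + 2) * (s * ℓ))) = 2 * 10 ^ 7 * ((K8 : ℝ) + 2) * (s * ℓ) := by ring
    _ ≤ (2 * 10 ^ 7 * ((K8 : ℝ) + 2) + W) * (s * ℓ) := by
        refine mul_le_mul_of_nonneg_right ?_ (mul_nonneg (by positivity) hℓpos.le)
        exact le_add_of_nonneg_right (Nat.cast_nonneg _)
    _ = (20000000 * ((K8 : ℝ) + 2) + W) * s * ℓ := by ring

end Pool.Agent.MP_72d76c_lc
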