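import Pool.Agent.MP_72d76c_lc.T7
import Pool.Agent.MP_72d76c_lc.Circuit

/-!
# T10a: truncation, excess energy, the flattening round
-/

namespace Pool.Agent.MP_72d76c_lc

open Matrix Finset

section basic

variable {ι : Type*} [Fintype ι]

theorem nsq_nonneg (x : ι → ℝ) : 0 ≤ nsq x := sum_nonneg fun _ _ => sq_nonneg _

theorem nsq_smul (c : ℝ) (x : ι → ℝ) : nsq (c • x) = c ^ 2 * nsq x := by
  simp only [nsq, Pi.smul_apply, smul_eq_mul, mul_pow, mul_sum]

theorem nsq_add_le (x y : ι → ℝ) : nsq (x + y) ≤ 2 * nsq x + 2 * nsq y := by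
  simp only [nsq, Pi.add_apply, mul_sum, ← Finset.sum_add_distrib]
  exact sum_le_sum fun i _ => by nlinarith [sq_nonneg (x i - y i)]

theorem dot_le (x y : ι → ℝ) : x ⬝ᵥ y ≤ √(nsq x) * √(nsq y) := by
  rw [← Real.sqrt_mul (nsq_nonneg x)]
  refine Real.le_sqrt_of_sq_le ?_
  exact Finset.sum_mul_sq_le_sq_mul_sq univ x y

theorem nsq_add (x y : ι → ℝ) : nsq (x + y) = nsq x + 2 * (x ⬝ᵥ y) + nsq y := by
  simp only [nsq, dotProduct, Pi.add_apply, mul_sum, ← Finset.sum_add_distrib]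
  exact sum_congr rfl fun i _ => by ring

theorem sqrt_nsq_add_le (x y : ι → ℝ) : √(nsq (x + y)) ≤ √(nsq x) + √(nsq y) := by
  refine Real.sqrt_le_iff.2 ⟨by positivity, ?_⟩
  rw [nsq_add, add_sq, Real.sq_sqrt (nsq_nonneg x), Real.sq_sqrt (nsq_nonneg y)]
  have := dot_le x y
  nlinarith

/-- Orthogonal matrices preserve the norm. -/
theorem nsq_mulVec_orth [DecidableEq ι] {A : Matrix ι ι ℝ} (hA : A * Aᵀ = 1) (x : ι → ℝ) :
    nsq (A *ᵥ x) = nsq x := by
  have h3 : Aᵀ * A = 1 := mul_eq_one_comm.1 hA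
  rw [nsq_eq_dotProduct, nsq_eq_dotProduct, dotProduct_mulVec, ← mulVec_transpose, mulVec_mulVec,
    h3, one_mulVec]

end basic

section blocks

set_option linter.unusedSectionVars false

variable {ι β : Type} [Fintype ι] [Fintype β]

/-- The block `b` of `y`. -/
def row (y : ι × β → ℝ) (b : ι) : β → ℝ := fun j => y (b, j)

theorem nsq_eq_sum_row (y : ι × β → ℝ) : nsq y = ∑ b, nsq (row y b) := by
  simp only [nsq, row, Fintype.sum_prod_type]

/-- The Euclidean norm of block `b`. -/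
noncomputable def bn (y : ι × β → ℝ) (b : ι) : ℝ := √(nsq (row y b))

theorem bn_nonneg (y : ι × β → ℝ) (b : ι) : 0 ≤ bn y b := Real.sqrt_nonneg _

theorem bn_sq (y : ι × β → ℝ) (b : ι) : bn y b ^ 2 = nsq (row y b) :=
  Real.sq_sqrt (nsq_nonneg _)

theorem bn_add_le (u v : ι × β → ℝ) (b : ι) : bn (u + v) b ≤ bn u b + bn v b :=
  sqrt_nsq_add_le (row u b) (row v b)

/-- The excess energy over the level `a`. -/
noncomputable def G (a : ℝ) (y : ι × β → ℝ) : ℝ := ∑ b, (max 0 (bn y b - a)) ^ 2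

/-- Truncation of every block at the level `a`. -/
noncomputable def trunc (a : ℝ) (y : ι × β → ℝ) : ι × β → ℝ :=
  fun p => if bn y p.1 ≤ a then y p else a / bn y p.1 * y p

theorem G_nonneg (a : ℝ) (y : ι × β → ℝ) : 0 ≤ G a y := sum_nonneg fun _ _ => sq_nonneg _

theorem row_trunc (a : ℝ) (y : ι × β → ℝ) (b : ι) :
    row (trunc a y) b = if bn y b ≤ a then row y b else (a / bn y b) • row y b := by
  funext j
  simp only [row, trunc]
  split_ifs <;> simp [row]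

theorem bn_trunc_le (a : ℝ) (ha : 0 ≤ a) (y : ι × β → ℝ) (b : ι) :
    nsq (row (trunc a y) b) ≤ a ^ 2 := by
  rw [row_trunc]
  split_ifs with h
  · rw [← bn_sq]
    exact pow_le_pow_left₀ (bn_nonneg y b) h 2
  · push Not at h
    have hb : 0 < bn y b := lt_of_le_of_lt ha h
    rw [nsq_smul, ← bn_sq, div_pow, div_mul_cancel₀ _ (by positivity)]

theorem bn_trunc_le' (a : ℝ) (ha : 0 ≤ a) (y : ι × β → ℝ) (b : ι) :
    nsq (row (trunc a y) b) ≤ nsq (row y b) := by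
  rw [row_trunc]
  split_ifs with h
  · exact le_rfl
  · push Not at h
    have hb : 0 < bn y b := lt_of_le_of_lt ha h
    rw [nsq_smul]
    refine mul_le_of_le_one_left (nsq_nonneg _) ?_
    rw [div_pow, div_le_one (by positivity)]
    exact pow_le_pow_left₀ ha h.le 2

theorem nsq_rest (a : ℝ) (ha : 0 ≤ a) (y : ι × β → ℝ) (b : ι) :
    nsq (row (y - trunc a y) b) = (max 0 (bn y b - a)) ^ 2 := by
  have h1 : row (y - trunc a y) b = row y b - row (trunc a y) b := rfl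
  rw [h1, row_trunc]
  split_ifs with h
  · rw [max_eq_left (by linarith)]
    simp [nsq]
  · push Not at h
    have hb : 0 < bn y b := lt_of_le_of_lt ha h
    rw [max_eq_right (by linarith)]
    have h2 : row y b - (a / bn y b) • row y b = (1 - a / bn y b) • row y b := by
      rw [sub_smul, one_smul]
    rw [h2, nsq_smul, ← bn_sq, ← mul_pow]
    congr 1
    field_simp

theorem nsq_sub_trunc (a : ℝ) (ha : 0 ≤ a) (y : ι × β → ℝ) : nsq (y - trunc a y) = G a y := by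
  rw [nsq_eq_sum_row, G]
  exact sum_congr rfl fun b _ => nsq_rest a ha y b

theorem nsq_trunc_le (a : ℝ) (ha : 0 ≤ a) (y : ι × β → ℝ) : nsq (trunc a y) ≤ nsq y := by
  rw [nsq_eq_sum_row, nsq_eq_sum_row y]
  exact sum_le_sum fun b _ => bn_trunc_le' a ha y b

theorem G_add_le (a₁ a₂ : ℝ) (u v : ι × β → ℝ) :
    G (a₁ + a₂) (u + v) ≤ 2 * G a₁ u + 2 * G a₂ v := by
  simp only [G, mul_sum, ← Finset.sum_add_distrib]
  refine sum_le_sum fun b _ => ?_
  have h1 : max 0 (bn (u + v) b - (a₁ + a₂)) ≤ max 0 (bn u b - a₁) + max 0 (bn v b - a₂) := by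
    refine max_le (by positivity) ?_
    have := bn_add_le u v b
    have h2 := le_max_right 0 (bn u b - a₁)
    have h3 := le_max_right 0 (bn v b - a₂)
    linarith
  have h0 : 0 ≤ max 0 (bn (u + v) b - (a₁ + a₂)) := le_max_left _ _
  calc (max 0 (bn (u + v) b - (a₁ + a₂))) ^ 2
      ≤ (max 0 (bn u b - a₁) + max 0 (bn v b - a₂)) ^ 2 := pow_le_pow_left₀ h0 h1 2
    _ ≤ _ := by nlinarith [sq_nonneg (max 0 (bn u b - a₁) - max 0 (bn v b - a₂))]

theorem G_le_excess (a : ℝ) (ha : 0 ≤ a) (y : ι × β → ℝ) :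
    G a y ≤ ∑ b, max 0 (nsq (row y b) - a ^ 2) := by
  refine sum_le_sum fun b _ => ?_
  have h0 := bn_nonneg y b
  rcases le_total (bn y b - a) 0 with h | h
  · rw [max_eq_left h]
    simp
  · rw [max_eq_right h, ← bn_sq]
    refine le_max_of_le_right ?_
    nlinarith

theorem G_anti {a a' : ℝ} (h : a ≤ a') (y : ι × β → ℝ) : G a' y ≤ G a y := by
  refine sum_le_sum fun b _ => pow_le_pow_left₀ (le_max_left _ _) ?_ 2
  exact max_le_max le_rfl (by linarith)

theorem G_le_nsq (a : ℝ) (ha : 0 ≤ a) (y : ι × β → ℝ) : G a y ≤ nsq y := by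
  rw [nsq_eq_sum_row]
  refine sum_le_sum fun b _ => ?_
  rw [← bn_sq]
  refine pow_le_pow_left₀ (le_max_left _ _) (max_le (bn_nonneg y b) (by linarith)) 2

/-- The number of blocks above level `a`, Chebyshev. -/
theorem card_heavy_mul_le (a : ℝ) (ha : 0 ≤ a) (y : ι × β → ℝ) :
    ((univ.filter fun b => a < bn y b).card : ℝ) * a ^ 2 ≤ nsq y := by
  rw [nsq_eq_sum_row, ← nsmul_eq_mul]
  calc (univ.filter fun b => a < bn y b).card • a ^ 2
      ≤ ∑ b ∈ univ.filter fun b => a < bn y b, nsq (row y b) := by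
        refine card_nsmul_le_sum _ _ _ fun b hb => ?_
        rw [← bn_sq]
        exact pow_le_pow_left₀ ha (mem_filter.1 hb).2.le 2
    _ ≤ ∑ b, nsq (row y b) :=
        sum_le_sum_of_subset_of_nonneg (subset_univ _) fun b _ _ => nsq_nonneg _

theorem card_heavy_two_mul_le (a : ℝ) (ha : 0 ≤ a) (y : ι × β → ℝ) :
    ((univ.filter fun b => 2 * a < bn y b).card : ℝ) * a ^ 2 ≤ G a y := by
  rw [G, ← nsmul_eq_mul]
  calc (univ.filter fun b => 2 * a < bn y b).card • a ^ 2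
      ≤ ∑ b ∈ univ.filter fun b => 2 * a < bn y b, (max 0 (bn y b - a)) ^ 2 := by
        refine card_nsmul_le_sum _ _ _ fun b hb => ?_
        have := (mem_filter.1 hb).2
        exact pow_le_pow_left₀ ha (le_max_of_le_right (by linarith)) 2
    _ ≤ ∑ b, (max 0 (bn y b - a)) ^ 2 :=
        sum_le_sum_of_subset_of_nonneg (subset_univ _) fun b _ _ => sq_nonneg _

theorem G_le_heavy (a : ℝ) (ha : 0 ≤ a) (y : ι × β → ℝ) :
    G a y ≤ ∑ b ∈ univ.filter (fun b => a < bn y b), nsq (row y b) := by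
  rw [G, Finset.sum_filter]
  refine sum_le_sum fun b _ => ?_
  split_ifs with h
  · rw [← bn_sq]
    refine pow_le_pow_left₀ (le_max_left _ _) (max_le (bn_nonneg y b) (by linarith)) 2
  · push Not at h
    rw [max_eq_left (by linarith)]
    simp

section ops

variable [DecidableEq ι] [DecidableEq β]

/-- `Z ⊗ 1`: the matrix `Z` acting on the block index. -/
def KZ (β : Type) [DecidableEq β] (Z : Matrix ι ι ℝ) : Matrix (ι × β) (ι × β) ℝ :=
  fun p q => if p.2 = q.2 then Z p.1 q.1 else 0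

/-- The block diagonal matrix with blocks `Q b`. -/
def RQ (Q : ι → Matrix β β ℝ) : Matrix (ι × β) (ι × β) ℝ :=
  fun p q => if p.1 = q.1 then Q p.1 p.2 q.2 else 0

theorem KZ_mulVec (Z : Matrix ι ι ℝ) (y : ι × β → ℝ) (p : ι × β) :
    (KZ β Z *ᵥ y) p = ∑ b, Z p.1 b * y (b, p.2) := by
  simp only [mulVec, dotProduct, KZ, Fintype.sum_prod_type, ite_mul, zero_mul]
  refine sum_congr rfl fun b _ => ?_
  rw [Finset.sum_ite_eq]
  simp

theorem RQ_mulVec (Q : ι → Matrix β β ℝ) (y : ι × β → ℝ) (p : ι × β) :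
    (RQ Q *ᵥ y) p = (Q p.1 *ᵥ row y p.1) p.2 := by
  simp only [mulVec, dotProduct, RQ, Fintype.sum_prod_type, ite_mul, zero_mul, row]
  rw [Finset.sum_eq_single p.1]
  · simp
  · intro b _ hb
    simp [Ne.symm hb]
  · simp

theorem row_RQ (Q : ι → Matrix β β ℝ) (y : ι × β → ℝ) (b : ι) :
    row (RQ Q *ᵥ y) b = Q b *ᵥ row y b := by
  funext j
  simp only [row]
  rw [RQ_mulVec]

theorem KZ_transpose (Z : Matrix ι ι ℝ) : (KZ β Z)ᵀ = KZ β Zᵀ := by
  ext p q
  simp only [transpose_apply, KZ, eq_comm]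

theorem RQ_transpose (Q : ι → Matrix β β ℝ) : (RQ Q)ᵀ = RQ (fun b => (Q b)ᵀ) := by
  ext p q
  simp only [transpose_apply, RQ]
  by_cases h : p.1 = q.1
  · simp [h]
  · rw [if_neg h, if_neg (Ne.symm h)]

theorem KZ_mul (Z Z' : Matrix ι ι ℝ) : KZ β Z * KZ β Z' = KZ β (Z * Z') := by
  ext p q
  simp only [Matrix.mul_apply, KZ, Fintype.sum_prod_type, ite_mul, zero_mul]
  by_cases h : p.2 = q.2
  · rw [if_pos h]
    refine sum_congr rfl fun b _ => ?_
    rw [Finset.sum_ite_eq]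
    simp [h]
  · rw [if_neg h]
    refine sum_eq_zero fun b _ => ?_
    rw [Finset.sum_ite_eq]
    simp [h]

theorem KZ_one : KZ β (1 : Matrix ι ι ℝ) = 1 := by
  ext p q
  simp only [KZ, Matrix.one_apply]
  by_cases h : p = q
  · subst h; simp
  · rw [if_neg h]
    by_cases h2 : p.2 = q.2
    · rw [if_pos h2, if_neg fun h1 => h (Prod.ext h1 h2)]
    · rw [if_neg h2]

theorem RQ_mul (Q Q' : ι → Matrix β β ℝ) : RQ Q * RQ Q' = RQ (fun b => Q b * Q' b) := by
  ext p q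
  simp only [Matrix.mul_apply, RQ, Fintype.sum_prod_type, ite_mul, zero_mul]
  rw [Finset.sum_eq_single p.1]
  · by_cases h : p.1 = q.1 <;> simp [h]
  · intro b _ hb
    simp [Ne.symm hb]
  · simp

theorem RQ_one : RQ (fun _ : ι => (1 : Matrix β β ℝ)) = 1 := by
  ext p q
  simp only [RQ, Matrix.one_apply]
  by_cases h : p = q
  · subst h; simp
  · rw [if_neg h]
    by_cases h2 : p.1 = q.1
    · rw [if_pos h2, if_neg fun h1 => h (Prod.ext h2 h1)]
    · rw [if_neg h2]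

theorem KZ_orth {Z : Matrix ι ι ℝ} (hZ : Z * Zᵀ = 1) : KZ β Z * (KZ β Z)ᵀ = 1 := by
  rw [KZ_transpose, KZ_mul, hZ, KZ_one]

theorem RQ_orth {Q : ι → Matrix β β ℝ} (hQ : ∀ b, Q b * (Q b)ᵀ = 1) :
    RQ Q * (RQ Q)ᵀ = 1 := by
  rw [RQ_transpose, RQ_mul]
  simp_rw [hQ]
  exact RQ_one

theorem row_KZ_RQ (Z : Matrix ι ι ℝ) (Q : ι → Matrix β β ℝ) (y : ι × β → ℝ) (c : ι) :
    row (KZ β Z *ᵥ (RQ Q *ᵥ y)) c = fun j => ∑ b, Z c b * (Q b *ᵥ row y b) j := by
  funext j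
  simp only [row]
  rw [KZ_mulVec]
  refine sum_congr rfl fun b _ => ?_
  rw [RQ_mulVec]

/-- `H D H` with a diagonal sign matrix. -/
def signMat (H : Matrix ι ι ℝ) (ε : ι → ℝ) : Matrix ι ι ℝ := Hᵀ * (diagonal ε * H)

theorem signMat_orth {H : Matrix ι ι ℝ} (hH : H * Hᵀ = 1) {ε : ι → ℝ}
    (hε : ∀ i, ε i = 1 ∨ ε i = -1) : signMat H ε * (signMat H ε)ᵀ = 1 := by
  have h3 : Hᵀ * H = 1 := mul_eq_one_comm.1 hH
  have hD : diagonal ε * diagonal ε = 1 := by
    rw [diagonal_mul_diagonal, ← diagonal_one]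
    congr 1
    funext i
    rcases hε i with h | h <;> simp [h]
  have ht : (signMat H ε)ᵀ = signMat H ε := by
    simp only [signMat, transpose_mul, transpose_transpose, diagonal_transpose, Matrix.mul_assoc]
  rw [ht]
  simp only [signMat]
  calc Hᵀ * (diagonal ε * H) * (Hᵀ * (diagonal ε * H))
      = Hᵀ * (diagonal ε * ((H * Hᵀ) * (diagonal ε * H))) := by simp only [Matrix.mul_assoc]
    _ = Hᵀ * ((diagonal ε * diagonal ε) * H) := by rw [hH, Matrix.one_mul, ← Matrix.mul_assoc]; simp only [Matrix.mul_assoc]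
    _ = 1 := by rw [hD, Matrix.one_mul, h3]

/-- The weak uncertainty principle. -/
def WUP (H : Matrix ι ι ℝ) (ε : ι → ℝ) (s : ℕ) : Prop :=
  ∀ x u : ι → ℝ, nnz x ≤ s → nnz u ≤ s →
    (∑ i, ε i * (H *ᵥ x) i * (H *ᵥ u) i) ^ 2 ≤ 1 / 16 * nsq x * nsq u

theorem signMat_bilin (H : Matrix ι ι ℝ) (ε : ι → ℝ) (x u : ι → ℝ) :
    u ⬝ᵥ (signMat H ε *ᵥ x) = ∑ i, ε i * (H *ᵥ x) i * (H *ᵥ u) i := by
  have h1 : signMat H ε *ᵥ x = Hᵀ *ᵥ (fun i => ε i * (H *ᵥ x) i) := by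
    rw [signMat, ← mulVec_mulVec, ← mulVec_mulVec]
    congr 1
    funext i
    rw [mulVec_diagonal]
  rw [h1, dotProduct_mulVec, vecMul_transpose, dotProduct]
  exact sum_congr rfl fun i _ => by ring

theorem nnz_le_of_support {x : ι → ℝ} {S : Finset ι} (h : ∀ i, i ∉ S → x i = 0) :
    nnz x ≤ S.card := by
  classical
  refine card_le_card fun i hi => ?_
  by_contra hc
  exact (mem_filter.1 hi).2 (h i hc)

/-- Energy of `M₀ x` on a small set, for `x` supported on a small set. -/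
theorem WUP_energy {H : Matrix ι ι ℝ} {ε : ι → ℝ} {s : ℕ} (h : WUP H ε s) (x : ι → ℝ)
    (hx : nnz x ≤ s) (U : Finset ι) (hU : U.card ≤ s) :
    ∑ c ∈ U, (signMat H ε *ᵥ x) c ^ 2 ≤ 1 / 16 * nsq x := by
  classical
  set u : ι → ℝ := fun c => if c ∈ U then (signMat H ε *ᵥ x) c else 0 with hu
  have h1 : nnz u ≤ s := (nnz_le_of_support (S := U) (by intro i hi; simp [hu, hi])).trans hU
  have h2 : nsq u = ∑ c ∈ U, (signMat H ε *ᵥ x) c ^ 2 := by
    simp only [nsq, hu, ite_pow, ne_eq, OfNat.ofNat_ne_zero, not_false_eq_true, zero_pow]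
    rw [← Finset.sum_filter]
    simp
  have h3 : u ⬝ᵥ (signMat H ε *ᵥ x) = nsq u := by
    rw [h2]
    simp only [dotProduct, hu, ite_mul, zero_mul]
    rw [← Finset.sum_filter]
    simp [pow_two]
  have h4 := h x u hx h1
  rw [← signMat_bilin, h3] at h4
  rw [← h2]
  rcases (nsq_nonneg u).eq_or_lt with h5 | h5
  · rw [← h5]; have := nsq_nonneg x; positivity
  · have : nsq u * nsq u ≤ 1 / 16 * nsq x * nsq u := by rw [← pow_two]; exact h4
    exact le_of_mul_le_mul_right this h5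

/-- The same for block vectors. -/
theorem WUP_blocks {H : Matrix ι ι ℝ} {ε : ι → ℝ} {s : ℕ} (h : WUP H ε s) (v : ι × β → ℝ)
    (J : Finset ι) (hJ : J.card ≤ s) (hv : ∀ b, b ∉ J → row v b = 0)
    (U : Finset ι) (hU : U.card ≤ s) :
    ∑ c ∈ U, nsq (row (KZ β (signMat H ε) *ᵥ v) c) ≤ 1 / 16 * nsq v := by
  have h1 : ∀ j : β, ∑ c ∈ U, (signMat H ε *ᵥ fun b => v (b, j)) c ^ 2 ≤
      1 / 16 * nsq (fun b => v (b, j)) := by
    intro j
    refine WUP_energy h _ ?_ U hU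
    refine (nnz_le_of_support (S := J) fun b hb => ?_).trans hJ
    exact congrFun (hv b hb) j
  have h2 : ∑ c ∈ U, nsq (row (KZ β (signMat H ε) *ᵥ v) c) =
      ∑ j : β, ∑ c ∈ U, (signMat H ε *ᵥ fun b => v (b, j)) c ^ 2 := by
    rw [Finset.sum_comm]
    refine sum_congr rfl fun c _ => ?_
    simp only [nsq, row]
    refine sum_congr rfl fun j _ => ?_
    rw [KZ_mulVec]
    rfl
  have h3 : nsq v = ∑ j : β, nsq (fun b => v (b, j)) := by
    simp only [nsq, Fintype.sum_prod_type]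
    rw [Finset.sum_comm]
  rw [h2, h3, mul_sum]
  exact sum_le_sum fun j _ => h1 j

end ops

section round

variable [DecidableEq ι] [DecidableEq β] [Nonempty ι] [Nonempty β]

/-- One flattening round. -/
theorem flatten_round (H : Matrix ι ι ℝ) (hH : H * Hᵀ = 1)
    (hflat : ∀ i j, H i j ^ 2 ≤ 1 / Fintype.card ι) (ε : ι → ℝ)
    (hε : ∀ i, ε i = 1 ∨ ε i = -1) (s : ℕ) (hW : WUP H ε s)
    (a a₂ θ₁ θ₂ : ℝ) (ha : 0 < a) (ha₂ : 0 < a₂)
    (Y : Finset (ι × β → ℝ)) (hY : ∀ y ∈ Y, nsq y ≤ 1)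
    (hY1 : ∀ y ∈ Y, (univ.filter fun b => a < bn y b).card ≤ s)
    (hY2 : ∀ y ∈ Y, G a y ≤ s * a₂ ^ 2)
    (hB1 : (Fintype.card ι : ℝ) * Real.exp (-(3 / 20) * Fintype.card β) ≤ Real.log 2)
    (hB2 : (Fintype.card ι : ℝ) * Real.exp (-(3 / 20) *
      (Fintype.card β / (Fintype.card ι * (√2 * a + a₂) ^ 2))) ≤ Real.log 2)
    (hθ₁ : (Y.card : ℝ) * (2 * Real.exp (-(Fintype.card β / (4 * a ^ 2)) * θ₁)) < 1)
    (hθ₂ : (Y.card : ℝ) *
      (2 * Real.exp (-(Fintype.card β / (4 * (√2 * a + a₂) ^ 2)) * θ₂)) < 1) :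
    ∃ Q Q' : ι → Matrix β β ℝ, (∀ b, Q b * (Q b)ᵀ = 1) ∧ (∀ b, Q' b * (Q' b)ᵀ = 1) ∧
      ∀ y ∈ Y, G (√(2 / Fintype.card ι))
        (KZ β H *ᵥ (RQ Q' *ᵥ (KZ β (signMat H ε) *ᵥ (RQ Q *ᵥ y)))) ≤
        1 / 4 * G a y + 4 * θ₁ + 2 * θ₂ := by
  classical
  have hN : (0 : ℝ) < (Fintype.card ι : ℝ) := by exact_mod_cast Fintype.card_pos
  have hBc : (0 : ℝ) < (Fintype.card β : ℝ) := by exact_mod_cast Fintype.card_pos
  set N : ℝ := (Fintype.card ι : ℝ) with hNdef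
  set B : ℝ := (Fintype.card β : ℝ) with hBdef
  set M : Matrix ι ι ℝ := signMat H ε with hM
  have hMo : M * Mᵀ = 1 := signMat_orth hH hε
  have hs2 : (√2 : ℝ) ^ 2 = 2 := Real.sq_sqrt (by norm_num)
  have hs2pos : (0 : ℝ) < √2 := by positivity
  set a₃ : ℝ := √2 * a + a₂ with ha₃
  have ha₃pos : 0 < a₃ := by positivity
  -- first family
  set F₁ : Finset (ι → β → ℝ) := Y.image (fun y => row (trunc a y)) with hF₁
  have hF₁card : (F₁.card : ℝ) ≤ Y.card := by exact_mod_cast card_image_le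
  obtain ⟨Q, hQo, hQ⟩ := T7_rotations M hMo (N * a ^ 2) (N * a ^ 2) (by positivity) (by positivity)
    (by
      have : (B * (N * a ^ 2) / (N * a ^ 2)) = B := by field_simp
      rw [this]; exact hB1)
    F₁ (by
      intro f hf b
      obtain ⟨y, _, rfl⟩ := mem_image.1 hf
      rw [mul_div_assoc, mul_comm, div_mul_cancel₀ _ hN.ne']
      exact bn_trunc_le a ha.le y b)
    (by
      intro f hf c
      obtain ⟨y, _, rfl⟩ := mem_image.1 hf
      rw [mul_div_assoc, mul_comm, div_mul_cancel₀ _ hN.ne']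
      have h1 : ∑ b, M c b ^ 2 = 1 := by
        have := congrFun (congrFun hMo c) c
        simpa [Matrix.mul_apply, pow_two] using this
      calc ∑ b, M c b ^ 2 * nsq (row (trunc a y) b) ≤ ∑ b, M c b ^ 2 * a ^ 2 :=
            sum_le_sum fun b _ => mul_le_mul_of_nonneg_left (bn_trunc_le a ha.le y b) (sq_nonneg _)
        _ = a ^ 2 := by rw [← Finset.sum_mul, h1, one_mul])
    θ₁ (by
      have h2 : N * B / (4 * (N * a ^ 2)) = B / (4 * a ^ 2) := by field_simp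
      rw [h2]
      refine lt_of_le_of_lt ?_ hθ₁
      exact mul_le_mul_of_nonneg_right hF₁card (by positivity))
  have hkey₁ : ∀ y ∈ Y, G (√2 * a) (KZ β M *ᵥ (RQ Q *ᵥ trunc a y)) ≤ θ₁ := by
    intro y hy
    refine (G_le_excess _ (by positivity) _).trans ?_
    have := hQ _ (mem_image_of_mem _ hy)
    refine le_trans (le_of_eq ?_) this
    refine sum_congr rfl fun c _ => ?_
    rw [row_KZ_RQ]
    congr 2
    rw [mul_pow, hs2]
    field_simp
    exact hNdef.symm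
  have hkey₂ : ∀ y ∈ Y, G a₂ (KZ β M *ᵥ (RQ Q *ᵥ (y - trunc a y))) ≤ 1 / 16 * G a y := by
    intro y hy
    set g := y - trunc a y with hg
    have hng : nsq g = G a y := nsq_sub_trunc a ha.le y
    have hRg : nsq (RQ Q *ᵥ g) = nsq g := nsq_mulVec_orth (RQ_orth hQo) g
    refine (G_le_heavy a₂ ha₂.le _).trans ?_
    have hMg : nsq (KZ β M *ᵥ (RQ Q *ᵥ g)) = G a y := by
      rw [nsq_mulVec_orth (KZ_orth hMo), hRg, hng]
    have h1 := WUP_blocks hW (RQ Q *ᵥ g) (univ.filter fun b => a < bn y b) (hY1 y hy) ?_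
      (univ.filter fun b => a₂ < bn (KZ β M *ᵥ (RQ Q *ᵥ g)) b) ?_
    · rw [hRg, hng] at h1
      exact h1
    · intro b hb
      have hb' : bn y b ≤ a := by
        by_contra hc
        exact hb (mem_filter.2 ⟨mem_univ _, not_le.1 hc⟩)
      have h2 : row g b = 0 := by
        have : row g b = row y b - row (trunc a y) b := rfl
        rw [this, row_trunc, if_pos hb', sub_self]
      rw [row_RQ, h2, mulVec_zero]
    · have h3 := card_heavy_mul_le a₂ ha₂.le (KZ β M *ᵥ (RQ Q *ᵥ g))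
      rw [hMg] at h3
      have h4 := h3.trans (hY2 y hy)
      have h5 := le_of_mul_le_mul_right h4 (by positivity)
      exact_mod_cast h5
  -- the intermediate vector
  set z : (ι × β → ℝ) → (ι × β → ℝ) := fun y => KZ β M *ᵥ (RQ Q *ᵥ y) with hz
  have hzn : ∀ y, nsq (z y) = nsq y := by
    intro y
    rw [hz]
    simp only
    rw [nsq_mulVec_orth (KZ_orth hMo), nsq_mulVec_orth (RQ_orth hQo)]
  have hzG : ∀ y ∈ Y, G a₃ (z y) ≤ 2 * θ₁ + 1 / 8 * G a y := by
    intro y hy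
    have h1 : z y = KZ β M *ᵥ (RQ Q *ᵥ trunc a y) + KZ β M *ᵥ (RQ Q *ᵥ (y - trunc a y)) := by
      rw [hz, ← mulVec_add, ← mulVec_add]
      congr 2
      abel
    rw [h1]
    refine (G_add_le _ _ _ _).trans ?_
    have := hkey₁ y hy
    have := hkey₂ y hy
    linarith
  -- second family
  set F₂ : Finset (ι → β → ℝ) := Y.image (fun y => row (trunc a₃ (z y))) with hF₂
  have hF₂card : (F₂.card : ℝ) ≤ Y.card := by exact_mod_cast card_image_le
  obtain ⟨Q', hQo', hQ'⟩ := T7_rotations H hH (N * a₃ ^ 2) 1 (by positivity) one_pos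
    (by rw [mul_one]; exact hB2)
    F₂ (by
      intro f hf b
      obtain ⟨y, _, rfl⟩ := mem_image.1 hf
      rw [mul_div_assoc, mul_comm, div_mul_cancel₀ _ hN.ne']
      exact bn_trunc_le a₃ ha₃pos.le _ b)
    (by
      intro f hf c
      obtain ⟨y, hy, rfl⟩ := mem_image.1 hf
      calc ∑ b, H c b ^ 2 * nsq (row (trunc a₃ (z y)) b)
          ≤ ∑ b, 1 / N * nsq (row (trunc a₃ (z y)) b) :=
            sum_le_sum fun b _ => mul_le_mul_of_nonneg_right (hflat c b) (nsq_nonneg _)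
        _ = 1 / N * nsq (trunc a₃ (z y)) := by rw [← mul_sum, ← nsq_eq_sum_row]
        _ ≤ 1 / N * 1 := by
            refine mul_le_mul_of_nonneg_left ?_ (by positivity)
            exact (nsq_trunc_le a₃ ha₃pos.le _).trans ((hzn y).le.trans (hY y hy))
        _ = 1 / N := mul_one _)
    θ₂ (by
      have h2 : N * B / (4 * (N * a₃ ^ 2)) = B / (4 * a₃ ^ 2) := by field_simp
      rw [h2]
      refine lt_of_le_of_lt ?_ hθ₂
      exact mul_le_mul_of_nonneg_right hF₂card (by positivity))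
  refine ⟨Q, Q', hQo, hQo', fun y hy => ?_⟩
  have hkey₃ : G (√(2 / N)) (KZ β H *ᵥ (RQ Q' *ᵥ trunc a₃ (z y))) ≤ θ₂ := by
    refine (G_le_excess _ (by positivity) _).trans ?_
    have := hQ' _ (mem_image_of_mem _ hy)
    refine le_trans (le_of_eq ?_) this
    refine sum_congr rfl fun c _ => ?_
    rw [row_KZ_RQ, Real.sq_sqrt (by positivity), mul_one]
  have hkey₄ : G 0 (KZ β H *ᵥ (RQ Q' *ᵥ (z y - trunc a₃ (z y)))) ≤ 2 * θ₁ + 1 / 8 * G a y := by
    refine (G_le_nsq 0 le_rfl _).trans ?_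
    rw [nsq_mulVec_orth (KZ_orth hH), nsq_mulVec_orth (RQ_orth hQo'), nsq_sub_trunc a₃ ha₃pos.le]
    exact hzG y hy
  have h1 : KZ β H *ᵥ (RQ Q' *ᵥ z y) = KZ β H *ᵥ (RQ Q' *ᵥ trunc a₃ (z y)) +
      KZ β H *ᵥ (RQ Q' *ᵥ (z y - trunc a₃ (z y))) := by
    rw [← mulVec_add, ← mulVec_add]
    congr 2
    abel
  have h2 := G_add_le (√(2 / N)) 0 (KZ β H *ᵥ (RQ Q' *ᵥ trunc a₃ (z y)))
    (KZ β H *ᵥ (RQ Q' *ᵥ (z y - trunc a₃ (z y))))
  rw [add_zero, ← h1] at h2
  show G (√(2 / N)) (KZ β H *ᵥ (RQ Q' *ᵥ z y)) ≤ _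
  linarith

end round

end blocks

end Pool.Agent.MP_72d76c_lc
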