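import Pool.Agent.MP_72d76c_lc.T10a

/-!
# T10b: fast orthogonal matrices and iteration of the flattening round
-/

namespace Pool.Agent.MP_72d76c_lc

open Matrix Finset

/-- `L` is orthogonal and both `L` and its transpose can be applied with `c` operations. -/
def Fast {κ : Type*} [Fintype κ] [DecidableEq κ] (c : ℕ) (L : Matrix κ κ ℝ) : Prop :=
  ComputesIn c (fun x => L *ᵥ x) ∧ ComputesIn c (fun x => Lᵀ *ᵥ x) ∧ L * Lᵀ = 1

theorem Fast.one {κ : Type*} [Fintype κ] [DecidableEq κ] : Fast 0 (1 : Matrix κ κ ℝ) := by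
  refine ⟨?_, ?_, by simp⟩
  · simpa using computesIn_id (ι := κ)
  · simpa using computesIn_id (ι := κ)

theorem Fast.mul {κ : Type*} [Fintype κ] [DecidableEq κ] {c₁ c₂ : ℕ} {L₁ L₂ : Matrix κ κ ℝ}
    (h₁ : Fast c₁ L₁) (h₂ : Fast c₂ L₂) : Fast (c₁ + c₂) (L₁ * L₂) := by
  refine ⟨?_, ?_, ?_⟩
  · refine ((h₁.1.comp h₂.1).mono (by omega)).congr fun x j => ?_
    rw [mulVec_mulVec]
  · refine ((h₂.2.1.comp h₁.2.1).mono (by omega)).congr fun x j => ?_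
    rw [mulVec_mulVec, transpose_mul]
  · rw [transpose_mul]
    calc L₁ * L₂ * (L₂ᵀ * L₁ᵀ) = L₁ * ((L₂ * L₂ᵀ) * L₁ᵀ) := by simp only [Matrix.mul_assoc]
      _ = 1 := by rw [h₂.2.2, Matrix.one_mul, h₁.2.2]

theorem Fast.mono {κ : Type*} [Fintype κ] [DecidableEq κ] {c c' : ℕ} {L : Matrix κ κ ℝ}
    (h : Fast c L) (hc : c ≤ c') : Fast c' L :=
  ⟨h.1.mono hc, h.2.1.mono hc, h.2.2⟩

section

variable {ι β : Type} [Fintype ι] [Fintype β] [DecidableEq ι] [DecidableEq β]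

theorem computesIn_KZ {Z : Matrix ι ι ℝ} {c : ℕ} (h : ComputesIn c (fun x => Z *ᵥ x)) :
    ComputesIn (Fintype.card β * c) (fun y : ι × β → ℝ => KZ β Z *ᵥ y) := by
  have h1 : ∀ j : β, ComputesIn c (fun y : ι × β → ℝ => Z *ᵥ (fun b => y (b, j))) :=
    fun j => h.inp fun b => (b, j)
  have h2 := ComputesIn.prod (fun _ : β => c) h1
  rw [sum_const, card_univ, smul_eq_mul] at h2
  refine (h2.out fun p : ι × β => (p.2, p.1)).congr fun y p => ?_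
  rw [KZ_mulVec]
  rfl

theorem Fast.KZ {Z : Matrix ι ι ℝ} {c : ℕ} (h : Fast c Z) :
    Fast (Fintype.card β * c) (KZ β Z) := by
  refine ⟨computesIn_KZ h.1, ?_, KZ_orth h.2.2⟩
  rw [KZ_transpose]
  exact computesIn_KZ h.2.1

theorem computesIn_RQ (Q : ι → Matrix β β ℝ) :
    ComputesIn (Fintype.card ι * (Fintype.card β * (3 * Fintype.card β + 1)))
      (fun y : ι × β → ℝ => RQ Q *ᵥ y) := by
  have h1 : ∀ b : ι, ComputesIn (Fintype.card β * (3 * Fintype.card β + 1))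
      (fun y : ι × β → ℝ => Q b *ᵥ (fun j => y (b, j))) :=
    fun b => (computesIn_mulVec (Q b)).inp fun j => (b, j)
  have h2 := ComputesIn.prod (fun _ : ι => Fintype.card β * (3 * Fintype.card β + 1)) h1
  rw [sum_const, card_univ, smul_eq_mul] at h2
  refine h2.congr fun y p => ?_
  rw [RQ_mulVec]
  rfl

theorem Fast.RQ {Q : ι → Matrix β β ℝ} (h : ∀ b, Q b * (Q b)ᵀ = 1) :
    Fast (Fintype.card ι * (Fintype.card β * (3 * Fintype.card β + 1))) (RQ Q) := by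
  refine ⟨computesIn_RQ Q, ?_, RQ_orth h⟩
  rw [RQ_transpose]
  exact computesIn_RQ _

theorem Fast.signMat {H : Matrix ι ι ℝ} {c : ℕ} (h : Fast c H) {ε : ι → ℝ}
    (hε : ∀ i, ε i = 1 ∨ ε i = -1) :
    Fast (2 * c + Fintype.card ι * 2) (signMat H ε) := by
  have h0 : (Pool.Agent.MP_72d76c_lc.signMat H ε)ᵀ = Pool.Agent.MP_72d76c_lc.signMat H ε := by
    simp only [Pool.Agent.MP_72d76c_lc.signMat, transpose_mul, transpose_transpose,
      diagonal_transpose, Matrix.mul_assoc]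
  have h1 : ComputesIn (2 * c + Fintype.card ι * 2)
      (fun x => Pool.Agent.MP_72d76c_lc.signMat H ε *ᵥ x) := by
    have h2 := h.2.1.comp (h.1.constMul ε)
    refine (h2.mono (by omega)).congr fun x j => ?_
    rw [Pool.Agent.MP_72d76c_lc.signMat, ← mulVec_mulVec, ← mulVec_mulVec]
    congr 2
    funext i
    rw [mulVec_diagonal]
  refine ⟨h1, ?_, signMat_orth h.2.2 hε⟩
  rw [h0]
  exact h1

/-- The cost of one flattening round. -/
def roundCost (N B c : ℕ) : ℕ := B * c + N * (B * (3 * B + 1)) + (B * (2 * c + N * 2) +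
  N * (B * (3 * B + 1)))

/-- One flattening round as a statement on fast matrices. -/
theorem flatten_round_fast [Nonempty ι] [Nonempty β] (H : Matrix ι ι ℝ) {cH : ℕ} (hHf : Fast cH H)
    (hflat : ∀ i j, H i j ^ 2 ≤ 1 / Fintype.card ι) (ε : ι → ℝ)
    (hε : ∀ i, ε i = 1 ∨ ε i = -1) (s : ℕ) (hW : WUP H ε s)
    (a a₂ θ₁ θ₂ : ℝ) (ha : 0 < a) (ha₂ : 0 < a₂)
    (Y : Finset (ι × β → ℝ)) (hY : ∀ y ∈ Y, nsq y ≤ 1)
    (hY1 : ∀ y ∈ Y, (univ.filter fun b => a < bn y b).card ≤ s)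
    (hY2 : ∀ y ∈ Y, G a y ≤ s * a₂ ^ 2)
    (hB1 : (Fintype.card ι : ℝ) * Real.exp (-(3 / 20) * Fintype.card β) ≤ Real.log 2)
    (hB2 : (Fintype.card ι : ℝ) * Real.exp (-(3 / 20) *
      (Fintype.card β / (Fintype.card ι * (√2 * a + a₂) ^ 2))) ≤ Real.log 2)
    (hθ₁ : (Y.card : ℝ) * (2 * Real.exp (-(Fintype.card β / (4 * a ^ 2)) * θ₁)) < 1)
    (hθ₂ : (Y.card : ℝ) *
      (2 * Real.exp (-(Fintype.card β / (4 * (√2 * a + a₂) ^ 2)) * θ₂)) < 1) :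
    ∃ L : Matrix (ι × β) (ι × β) ℝ, Fast (roundCost (Fintype.card ι) (Fintype.card β) cH) L ∧
      ∀ y ∈ Y, G (√(2 / Fintype.card ι)) (L *ᵥ y) ≤ 1 / 4 * G a y + 4 * θ₁ + 2 * θ₂ := by
  obtain ⟨Q, Q', hQ, hQ', h⟩ := flatten_round H hHf.2.2 hflat ε hε s hW a a₂ θ₁ θ₂ ha ha₂ Y hY
    hY1 hY2 hB1 hB2 hθ₁ hθ₂
  refine ⟨KZ β H * RQ Q' * (KZ β (signMat H ε) * RQ Q), ?_, fun y hy => ?_⟩
  · exact ((hHf.KZ).mul (Fast.RQ hQ')).mul (((hHf.signMat hε).KZ).mul (Fast.RQ hQ))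
  · have := h y hy
    simpa only [← mulVec_mulVec] using this

/-- Iterating a contraction of the excess energy. -/
theorem iterate_fast (Gf : (ι × β → ℝ) → ℝ) (ρ cst : ℝ) (hcst : 0 ≤ cst)
    (hinv : 1 / 4 * ρ + cst ≤ ρ) (M c : ℕ)
    (hround : ∀ Y : Finset (ι × β → ℝ), Y.card ≤ M → (∀ y ∈ Y, nsq y ≤ 1 ∧ Gf y ≤ ρ) →
      ∃ L : Matrix (ι × β) (ι × β) ℝ, Fast c L ∧ ∀ y ∈ Y, Gf (L *ᵥ y) ≤ 1 / 4 * Gf y + cst)
    (Y : Finset (ι × β → ℝ)) (hYM : Y.card ≤ M) (hY : ∀ y ∈ Y, nsq y ≤ 1 ∧ Gf y ≤ ρ) (t : ℕ) :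
    ∃ L : Matrix (ι × β) (ι × β) ℝ, Fast (t * c) L ∧
      ∀ y ∈ Y, Gf (L *ᵥ y) ≤ (1 / 4) ^ t * ρ + 4 / 3 * cst ∧ Gf (L *ᵥ y) ≤ ρ := by
  classical
  induction t with
  | zero =>
    refine ⟨1, by simpa using Fast.one, fun y hy => ?_⟩
    rw [one_mulVec]
    have := (hY y hy).2
    constructor
    · simp only [pow_zero, one_mul]; linarith
    · exact this
  | succ t ih =>
    obtain ⟨L, hL, hLY⟩ := ih
    have hn : ∀ y, nsq (L *ᵥ y) = nsq y := fun y => nsq_mulVec_orth hL.2.2 y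
    obtain ⟨L', hL', hLY'⟩ := hround (Y.image fun y => L *ᵥ y) (card_image_le.trans hYM) (by
      intro y' hy'
      obtain ⟨y, hy, rfl⟩ := mem_image.1 hy'
      exact ⟨(hn y).le.trans (hY y hy).1, (hLY y hy).2⟩)
    refine ⟨L' * L, ?_, fun y hy => ?_⟩
    · refine (hL'.mul hL).mono ?_
      rw [Nat.succ_mul]; omega
    · rw [← mulVec_mulVec]
      have h1 := hLY' _ (mem_image_of_mem _ hy)
      obtain ⟨h2, h3⟩ := hLY y hy
      constructor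
      · have : (1 / 4 : ℝ) ^ (t + 1) * ρ = 1 / 4 * ((1 / 4) ^ t * ρ) := by rw [pow_succ]; ring
        rw [this]
        linarith
      · linarith

end

end Pool.Agent.MP_72d76c_lc
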