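import Pool.Agent.MP_72d76c_lc.T10b

/-!
# T10c: the two phases of flattening
-/

namespace Pool.Agent.MP_72d76c_lc

open Matrix Finset

variable {ι β : Type} [Fintype ι] [Fintype β] [DecidableEq ι] [DecidableEq β]

theorem card_exp_lt_one (c M : ℕ) (hc : c ≤ M) (hM : 1 ≤ M) (Λ x : ℝ)
    (hΛ : Real.log (3 * M) ≤ Λ) (hx : Λ ≤ x) : (c : ℝ) * (2 * Real.exp (-x)) < 1 := by
  have hMr : (1 : ℝ) ≤ M := by exact_mod_cast hM
  have h1 : Real.exp (-x) ≤ 1 / (3 * M) := by
    rw [Real.exp_neg, one_div]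
    refine inv_anti₀ (by positivity) ?_
    calc (3 * M : ℝ) = Real.exp (Real.log (3 * M)) := (Real.exp_log (by positivity)).symm
      _ ≤ Real.exp x := Real.exp_le_exp.2 (hΛ.trans hx)
  have hcr : (c : ℝ) ≤ M := by exact_mod_cast hc
  calc (c : ℝ) * (2 * Real.exp (-x)) ≤ M * (2 * (1 / (3 * M))) := by
        refine mul_le_mul hcr (by linarith) (by positivity) (by positivity)
    _ = 2 / 3 := by field_simp
    _ < 1 := by norm_num

/-- Two-phase flattening. -/
theorem flatten_main [Nonempty ι] [Nonempty β] (H : Matrix ι ι ℝ) {cH : ℕ} (hHf : Fast cH H)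
    (hflat : ∀ i j, H i j ^ 2 ≤ 1 / Fintype.card ι) (ε : ι → ℝ)
    (hε : ∀ i, ε i = 1 ∨ ε i = -1) (s : ℕ) (hs : 1 ≤ s) (hW : WUP H ε s)
    (hsN : 6 * s ≤ Fintype.card ι) (M : ℕ) (hM : 1 ≤ M) (Λ : ℝ) (hΛ : Real.log (3 * M) ≤ Λ)
    (hB : (Fintype.card ι : ℝ) *
      Real.exp (-(3 / 20) * (Fintype.card β * s / (6 * Fintype.card ι))) ≤ Real.log 2)
    (t₁ t₂ : ℕ)
    (h3 : (1 / 4 : ℝ) ^ t₁ + 4 / 3 * (64 * Λ / (s * Fintype.card β)) ≤ s / Fintype.card ι)
    (Y : Finset (ι × β → ℝ)) (hYM : Y.card ≤ M) (hY : ∀ y ∈ Y, nsq y ≤ 1) :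
    ∃ L : Matrix (ι × β) (ι × β) ℝ,
      Fast (t₂ * roundCost (Fintype.card ι) (Fintype.card β) cH +
        t₁ * roundCost (Fintype.card ι) (Fintype.card β) cH) L ∧
      ∀ y ∈ Y, G (√(2 / Fintype.card ι)) (L *ᵥ y) ≤ (1 / 4) ^ t₂ * (s / Fintype.card ι) +
        4 / 3 * (328 * Λ / (Fintype.card ι * Fintype.card β)) := by
  classical
  have hN : (0 : ℝ) < (Fintype.card ι : ℝ) := by exact_mod_cast Fintype.card_pos
  have hBc : (0 : ℝ) < (Fintype.card β : ℝ) := by exact_mod_cast Fintype.card_pos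
  set N : ℝ := (Fintype.card ι : ℝ) with hNdef
  set B : ℝ := (Fintype.card β : ℝ) with hBdef
  have hsr : (1 : ℝ) ≤ s := by exact_mod_cast hs
  have hsN' : 6 * (s : ℝ) ≤ N := by rw [hNdef]; exact_mod_cast hsN
  have hMr : (1 : ℝ) ≤ M := by exact_mod_cast hM
  have hΛ0 : 0 < Λ := lt_of_lt_of_le (Real.log_pos (by linarith)) hΛ
  have hs2 : (√2 : ℝ) ^ 2 = 2 := Real.sq_sqrt (by norm_num)
  have hs2' : (√2 : ℝ) ≤ 3 / 2 := by
    rw [Real.sqrt_le_left (by norm_num)]; norm_num
  have hs2pos : (0 : ℝ) < √2 := by positivity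
  set a₄ : ℝ := √(2 / N) with ha₄
  have ha₄sq : a₄ ^ 2 = 2 / N := Real.sq_sqrt (by positivity)
  have ha₄pos : 0 < a₄ := by positivity
  -- exponential conditions
  have hexp : ∀ D : ℝ, B * s / (6 * N) ≤ D → N * Real.exp (-(3 / 20) * D) ≤ Real.log 2 := by
    intro D hD
    refine le_trans ?_ hB
    refine mul_le_mul_of_nonneg_left (Real.exp_le_exp.2 ?_) hN.le
    linarith
  have hB1 : N * Real.exp (-(3 / 20) * B) ≤ Real.log 2 := by
    refine hexp B ?_
    rw [div_le_iff₀ (by positivity)]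
    nlinarith
  -- Phase 1
  have phase1 : ∀ Y : Finset (ι × β → ℝ), Y.card ≤ M → (∀ y ∈ Y, nsq y ≤ 1 ∧ G a₄ y ≤ 1) →
      ∃ L : Matrix (ι × β) (ι × β) ℝ, Fast (roundCost (Fintype.card ι) (Fintype.card β) cH) L ∧
        ∀ y ∈ Y, G a₄ (L *ᵥ y) ≤ 1 / 4 * G a₄ y + 64 * Λ / (s * B) := by
    intro Y hYM hY
    set a : ℝ := √(1 / s) with ha
    have hasq : a ^ 2 = 1 / s := Real.sq_sqrt (by positivity)
    have hapos : 0 < a := by positivity
    have hlev : (√2 * a + a) ^ 2 ≤ 6 / s := by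
      have : (√2 * a + a) ^ 2 = (3 + 2 * √2) * a ^ 2 := by
        calc (√2 * a + a) ^ 2 = (√2 ^ 2 + 2 * √2 + 1) * a ^ 2 := by ring
          _ = (3 + 2 * √2) * a ^ 2 := by rw [hs2]; ring
      rw [this, hasq]
      rw [mul_one_div]
      exact div_le_div_of_nonneg_right (by linarith) (by positivity)
    have hlevpos : 0 < (√2 * a + a) ^ 2 := by positivity
    obtain ⟨L, hL, hLY⟩ := flatten_round_fast H hHf hflat ε hε s hW a a (4 * Λ / (s * B))
      (24 * Λ / (s * B)) hapos hapos Y (fun y hy => (hY y hy).1)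
      (by
        intro y hy
        have h1 := card_heavy_mul_le a hapos.le y
        rw [hasq, mul_one_div] at h1
        have h2 := h1.trans (hY y hy).1
        rw [div_le_one (by positivity)] at h2
        exact_mod_cast h2)
      (by
        intro y hy
        rw [hasq, mul_one_div, div_self (by positivity)]
        exact (G_le_nsq a hapos.le y).trans (hY y hy).1)
      hB1
      (by
        refine hexp _ ?_
        rw [div_le_div_iff₀ (by positivity) (by positivity)]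
        have : s * (√2 * a + a) ^ 2 ≤ 6 := by
          have := mul_le_mul_of_nonneg_left hlev (show (0 : ℝ) ≤ s by positivity)
          rwa [mul_div_cancel₀ _ (by positivity)] at this
        calc B * s * (N * (√2 * a + a) ^ 2) = B * N * (s * (√2 * a + a) ^ 2) := by ring
          _ ≤ B * N * 6 := by gcongr
          _ = B * (6 * N) := by ring)
      (by
        have : -(B / (4 * a ^ 2)) * (4 * Λ / (s * B)) = -Λ := by
          rw [hasq]; field_simp
        rw [this]
        exact card_exp_lt_one _ M hYM hM Λ Λ hΛ le_rfl)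
      (by
        rw [neg_mul]
        refine card_exp_lt_one _ M hYM hM Λ _ hΛ ?_
        have h5 : B * s / 24 ≤ B / (4 * (√2 * a + a) ^ 2) := by
          rw [div_le_div_iff₀ (by norm_num) (by positivity)]
          have : s * (√2 * a + a) ^ 2 ≤ 6 := by
            have := mul_le_mul_of_nonneg_left hlev (show (0 : ℝ) ≤ s by positivity)
            rwa [mul_div_cancel₀ _ (by positivity)] at this
          nlinarith
        calc Λ = B * s / 24 * (24 * Λ / (s * B)) := by field_simp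
          _ ≤ _ := mul_le_mul_of_nonneg_right h5 (by positivity))
    refine ⟨L, hL, fun y hy => (hLY y hy).trans ?_⟩
    have h6 : G a y ≤ G a₄ y := by
      refine G_anti ?_ y
      refine Real.sqrt_le_sqrt ?_
      rw [div_le_div_iff₀ hN (by positivity)]
      linarith
    have h7 : 4 * (4 * Λ / (s * B)) + 2 * (24 * Λ / (s * B)) = 64 * Λ / (s * B) := by ring
    linarith
  -- Phase 2
  have phase2 : ∀ Y : Finset (ι × β → ℝ), Y.card ≤ M → (∀ y ∈ Y, nsq y ≤ 1 ∧ G a₄ y ≤ s / N) →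
      ∃ L : Matrix (ι × β) (ι × β) ℝ, Fast (roundCost (Fintype.card ι) (Fintype.card β) cH) L ∧
        ∀ y ∈ Y, G a₄ (L *ᵥ y) ≤ 1 / 4 * G a₄ y + 328 * Λ / (N * B) := by
    intro Y hYM hY
    set a₂ : ℝ := √(1 / N) with ha₂
    have ha₂sq : a₂ ^ 2 = 1 / N := Real.sq_sqrt (by positivity)
    have ha₂pos : 0 < a₂ := by positivity
    have ha₄₂ : a₄ = √2 * a₂ := by
      rw [ha₄, ha₂, ← Real.sqrt_mul (by norm_num)]
      congr 1; ring
    have hlev : √2 * (2 * a₄) + a₂ = 5 * a₂ := by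
      rw [ha₄₂]
      calc √2 * (2 * (√2 * a₂)) + a₂ = (2 * √2 ^ 2 + 1) * a₂ := by ring
        _ = 5 * a₂ := by rw [hs2]; ring
    have hlevsq : (√2 * (2 * a₄) + a₂) ^ 2 = 25 / N := by
      rw [hlev, mul_pow, ha₂sq]; ring
    obtain ⟨L, hL, hLY⟩ := flatten_round_fast H hHf hflat ε hε s hW (2 * a₄) a₂
      (32 * Λ / (N * B)) (100 * Λ / (N * B)) (by positivity) ha₂pos Y (fun y hy => (hY y hy).1)
      (by
        intro y hy
        have h1 := (card_heavy_two_mul_le a₄ ha₄pos.le y).trans (hY y hy).2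
        rw [ha₄sq, mul_div_assoc'] at h1
        have h2 := (div_le_div_iff_of_pos_right hN).1 h1
        have h3 : ((univ.filter fun b => 2 * a₄ < bn y b).card : ℝ) ≤ s := by
          have : (0 : ℝ) ≤ ((univ.filter fun b => 2 * a₄ < bn y b).card : ℝ) := Nat.cast_nonneg _
          linarith
        exact_mod_cast h3)
      (by
        intro y hy
        rw [ha₂sq, mul_one_div]
        exact (G_anti (by linarith) y).trans (hY y hy).2)
      hB1
      (by
        refine hexp _ ?_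
        rw [hlevsq]
        rw [div_le_div_iff₀ (by positivity) (by positivity)]
        have : N * (25 / N) = 25 := by field_simp
        rw [this]
        nlinarith)
      (by
        have : -(B / (4 * (2 * a₄) ^ 2)) * (32 * Λ / (N * B)) = -Λ := by
          rw [mul_pow, ha₄sq]; field_simp; ring
        rw [this]
        exact card_exp_lt_one _ M hYM hM Λ Λ hΛ le_rfl)
      (by
        rw [hlevsq]
        have : -(B / (4 * (25 / N))) * (100 * Λ / (N * B)) = -Λ := by
          field_simp; ring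
        rw [this]
        exact card_exp_lt_one _ M hYM hM Λ Λ hΛ le_rfl)
    refine ⟨L, hL, fun y hy => (hLY y hy).trans ?_⟩
    have h6 : G (2 * a₄) y ≤ G a₄ y := G_anti (by linarith) y
    have h7 : 4 * (32 * Λ / (N * B)) + 2 * (100 * Λ / (N * B)) = 328 * Λ / (N * B) := by ring
    linarith
  -- numerical consequences of `h3`
  have hc₁ : 0 ≤ 64 * Λ / (s * B) := by positivity
  have hc₂ : 0 ≤ 328 * Λ / (N * B) := by positivity
  have hpow : (0 : ℝ) ≤ (1 / 4) ^ t₁ := by positivity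
  have h3' : 4 / 3 * (64 * Λ / (s * B)) ≤ s / N := by linarith
  have hsN1 : (s : ℝ) / N ≤ 1 / 6 := by rw [div_le_div_iff₀ hN (by norm_num)]; linarith
  have hinv1 : 1 / 4 * 1 + 64 * Λ / (s * B) ≤ 1 := by linarith
  have hinv2 : 1 / 4 * (s / N) + 328 * Λ / (N * B) ≤ s / N := by
    have h8 : 328 * Λ / (N * B) = (328 / 64) * (64 * Λ / (s * B)) * (s / N) := by
      field_simp
    rw [h8]
    have h9 : 64 * Λ / (s * B) ≤ 1 / 8 := by linarith
    have h10 : (0 : ℝ) ≤ s / N := by positivity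
    nlinarith
  obtain ⟨L₁, hL₁, hLY₁⟩ := iterate_fast (G a₄) 1 (64 * Λ / (s * B)) hc₁ hinv1 M _ phase1 Y hYM
    (fun y hy => ⟨hY y hy, (G_le_nsq a₄ ha₄pos.le y).trans (hY y hy)⟩) t₁
  have hn : ∀ y, nsq (L₁ *ᵥ y) = nsq y := fun y => nsq_mulVec_orth hL₁.2.2 y
  obtain ⟨L₂, hL₂, hLY₂⟩ := iterate_fast (G a₄) (s / N) (328 * Λ / (N * B)) hc₂ hinv2 M _ phase2
    (Y.image fun y => L₁ *ᵥ y) (card_image_le.trans hYM) (by
      intro y' hy'
      obtain ⟨y, hy, rfl⟩ := mem_image.1 hy'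
      refine ⟨(hn y).le.trans (hY y hy), ?_⟩
      have := (hLY₁ y hy).1
      linarith) t₂
  refine ⟨L₂ * L₁, hL₂.mul hL₁, fun y hy => ?_⟩
  rw [← mulVec_mulVec]
  exact (hLY₂ _ (mem_image_of_mem _ hy)).1

end Pool.Agent.MP_72d76c_lc
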