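import Pool.Agent.MP_72d76c_lc.Defs

/-!
# T8a: concentration of sums of squares of grouped Rademacher sums
-/

namespace Pool.Agent.MP_72d76c_lc

open Finset

/-- sign of a bit -/
noncomputable def sgb (b : Bool) : ℝ := if b then 1 else -1

theorem sgb_cases (b : Bool) : sgb b = 1 ∨ sgb b = -1 := by
  cases b <;> simp [sgb]

theorem one_step (μ x a : ℝ) (hμ : 0 ≤ μ) (h : 2 * μ * a ^ 2 < 1) :
    Real.exp (μ * (x + a) ^ 2) + Real.exp (μ * (x - a) ^ 2) ≤
      2 * (1 / Real.sqrt (1 - 2 * μ * a ^ 2)) * Real.exp (μ * x ^ 2 / (1 - 2 * μ * a ^ 2)) := by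
  set y := 2 * μ * a ^ 2 with hy
  have hy0 : 0 ≤ y := by positivity
  have h1 : 0 < 1 - y := by linarith
  have e1 : Real.exp (μ * (x + a) ^ 2) + Real.exp (μ * (x - a) ^ 2) =
      2 * (Real.exp (μ * x ^ 2 + μ * a ^ 2) * Real.cosh (2 * μ * x * a)) := by
    rw [Real.cosh_eq]
    have : μ * (x + a) ^ 2 = μ * x ^ 2 + μ * a ^ 2 + 2 * μ * x * a := by ring
    rw [this]
    have : μ * (x - a) ^ 2 = μ * x ^ 2 + μ * a ^ 2 + -(2 * μ * x * a) := by ring
    rw [this, Real.exp_add _ (2 * μ * x * a), Real.exp_add _ (-(2 * μ * x * a))]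
    ring
  have e2 : Real.cosh (2 * μ * x * a) ≤ Real.exp ((2 * μ * x * a) ^ 2 / 2) :=
    Real.cosh_le_exp_half_sq _
  have e3 : Real.exp (μ * a ^ 2) ≤ 1 / Real.sqrt (1 - y) := by
    rw [le_div_iff₀ (Real.sqrt_pos.mpr h1)]
    have h2 : Real.sqrt (1 - y) ≤ Real.exp (-(y / 2)) := by
      rw [Real.sqrt_le_left (Real.exp_pos _).le, ← Real.exp_nat_mul]
      have := Real.one_sub_le_exp_neg y
      have h3 : ((2 : ℕ) : ℝ) * -(y / 2) = -y := by push_cast; ring
      rw [h3]; exact this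
    calc Real.exp (μ * a ^ 2) * Real.sqrt (1 - y)
        ≤ Real.exp (μ * a ^ 2) * Real.exp (-(y / 2)) :=
          mul_le_mul_of_nonneg_left h2 (Real.exp_pos _).le
      _ = 1 := by rw [← Real.exp_add, hy]; simp [show μ * a ^ 2 + -(2 * μ * a ^ 2 / 2) = 0 by ring]
  have e4 : Real.exp (μ * x ^ 2 + (2 * μ * x * a) ^ 2 / 2) ≤ Real.exp (μ * x ^ 2 / (1 - y)) := by
    apply Real.exp_le_exp.mpr
    rw [le_div_iff₀ h1]
    have : (μ * x ^ 2 + (2 * μ * x * a) ^ 2 / 2) = μ * x ^ 2 * (1 + y) := by rw [hy]; ring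
    rw [this]
    have h5 : 0 ≤ μ * x ^ 2 := by positivity
    nlinarith [mul_nonneg h5 (sq_nonneg y)]
  rw [e1]
  calc 2 * (Real.exp (μ * x ^ 2 + μ * a ^ 2) * Real.cosh (2 * μ * x * a))
      ≤ 2 * (Real.exp (μ * x ^ 2 + μ * a ^ 2) * Real.exp ((2 * μ * x * a) ^ 2 / 2)) := by
        have := mul_le_mul_of_nonneg_left e2 (Real.exp_pos (μ * x ^ 2 + μ * a ^ 2)).le
        linarith
    _ = 2 * (Real.exp (μ * a ^ 2) * Real.exp (μ * x ^ 2 + (2 * μ * x * a) ^ 2 / 2)) := by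
        rw [← Real.exp_add, ← Real.exp_add]; congr 2; ring
    _ ≤ 2 * (1 / Real.sqrt (1 - y) * Real.exp (μ * x ^ 2 / (1 - y))) := by
        have := mul_le_mul e3 e4 (Real.exp_pos _).le (by positivity)
        linarith
    _ = _ := by ring

theorem sum_cons {n : ℕ} (F : (Fin (n + 1) → Bool) → ℝ) :
    ∑ η, F η = ∑ η : Fin n → Bool, (F (Fin.cons true η) + F (Fin.cons false η)) := by
  rw [← (Fin.consEquiv (fun _ => Bool)).sum_comp, Fintype.sum_prod_type, Fintype.sum_bool,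
    ← Finset.sum_add_distrib]
  rfl

theorem rad_cons {n : ℕ} (f : Fin (n + 1) → ℝ) (b : Bool) (η : Fin n → Bool) :
    ∑ i, sgb ((Fin.cons b η : Fin (n + 1) → Bool) i) * f i =
      sgb b * f 0 + ∑ i, sgb (η i) * f i.succ := by
  rw [Fin.sum_univ_succ]
  simp only [Fin.cons_zero, Fin.cons_succ]

theorem upper_fin (n : ℕ) : ∀ (f : Fin n → ℝ) (x lam : ℝ), 0 ≤ lam →
    2 * lam * (∑ i, f i ^ 2) < 1 →
    ∑ η : Fin n → Bool, Real.exp (lam * (x + ∑ i, sgb (η i) * f i) ^ 2) ≤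
      2 ^ n * (1 / Real.sqrt (1 - 2 * lam * (∑ i, f i ^ 2))) *
        Real.exp (lam * x ^ 2 / (1 - 2 * lam * (∑ i, f i ^ 2))) := by
  induction n with
  | zero =>
    intro f x lam _ _
    simp
  | succ n ih =>
    intro f x lam hl h
    rw [Fin.sum_univ_succ] at h
    set v' := ∑ i : Fin n, f i.succ ^ 2 with hv'
    have hv'0 : 0 ≤ v' := Finset.sum_nonneg fun i _ => sq_nonneg _
    set a := f 0 with ha
    have ha0 := sq_nonneg a
    have h1 : 2 * lam * v' < 1 := by nlinarith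
    have h2 : 0 < 1 - 2 * lam * v' := by linarith
    set μ := lam / (1 - 2 * lam * v') with hμ
    have hμ0 : 0 ≤ μ := div_nonneg hl h2.le
    have h3 : (1 - 2 * lam * v') * (1 - 2 * μ * a ^ 2) = 1 - 2 * lam * (a ^ 2 + v') := by
      rw [hμ]; field_simp; ring
    have h4 : 0 < 1 - 2 * μ * a ^ 2 := by
      have : 0 < (1 - 2 * lam * v') * (1 - 2 * μ * a ^ 2) := by rw [h3]; linarith
      exact (mul_pos_iff_of_pos_left h2).mp this
    rw [sum_cons]
    simp only [rad_cons]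
    rw [Finset.sum_add_distrib]
    have k1 := ih (fun i => f i.succ) (x + a) lam hl h1
    have k2 := ih (fun i => f i.succ) (x - a) lam hl h1
    have s1 : ∀ η : Fin n → Bool, x + (sgb true * f 0 + ∑ i, sgb (η i) * f i.succ) =
        (x + a) + ∑ i, sgb (η i) * f i.succ := by intro η; simp [sgb, ha]; ring
    have s2 : ∀ η : Fin n → Bool, x + (sgb false * f 0 + ∑ i, sgb (η i) * f i.succ) =
        (x - a) + ∑ i, sgb (η i) * f i.succ := by intro η; simp [sgb, ha]; ring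
    simp only [s1, s2]
    refine (add_le_add k1 k2).trans ?_
    have k3 := one_step μ x a hμ0 (by linarith)
    have hm1 : lam * (x + a) ^ 2 / (1 - 2 * lam * v') = μ * (x + a) ^ 2 := by
      rw [hμ]; field_simp
    have hm2 : lam * (x - a) ^ 2 / (1 - 2 * lam * v') = μ * (x - a) ^ 2 := by
      rw [hμ]; field_simp
    rw [hm1, hm2, ← mul_add]
    have hc : 0 ≤ 2 ^ n * (1 / Real.sqrt (1 - 2 * lam * v')) := by positivity
    refine (mul_le_mul_of_nonneg_left k3 hc).trans (le_of_eq ?_)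
    have h5 : Real.sqrt (1 - 2 * lam * (a ^ 2 + v')) =
        Real.sqrt (1 - 2 * lam * v') * Real.sqrt (1 - 2 * μ * a ^ 2) := by
      rw [← h3, Real.sqrt_mul h2.le]
    have h6 : lam * x ^ 2 / (1 - 2 * lam * (a ^ 2 + v')) = μ * x ^ 2 / (1 - 2 * μ * a ^ 2) := by
      rw [← h3, hμ]; field_simp
    rw [Fin.sum_univ_succ, ← hv', ← ha, h5, h6]
    have p1 := Real.sqrt_pos.mpr h2
    have p2 := Real.sqrt_pos.mpr h4
    field_simp
    ring

theorem sum_sq_fin (n : ℕ) : ∀ (f : Fin n → ℝ),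
    ∑ η : Fin n → Bool, (∑ i, sgb (η i) * f i) ^ 2 = 2 ^ n * ∑ i, f i ^ 2 := by
  induction n with
  | zero => intro f; simp
  | succ n ih =>
    intro f
    rw [sum_cons]
    simp only [rad_cons]
    have h : ∀ η : Fin n → Bool, (sgb true * f 0 + ∑ i, sgb (η i) * f i.succ) ^ 2 +
        (sgb false * f 0 + ∑ i, sgb (η i) * f i.succ) ^ 2 =
        2 * (∑ i, sgb (η i) * f i.succ) ^ 2 + 2 * f 0 ^ 2 := by
      intro η; simp only [sgb]; simp; ring
    simp only [h]
    rw [Finset.sum_add_distrib, ← Finset.mul_sum, ih (fun i => f i.succ), Fin.sum_univ_succ]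
    simp only [Finset.sum_const, Finset.card_univ, Fintype.card_fun, Fintype.card_bool,
      Fintype.card_fin, nsmul_eq_mul]
    push_cast
    ring

theorem sum_four_fin (n : ℕ) : ∀ (f : Fin n → ℝ),
    ∑ η : Fin n → Bool, (∑ i, sgb (η i) * f i) ^ 4 ≤ 2 ^ n * (3 * (∑ i, f i ^ 2) ^ 2) := by
  induction n with
  | zero => intro f; simp
  | succ n ih =>
    intro f
    rw [sum_cons]
    simp only [rad_cons]
    have h : ∀ η : Fin n → Bool, (sgb true * f 0 + ∑ i, sgb (η i) * f i.succ) ^ 4 +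
        (sgb false * f 0 + ∑ i, sgb (η i) * f i.succ) ^ 4 =
        2 * (∑ i, sgb (η i) * f i.succ) ^ 4 + 12 * f 0 ^ 2 * (∑ i, sgb (η i) * f i.succ) ^ 2 +
          2 * f 0 ^ 4 := by
      intro η; simp only [sgb]; simp; ring
    simp only [h]
    rw [Finset.sum_add_distrib, Finset.sum_add_distrib, ← Finset.mul_sum, ← Finset.mul_sum,
      sum_sq_fin n (fun i => f i.succ), Fin.sum_univ_succ]
    simp only [Finset.sum_const, Finset.card_univ, Fintype.card_fun, Fintype.card_bool,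
      Fintype.card_fin, nsmul_eq_mul]
    push_cast
    have k := ih (fun i => f i.succ)
    set v' := ∑ i : Fin n, f i.succ ^ 2
    have hp : (0 : ℝ) < 2 ^ n := by positivity
    have : 2 ^ (n + 1) * (3 * (f 0 ^ 2 + v') ^ 2) - (2 * (2 ^ n * (3 * v' ^ 2)) +
        12 * f 0 ^ 2 * (2 ^ n * v') + 2 ^ n * (2 * f 0 ^ 4)) = 2 ^ n * (4 * f 0 ^ 4) := by ring
    have h4 : 0 ≤ (2 : ℝ) ^ n * (4 * f 0 ^ 4) := by positivity
    linarith

theorem exp_neg_le (t : ℝ) (ht : 0 ≤ t) : Real.exp (-t) ≤ 1 - t + t ^ 2 / 2 := by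
  have h1 := Real.quadratic_le_exp_of_nonneg ht
  have h2 : 0 < 1 - t + t ^ 2 / 2 := by nlinarith [sq_nonneg (t - 1)]
  rw [Real.exp_neg, inv_le_iff_one_le_mul₀ (Real.exp_pos t)]
  calc (1 : ℝ) ≤ (1 - t + t ^ 2 / 2) * (1 + t + t ^ 2 / 2) := by nlinarith [sq_nonneg (t ^ 2)]
    _ ≤ _ := mul_le_mul_of_nonneg_left h1 h2.le

theorem lower_fin (n : ℕ) (f : Fin n → ℝ) (lam : ℝ) (hl : 0 ≤ lam) :
    ∑ η : Fin n → Bool, Real.exp (-(lam * (∑ i, sgb (η i) * f i) ^ 2)) ≤
      2 ^ n * Real.exp (-(lam * ∑ i, f i ^ 2) + 2 * lam ^ 2 * (∑ i, f i ^ 2) ^ 2) := by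
  set v := ∑ i, f i ^ 2 with hv
  have h1 : ∀ η : Fin n → Bool, Real.exp (-(lam * (∑ i, sgb (η i) * f i) ^ 2)) ≤
      1 - lam * (∑ i, sgb (η i) * f i) ^ 2 + lam ^ 2 / 2 * (∑ i, sgb (η i) * f i) ^ 4 := by
    intro η
    have := exp_neg_le (lam * (∑ i, sgb (η i) * f i) ^ 2) (by positivity)
    refine this.trans (le_of_eq ?_)
    ring
  refine (Finset.sum_le_sum fun η _ => h1 η).trans ?_
  rw [Finset.sum_add_distrib, Finset.sum_sub_distrib, ← Finset.mul_sum, ← Finset.mul_sum,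
    sum_sq_fin, ← hv]
  have h2 := sum_four_fin n f
  rw [← hv] at h2
  simp only [Finset.sum_const, Finset.card_univ, Fintype.card_fun, Fintype.card_bool,
    Fintype.card_fin, nsmul_eq_mul]
  push_cast
  have hp : (0 : ℝ) < 2 ^ n := by positivity
  have h3 := Real.add_one_le_exp (-(lam * v) + 2 * lam ^ 2 * v ^ 2)
  have h4 : (2 : ℝ) ^ n * (1 - lam * v + 3 / 2 * lam ^ 2 * v ^ 2) ≤
      2 ^ n * Real.exp (-(lam * v) + 2 * lam ^ 2 * v ^ 2) := by
    apply mul_le_mul_of_nonneg_left _ hp.le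
    nlinarith [mul_nonneg (sq_nonneg lam) (sq_nonneg v)]
  have h5 := mul_le_mul_of_nonneg_left h2 (show 0 ≤ lam ^ 2 / 2 by positivity)
  nlinarith

theorem upper_fin' (n : ℕ) (f : Fin n → ℝ) (lam : ℝ) (hl : 0 ≤ lam)
    (h : lam * (∑ i, f i ^ 2) ≤ 1 / 4) :
    ∑ η : Fin n → Bool, Real.exp (lam * (∑ i, sgb (η i) * f i) ^ 2) ≤
      2 ^ n * Real.exp (lam * (∑ i, f i ^ 2) + 2 * lam ^ 2 * (∑ i, f i ^ 2) ^ 2) := by
  have h1 := upper_fin n f 0 lam hl (by linarith)
  simp only [zero_add] at h1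
  refine h1.trans ?_
  set v := ∑ i, f i ^ 2 with hv
  have hv0 : 0 ≤ v := Finset.sum_nonneg fun i _ => sq_nonneg _
  have e0 : lam * (0 : ℝ) ^ 2 / (1 - 2 * lam * v) = 0 := by simp
  rw [e0, Real.exp_zero, mul_one]
  apply mul_le_mul_of_nonneg_left _ (by positivity)
  set y := 2 * (lam * v) with hy
  have hy0 : 0 ≤ y := by positivity
  have hy1 : y ≤ 1 / 2 := by linarith
  have e1 : 1 - 2 * lam * v = 1 - y := by rw [hy]; ring
  have e2 : lam * v + 2 * lam ^ 2 * v ^ 2 = (y + y ^ 2) / 2 := by rw [hy]; ring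
  rw [e1, e2]
  have h1y : 0 < 1 - y := by linarith
  rw [div_le_iff₀ (Real.sqrt_pos.mpr h1y)]
  -- 1 ≤ exp((y+y²)/2) sqrt(1-y)
  have h3 : (1 : ℝ) ≤ Real.exp (y + y ^ 2) * (1 - y) := by
    have h4 := Real.quadratic_le_exp_of_nonneg (show 0 ≤ y + y ^ 2 by positivity)
    calc (1 : ℝ) ≤ (1 + (y + y ^ 2) + (y + y ^ 2) ^ 2 / 2) * (1 - y) := by
          have : (1 + (y + y ^ 2) + (y + y ^ 2) ^ 2 / 2) * (1 - y) - 1 =
            y ^ 2 / 2 * (1 - y - y ^ 2 - y ^ 3) := by ring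
          have h5 : 0 ≤ 1 - y - y ^ 2 - y ^ 3 := by nlinarith [mul_nonneg hy0 hy0]
          nlinarith [mul_nonneg (sq_nonneg y) h5]
      _ ≤ _ := mul_le_mul_of_nonneg_right h4 h1y.le
  have h6 : Real.exp ((y + y ^ 2) / 2) * Real.sqrt (1 - y) =
      Real.sqrt (Real.exp (y + y ^ 2) * (1 - y)) := by
    rw [Real.sqrt_mul (Real.exp_pos _).le]
    congr 1
    rw [Real.exp_half]
  rw [h6]
  exact Real.one_le_sqrt.mpr h3

/-- transfer to an arbitrary finite type -/
theorem upper_fintype {κ : Type} [Fintype κ] [DecidableEq κ] (f : κ → ℝ) (lam : ℝ) (hl : 0 ≤ lam)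
    (h : lam * (∑ i, f i ^ 2) ≤ 1 / 4) :
    ∑ η : κ → Bool, Real.exp (lam * (∑ i, sgb (η i) * f i) ^ 2) ≤
      2 ^ (Fintype.card κ) * Real.exp (lam * (∑ i, f i ^ 2) + 2 * lam ^ 2 * (∑ i, f i ^ 2) ^ 2) := by
  set e := Fintype.equivFin κ
  have h1 : ∀ F : κ → ℝ, ∑ i, F i = ∑ j, F (e.symm j) := fun F => (e.symm.sum_comp F).symm
  rw [h1 (fun i => f i ^ 2)] at h ⊢
  have := upper_fin' _ (fun j => f (e.symm j)) lam hl h
  refine le_trans (le_of_eq ?_) this
  rw [← (Equiv.arrowCongr e (Equiv.refl Bool)).symm.sum_comp]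
  apply Finset.sum_congr rfl
  intro η _
  rw [h1]
  simp

theorem lower_fintype {κ : Type} [Fintype κ] [DecidableEq κ] (f : κ → ℝ) (lam : ℝ) (hl : 0 ≤ lam) :
    ∑ η : κ → Bool, Real.exp (-(lam * (∑ i, sgb (η i) * f i) ^ 2)) ≤
      2 ^ (Fintype.card κ) * Real.exp (-(lam * ∑ i, f i ^ 2) + 2 * lam ^ 2 * (∑ i, f i ^ 2) ^ 2) := by
  set e := Fintype.equivFin κ
  have h1 : ∀ F : κ → ℝ, ∑ i, F i = ∑ j, F (e.symm j) := fun F => (e.symm.sum_comp F).symm
  rw [h1 (fun i => f i ^ 2)]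
  have := lower_fin _ (fun j => f (e.symm j)) lam hl
  refine le_trans (le_of_eq ?_) this
  rw [← (Equiv.arrowCongr e (Equiv.refl Bool)).symm.sum_comp]
  apply Finset.sum_congr rfl
  intro η _
  rw [h1]
  simp

/-- splitting the sign vectors into groups -/
def grpEquiv {ι γ : Type} (g : ι → γ) : (ι → Bool) ≃ (∀ r : γ, {i // g i = r} → Bool) where
  toFun ω := fun _ i => ω i.1
  invFun h := fun i => h (g i) ⟨i, rfl⟩
  left_inv _ := rfl
  right_inv h := by
    funext r i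
    obtain ⟨i, hi⟩ := i
    subst hi
    rfl

theorem sum_prod_groups {ι γ : Type} [Fintype ι] [DecidableEq ι] [Fintype γ] [DecidableEq γ]
    (g : ι → γ) (φ : ∀ r, ({i // g i = r} → Bool) → ℝ) :
    ∑ ω : ι → Bool, ∏ r, φ r (fun i => ω i.1) = ∏ r, ∑ η : ({i // g i = r} → Bool), φ r η := by
  have h := Finset.prod_univ_sum (R := ℝ) (t := fun r : γ => (univ : Finset ({i // g i = r} → Bool)))
    (f := fun r η => φ r η)
  rw [Fintype.piFinset_univ] at h
  rw [h, ← (grpEquiv g).sum_comp]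
  rfl

theorem card_groups {ι γ : Type} [Fintype ι] [DecidableEq ι] [Fintype γ] [DecidableEq γ]
    (g : ι → γ) : ∏ r, (2 : ℝ) ^ Fintype.card {i // g i = r} = 2 ^ Fintype.card ι := by
  rw [Finset.prod_pow_eq_pow_sum]
  congr 1
  rw [← Fintype.card_sigma]
  exact Fintype.card_congr (Equiv.sigmaFiberEquiv g)

theorem T8a_groupSigns {ι γ : Type} [Fintype ι] [DecidableEq ι] [Fintype γ] [DecidableEq γ]
    (g : ι → γ) (m : ℕ) (hm : 1 ≤ m) (δ : ℝ) (hδ : 0 < δ) (hδ1 : δ ≤ 1) (Y : Finset (ι → ℝ))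
    (hY1 : ∀ f ∈ Y, nsq f ≤ 1)
    (hY2 : ∀ f ∈ Y, ∀ r, ∑ i ∈ univ.filter (fun i => g i = r), f i ^ 2 ≤ 2 / m)
    (hY : (Y.card : ℝ) * (2 * Real.exp (-(m * δ ^ 2 / 16))) < 1) :
    ∃ ε : ι → ℝ, (∀ i, ε i = 1 ∨ ε i = -1) ∧ ∀ f ∈ Y,
      |∑ r, (∑ i ∈ univ.filter (fun i => g i = r), ε i * f i) ^ 2 - nsq f| ≤ δ := by
  have hm0 : (0 : ℝ) < m := by exact_mod_cast hm
  set lam : ℝ := m * δ / 8 with hlam
  have hlam0 : 0 < lam := by positivity
  -- group sums as sums over subtypes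
  have hsub : ∀ (F : ι → ℝ) (r : γ), ∑ i ∈ univ.filter (fun i => g i = r), F i =
      ∑ i : {i // g i = r}, F i.1 := by
    intro F r
    rw [Finset.sum_subtype (p := fun i => g i = r) _ (fun i => by simp)]
  have hfib : ∀ F : ι → ℝ, ∑ i, F i = ∑ r, ∑ i : {i // g i = r}, F i.1 := by
    intro F
    rw [← Finset.sum_fiberwise univ g F]
    exact Finset.sum_congr rfl fun r _ => hsub F r
  have hN : (0 : ℝ) < 2 ^ Fintype.card ι := by positivity
  -- exponential moments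
  have hmom : ∀ f ∈ Y, ∑ ω : ι → Bool,
      (Real.exp (lam * (∑ r, (∑ i : {i // g i = r}, sgb (ω i.1) * f i.1) ^ 2 - nsq f)) +
       Real.exp (-(lam * (∑ r, (∑ i : {i // g i = r}, sgb (ω i.1) * f i.1) ^ 2 - nsq f)))) ≤
      2 ^ Fintype.card ι * (2 * Real.exp (m * δ ^ 2 / 16)) := by
    intro f hf
    have hv : ∀ r, ∑ i : {i // g i = r}, f i.1 ^ 2 ≤ 2 / m := by
      intro r
      rw [← hsub (fun i => f i ^ 2)]
      exact hY2 f hf r
    have hv0 : ∀ r, 0 ≤ ∑ i : {i // g i = r}, f i.1 ^ 2 := fun r =>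
      Finset.sum_nonneg fun i _ => sq_nonneg _
    have hV : ∑ r, ∑ i : {i // g i = r}, f i.1 ^ 2 = nsq f := (hfib (fun i => f i ^ 2)).symm
    have hV2 : ∑ r, 2 * lam ^ 2 * (∑ i : {i // g i = r}, f i.1 ^ 2) ^ 2 ≤ m * δ ^ 2 / 16 := by
      have h1 : ∑ r, 2 * lam ^ 2 * (∑ i : {i // g i = r}, f i.1 ^ 2) ^ 2 ≤
          ∑ r, 2 * lam ^ 2 * (2 / m * ∑ i : {i // g i = r}, f i.1 ^ 2) := by
        apply Finset.sum_le_sum
        intro r _
        apply mul_le_mul_of_nonneg_left _ (by positivity)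
        rw [sq]
        exact mul_le_mul_of_nonneg_right (hv r) (hv0 r)
      refine h1.trans ?_
      rw [← Finset.mul_sum, ← Finset.mul_sum, hV]
      have h2 : 2 * lam ^ 2 * (2 / m * nsq f) ≤ 2 * lam ^ 2 * (2 / m * 1) := by
        apply mul_le_mul_of_nonneg_left _ (by positivity)
        exact mul_le_mul_of_nonneg_left (hY1 f hf) (by positivity)
      refine h2.trans (le_of_eq ?_)
      rw [hlam]; field_simp; ring
    have hU : ∑ ω : ι → Bool,
        Real.exp (lam * (∑ r, (∑ i : {i // g i = r}, sgb (ω i.1) * f i.1) ^ 2 - nsq f)) ≤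
        2 ^ Fintype.card ι * Real.exp (m * δ ^ 2 / 16) := by
      have e1 : ∀ ω : ι → Bool,
          Real.exp (lam * (∑ r, (∑ i : {i // g i = r}, sgb (ω i.1) * f i.1) ^ 2 - nsq f)) =
          Real.exp (-(lam * nsq f)) *
            ∏ r, Real.exp (lam * (∑ i : {i // g i = r}, sgb (ω i.1) * f i.1) ^ 2) := by
        intro ω
        rw [← Real.exp_sum, ← Real.exp_add, ← Finset.mul_sum]
        congr 1; ring
      simp only [e1]
      rw [← Finset.mul_sum, sum_prod_groups g (fun r η =>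
        Real.exp (lam * (∑ i : {i // g i = r}, sgb (η i) * f i.1) ^ 2))]
      have e2 : ∏ r, ∑ η : ({i // g i = r} → Bool),
          Real.exp (lam * (∑ i : {i // g i = r}, sgb (η i) * f i.1) ^ 2) ≤
          ∏ r, (2 ^ (Fintype.card {i // g i = r}) *
            Real.exp (lam * (∑ i : {i // g i = r}, f i.1 ^ 2) +
              2 * lam ^ 2 * (∑ i : {i // g i = r}, f i.1 ^ 2) ^ 2)) := by
        apply Finset.prod_le_prod
        · intro r _
          exact Finset.sum_nonneg fun η _ => (Real.exp_pos _).le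
        · intro r _
          apply upper_fintype (fun i : {i // g i = r} => f i.1) lam hlam0.le
          calc lam * ∑ i : {i // g i = r}, f i.1 ^ 2 ≤ lam * (2 / m) :=
                mul_le_mul_of_nonneg_left (hv r) hlam0.le
            _ = δ / 4 := by rw [hlam]; field_simp; ring
            _ ≤ 1 / 4 := by linarith
      rw [Finset.prod_mul_distrib, card_groups, ← Real.exp_sum, Finset.sum_add_distrib,
        ← Finset.mul_sum, hV] at e2
      calc Real.exp (-(lam * nsq f)) * ∏ r, ∑ η : ({i // g i = r} → Bool),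
            Real.exp (lam * (∑ i : {i // g i = r}, sgb (η i) * f i.1) ^ 2)
          ≤ Real.exp (-(lam * nsq f)) * (2 ^ Fintype.card ι * Real.exp (lam * nsq f +
            ∑ r, 2 * lam ^ 2 * (∑ i : {i // g i = r}, f i.1 ^ 2) ^ 2)) :=
            mul_le_mul_of_nonneg_left e2 (Real.exp_pos _).le
        _ = 2 ^ Fintype.card ι * Real.exp
            (∑ r, 2 * lam ^ 2 * (∑ i : {i // g i = r}, f i.1 ^ 2) ^ 2) := by
            rw [mul_left_comm, ← Real.exp_add]; congr 2; ring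
        _ ≤ _ := mul_le_mul_of_nonneg_left (Real.exp_le_exp.mpr hV2) hN.le
    have hL : ∑ ω : ι → Bool,
        Real.exp (-(lam * (∑ r, (∑ i : {i // g i = r}, sgb (ω i.1) * f i.1) ^ 2 - nsq f))) ≤
        2 ^ Fintype.card ι * Real.exp (m * δ ^ 2 / 16) := by
      have e1 : ∀ ω : ι → Bool,
          Real.exp (-(lam * (∑ r, (∑ i : {i // g i = r}, sgb (ω i.1) * f i.1) ^ 2 - nsq f))) =
          Real.exp (lam * nsq f) *
            ∏ r, Real.exp (-(lam * (∑ i : {i // g i = r}, sgb (ω i.1) * f i.1) ^ 2)) := by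
        intro ω
        rw [← Real.exp_sum, ← Real.exp_add, Finset.sum_neg_distrib, ← Finset.mul_sum]
        congr 1; ring
      simp only [e1]
      rw [← Finset.mul_sum, sum_prod_groups g (fun r η =>
        Real.exp (-(lam * (∑ i : {i // g i = r}, sgb (η i) * f i.1) ^ 2)))]
      have e2 : ∏ r, ∑ η : ({i // g i = r} → Bool),
          Real.exp (-(lam * (∑ i : {i // g i = r}, sgb (η i) * f i.1) ^ 2)) ≤
          ∏ r, (2 ^ (Fintype.card {i // g i = r}) *
            Real.exp (-(lam * (∑ i : {i // g i = r}, f i.1 ^ 2)) +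
              2 * lam ^ 2 * (∑ i : {i // g i = r}, f i.1 ^ 2) ^ 2)) := by
        apply Finset.prod_le_prod
        · intro r _
          exact Finset.sum_nonneg fun η _ => (Real.exp_pos _).le
        · intro r _
          exact lower_fintype (fun i : {i // g i = r} => f i.1) lam hlam0.le
      rw [Finset.prod_mul_distrib, card_groups, ← Real.exp_sum, Finset.sum_add_distrib,
        Finset.sum_neg_distrib, ← Finset.mul_sum, hV] at e2
      calc Real.exp (lam * nsq f) * ∏ r, ∑ η : ({i // g i = r} → Bool),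
            Real.exp (-(lam * (∑ i : {i // g i = r}, sgb (η i) * f i.1) ^ 2))
          ≤ Real.exp (lam * nsq f) * (2 ^ Fintype.card ι * Real.exp (-(lam * nsq f) +
            ∑ r, 2 * lam ^ 2 * (∑ i : {i // g i = r}, f i.1 ^ 2) ^ 2)) :=
            mul_le_mul_of_nonneg_left e2 (Real.exp_pos _).le
        _ = 2 ^ Fintype.card ι * Real.exp
            (∑ r, 2 * lam ^ 2 * (∑ i : {i // g i = r}, f i.1 ^ 2) ^ 2) := by
            rw [mul_left_comm, ← Real.exp_add]; congr 2; ring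
        _ ≤ _ := mul_le_mul_of_nonneg_left (Real.exp_le_exp.mpr hV2) hN.le
    rw [Finset.sum_add_distrib]
    linarith
  -- existence of a good sign vector
  have hex : ∃ ω : ι → Bool, ∑ f ∈ Y,
      (Real.exp (lam * (∑ r, (∑ i : {i // g i = r}, sgb (ω i.1) * f i.1) ^ 2 - nsq f)) +
       Real.exp (-(lam * (∑ r, (∑ i : {i // g i = r}, sgb (ω i.1) * f i.1) ^ 2 - nsq f)))) <
      Real.exp (lam * δ) := by
    by_contra hcon
    push Not at hcon
    have h1 : ∑ _ω : ι → Bool, Real.exp (lam * δ) ≤ ∑ ω : ι → Bool, ∑ f ∈ Y,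
      (Real.exp (lam * (∑ r, (∑ i : {i // g i = r}, sgb (ω i.1) * f i.1) ^ 2 - nsq f)) +
       Real.exp (-(lam * (∑ r, (∑ i : {i // g i = r}, sgb (ω i.1) * f i.1) ^ 2 - nsq f)))) :=
      Finset.sum_le_sum fun ω _ => hcon ω
    rw [Finset.sum_comm] at h1
    have h2 := h1.trans (Finset.sum_le_sum fun f hf => hmom f hf)
    simp only [Finset.sum_const, Finset.card_univ, Fintype.card_fun, Fintype.card_bool,
      nsmul_eq_mul] at h2
    push_cast at h2
    have h3 : Real.exp (lam * δ) = Real.exp (m * δ ^ 2 / 16) * Real.exp (m * δ ^ 2 / 16) := by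
      rw [← Real.exp_add, hlam]; congr 1; ring
    have h4 : (Y.card : ℝ) * (2 * Real.exp (m * δ ^ 2 / 16)) < Real.exp (lam * δ) := by
      rw [h3]
      have h5 : Real.exp (-(m * δ ^ 2 / 16)) * (Real.exp (m * δ ^ 2 / 16) *
        Real.exp (m * δ ^ 2 / 16)) = Real.exp (m * δ ^ 2 / 16) := by
        rw [← mul_assoc, ← Real.exp_add]; simp
      have h6 := mul_lt_mul_of_pos_right hY (show 0 < Real.exp (m * δ ^ 2 / 16) *
        Real.exp (m * δ ^ 2 / 16) by positivity)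
      calc (Y.card : ℝ) * (2 * Real.exp (m * δ ^ 2 / 16))
          = (Y.card : ℝ) * (2 * Real.exp (-(m * δ ^ 2 / 16))) * (Real.exp (m * δ ^ 2 / 16) *
            Real.exp (m * δ ^ 2 / 16)) := by
            rw [← h5]
            rw [h5]
            linear_combination (-(Y.card : ℝ) * 2) * h5
        _ < _ := by linarith
    have h7 := mul_lt_mul_of_pos_left h4 hN
    linarith
  obtain ⟨ω, hω⟩ := hex
  refine ⟨fun i => sgb (ω i), fun i => sgb_cases _, ?_⟩
  intro f hf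
  have hle : Real.exp (lam * (∑ r, (∑ i : {i // g i = r}, sgb (ω i.1) * f i.1) ^ 2 - nsq f)) +
       Real.exp (-(lam * (∑ r, (∑ i : {i // g i = r}, sgb (ω i.1) * f i.1) ^ 2 - nsq f))) <
      Real.exp (lam * δ) := by
    refine lt_of_le_of_lt ?_ hω
    exact Finset.single_le_sum (f := fun f =>
      Real.exp (lam * (∑ r, (∑ i : {i // g i = r}, sgb (ω i.1) * f i.1) ^ 2 - nsq f)) +
       Real.exp (-(lam * (∑ r, (∑ i : {i // g i = r}, sgb (ω i.1) * f i.1) ^ 2 - nsq f))))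
      (fun f _ => by positivity) hf
  have hgoal : ∑ r, (∑ i ∈ univ.filter (fun i => g i = r), sgb (ω i) * f i) ^ 2 =
      ∑ r, (∑ i : {i // g i = r}, sgb (ω i.1) * f i.1) ^ 2 := by
    apply Finset.sum_congr rfl
    intro r _
    rw [hsub (fun i => sgb (ω i) * f i)]
  rw [hgoal]
  set Z := ∑ r, (∑ i : {i // g i = r}, sgb (ω i.1) * f i.1) ^ 2 - nsq f
  have a1 : lam * Z < lam * δ := by
    apply Real.exp_lt_exp.mp
    linarith [Real.exp_pos (-(lam * Z))]
  have a2 : -(lam * Z) < lam * δ := by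
    apply Real.exp_lt_exp.mp
    linarith [Real.exp_pos (lam * Z)]
  rw [abs_le]
  constructor
  · have : lam * (-Z) < lam * δ := by linarith
    have := lt_of_mul_lt_mul_left this hlam0.le
    linarith
  · exact (lt_of_mul_lt_mul_left a1 hlam0.le).le

end Pool.Agent.MP_72d76c_lc
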