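import Pool.Agent.MP_72d76c_lc.Circuit

/-!
# T9: the Walsh-Hadamard transform
-/

namespace Pool.Agent.MP_72d76c_lc

open Finset Matrix

/-- Normalised Walsh-Hadamard matrix. -/
noncomputable def wh (p : ℕ) : Matrix (Fin p → Bool) (Fin p → Bool) ℝ :=
  fun b c => (∏ i, (if b i && c i then (-1 : ℝ) else 1)) / Real.sqrt (2 ^ p)

theorem T9_wh_symm (p : ℕ) : (wh p)ᵀ = wh p := by
  ext b c
  simp only [Matrix.transpose_apply, wh, Bool.and_comm]

theorem T9_wh_entry (p : ℕ) (b c : Fin p → Bool) : wh p b c ^ 2 = 1 / 2 ^ p := by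
  unfold wh
  rw [div_pow, Real.sq_sqrt (by positivity), ← Finset.prod_pow]
  congr 1
  apply Finset.prod_eq_one
  intro i _
  split_ifs <;> norm_num

theorem T9_wh_mul_self (p : ℕ) : wh p * wh p = 1 := by
  ext b d
  rw [Matrix.mul_apply]
  have h1 : ∀ c : Fin p → Bool, wh p b c * wh p c d =
      (∏ i, (if b i && c i then (-1 : ℝ) else 1) * (if c i && d i then (-1 : ℝ) else 1)) / 2 ^ p := by
    intro c
    unfold wh
    rw [div_mul_div_comm, ← Finset.prod_mul_distrib, Real.mul_self_sqrt (by positivity)]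
  simp only [h1]
  rw [← Finset.sum_div]
  have h2 := Finset.prod_univ_sum (R := ℝ) (t := fun _ : Fin p => (univ : Finset Bool))
    (f := fun i c => (if b i && c then (-1 : ℝ) else 1) * (if c && d i then (-1 : ℝ) else 1))
  rw [Fintype.piFinset_univ] at h2
  rw [← h2]
  have h3 : ∀ i : Fin p, ∑ c : Bool, (if b i && c then (-1 : ℝ) else 1) *
      (if c && d i then (-1 : ℝ) else 1) = if b i = d i then 2 else 0 := by
    intro i
    rw [Fintype.sum_bool]
    cases b i <;> cases d i <;> norm_num
  simp only [h3]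
  by_cases hbd : b = d
  · subst hbd
    simp
  · obtain ⟨i, hi⟩ := Function.ne_iff.mp hbd
    rw [Finset.prod_eq_zero (Finset.mem_univ i) (by rw [if_neg hi]), zero_div,
      Matrix.one_apply_ne hbd]

/-- the sign of a pair of bits -/
noncomputable def sg (a b : Bool) : ℝ := if a && b then (-1 : ℝ) else 1

theorem sg_false (a : Bool) : sg a false = 1 := by
  cases a <;> simp [sg]

theorem sg_true (a : Bool) : sg a true = if a then (-1 : ℝ) else 1 := by
  cases a <;> simp [sg]

/-- unnormalised transform -/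
noncomputable def whu (p : ℕ) (x : (Fin p → Bool) → ℝ) (b : Fin p → Bool) : ℝ :=
  ∑ c, (∏ i, sg (b i) (c i)) * x c

theorem whu_succ (p : ℕ) (x : (Fin (p + 1) → Bool) → ℝ) (b : Fin (p + 1) → Bool) :
    whu (p + 1) x b =
      whu p (fun c => x (Fin.cons false c)) (Fin.tail b) +
      (if b 0 then (-1 : ℝ) else 1) * whu p (fun c => x (Fin.cons true c)) (Fin.tail b) := by
  unfold whu
  rw [← (Fin.consEquiv (fun _ => Bool)).sum_comp, Fintype.sum_prod_type, Fintype.sum_bool]
  have hce : ∀ q : Bool × (Fin p → Bool), (Fin.consEquiv (fun _ => Bool)) q =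
      (Fin.cons q.1 q.2 : Fin (p + 1) → Bool) := fun _ => rfl
  simp only [hce, Fin.prod_univ_succ, Fin.cons_zero, Fin.cons_succ, sg_false, sg_true, Fin.tail]
  rw [add_comm, Finset.mul_sum]
  congr 1
  · apply Finset.sum_congr rfl
    intro c _
    ring
  · apply Finset.sum_congr rfl
    intro c _
    ring

theorem whu_cost (p : ℕ) : ComputesIn (p * 2 ^ p) (whu p) := by
  induction p with
  | zero =>
    refine (computesIn_id.mono (Nat.zero_le _)).congr ?_
    intro x b
    unfold whu
    have : ∀ c : Fin 0 → Bool, c = b := fun c => Subsingleton.elim _ _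
    simp [this]
  | succ p ih =>
    have h0 : ComputesIn (p * 2 ^ p) (fun (x : (Fin (p + 1) → Bool) → ℝ) =>
        whu p (fun c => x (Fin.cons false c))) := ih.inp _
    have h1 : ComputesIn (p * 2 ^ p) (fun (x : (Fin (p + 1) → Bool) → ℝ) =>
        whu p (fun c => x (Fin.cons true c))) := ih.inp _
    have h2 : ComputesIn (Fintype.card (Fin (p + 1) → Bool) * 1)
        (fun (y : (Fin p → Bool) ⊕ (Fin p → Bool) → ℝ) (b : Fin (p + 1) → Bool) =>
          y (Sum.inl (Fin.tail b)) + (if b 0 then (-1 : ℝ) else 1) * y (Sum.inr (Fin.tail b))) := by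
      refine ComputesIn.pi_const 1 fun b => ?_
      cases hb : b 0
      · refine (((ComputesIn.coord (Sum.inl (Fin.tail b))).add₁
          (ComputesIn.coord (Sum.inr (Fin.tail b)))).mono (by norm_num)).congr ?_
        intro y j; simp
      · refine (((ComputesIn.coord (Sum.inl (Fin.tail b))).sub₁
          (ComputesIn.coord (Sum.inr (Fin.tail b)))).mono (by norm_num)).congr ?_
        intro y j; simp; ring
    have h3 := h2.comp (h0.pair h1)
    refine (h3.mono ?_).congr ?_
    · rw [Fintype.card_fun, Fintype.card_bool, Fintype.card_fin, pow_succ]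
      apply le_of_eq
      ring
    · intro x b
      rw [whu_succ]
      rfl

theorem T9_wh_cost : ∃ C : ℕ, ∀ p : ℕ,
    ComputesIn (C * 2 ^ p * (p + 1)) (fun x : (Fin p → Bool) → ℝ => wh p *ᵥ x) := by
  refine ⟨2, fun p => ?_⟩
  have h := (whu_cost p).constMul (fun _ => (Real.sqrt (2 ^ p))⁻¹)
  refine (h.mono ?_).congr ?_
  · rw [Fintype.card_fun, Fintype.card_bool, Fintype.card_fin]
    nlinarith [Nat.zero_le (p * 2 ^ p)]
  · intro x b
    simp only [whu, wh, sg, Matrix.mulVec, dotProduct, Finset.mul_sum]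
    apply Finset.sum_congr rfl
    intro c _
    ring

end Pool.Agent.MP_72d76c_lc
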