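import Pool.Agent.MP_72d76c_lc.T10c
import Pool.Agent.MP_72d76c_lc.T8a
import Pool.Agent.MP_72d76c_lc.T9

/-!
# T10d: the measurement matrix for a finite family of vectors
-/

set_option linter.unusedSectionVars false

namespace Pool.Agent.MP_72d76c_lc

open Matrix Finset

section pad

variable {n : ℕ} {κ : Type} [Fintype κ] [DecidableEq κ]

/-- Zero padding along an embedding. -/
def padM (e : Fin n ↪ κ) : Matrix κ (Fin n) ℝ := fun q i => if q = e i then 1 else 0

theorem padMT_mulVec (e : Fin n ↪ κ) (y : κ → ℝ) (i : Fin n) : ((padM e)ᵀ *ᵥ y) i = y (e i) := by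
  simp only [mulVec, dotProduct, transpose_apply, padM, ite_mul, one_mul, zero_mul]
  rw [Finset.sum_ite_eq']
  simp

theorem padM_mulVec_apply (e : Fin n ↪ κ) (x : Fin n → ℝ) (i : Fin n) :
    (padM e *ᵥ x) (e i) = x i := by
  simp only [mulVec, dotProduct, padM, ite_mul, one_mul, zero_mul]
  rw [Finset.sum_eq_single i]
  · simp
  · intro j _ hj
    rw [if_neg fun h => hj (e.injective h).symm]
  · simp

theorem padM_mulVec_notin (e : Fin n ↪ κ) (x : Fin n → ℝ) (q : κ) (hq : ∀ i, e i ≠ q) :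
    (padM e *ᵥ x) q = 0 := by
  simp only [mulVec, dotProduct, padM, ite_mul, one_mul, zero_mul]
  exact sum_eq_zero fun i _ => by rw [if_neg fun h => hq i h.symm]

theorem nsq_padM (e : Fin n ↪ κ) (x : Fin n → ℝ) : nsq (padM e *ᵥ x) = nsq x := by
  classical
  simp only [nsq]
  have h1 : ∑ q, (padM e *ᵥ x) q ^ 2 = ∑ q ∈ univ.map e, (padM e *ᵥ x) q ^ 2 := by
    symm
    refine sum_subset (subset_univ _) fun q _ hq => ?_
    rw [padM_mulVec_notin e x q fun i hi => hq (by simp [← hi])]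
    simp
  rw [h1, Finset.sum_map]
  exact sum_congr rfl fun i _ => by rw [padM_mulVec_apply]

theorem computesIn_padM (e : Fin n ↪ κ) :
    ComputesIn (Fintype.card κ) (fun x : Fin n → ℝ => padM e *ᵥ x) := by
  classical
  have : ∀ q : κ, ComputesIn 1 (fun (x : Fin n → ℝ) (_ : Unit) => (padM e *ᵥ x) q) := by
    intro q
    by_cases hq : ∃ i, e i = q
    · obtain ⟨i, rfl⟩ := hq
      refine ((ComputesIn.coord i).mono (Nat.zero_le 1)).congr fun x j => ?_
      rw [padM_mulVec_apply]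
    · push Not at hq
      refine (computesIn_const 0).congr fun x j => ?_
      rw [padM_mulVec_notin e x q hq]
  simpa using ComputesIn.pi_const 1 this

theorem computesIn_padMT (e : Fin n ↪ κ) :
    ComputesIn 0 (fun y : κ → ℝ => (padM e)ᵀ *ᵥ y) :=
  (computesIn_reindex fun i => e i).congr fun y i => by rw [padMT_mulVec]

end pad

section group

variable {κ : Type} [Fintype κ] [DecidableEq κ] {m : ℕ}

/-- Signed sums over groups. -/
def grM (g : κ → Fin m) (ε : κ → ℝ) : Matrix (Fin m) κ ℝ := fun r i => if g i = r then ε i else 0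

theorem grM_mulVec (g : κ → Fin m) (ε : κ → ℝ) (y : κ → ℝ) (r : Fin m) :
    (grM g ε *ᵥ y) r = ∑ i ∈ univ.filter (fun i => g i = r), ε i * y i := by
  simp only [mulVec, dotProduct, grM, ite_mul, zero_mul]
  rw [Finset.sum_filter]

theorem grMT_mulVec (g : κ → Fin m) (ε : κ → ℝ) (z : Fin m → ℝ) (i : κ) :
    ((grM g ε)ᵀ *ᵥ z) i = ε i * z (g i) := by
  simp only [mulVec, dotProduct, transpose_apply, grM, ite_mul, zero_mul]
  rw [Finset.sum_ite_eq]
  simp

theorem computesIn_grM (g : κ → Fin m) (ε : κ → ℝ) :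
    ComputesIn (3 * Fintype.card κ + m) (fun y : κ → ℝ => grM g ε *ᵥ y) := by
  classical
  have h := computesIn_sparse (fun r : Fin m => univ.filter (fun i => g i = r))
    (fun _ i => ε i)
  refine (h.mono (le_of_eq ?_)).congr fun y r => by rw [grM_mulVec]
  rw [Finset.sum_add_distrib, ← mul_sum]
  have h2 : ∑ r : Fin m, (univ.filter (fun i => g i = r)).card = Fintype.card κ := by
    rw [← Finset.card_eq_sum_card_fiberwise (f := g) (t := univ) (fun i _ => mem_coe.2 (mem_univ _))]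
    rfl
  rw [h2]
  simp

theorem computesIn_grMT (g : κ → Fin m) (ε : κ → ℝ) :
    ComputesIn (Fintype.card κ * 2) (fun z : Fin m → ℝ => (grM g ε)ᵀ *ᵥ z) := by
  have h := (computesIn_reindex (ι := Fin m) (κ := κ) g).constMul ε
  refine (h.mono (by omega)).congr fun z i => ?_
  rw [grMT_mulVec]

theorem nsq_grM_le (g : κ → Fin m) (ε : κ → ℝ) (hε : ∀ i, ε i = 1 ∨ ε i = -1) (D : ℝ)
    (hD : ∀ r, ((univ.filter (fun i => g i = r)).card : ℝ) ≤ D) (y : κ → ℝ) :
    nsq (grM g ε *ᵥ y) ≤ D * nsq y := by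
  simp only [nsq]
  have h1 : ∀ r, (grM g ε *ᵥ y) r ^ 2 ≤ D * ∑ i ∈ univ.filter (fun i => g i = r), y i ^ 2 := by
    intro r
    rw [grM_mulVec]
    have h2 := Finset.sum_mul_sq_le_sq_mul_sq (univ.filter (fun i => g i = r)) ε y
    have h3 : ∑ i ∈ univ.filter (fun i => g i = r), ε i ^ 2 =
        ((univ.filter (fun i => g i = r)).card : ℝ) := by
      rw [Finset.card_eq_sum_ones, Nat.cast_sum]
      refine sum_congr rfl fun i _ => ?_
      rcases hε i with h | h <;> simp [h]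
    rw [h3] at h2
    exact h2.trans (mul_le_mul_of_nonneg_right (hD r) (sum_nonneg fun _ _ => sq_nonneg _))
  refine (sum_le_sum fun r _ => h1 r).trans (le_of_eq ?_)
  rw [← mul_sum]
  congr 1
  exact Finset.sum_fiberwise univ g (fun i => y i ^ 2)

end group

/-- The numerical heart: distortion of the measurement of `f + g` with `g` small. -/
theorem distortion {κ : Type} [Fintype κ] [DecidableEq κ] {m : ℕ} (A : Matrix (Fin m) κ ℝ)
    (f g : κ → ℝ) (hf : nsq f ≤ 1) (hAf : |nsq (A *ᵥ f) - nsq f| ≤ 1 / 16)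
    (hg : nsq g ≤ 1 / 20000) (hAg : nsq (A *ᵥ g) ≤ 1 / 20000) :
    |nsq (A *ᵥ (f + g)) - nsq (f + g)| ≤ 1 / 8 := by
  rw [mulVec_add, nsq_add, nsq_add]
  have hdot : ∀ {μ : Type} [Fintype μ] (u w : μ → ℝ), |2 * (u ⬝ᵥ w)| ≤ 1 / 100 * nsq u + 100 * nsq w := by
    intro μ _ u w
    rw [abs_le]
    simp only [nsq, dotProduct, mul_sum, ← Finset.sum_add_distrib, ← Finset.sum_neg_distrib]
    constructor
    · exact sum_le_sum fun i _ => by nlinarith [sq_nonneg (1 / 10 * u i + 10 * w i)]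
    · exact sum_le_sum fun i _ => by nlinarith [sq_nonneg (1 / 10 * u i - 10 * w i)]
  have h1 := hdot (A *ᵥ f) (A *ᵥ g)
  have h2 := hdot f g
  have h3 := nsq_nonneg (A *ᵥ g)
  have h4 := nsq_nonneg g
  have h5 := nsq_nonneg f
  rw [abs_le] at *
  constructor <;> linarith [h1.1, h1.2, h2.1, h2.2, hAf.1, hAf.2]

theorem fast_wh {p c : ℕ} (h : ComputesIn c (fun x : (Fin p → Bool) → ℝ => wh p *ᵥ x)) :
    Fast c (wh p) := by
  refine ⟨h, ?_, ?_⟩
  · rw [T9_wh_symm]; exact h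
  · rw [T9_wh_symm, T9_wh_mul_self]

theorem T10_core {p B r n : ℕ} (hB1 : 1 ≤ B) (hrp : r ≤ p) (hn : n ≤ 2 ^ p) {cH : ℕ}
    (hHf : Fast cH (wh p)) (ε : (Fin p → Bool) → ℝ) (hε : ∀ i, ε i = 1 ∨ ε i = -1)
    (s₀ : ℕ) (hs₀ : 1 ≤ s₀) (hW : WUP (wh p) ε s₀) (hsN : 6 * s₀ ≤ 2 ^ p)
    (M : ℕ) (hM : 1 ≤ M) (Λ : ℝ) (hΛ : Real.log (3 * M) ≤ Λ)
    (hBexp : (2 ^ p : ℝ) * Real.exp (-(3 / 20) * (B * s₀ / (6 * 2 ^ p))) ≤ Real.log 2)
    (t₁ t₂ : ℕ)
    (h3 : (1 / 4 : ℝ) ^ t₁ + 4 / 3 * (64 * Λ / (s₀ * B)) ≤ s₀ / 2 ^ p)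
    (h4 : (1 / 4 : ℝ) ^ t₂ * (s₀ / 2 ^ p) + 4 / 3 * (328 * Λ / (2 ^ p * B)) ≤
      440 * Λ / (2 ^ p * B))
    (hm : 10 ^ 7 * Λ ≤ 2 ^ r)
    (Y : Finset (Fin n → ℝ)) (hYM : Y.card ≤ M) (hY : ∀ v ∈ Y, nsq v ≤ 1) :
    ∃ A : Matrix (Fin (2 ^ r)) (Fin n) ℝ,
      ComputesIn ((t₂ + t₁) * roundCost (2 ^ p) B cH + 5 * (2 ^ p * B)) (fun x => A *ᵥ x) ∧
      ComputesIn ((t₂ + t₁) * roundCost (2 ^ p) B cH + 5 * (2 ^ p * B)) (fun y => Aᵀ *ᵥ y) ∧
      ∀ v ∈ Y, |nsq (A *ᵥ v) - nsq v| ≤ 1 / 8 := by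
  classical
  have hcι : Fintype.card (Fin p → Bool) = 2 ^ p := by simp
  have hcβ : Fintype.card (Fin B) = B := by simp
  have : Nonempty (Fin B) := ⟨⟨0, hB1⟩⟩
  have hN : (0 : ℝ) < 2 ^ p := by positivity
  have hBr : (1 : ℝ) ≤ B := by exact_mod_cast hB1
  have hMr : (1 : ℝ) ≤ M := by exact_mod_cast hM
  have hΛ0 : 0 < Λ := lt_of_lt_of_le (Real.log_pos (by linarith)) hΛ
  have hcard : Fintype.card (Fin n) ≤ Fintype.card ((Fin p → Bool) × Fin B) := by
    rw [Fintype.card_prod, hcι, hcβ, Fintype.card_fin]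
    nlinarith
  obtain ⟨e⟩ : Nonempty (Fin n ↪ (Fin p → Bool) × Fin B) :=
    Function.Embedding.nonempty_of_card_le hcard
  -- flattening
  obtain ⟨L, hL, hLY⟩ := flatten_main (ι := Fin p → Bool) (β := Fin B) (wh p) hHf
    (fun i j => by rw [T9_wh_entry, hcι]; push_cast; exact le_rfl) ε hε s₀ hs₀ hW
    (by rw [hcι]; exact hsN) M hM Λ hΛ (by rw [hcι, hcβ]; push_cast; exact hBexp) t₁ t₂
    (by rw [hcι, hcβ]; push_cast; exact h3) (Y.image fun v => padM e *ᵥ v)
    (card_image_le.trans hYM) (by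
      intro y hy
      obtain ⟨v, hv, rfl⟩ := mem_image.1 hy
      rw [nsq_padM]
      exact hY v hv)
  rw [hcι, hcβ] at hL
  rw [hcι, hcβ] at hLY
  push_cast at hLY
  set a₄ : ℝ := √(2 / 2 ^ p) with ha₄
  have ha₄sq : a₄ ^ 2 = 2 / 2 ^ p := Real.sq_sqrt (by positivity)
  have ha₄pos : 0 < a₄ := by positivity
  have hLY' : ∀ v ∈ Y, G a₄ (L *ᵥ (padM e *ᵥ v)) ≤ 440 * Λ / (2 ^ p * B) :=
    fun v hv => (hLY _ (mem_image_of_mem _ hv)).trans h4
  -- the groups
  obtain ⟨E⟩ : Nonempty ((Fin p → Bool) ≃ Fin (2 ^ r) × Fin (2 ^ (p - r))) := by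
    refine ⟨Fintype.equivOfCardEq ?_⟩
    rw [hcι, Fintype.card_prod, Fintype.card_fin, Fintype.card_fin, ← pow_add]
    congr 1
    omega
  set g : (Fin p → Bool) × Fin B → Fin (2 ^ r) := fun q => (E q.1).1 with hg
  have hfib : ∀ r₀ : Fin (2 ^ r), (univ.filter fun b : Fin p → Bool => (E b).1 = r₀).card =
      2 ^ (p - r) := by
    intro r₀
    have hinj : Function.Injective (fun k : Fin (2 ^ (p - r)) => E.symm (r₀, k)) := by
      intro k k' h
      have h' : ((r₀, k) : Fin (2 ^ r) × Fin (2 ^ (p - r))) = (r₀, k') := E.symm.injective h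
      exact congrArg Prod.snd h'
    have him : (univ.filter fun b : Fin p → Bool => (E b).1 = r₀) =
        (univ : Finset (Fin (2 ^ (p - r)))).image (fun k => E.symm (r₀, k)) := by
      ext b
      simp only [mem_filter, mem_univ, true_and, mem_image]
      constructor
      · intro hb
        refine ⟨(E b).2, ?_⟩
        rw [← hb]
        exact E.symm_apply_apply b
      · rintro ⟨k, rfl⟩
        rw [Equiv.apply_symm_apply]
    rw [him, card_image_of_injective _ hinj, card_univ, Fintype.card_fin]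
  have hpow : (2 : ℝ) ^ p = 2 ^ r * 2 ^ (p - r) := by
    rw [← pow_add]; congr 1; omega
  have hfilter : ∀ r₀ : Fin (2 ^ r), (univ.filter fun q : (Fin p → Bool) × Fin B => g q = r₀) =
      (univ.filter fun b : Fin p → Bool => (E b).1 = r₀) ×ˢ (univ : Finset (Fin B)) := by
    intro r₀
    ext q
    simp [hg]
  -- the family of truncated vectors
  set F : Finset ((Fin p → Bool) × Fin B → ℝ) :=
    Y.image fun v => trunc a₄ (L *ᵥ (padM e *ᵥ v)) with hF
  have hFcard : F.card ≤ M := card_image_le.trans hYM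
  have hnL : ∀ v, nsq (L *ᵥ (padM e *ᵥ v)) = nsq v := fun v => by
    rw [nsq_mulVec_orth hL.2.2, nsq_padM]
  obtain ⟨η, hη, hηF⟩ := T8a_groupSigns g (2 ^ r) Nat.one_le_two_pow (1 / 16) (by norm_num)
    (by norm_num) F
    (by
      intro f hf
      obtain ⟨v, hv, rfl⟩ := mem_image.1 hf
      exact (nsq_trunc_le a₄ ha₄pos.le _).trans ((hnL v).le.trans (hY v hv)))
    (by
      intro f hf r₀
      obtain ⟨v, hv, rfl⟩ := mem_image.1 hf
      rw [hfilter, Finset.sum_product]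
      calc ∑ b ∈ univ.filter (fun b : Fin p → Bool => (E b).1 = r₀),
            ∑ j, trunc a₄ (L *ᵥ (padM e *ᵥ v)) (b, j) ^ 2
          ≤ ∑ b ∈ univ.filter (fun b : Fin p → Bool => (E b).1 = r₀), 2 / 2 ^ p :=
            sum_le_sum fun b _ => (bn_trunc_le a₄ ha₄pos.le _ b).trans ha₄sq.le
        _ = 2 / ((2 ^ r : ℕ) : ℝ) := by
            rw [sum_const, hfib, nsmul_eq_mul, hpow]
            push_cast
            field_simp)
    (by
      refine card_exp_lt_one _ M hFcard hM Λ _ hΛ ?_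
      push_cast
      nlinarith)
  -- the matrix
  refine ⟨grM g η * (L * padM e), ?_, ?_, ?_⟩
  · have h := (computesIn_grM g η).comp (hL.1.comp (computesIn_padM e))
    refine (h.mono ?_).congr fun x j => by rw [← mulVec_mulVec, ← mulVec_mulVec]
    rw [Fintype.card_prod, hcι, hcβ]
    have : 2 ^ r ≤ 2 ^ p * B := by
      calc 2 ^ r ≤ 2 ^ p := Nat.pow_le_pow_right (by norm_num) hrp
        _ ≤ 2 ^ p * B := Nat.le_mul_of_pos_right _ hB1
    rw [← Nat.add_mul]
    omega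
  · have h := (computesIn_padMT e).comp (hL.2.1.comp (computesIn_grMT g η))
    refine (h.mono ?_).congr fun x j => by
      rw [transpose_mul, transpose_mul, ← mulVec_mulVec, ← mulVec_mulVec]
    rw [Fintype.card_prod, hcι, hcβ, ← Nat.add_mul]
    omega
  · intro v hv
    rw [← mulVec_mulVec, ← mulVec_mulVec]
    set y := L *ᵥ (padM e *ᵥ v) with hy
    have hyn : nsq y = nsq v := hnL v
    have hysplit : y = trunc a₄ y + (y - trunc a₄ y) := by abel
    have hGy : nsq (y - trunc a₄ y) ≤ 440 * Λ / (2 ^ p * B) := by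
      rw [nsq_sub_trunc a₄ ha₄pos.le]
      exact hLY' v hv
    have hrle : (2 : ℝ) ^ r ≤ 2 ^ p := pow_le_pow_right₀ (by norm_num) hrp
    have hsmall : nsq (y - trunc a₄ y) ≤ 1 / 20000 := by
      refine hGy.trans ?_
      rw [div_le_div_iff₀ (by positivity) (by norm_num)]
      have : (2 : ℝ) ^ p ≤ 2 ^ p * B := le_mul_of_one_le_right hN.le hBr
      nlinarith
    have hD : ∀ r₀, ((univ.filter (fun q => g q = r₀)).card : ℝ) ≤ 2 ^ (p - r) * B := by
      intro r₀
      rw [hfilter, card_product, hfib, card_univ, hcβ]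
      push_cast
      exact le_rfl
    have hGr : nsq (grM g η *ᵥ (y - trunc a₄ y)) ≤ 1 / 20000 := by
      refine (nsq_grM_le g η hη _ hD _).trans ?_
      calc (2 : ℝ) ^ (p - r) * B * nsq (y - trunc a₄ y)
          ≤ 2 ^ (p - r) * B * (440 * Λ / (2 ^ p * B)) :=
            mul_le_mul_of_nonneg_left hGy (by positivity)
        _ = 440 * Λ / 2 ^ r := by rw [hpow]; field_simp
        _ ≤ 1 / 20000 := by
            rw [div_le_div_iff₀ (by positivity) (by norm_num)]
            nlinarith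
    have hfin := distortion (grM g η) (trunc a₄ y) (y - trunc a₄ y)
      ((nsq_trunc_le a₄ ha₄pos.le _).trans (hyn.le.trans (hY v hv))) ?_ hsmall hGr
    · rw [← hysplit, hyn] at hfin
      exact hfin
    · have := hηF _ (mem_image_of_mem _ hv)
      refine le_trans (le_of_eq ?_) this
      congr 2
      simp only [nsq]
      exact sum_congr rfl fun r₀ _ => by rw [grM_mulVec]

end Pool.Agent.MP_72d76c_lc
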