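import Pool.Agent.MP_72d76c_lc.Defs2

/-!
# T3: hash families (lossless expanders) by the probabilistic method
-/

namespace Pool.Agent.MP_72d76c_lc

open Finset

namespace Hash

/-- Number of repetitions of `g` on `S`. -/
def rep {n R : ℕ} (S : Finset (Fin n)) (g : Fin n → Fin R) : ℕ := S.card - (S.image g).card

/-- Redistribution of one coordinate. -/
lemma sum_update {n R : ℕ} (a : Fin n) (F : (Fin n → Fin R) → ℝ) :
    ∑ h : Fin n → Fin R, ∑ v : Fin R, F (Function.update h a v) =
      R * ∑ h : Fin n → Fin R, F h := by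
  have hinv : Function.Involutive
      (fun p : (Fin n → Fin R) × Fin R => (Function.update p.1 a p.2, p.1 a)) := by
    rintro ⟨h, v⟩
    simp
  have h1 : ∑ h : Fin n → Fin R, ∑ v : Fin R, F (Function.update h a v) =
      ∑ p : (Fin n → Fin R) × Fin R, F (Function.update p.1 a p.2) := by
    rw [Fintype.sum_prod_type]
  have h2 : ∑ p : (Fin n → Fin R) × Fin R, F (Function.update p.1 a p.2) =
      ∑ p : (Fin n → Fin R) × Fin R, F p.1 := by
    have := Equiv.sum_comp (hinv.toPerm) (fun p : (Fin n → Fin R) × Fin R => F p.1)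
    simpa using this
  rw [h1, h2, Fintype.sum_prod_type]
  simp [Finset.mul_sum]

/-- The moment bound for one hash function. -/
lemma moment_one {n R : ℕ} (y : ℝ) (hy : 1 ≤ y) (s : ℕ) (hs : (s : ℝ) * y ≤ R)
    (S : Finset (Fin n)) (hS : S.card ≤ s) :
    ∑ g : Fin n → Fin R, y ^ rep S g ≤ 2 ^ S.card * (R : ℝ) ^ n := by
  classical
  induction S using Finset.induction_on with
  | empty => simp [rep]
  | insert a S ha ih =>
    have hScard : S.card + 1 ≤ s := by rwa [card_insert_of_notMem ha] at hS
    have ih' := ih (by omega)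
    rcases Nat.eq_zero_or_pos R with hR | hR
    · subst hR
      have : IsEmpty (Fin n → Fin 0) := ⟨fun f => (f a).elim0⟩
      simp
    have hRpos : (0 : ℝ) < R := by exact_mod_cast hR
    rw [card_insert_of_notMem ha]
    have key : ∀ h : Fin n → Fin R,
        ∑ v : Fin R, y ^ rep (insert a S) (Function.update h a v) ≤
          y ^ rep S h * (2 * R) := by
      intro h
      have himg : ∀ v, (insert a S).image (Function.update h a v) = insert v (S.image h) := by
        intro v
        rw [image_insert]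
        simp only [Function.update_self]
        congr 1
        apply image_congr
        intro i hi
        have : i ≠ a := fun hh => ha (hh ▸ hi)
        simp [Function.update_of_ne this]
      have hle : (S.image h).card ≤ S.card := card_image_le
      have hterm : ∀ v : Fin R, y ^ rep (insert a S) (Function.update h a v) ≤
          y ^ rep S h * ((if v ∈ S.image h then y else 0) + 1) := by
        intro v
        by_cases hv : v ∈ S.image h
        · have : rep (insert a S) (Function.update h a v) = rep S h + 1 := by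
            unfold rep
            rw [himg, insert_eq_of_mem hv, card_insert_of_notMem ha]
            omega
          rw [this, if_pos hv, pow_succ]
          have hp : (0:ℝ) ≤ y ^ rep S h := by positivity
          nlinarith
        · have : rep (insert a S) (Function.update h a v) = rep S h := by
            unfold rep
            rw [himg, card_insert_of_notMem hv, card_insert_of_notMem ha]
            omega
          rw [this, if_neg hv]
          simp
      calc ∑ v : Fin R, y ^ rep (insert a S) (Function.update h a v)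
          ≤ ∑ v : Fin R, y ^ rep S h * ((if v ∈ S.image h then y else 0) + 1) :=
            sum_le_sum fun v _ => hterm v
        _ = y ^ rep S h * ((S.image h).card * y + R) := by
            rw [← mul_sum, sum_add_distrib, sum_ite_mem, univ_inter, sum_const, sum_const,
              nsmul_eq_mul, nsmul_eq_mul, card_univ, Fintype.card_fin, mul_one]
        _ ≤ y ^ rep S h * (2 * R) := by
            have hp : (0:ℝ) ≤ y ^ rep S h := by positivity
            have h1 : ((S.image h).card : ℝ) ≤ s := by
              exact_mod_cast (by omega : (S.image h).card ≤ s)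
            have h2 : ((S.image h).card : ℝ) * y ≤ s * y := by
              apply mul_le_mul_of_nonneg_right h1 (by linarith)
            apply mul_le_mul_of_nonneg_left _ hp
            linarith
    have h3 : (R : ℝ) * ∑ g : Fin n → Fin R, y ^ rep (insert a S) g ≤
        (2 * R) * (2 ^ S.card * (R : ℝ) ^ n) := by
      rw [← sum_update a (fun g => y ^ rep (insert a S) g)]
      calc _ ≤ ∑ h : Fin n → Fin R, y ^ rep S h * (2 * R) := sum_le_sum fun h _ => key h
        _ = (2 * R) * ∑ h : Fin n → Fin R, y ^ rep S h := by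
            rw [← sum_mul]; ring
        _ ≤ _ := by
            apply mul_le_mul_of_nonneg_left ih'
            positivity
    have h4 : (R : ℝ) * ∑ g : Fin n → Fin R, y ^ rep (insert a S) g ≤
        R * (2 ^ (S.card + 1) * (R : ℝ) ^ n) := by
      calc _ ≤ _ := h3
        _ = _ := by ring
    exact le_of_mul_le_mul_left h4 hRpos

/-- The moment bound for `d` hash functions. -/
lemma moment_all {n R d : ℕ} (y : ℝ) (hy : 1 ≤ y) (s : ℕ) (hs : (s : ℝ) * y ≤ R)
    (S : Finset (Fin n)) (hS : S.card ≤ s) :
    ∑ h : Fin d → Fin n → Fin R, y ^ (∑ j, rep S (h j)) ≤ (2 ^ S.card * (R : ℝ) ^ n) ^ d := by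
  have h1 : ∑ h : Fin d → Fin n → Fin R, y ^ (∑ j, rep S (h j)) =
      (∑ g : Fin n → Fin R, y ^ rep S g) ^ d := by
    rw [Fintype.sum_pow]
    apply sum_congr rfl
    intro h _
    rw [Finset.prod_pow_eq_pow_sum]
  rw [h1]
  apply pow_le_pow_left₀
  · apply sum_nonneg
    intro g _
    positivity
  · exact moment_one y hy s hs S hS

open Classical in
/-- Markov: number of bad families for `S`. -/
lemma bad_count {n R e : ℕ} (hR : 1 ≤ R) (S : Finset (Fin n)) (hS1 : 1 ≤ S.card)
    (hSR : S.card ≤ R) :
    ((univ.filter (fun h : Fin (16 * e) → Fin n → Fin R =>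
      S.card * e ≤ ∑ j, rep S (h j))).card : ℝ) ≤
      (65536 * S.card / R) ^ (S.card * e) * ((R : ℝ) ^ n) ^ (16 * e) := by
  have hRpos : (0 : ℝ) < R := by exact_mod_cast hR
  have hSpos : (0 : ℝ) < S.card := by exact_mod_cast hS1
  set y : ℝ := R / S.card with hydef
  have hy : 1 ≤ y := by
    rw [hydef, le_div_iff₀ hSpos]
    simpa using (by exact_mod_cast hSR : (S.card : ℝ) ≤ R)
  have hypos : 0 < y := by linarith
  have hs : (S.card : ℝ) * y ≤ R := by
    rw [hydef]; field_simp; exact le_refl _
  have h1 := moment_all (d := 16 * e) y hy S.card hs S le_rfl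
  have h2 : y ^ (S.card * e) * ((univ.filter (fun h : Fin (16 * e) → Fin n → Fin R =>
      S.card * e ≤ ∑ j, rep S (h j))).card : ℝ) ≤
      ∑ h : Fin (16 * e) → Fin n → Fin R, y ^ (∑ j, rep S (h j)) := by
    calc _ = ∑ h ∈ univ.filter (fun h : Fin (16 * e) → Fin n → Fin R =>
      S.card * e ≤ ∑ j, rep S (h j)), y ^ (S.card * e) := by
            rw [sum_const, nsmul_eq_mul, mul_comm]
      _ ≤ ∑ h ∈ univ.filter (fun h : Fin (16 * e) → Fin n → Fin R =>
      S.card * e ≤ ∑ j, rep S (h j)), y ^ (∑ j, rep S (h j)) := by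
            apply sum_le_sum
            intro h hh
            exact pow_le_pow_right₀ hy (mem_filter.1 hh).2
      _ ≤ _ := by
            apply sum_le_sum_of_subset_of_nonneg (filter_subset _ _)
            intro h _ _
            positivity
  have h3 : y ^ (S.card * e) * ((univ.filter (fun h : Fin (16 * e) → Fin n → Fin R =>
      S.card * e ≤ ∑ j, rep S (h j))).card : ℝ) ≤
      y ^ (S.card * e) * ((65536 * S.card / R) ^ (S.card * e) * ((R : ℝ) ^ n) ^ (16 * e)) := by
    refine (h2.trans h1).trans (le_of_eq ?_)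
    have h4 : y ^ (S.card * e) * (65536 * S.card / R) ^ (S.card * e) =
        (65536 : ℝ) ^ (S.card * e) := by
      rw [← mul_pow, hydef]
      congr 1
      field_simp
    rw [← mul_assoc, h4, mul_pow]
    congr 1
    rw [← pow_mul, show S.card * (16 * e) = 16 * (S.card * e) by ring, pow_mul]
    norm_num
  exact le_of_mul_le_mul_left h3 (by positivity)

/-- `n choose s` is at most `(e n / s) ^ s`. -/
lemma choose_bound (n s : ℕ) (hs : 1 ≤ s) :
    (n.choose s : ℝ) ≤ (3 * n / s) ^ s := by
  have hspos : (0 : ℝ) < s := by exact_mod_cast hs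
  have h1 : (n.choose s : ℝ) ≤ (n : ℝ) ^ s / (s.factorial : ℝ) := Nat.choose_le_pow_div s n
  have h2 : (s : ℝ) ^ s / (s.factorial : ℝ) ≤ Real.exp s :=
    Real.pow_div_factorial_le_exp _ hspos.le _
  have h3 : Real.exp s ≤ 3 ^ s := by
    have : Real.exp (s : ℝ) = (Real.exp 1) ^ s := by
      rw [← Real.exp_nat_mul]; simp
    rw [this]
    apply pow_le_pow_left₀ (Real.exp_pos 1).le
    have := Real.exp_one_lt_d9
    linarith
  have hf : (0 : ℝ) < s.factorial := by exact_mod_cast s.factorial_pos
  have h4 : (s : ℝ) ^ s ≤ 3 ^ s * s.factorial := by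
    have := h2.trans h3
    rwa [div_le_iff₀ hf] at this
  calc (n.choose s : ℝ) ≤ (n : ℝ) ^ s / (s.factorial : ℝ) := h1
    _ ≤ (3 * n / s) ^ s := by
      rw [div_le_iff₀ hf, div_pow, mul_pow]
      have hsp : (0:ℝ) < (s:ℝ)^s := by positivity
      rw [div_mul_eq_mul_div, le_div_iff₀ hsp]
      calc (n : ℝ) ^ s * (s : ℝ) ^ s ≤ (n : ℝ) ^ s * (3 ^ s * s.factorial) := by
            apply mul_le_mul_of_nonneg_left h4; positivity
        _ = _ := by ring

open Classical in
/-- Probabilistic part: a family with few repetitions on all small sets. -/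
lemma exists_good (n k e : ℕ) (hk : 1 ≤ k) (he : 1 ≤ e) (hn : n ≤ k * 2 ^ e) :
    ∃ h : Fin (16 * e) → Fin n → Fin (1572864 * k),
      ∀ S : Finset (Fin n), 1 ≤ S.card → S.card ≤ 3 * k →
        ∑ j, rep S (h j) < S.card * e := by
  by_contra hcon
  push Not at hcon
  set R := 1572864 * k with hRdef
  have hR : 1 ≤ R := by omega
  have hRpos : (0 : ℝ) < R := by exact_mod_cast hR
  have hkpos : (0 : ℝ) < k := by exact_mod_cast hk
  -- all families are bad for some `S`
  have hcover : (univ : Finset (Fin (16 * e) → Fin n → Fin R)) ⊆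
      (univ.filter (fun S : Finset (Fin n) => 1 ≤ S.card ∧ S.card ≤ 3 * k)).biUnion
        (fun S => univ.filter (fun h : Fin (16 * e) → Fin n → Fin R =>
          S.card * e ≤ ∑ j, rep S (h j))) := by
    intro h _
    obtain ⟨S, h1, h2, h3⟩ := hcon h
    simp only [mem_biUnion, mem_filter, mem_univ, true_and]
    exact ⟨S, ⟨h1, h2⟩, h3⟩
  have hcard := (card_le_card hcover).trans card_biUnion_le
  have htot : ((univ : Finset (Fin (16 * e) → Fin n → Fin R)).card : ℝ) =
      ((R : ℝ) ^ n) ^ (16 * e) := by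
    simp
  have hle : ((R : ℝ) ^ n) ^ (16 * e) ≤
      ∑ S ∈ univ.filter (fun S : Finset (Fin n) => 1 ≤ S.card ∧ S.card ≤ 3 * k),
        (65536 * S.card / R : ℝ) ^ (S.card * e) * ((R : ℝ) ^ n) ^ (16 * e) := by
    rw [← htot]
    have : ((univ : Finset (Fin (16 * e) → Fin n → Fin R)).card : ℝ) ≤
        ∑ S ∈ univ.filter (fun S : Finset (Fin n) => 1 ≤ S.card ∧ S.card ≤ 3 * k),
          ((univ.filter (fun h : Fin (16 * e) → Fin n → Fin R =>
          S.card * e ≤ ∑ j, rep S (h j))).card : ℝ) := by
      exact_mod_cast hcard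
    refine this.trans (sum_le_sum ?_)
    intro S hS
    rw [htot]
    have hS' := (mem_filter.1 hS).2
    exact bad_count hR S hS'.1 (by omega)
  rw [← sum_mul] at hle
  have hpos : (0 : ℝ) < ((R : ℝ) ^ n) ^ (16 * e) := by positivity
  have hone : (1 : ℝ) ≤
      ∑ S ∈ univ.filter (fun S : Finset (Fin n) => 1 ≤ S.card ∧ S.card ≤ 3 * k),
        (65536 * S.card / R : ℝ) ^ (S.card * e) := by
    by_contra hlt
    push Not at hlt
    have := mul_lt_mul_of_pos_right hlt hpos
    linarith
  -- compute the sum by cardinality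
  have hsum : ∑ S ∈ univ.filter (fun S : Finset (Fin n) => 1 ≤ S.card ∧ S.card ≤ 3 * k),
        (65536 * S.card / R : ℝ) ^ (S.card * e) =
      ∑ s ∈ range (n + 1), (n.choose s : ℝ) *
        (if 1 ≤ s ∧ s ≤ 3 * k then (65536 * s / R : ℝ) ^ (s * e) else 0) := by
    have h0 := Finset.sum_powerset_apply_card (x := (univ : Finset (Fin n)))
      (fun s : ℕ => (if 1 ≤ s ∧ s ≤ 3 * k then (65536 * s / R : ℝ) ^ (s * e) else 0))
    rw [Finset.powerset_univ] at h0
    rw [sum_filter, h0]
    simp
  have hterm : ∀ s ∈ range (n + 1), (n.choose s : ℝ) *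
        (if 1 ≤ s ∧ s ≤ 3 * k then (65536 * s / R : ℝ) ^ (s * e) else 0) ≤
        if s = 0 then 0 else (1 / 4 : ℝ) ^ s := by
    intro s _
    by_cases hs : 1 ≤ s ∧ s ≤ 3 * k
    · rw [if_pos hs, if_neg (by omega)]
      have hspos : (0 : ℝ) < s := by exact_mod_cast hs.1
      have hs3 : (s : ℝ) ≤ 3 * k := by exact_mod_cast hs.2
      have hRr : (R : ℝ) = 1572864 * k := by rw [hRdef]; push_cast; ring
      have hbase : (65536 * s / R : ℝ) = (s / (3 * k)) * (1 / 8) := by
        rw [hRr]; field_simp; norm_num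
      have hx1 : (s / (3 * k) : ℝ) ≤ 1 := by
        rw [div_le_one (by positivity)]; exact hs3
      have hx0 : (0 : ℝ) ≤ (s / (3 * k) : ℝ) := by positivity
      have hpow : (65536 * s / R : ℝ) ^ (s * e) ≤ ((s / (3 * k)) * (1 / 8) ^ e) ^ s := by
        rw [hbase, mul_comm s e, pow_mul]
        apply pow_le_pow_left₀ (by positivity)
        rw [mul_pow]
        apply mul_le_mul_of_nonneg_right _ (by positivity)
        calc (s / (3 * k) : ℝ) ^ e ≤ (s / (3 * k) : ℝ) ^ 1 :=
              pow_le_pow_of_le_one hx0 hx1 he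
          _ = _ := pow_one _
      calc (n.choose s : ℝ) * (65536 * s / R : ℝ) ^ (s * e)
          ≤ (3 * n / s) ^ s * ((s / (3 * k)) * (1 / 8) ^ e) ^ s := by
            apply mul_le_mul (choose_bound n s hs.1) hpow (by positivity) (by positivity)
        _ = (n / k * (1 / 8) ^ e) ^ s := by
            rw [← mul_pow]
            congr 1
            field_simp
        _ ≤ (1 / 4) ^ s := by
            apply pow_le_pow_left₀ (by positivity)
            have hn' : (n : ℝ) / k ≤ 2 ^ e := by
              rw [div_le_iff₀ hkpos]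
              have : (n : ℝ) ≤ k * 2 ^ e := by exact_mod_cast hn
              linarith
            calc (n : ℝ) / k * (1 / 8) ^ e ≤ 2 ^ e * (1 / 8) ^ e := by
                  apply mul_le_mul_of_nonneg_right hn' (by positivity)
              _ = (1 / 4) ^ e := by rw [← mul_pow]; norm_num
              _ ≤ (1 / 4) ^ 1 := pow_le_pow_of_le_one (by norm_num) (by norm_num) he
              _ = 1 / 4 := by norm_num
    · rw [if_neg hs, mul_zero]
      split_ifs
      · exact le_rfl
      · positivity
  have hfin : ∑ s ∈ range (n + 1), (if s = 0 then 0 else (1 / 4 : ℝ) ^ s) < 1 := by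
    rw [sum_range_succ']
    simp only [if_true, add_zero, Nat.add_eq_zero_iff, one_ne_zero, and_false, if_false]
    have : ∑ k ∈ range n, (1 / 4 : ℝ) ^ (k + 1) = (1 / 4) * ∑ k ∈ range n, (1 / 4 : ℝ) ^ k := by
      rw [mul_sum]
      apply sum_congr rfl
      intro i _
      rw [pow_succ]; ring
    rw [this, geom_sum_eq (by norm_num)]
    have hp : (0 : ℝ) < (1 / 4) ^ n := by positivity
    have h5 : ((1 / 4 : ℝ) ^ n - 1) / (1 / 4 - 1) = (1 - (1 / 4) ^ n) * (4 / 3) := by
      rw [div_eq_iff (by norm_num)]; ring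
    rw [h5]
    linarith
  have := sum_le_sum hterm
  rw [hsum] at hone
  linarith

open Classical in
/-- Colliding elements are at most twice the repetitions. -/
lemma col_le {n R : ℕ} (S : Finset (Fin n)) (g : Fin n → Fin R) :
    (S.filter (fun i => ∃ i' ∈ S, i' ≠ i ∧ g i' = g i)).card ≤ 2 * rep S g := by
  set Col := S.filter (fun i => ∃ i' ∈ S, i' ≠ i ∧ g i' = g i) with hCol
  have h1 : S.card = ∑ v ∈ S.image g, (S.filter (fun i => g i = v)).card :=
    card_eq_sum_card_image g S
  have h2 : Col.card = ∑ v ∈ S.image g, (Col.filter (fun i => g i = v)).card := by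
    apply card_eq_sum_card_fiberwise
    intro i hi
    exact mem_coe.2 (mem_image_of_mem g (mem_filter.1 hi).1)
  have h3 : ∀ v ∈ S.image g, (Col.filter (fun i => g i = v)).card + 2 ≤
      2 * (S.filter (fun i => g i = v)).card := by
    intro v hv
    rcases (Col.filter (fun i => g i = v)).eq_empty_or_nonempty with he | ⟨i, hi⟩
    · rw [he]
      obtain ⟨i, hi, hiv⟩ := mem_image.1 hv
      have : 0 < (S.filter (fun i => g i = v)).card := card_pos.2 ⟨i, mem_filter.2 ⟨hi, hiv⟩⟩
      simp only [card_empty]; omega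
    · have hsub : Col.filter (fun i => g i = v) ⊆ S.filter (fun i => g i = v) := by
        intro x hx
        rw [mem_filter] at hx ⊢
        exact ⟨(mem_filter.1 hx.1).1, hx.2⟩
      have hle := card_le_card hsub
      have htwo : 1 < (S.filter (fun i => g i = v)).card := by
        rw [mem_filter] at hi
        obtain ⟨hi1, hi2⟩ := hi
        rw [hCol, mem_filter] at hi1
        obtain ⟨hiS, i', hi'S, hne, heq⟩ := hi1
        rw [one_lt_card]
        refine ⟨i, mem_filter.2 ⟨hiS, hi2⟩, i', mem_filter.2 ⟨hi'S, ?_⟩, hne.symm⟩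
        rw [heq, hi2]
      omega
  have h4 := sum_le_sum h3
  rw [sum_add_distrib, ← h2, ← mul_sum, ← h1] at h4
  simp only [sum_const, smul_eq_mul] at h4
  unfold rep
  omega

end Hash

open Hash

open Classical in
/-- Deterministic part. -/
lemma Hash.cor_le {n R e k : ℕ} (hk : 1 ≤ k) (he : 1 ≤ e) (h : Fin (16 * e) → Fin n → Fin R)
    (hgood : ∀ S : Finset (Fin n), 1 ≤ S.card → S.card ≤ 3 * k →
        ∑ j, rep S (h j) < S.card * e)
    (B : Finset (Fin n)) (hB : B.card ≤ k) : 2 * (Cor h B).card ≤ B.card := by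
  by_contra hcon
  push Not at hcon
  obtain ⟨A, hA, hAcard⟩ := exists_subset_card_eq (s := Cor h B) (n := B.card / 2 + 1)
    (by omega)
  set S := A ∪ B with hS
  have hScard : S.card ≤ A.card + B.card := card_union_le _ _
  have hS3 : S.card ≤ 3 * A.card := by omega
  have hS1 : 1 ≤ S.card := by
    have : A.card ≤ S.card := card_le_card subset_union_left
    omega
  have hSk : S.card ≤ 3 * k := by omega
  have hlt := hgood S hS1 hSk
  -- double counting
  have hdc : ∑ i ∈ A, (univ.filter
      (fun j : Fin (16 * e) => ∃ i' ∈ B, i' ≠ i ∧ h j i' = h j i)).card =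
      ∑ j : Fin (16 * e), (A.filter (fun i => ∃ i' ∈ B, i' ≠ i ∧ h j i' = h j i)).card := by
    simp only [card_filter]
    exact sum_comm
  have h1 : ∑ j : Fin (16 * e),
      (A.filter (fun i => ∃ i' ∈ B, i' ≠ i ∧ h j i' = h j i)).card ≤
      ∑ j : Fin (16 * e), 2 * rep S (h j) := by
    apply sum_le_sum
    intro j _
    refine le_trans (card_le_card ?_) (col_le S (h j))
    intro i hi
    rw [mem_filter] at hi ⊢
    obtain ⟨hi1, i', hi', h2, h3⟩ := hi
    exact ⟨mem_union_left _ hi1, i', mem_union_right _ hi', h2, h3⟩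
  have h2 : A.card * (16 * e) ≤ 2 * ∑ i ∈ A, (univ.filter
      (fun j : Fin (16 * e) => ∃ i' ∈ B, i' ≠ i ∧ h j i' = h j i)).card := by
    rw [mul_sum, ← smul_eq_mul, ← sum_const]
    apply sum_le_sum
    intro i hi
    have := hA hi
    unfold Cor at this
    exact (mem_filter.1 this).2
  rw [hdc] at h2
  rw [← mul_sum] at h1
  have h3 : A.card * (16 * e) ≤ 4 * ∑ j : Fin (16 * e), rep S (h j) := by omega
  have h4 : S.card * (16 * e) ≤ 3 * (A.card * (16 * e)) := by
    calc S.card * (16 * e) ≤ (3 * A.card) * (16 * e) := Nat.mul_le_mul_right _ hS3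
      _ = _ := by ring
  have h5 : S.card * (16 * e) ≤ 12 * ∑ j : Fin (16 * e), rep S (h j) := by omega
  have h6 : S.card * (16 * e) = 16 * (S.card * e) := by ring
  have h7 : 0 < S.card * e := by positivity
  omega

theorem T3_hash : ∃ C : ℕ, ∀ n k : ℕ, 1 ≤ k → 2 * k ≤ n →
    ∃ q R : ℕ, ((2 : ℝ) ^ q ≤ C * Real.log (n / k)) ∧ R ≤ C * k ∧
      ∃ h : Fin (2 ^ q) → Fin n → Fin R,
        ∀ B : Finset (Fin n), B.card ≤ k → 2 * (Cor h B).card ≤ B.card := by
  refine ⟨1572864, fun n k hk hkn => ?_⟩
  have hkpos : (0 : ℝ) < k := by exact_mod_cast hk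
  have hlog2 : (0.6931471803 : ℝ) < Real.log 2 := Real.log_two_gt_d9
  have hex : ∃ p : ℕ, n ≤ k * 2 ^ (2 ^ p) := by
    refine ⟨n, ?_⟩
    have h1 : n < 2 ^ n := Nat.lt_two_pow_self
    have h2 : 2 ^ n < 2 ^ (2 ^ n) := Nat.pow_lt_pow_right (by norm_num) h1
    nlinarith
  classical
  set p := Nat.find hex with hp
  have hpspec : n ≤ k * 2 ^ (2 ^ p) := Nat.find_spec hex
  have hnk : (2 : ℝ) ≤ n / k := by
    rw [le_div_iff₀ hkpos]; exact_mod_cast hkn
  have hlog : Real.log 2 ≤ Real.log (n / k) := Real.log_le_log (by norm_num) hnk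
  have hq : (2 : ℝ) ^ (4 + p) ≤ (1572864 : ℕ) * Real.log (n / k) := by
    rcases Nat.eq_zero_or_pos p with h0 | h0
    · rw [h0]; push_cast; norm_num; linarith
    · obtain ⟨p', hp'⟩ : ∃ p', p = p' + 1 := ⟨p - 1, by omega⟩
      have hlt : ¬ n ≤ k * 2 ^ (2 ^ p') := Nat.find_min hex (by omega)
      push Not at hlt
      have hlt' : (2 : ℝ) ^ (2 ^ p') < n / k := by
        rw [lt_div_iff₀ hkpos]
        have : (k * 2 ^ (2 ^ p') : ℝ) < n := by exact_mod_cast hlt
        linarith
      have hlog' : (2 : ℝ) ^ p' * Real.log 2 ≤ Real.log (n / k) := by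
        have := Real.log_le_log (by positivity) hlt'.le
        rw [Real.log_pow] at this
        push_cast at this
        exact this
      rw [hp', show 4 + (p' + 1) = 5 + p' by ring, pow_add]
      have hpp : (0 : ℝ) < 2 ^ p' := by positivity
      push_cast
      nlinarith
  obtain ⟨h, hh⟩ := exists_good n k (2 ^ p) hk (Nat.one_le_two_pow) hpspec
  have hd : 2 ^ (4 + p) = 16 * 2 ^ p := by rw [pow_add]; norm_num
  refine ⟨4 + p, 1572864 * k, hq, le_rfl, ?_⟩
  rw [hd]
  refine ⟨h, fun B hB => Hash.cor_le hk (Nat.one_le_two_pow) h hh B hB⟩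

end Pool.Agent.MP_72d76c_lc
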