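import Pool.Agent.MP_72d76c_lc.Defs2

/-!
# The median phase
-/

namespace Pool.Agent.MP_72d76c_lc

open Finset Matrix

open Classical in
theorem medStep_bound {n d R : ℕ} (h : Fin d → Fin n → Fin R) (med : (Fin d → ℝ) → ℝ)
    (hmed : ∀ (v : Fin d → ℝ) (lo hi : ℝ),
      d < 2 * (univ.filter (fun j => lo ≤ v j ∧ v j ≤ hi)).card → lo ≤ med v ∧ med v ≤ hi)
    (x z : Fin n → ℝ) (B : Finset (Fin n)) (i : Fin n) (hi : i ∉ Cor h B) :
    |x i - medStep h med x z i| ≤ ∑ i' ∈ Bᶜ, |x i' - z i'| := by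
  set τ : ℝ := ∑ i' ∈ Bᶜ, |x i' - z i'| with hτ
  have hi' : ¬ (d ≤ 2 * (univ.filter
      (fun j : Fin d => ∃ i' ∈ B, i' ≠ i ∧ h j i' = h j i)).card) := by
    intro hc
    exact hi (by simp only [Cor, mem_filter, mem_univ, true_and]; exact hc)
  push Not at hi'
  set bad : Finset (Fin d) := univ.filter (fun j : Fin d => ∃ i' ∈ B, i' ≠ i ∧ h j i' = h j i)
    with hbad
  have hcard : bad.card + badᶜ.card = d := by
    rw [Finset.card_add_card_compl]; simp
  have hgood : ∀ j ∈ badᶜ, (x i - z i) - τ ≤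
      ∑ i' ∈ univ.filter (fun i' => h j i' = h j i), (x i' - z i') ∧
      ∑ i' ∈ univ.filter (fun i' => h j i' = h j i), (x i' - z i') ≤ (x i - z i) + τ := by
    intro j hj
    have hj' : ∀ i' ∈ B, i' ≠ i → h j i' ≠ h j i := by
      intro i' h1 h2 h3
      rw [mem_compl] at hj
      apply hj
      rw [hbad, mem_filter]
      exact ⟨mem_univ _, i', h1, h2, h3⟩
    have hmem : i ∈ univ.filter (fun i' => h j i' = h j i) := by simp
    have hsplit := Finset.add_sum_erase (univ.filter (fun i' => h j i' = h j i))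
      (fun i' => x i' - z i') hmem
    have hrest : |∑ i' ∈ (univ.filter (fun i' => h j i' = h j i)).erase i, (x i' - z i')| ≤ τ := by
      refine (Finset.abs_sum_le_sum_abs _ _).trans ?_
      rw [hτ]
      apply Finset.sum_le_sum_of_subset_of_nonneg
      · intro i' hi1
        rw [mem_erase, mem_filter] at hi1
        rw [mem_compl]
        intro hB
        exact hj' i' hB hi1.1 hi1.2.2
      · intro _ _ _; exact abs_nonneg _
    rw [abs_le] at hrest
    rw [← hsplit]
    constructor <;> linarith [hrest.1, hrest.2]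
  have key := hmed (fun j => ∑ i' ∈ univ.filter (fun i' => h j i' = h j i), (x i' - z i'))
    ((x i - z i) - τ) ((x i - z i) + τ) (by
      have : badᶜ.card ≤ (univ.filter (fun j => (x i - z i) - τ ≤
          ∑ i' ∈ univ.filter (fun i' => h j i' = h j i), (x i' - z i') ∧
          ∑ i' ∈ univ.filter (fun i' => h j i' = h j i), (x i' - z i') ≤ (x i - z i) + τ)).card := by
        apply Finset.card_le_card
        intro j hj
        rw [mem_filter]
        exact ⟨mem_univ _, hgood j hj⟩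
      omega)
  rw [abs_le]
  unfold medStep
  constructor <;> linarith [key.1, key.2]

open Classical in
theorem T4_medianPhase {n d R k : ℕ} (h : Fin d → Fin n → Fin R) (med : (Fin d → ℝ) → ℝ)
    (hmed : ∀ (v : Fin d → ℝ) (lo hi : ℝ),
      d < 2 * (univ.filter (fun j => lo ≤ v j ∧ v j ≤ hi)).card → lo ≤ med v ∧ med v ≤ hi)
    (hh : ∀ B : Finset (Fin n), B.card ≤ k → 2 * (Cor h B).card ≤ B.card)
    (x : Fin n → ℝ) (B : Finset (Fin n)) (hB : B.card ≤ k) (T : ℕ) (hT : k < 2 ^ T)
    (hn : 1 ≤ n) :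
    l1 (x - (medStep h med x)^[T] 0) ≤ (n : ℝ) ^ T * ∑ i ∈ Bᶜ, |x i| := by
  have hn0 : (0 : ℝ) ≤ n := Nat.cast_nonneg n
  have main : ∀ t : ℕ, ∃ B' : Finset (Fin n), 2 ^ t * B'.card ≤ k ∧
      ∑ i ∈ B'ᶜ, |x i - (medStep h med x)^[t] 0 i| ≤ (n : ℝ) ^ t * ∑ i ∈ Bᶜ, |x i| := by
    intro t
    induction t with
    | zero => exact ⟨B, by simpa using hB, by simp⟩
    | succ t ih =>
      obtain ⟨B', h1, h2⟩ := ih
      have hB' : B'.card ≤ k :=
        le_trans (Nat.le_mul_of_pos_left _ (by positivity)) h1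
      refine ⟨Cor h B', ?_, ?_⟩
      · have := hh B' hB'
        calc 2 ^ (t + 1) * (Cor h B').card = 2 ^ t * (2 * (Cor h B').card) := by ring
          _ ≤ 2 ^ t * B'.card := Nat.mul_le_mul_left _ this
          _ ≤ k := h1
      · rw [Function.iterate_succ_apply']
        calc ∑ i ∈ (Cor h B')ᶜ, |x i - medStep h med x ((medStep h med x)^[t] 0) i|
            ≤ ∑ i ∈ (Cor h B')ᶜ, ∑ i' ∈ B'ᶜ, |x i' - (medStep h med x)^[t] 0 i'| := by
              apply Finset.sum_le_sum
              intro i hi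
              exact medStep_bound h med hmed x _ B' i (mem_compl.1 hi)
          _ = ((Cor h B')ᶜ.card : ℝ) * ∑ i' ∈ B'ᶜ, |x i' - (medStep h med x)^[t] 0 i'| := by
              rw [Finset.sum_const, nsmul_eq_mul]
          _ ≤ (n : ℝ) * ((n : ℝ) ^ t * ∑ i ∈ Bᶜ, |x i|) := by
              apply mul_le_mul _ h2 (Finset.sum_nonneg fun _ _ => abs_nonneg _) hn0
              have : (Cor h B')ᶜ.card ≤ n := by
                simpa using Finset.card_le_univ (Cor h B')ᶜ
              exact_mod_cast this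
          _ = (n : ℝ) ^ (t + 1) * ∑ i ∈ Bᶜ, |x i| := by ring
  obtain ⟨B', h1, h2⟩ := main T
  have hB0 : B' = ∅ := by
    rw [← Finset.card_eq_zero]
    by_contra hne
    have : 1 ≤ B'.card := Nat.one_le_iff_ne_zero.2 hne
    have : 2 ^ T * 1 ≤ 2 ^ T * B'.card := Nat.mul_le_mul_left _ this
    omega
  subst hB0
  simpa [l1] using h2

end Pool.Agent.MP_72d76c_lc
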