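import Pool.Agent.MP_72d76c_lc.Defs2

/-!
# Iterative hard thresholding
-/

namespace Pool.Agent.MP_72d76c_lc

open Finset Matrix

namespace IHT

section basics
variable {ι : Type*} [Fintype ι]

theorem nsq_eq_dot (v : ι → ℝ) : nsq v = v ⬝ᵥ v := by
  simp [nsq, dotProduct, sq]

theorem nsq_nonneg (v : ι → ℝ) : 0 ≤ nsq v := Finset.sum_nonneg fun _ _ => sq_nonneg _

/-- Euclidean norm. -/
noncomputable def nrm (v : ι → ℝ) : ℝ := Real.sqrt (nsq v)

theorem nrm_nonneg (v : ι → ℝ) : 0 ≤ nrm v := Real.sqrt_nonneg _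

theorem nrm_sq (v : ι → ℝ) : nrm v ^ 2 = nsq v := Real.sq_sqrt (nsq_nonneg v)

theorem nrm_eq (v : ι → ℝ) : nrm v = ‖(WithLp.toLp 2 v : EuclideanSpace ℝ ι)‖ := by
  rw [EuclideanSpace.norm_eq]; simp [nrm, nsq]

theorem nrm_add_le (u v : ι → ℝ) : nrm (u + v) ≤ nrm u + nrm v := by
  rw [nrm_eq, nrm_eq, nrm_eq, WithLp.toLp_add]
  exact norm_add_le _ _

theorem nrm_neg (v : ι → ℝ) : nrm (-v) = nrm v := by
  simp [nrm, nsq]

theorem nrm_sub_le (u v : ι → ℝ) : nrm (u - v) ≤ nrm u + nrm v := by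
  rw [sub_eq_add_neg]
  exact (nrm_add_le u (-v)).trans (by rw [nrm_neg])

theorem nrm_le_of_nsq_le {κ : Type*} [Fintype κ] {u : ι → ℝ} {v : κ → ℝ} {c : ℝ} (hc : 0 ≤ c)
    (h : nsq u ≤ c ^ 2 * nsq v) : nrm u ≤ c * nrm v := by
  unfold nrm
  rw [← Real.sqrt_sq hc, ← Real.sqrt_mul (sq_nonneg c)]
  exact Real.sqrt_le_sqrt h

theorem nrm_le_l1 (v : ι → ℝ) : nrm v ≤ l1 v := by
  unfold nrm nsq l1
  rw [Real.sqrt_le_left (Finset.sum_nonneg fun _ _ => abs_nonneg _)]
  calc ∑ i, v i ^ 2 = ∑ i, |v i| ^ 2 := by simp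
    _ ≤ (∑ i, |v i|) ^ 2 := Finset.sum_sq_le_sq_sum_of_nonneg fun _ _ => abs_nonneg _

end basics

open Classical in
/-- Restriction to a set of coordinates. -/
noncomputable def rst {ι : Type*} (B : Finset ι) (v : ι → ℝ) : ι → ℝ :=
  fun i => if i ∈ B then v i else 0

section restr
variable {ι : Type*}

theorem rst_apply_mem {B : Finset ι} {v : ι → ℝ} {i : ι} (h : i ∈ B) : rst B v i = v i := by
  simp [rst, h]

theorem rst_apply_not_mem {B : Finset ι} {v : ι → ℝ} {i : ι} (h : i ∉ B) : rst B v i = 0 := by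
  simp [rst, h]

theorem rst_sub (B : Finset ι) (u v : ι → ℝ) : rst B (u - v) = rst B u - rst B v := by
  funext i
  by_cases h : i ∈ B <;> simp [rst, h]

variable [Fintype ι]

theorem nnz_le_of_zero_off (B : Finset ι) {v : ι → ℝ} (h : ∀ i, i ∉ B → v i = 0) :
    nnz v ≤ B.card := by
  classical
  unfold nnz
  apply Finset.card_le_card
  intro i hi
  rw [mem_filter] at hi
  by_contra hc
  exact hi.2 (h i hc)

theorem nsq_rst_dot (B : Finset ι) (v : ι → ℝ) : nsq (rst B v) = rst B v ⬝ᵥ v := by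
  unfold nsq dotProduct
  apply Finset.sum_congr rfl
  intro i _
  by_cases h : i ∈ B
  · rw [rst_apply_mem h]; ring
  · rw [rst_apply_not_mem h]; ring

theorem nsq_rst_eq (B : Finset ι) (v : ι → ℝ) : nsq (rst B v) = ∑ i ∈ B, v i ^ 2 := by
  classical
  unfold nsq rst
  rw [← Finset.sum_filter_add_sum_filter_not univ (fun i => i ∈ B)]
  have h1 : ∑ i ∈ univ.filter (fun i => i ∈ B), (if i ∈ B then v i else 0) ^ 2
      = ∑ i ∈ B, v i ^ 2 := by
    rw [Finset.filter_mem_eq_inter, Finset.univ_inter]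
    exact Finset.sum_congr rfl fun i hi => by simp [hi]
  have h2 : ∑ i ∈ univ.filter (fun i => ¬ i ∈ B), (if i ∈ B then v i else 0) ^ 2 = 0 := by
    apply Finset.sum_eq_zero
    intro i hi
    rw [mem_filter] at hi
    simp [hi.2]
  linarith

theorem nsq_le_of_bound (B : Finset ι) {v : ι → ℝ} {t : ℝ}
    (h0 : ∀ i, i ∉ B → v i = 0) (h1 : ∀ i ∈ B, |v i| ≤ t) : nsq v ≤ B.card * t ^ 2 := by
  have h : nsq v = nsq (rst B v) := by
    congr 1
    funext i
    by_cases hi : i ∈ B
    · rw [rst_apply_mem hi]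
    · rw [rst_apply_not_mem hi, h0 i hi]
  rw [h, nsq_rst_eq]
  calc ∑ i ∈ B, v i ^ 2 ≤ ∑ _i ∈ B, t ^ 2 := by
        apply Finset.sum_le_sum
        intro i hi
        exact sq_le_sq' (by linarith [(abs_le.1 (h1 i hi)).1]) (abs_le.1 (h1 i hi)).2
    _ = B.card * t ^ 2 := by rw [Finset.sum_const, nsmul_eq_mul]

/-- A set of the `s` largest entries. -/
theorem exists_largest (v : ι → ℝ) (s : ℕ) (hs : s ≤ Fintype.card ι) :
    ∃ S : Finset ι, S.card = s ∧ ∀ i ∈ S, ∀ j, j ∉ S → |v j| ≤ |v i| := by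
  classical
  have hne : (powersetCard s (univ : Finset ι)).Nonempty := by
    rw [powersetCard_nonempty]; simpa using hs
  obtain ⟨S, hS, hmax⟩ := Finset.exists_max_image (powersetCard s (univ : Finset ι))
    (fun S => ∑ i ∈ S, |v i|) hne
  rw [mem_powersetCard] at hS
  refine ⟨S, hS.2, ?_⟩
  intro i hi j hj
  have hj' : j ∉ S.erase i := fun h => hj (Finset.mem_of_mem_erase h)
  have hS' : insert j (S.erase i) ∈ powersetCard s (univ : Finset ι) := by
    rw [mem_powersetCard]
    refine ⟨subset_univ _, ?_⟩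
    rw [card_insert_of_notMem hj', card_erase_of_mem hi, hS.2]
    have : 0 < S.card := Finset.card_pos.2 ⟨i, hi⟩
    omega
  have h1 : ∑ i ∈ insert j (S.erase i), |v i| ≤ ∑ i ∈ S, |v i| := hmax _ hS'
  rw [sum_insert hj'] at h1
  have h2 : |v i| + ∑ x ∈ S.erase i, |v x| = ∑ x ∈ S, |v x| :=
    Finset.add_sum_erase S (fun i => |v i|) hi
  linarith

end restr

section rip
variable {m n k : ℕ} {A : Matrix (Fin m) (Fin n) ℝ}

theorem dot_transpose (g : Fin n → ℝ) (y : Fin m → ℝ) :
    g ⬝ᵥ (Aᵀ *ᵥ y) = (A *ᵥ g) ⬝ᵥ y := by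
  rw [Matrix.dotProduct_mulVec, Matrix.vecMul_transpose]

theorem rip_rst (hA : ∀ v : Fin n → ℝ, nnz v ≤ 15 * k → |nsq (A *ᵥ v) - nsq v| ≤ 1 / 4 * nsq v)
    (B C : Finset (Fin n)) (hBC : C ⊆ B) (hB : B.card ≤ 15 * k) (v : Fin n → ℝ)
    (hv : ∀ i, i ∉ B → v i = 0) :
    nrm (rst C (v - Aᵀ *ᵥ (A *ᵥ v))) ≤ 1 / 4 * nrm v := by
  set g := rst C (v - Aᵀ *ᵥ (A *ᵥ v)) with hg
  have hgB : ∀ i, i ∉ B → g i = 0 := fun i hi => rst_apply_not_mem fun h => hi (hBC h)
  have h1 := hA ((4 : ℝ) • g + v) ((nnz_le_of_zero_off B (by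
    intro i hi; simp [hgB i hi, hv i hi])).trans hB)
  have h2 := hA ((4 : ℝ) • g - v) ((nnz_le_of_zero_off B (by
    intro i hi; simp [hgB i hi, hv i hi])).trans hB)
  have hgg : nsq g = g ⬝ᵥ v - (A *ᵥ g) ⬝ᵥ (A *ᵥ v) := by
    rw [← dot_transpose, ← dotProduct_sub, hg, nsq_rst_dot]
  rw [abs_le] at h1 h2
  have e1 : nsq ((4 : ℝ) • g + v) = 16 * nsq g + 8 * (g ⬝ᵥ v) + nsq v := by
    simp only [nsq_eq_dot, add_dotProduct, dotProduct_add, smul_dotProduct, dotProduct_smul,
      smul_eq_mul]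
    rw [dotProduct_comm v g]; ring
  have e2 : nsq ((4 : ℝ) • g - v) = 16 * nsq g - 8 * (g ⬝ᵥ v) + nsq v := by
    simp only [nsq_eq_dot, sub_dotProduct, dotProduct_sub, smul_dotProduct, dotProduct_smul,
      smul_eq_mul]
    rw [dotProduct_comm v g]; ring
  have e3 : nsq (A *ᵥ ((4 : ℝ) • g + v)) =
      16 * nsq (A *ᵥ g) + 8 * ((A *ᵥ g) ⬝ᵥ (A *ᵥ v)) + nsq (A *ᵥ v) := by
    rw [mulVec_add, mulVec_smul]
    simp only [nsq_eq_dot, add_dotProduct, dotProduct_add, smul_dotProduct, dotProduct_smul,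
      smul_eq_mul]
    rw [dotProduct_comm (A *ᵥ v) (A *ᵥ g)]; ring
  have e4 : nsq (A *ᵥ ((4 : ℝ) • g - v)) =
      16 * nsq (A *ᵥ g) - 8 * ((A *ᵥ g) ⬝ᵥ (A *ᵥ v)) + nsq (A *ᵥ v) := by
    rw [mulVec_sub, mulVec_smul]
    simp only [nsq_eq_dot, sub_dotProduct, dotProduct_sub, smul_dotProduct, dotProduct_smul,
      smul_eq_mul]
    rw [dotProduct_comm (A *ᵥ v) (A *ᵥ g)]; ring
  rw [e1, e3] at h1
  rw [e2, e4] at h2
  apply nrm_le_of_nsq_le (by norm_num)
  nlinarith [h1.1, h1.2, h2.1, h2.2]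

theorem rip_transpose
    (hA : ∀ v : Fin n → ℝ, nnz v ≤ 15 * k → |nsq (A *ᵥ v) - nsq v| ≤ 1 / 4 * nsq v)
    (B : Finset (Fin n)) (hB : B.card ≤ 15 * k) (y : Fin m → ℝ) :
    nrm (rst B (Aᵀ *ᵥ y)) ≤ 9 / 8 * nrm y := by
  set g := rst B (Aᵀ *ᵥ y) with hg
  have hgB : ∀ i, i ∉ B → g i = 0 := fun i hi => rst_apply_not_mem hi
  have h1 := hA g ((nnz_le_of_zero_off B hgB).trans hB)
  rw [abs_le] at h1
  have hgg : nsq g = (A *ᵥ g) ⬝ᵥ y := by
    rw [← dot_transpose, hg, nsq_rst_dot]
  have hcs : ((A *ᵥ g) ⬝ᵥ y) ^ 2 ≤ nsq (A *ᵥ g) * nsq y := by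
    unfold nsq dotProduct
    exact Finset.sum_mul_sq_le_sq_mul_sq _ _ _
  rw [← hgg] at hcs
  have hg0 := nsq_nonneg g
  have hy0 := nsq_nonneg y
  apply nrm_le_of_nsq_le (by norm_num)
  by_cases hz : nsq g = 0
  · rw [hz]; positivity
  · have hpos : 0 < nsq g := lt_of_le_of_ne hg0 (Ne.symm hz)
    have h3 : nsq g ^ 2 ≤ (5 / 4 * nsq g) * nsq y :=
      hcs.trans (mul_le_mul_of_nonneg_right (by linarith [h1.2]) hy0)
    have h4 : nsq g ≤ 5 / 4 * nsq y := by
      have : nsq g * nsq g ≤ nsq g * (5 / 4 * nsq y) := by nlinarith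
      exact le_of_mul_le_mul_left this hpos
    nlinarith

theorem rip_upper
    (hA : ∀ v : Fin n → ℝ, nnz v ≤ 15 * k → |nsq (A *ᵥ v) - nsq v| ≤ 1 / 4 * nsq v)
    (v : Fin n → ℝ) (hv : nnz v ≤ 15 * k) : nrm (A *ᵥ v) ≤ 9 / 8 * nrm v := by
  have h1 := hA v hv
  rw [abs_le] at h1
  apply nrm_le_of_nsq_le (by norm_num)
  have := nsq_nonneg v
  nlinarith [h1.2]

theorem shell
    (hA : ∀ v : Fin n → ℝ, nnz v ≤ 15 * k → |nsq (A *ᵥ v) - nsq v| ≤ 1 / 4 * nsq v)
    (hk : 1 ≤ k) (N : ℕ) : ∀ (v : Fin n → ℝ), nnz v ≤ N → ∀ β : ℝ, (∀ i, |v i| ≤ β) → 0 ≤ β →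
    nrm (A *ᵥ v) ≤ 9 / 8 * (β * Real.sqrt k + l1 v / Real.sqrt k) := by
  classical
  have hk0 : (0 : ℝ) < k := by exact_mod_cast hk
  have hsk : 0 < Real.sqrt k := Real.sqrt_pos.2 hk0
  induction N using Nat.strong_induction_on with
  | _ N ih =>
    intro v hN β hβ hβ0
    have hl1 : 0 ≤ l1 v := Finset.sum_nonneg fun _ _ => abs_nonneg _
    have small : ∀ u : Fin n → ℝ, nnz u ≤ k → (∀ i, |u i| ≤ β) →
        nrm (A *ᵥ u) ≤ 9 / 8 * (β * Real.sqrt k) := by
      intro u hu hub
      refine (rip_upper hA u (hu.trans (by omega))).trans ?_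
      apply mul_le_mul_of_nonneg_left _ (by norm_num)
      unfold nrm
      rw [← Real.sqrt_sq hβ0, ← Real.sqrt_mul (sq_nonneg β)]
      apply Real.sqrt_le_sqrt
      have h := nsq_le_of_bound (univ.filter (fun i => u i ≠ 0)) (v := u) (t := β)
        (by intro i hi; simpa using hi) (fun i _ => hub i)
      have h' : ((univ.filter (fun i => u i ≠ 0)).card : ℝ) ≤ k := by
        have : (univ.filter (fun i => u i ≠ 0)).card = nnz u := by
          unfold nnz; congr
        rw [this]; exact_mod_cast hu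
      nlinarith [sq_nonneg β]
    by_cases hsm : nnz v ≤ k
    · refine (small v hsm hβ).trans ?_
      have : 0 ≤ l1 v / Real.sqrt k := by positivity
      linarith
    · push Not at hsm
      have hkn : k ≤ Fintype.card (Fin n) := by
        refine hsm.le.trans ?_
        unfold nnz
        exact Finset.card_le_univ _
      obtain ⟨S, hS, hmax⟩ := exists_largest v k hkn
      have hSne : S.Nonempty := by
        rw [← Finset.card_pos]; omega
      -- smallest entry in S
      obtain ⟨i0, hi0, hmin⟩ := Finset.exists_min_image S (fun i => |v i|) hSne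
      have hvS : v = rst S v + rst Sᶜ v := by
        funext i
        by_cases hi : i ∈ S
        · simp [rst, hi]
        · simp [rst, hi]
      have hSnz : nnz (rst S v) ≤ k := by
        rw [← hS]; exact nnz_le_of_zero_off S fun i hi => rst_apply_not_mem hi
      have hl1S : l1 v = l1 (rst S v) + l1 (rst Sᶜ v) := by
        unfold l1
        rw [← Finset.sum_add_distrib]
        apply Finset.sum_congr rfl
        intro i _
        by_cases hi : i ∈ S
        · simp [rst, hi]
        · simp [rst, hi]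
      -- every entry of S is nonzero, for otherwise nnz v ≤ k
      have hnzS : ∀ i ∈ S, v i ≠ 0 := by
        intro i hi h0
        have hoff : ∀ j, j ∉ S → v j = 0 := by
          intro j hj
          have := hmax i hi j hj
          rw [h0, abs_zero] at this
          exact abs_eq_zero.1 (le_antisymm this (abs_nonneg _))
        have := nnz_le_of_zero_off S hoff
        omega
      have hcnt : nnz (rst Sᶜ v) < N := by
        have h1 : nnz (rst Sᶜ v) + k ≤ nnz v := by
          rw [← hS]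
          unfold nnz
          rw [← Finset.card_union_of_disjoint]
          · apply Finset.card_le_card
            intro i hi
            rw [mem_union, mem_filter] at hi
            rw [mem_filter]
            refine ⟨mem_univ _, ?_⟩
            rcases hi with hi | hi
            · intro h0
              apply hi.2
              by_cases hS' : i ∈ Sᶜ
              · rw [rst_apply_mem hS', h0]
              · rw [rst_apply_not_mem hS']
            · exact hnzS i hi
          · rw [Finset.disjoint_left]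
            intro i hi hi'
            rw [mem_filter] at hi
            apply hi.2
            exact rst_apply_not_mem (by simpa using hi')
        omega
      have hβ' : ∀ i, |rst Sᶜ v i| ≤ |v i0| := by
        intro i
        by_cases hi : i ∈ Sᶜ
        · rw [rst_apply_mem hi]
          exact hmax i0 hi0 i (by simpa using hi)
        · rw [rst_apply_not_mem hi, abs_zero]; exact abs_nonneg _
      have h2 := ih _ hcnt (rst Sᶜ v) le_rfl |v i0| hβ' (abs_nonneg _)
      have h1 := small (rst S v) hSnz (by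
        intro i
        by_cases hi : i ∈ S
        · rw [rst_apply_mem hi]; exact hβ i
        · rw [rst_apply_not_mem hi, abs_zero]; exact hβ0)
      have h3 : |v i0| * Real.sqrt k ≤ l1 (rst S v) / Real.sqrt k := by
        rw [le_div_iff₀ hsk, mul_assoc, Real.mul_self_sqrt hk0.le]
        calc |v i0| * (k : ℝ) = ∑ _i ∈ S, |v i0| := by
              rw [Finset.sum_const, nsmul_eq_mul, hS]; ring
          _ ≤ ∑ i ∈ S, |v i| := Finset.sum_le_sum fun i hi => hmin i hi
          _ = ∑ i ∈ S, |rst S v i| := by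
              apply Finset.sum_congr rfl
              intro i hi
              rw [rst_apply_mem hi]
          _ ≤ l1 (rst S v) := by
              unfold l1
              exact Finset.sum_le_sum_of_subset_of_nonneg (subset_univ _)
                fun _ _ _ => abs_nonneg _
      have h4 : nrm (A *ᵥ v) ≤ nrm (A *ᵥ rst S v) + nrm (A *ᵥ rst Sᶜ v) := by
        conv_lhs => rw [hvS, mulVec_add]
        exact nrm_add_le _ _
      have h5 : l1 v / Real.sqrt k = l1 (rst S v) / Real.sqrt k
          + l1 (rst Sᶜ v) / Real.sqrt k := by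
        rw [hl1S, add_div]
      rw [h5]
      linarith

theorem step
    (hA : ∀ v : Fin n → ℝ, nnz v ≤ 15 * k → |nsq (A *ᵥ v) - nsq v| ≤ 1 / 4 * nsq v)
    (hn : 16 * k ≤ n) (hk : 1 ≤ k)
    (thr : (Fin n → ℝ) → ℝ)
    (hthr : ∀ v : Fin n → ℝ, (∀ i, 0 ≤ v i) →
        ∀ (S S' : Finset (Fin n)), (∀ i, i ∈ S ↔ thr v < v i) → (∀ i, i ∈ S' ↔ thr v ≤ v i) →
        S.card ≤ 6 * k ∧ 6 * k + 1 ≤ S'.card)
    (eh et w : Fin n → ℝ) (heh : nnz eh ≤ 3 * k) (hw : nnz w ≤ 6 * k) :
    nnz (ihtStep A thr (A *ᵥ (eh + et)) w) ≤ 6 * k ∧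
    nrm (eh - ihtStep A thr (A *ᵥ (eh + et)) w) ≤
      1 / 2 * nrm (eh - w) + 9 / 4 * nrm (A *ᵥ et) := by
  classical
  set a : Fin n → ℝ := w + Aᵀ *ᵥ (A *ᵥ (eh + et) - A *ᵥ w) with ha
  set t : ℝ := thr (fun i => |a i|) with ht
  have hstep : ihtStep A thr (A *ᵥ (eh + et)) w = fun i => if |a i| ≤ t then 0 else a i := rfl
  rw [hstep]
  set w' : Fin n → ℝ := fun i => if |a i| ≤ t then 0 else a i with hw'
  set B1 : Finset (Fin n) := univ.filter (fun i => t < |a i|) with hB1
  set B2 : Finset (Fin n) := univ.filter (fun i => t ≤ |a i|) with hB2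
  have hT := hthr (fun i => |a i|) (fun i => abs_nonneg _) B1 B2 (by intro i; simp [hB1, ht])
    (by intro i; simp [hB2, ht])
  -- `t` is nonnegative
  have ht0 : 0 ≤ t := by
    by_contra hneg
    push Not at hneg
    have : B1 = univ := by
      ext i
      simp only [hB1, mem_filter, mem_univ, true_and, iff_true]
      exact hneg.trans_le (abs_nonneg _)
    have h1 := hT.1
    rw [this, Finset.card_univ, Fintype.card_fin] at h1
    omega
  set Bh : Finset (Fin n) := univ.filter (fun i => eh i ≠ 0) with hBh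
  set Bw : Finset (Fin n) := univ.filter (fun i => w i ≠ 0) with hBw
  have hBh3 : Bh.card ≤ 3 * k := by
    have : Bh.card = nnz eh := by unfold nnz; rw [hBh]
    rw [this]; exact heh
  have hBw6 : Bw.card ≤ 6 * k := by
    have : Bw.card = nnz w := by unfold nnz; rw [hBw]
    rw [this]; exact hw
  have hehoff : ∀ i, i ∉ Bh → eh i = 0 := by
    intro i hi; simpa [hBh] using hi
  have hwoff : ∀ i, i ∉ Bw → w i = 0 := by
    intro i hi; simpa [hBw] using hi
  have hw'off : ∀ i, i ∉ B1 → w' i = 0 := by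
    intro i hi
    have : |a i| ≤ t := by simpa [hB1] using hi
    simp [hw', this]
  have hw'on : ∀ i, i ∈ B1 → w' i = a i := by
    intro i hi
    have : t < |a i| := by simpa [hB1] using hi
    simp [hw', not_le.2 this]
  refine ⟨(nnz_le_of_zero_off B1 hw'off).trans hT.1, ?_⟩
  -- the basic identity
  set r : Fin n → ℝ := eh - w with hr
  have hid : eh - a = (r - Aᵀ *ᵥ (A *ᵥ r)) - Aᵀ *ᵥ (A *ᵥ et) := by
    rw [ha, hr]
    simp only [mulVec_add, mulVec_sub]
    abel
  have hbound : ∀ C : Finset (Fin n), (Bh ∪ Bw ∪ C).card ≤ 15 * k → C.card ≤ 15 * k →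
      nrm (rst C (eh - a)) ≤ 1 / 4 * nrm r + 9 / 8 * nrm (A *ᵥ et) := by
    intro C hC hC'
    rw [hid, rst_sub]
    refine (nrm_sub_le _ _).trans ?_
    apply add_le_add
    · apply rip_rst hA (Bh ∪ Bw ∪ C) C (subset_union_right) hC r
      intro i hi
      simp only [mem_union, not_or] at hi
      simp [hr, hehoff i hi.1.1, hwoff i hi.1.2]
    · exact rip_transpose hA C hC' _
  -- choose `C`
  have hCex : ∃ C : Finset (Fin n), C ⊆ B2 \ Bh ∧ C.card = 3 * k := by
    apply Finset.exists_subset_card_eq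
    have := Finset.le_card_sdiff Bh B2
    omega
  obtain ⟨C, hC1, hC2⟩ := hCex
  have hu1 := hbound (Bh ∪ B1) (by
    have e1 : (Bh ∪ Bw ∪ (Bh ∪ B1)) = Bh ∪ Bw ∪ B1 := by
      ext i; simp only [mem_union]; tauto
    rw [e1]
    have := Finset.card_union_le (Bh ∪ Bw) B1
    have := Finset.card_union_le Bh Bw
    omega) (by
    have := Finset.card_union_le Bh B1
    omega)
  have hu2 := hbound C (by
    have := Finset.card_union_le (Bh ∪ Bw) C
    have := Finset.card_union_le Bh Bw
    omega) (by omega)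
  set u : Fin n → ℝ := (eh - w') - rst (Bh ∪ B1) (eh - a) with hu
  have hunrm : nrm u ≤ nrm (rst C (eh - a)) := by
    have h1 : nsq u ≤ Bh.card * t ^ 2 := by
      apply nsq_le_of_bound Bh
      · intro i hi
        by_cases hi1 : i ∈ B1
        · have : i ∈ Bh ∪ B1 := mem_union_right _ hi1
          simp [hu, rst_apply_mem this, hw'on i hi1]
        · have : i ∉ Bh ∪ B1 := by simp [mem_union, hi, hi1]
          simp [hu, rst_apply_not_mem this, hw'off i hi1, hehoff i hi]
      · intro i hi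
        have hm : i ∈ Bh ∪ B1 := mem_union_left _ hi
        by_cases hi1 : i ∈ B1
        · simp [hu, rst_apply_mem hm, hw'on i hi1, ht0]
        · have : |a i| ≤ t := by simpa [hB1] using hi1
          simpa [hu, rst_apply_mem hm, hw'off i hi1] using this
    have h2 : nsq (rst C (eh - a)) = ∑ i ∈ C, (a i) ^ 2 := by
      rw [nsq_rst_eq]
      apply Finset.sum_congr rfl
      intro i hi
      have hi' := hC1 hi
      rw [mem_sdiff] at hi'
      rw [Pi.sub_apply, hehoff i hi'.2]; ring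
    have h3 : (C.card : ℝ) * t ^ 2 ≤ ∑ i ∈ C, (a i) ^ 2 := by
      rw [← nsmul_eq_mul, ← Finset.sum_const]
      apply Finset.sum_le_sum
      intro i hi
      have hi' := hC1 hi
      rw [mem_sdiff] at hi'
      have : t ≤ |a i| := by simpa [hB2] using hi'.1
      rw [← sq_abs (a i)]
      exact pow_le_pow_left₀ ht0 this 2
    unfold nrm
    apply Real.sqrt_le_sqrt
    rw [h2]
    refine h1.trans (le_trans ?_ h3)
    apply mul_le_mul_of_nonneg_right _ (sq_nonneg _)
    rw [hC2]
    exact_mod_cast hBh3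
  have hdec : eh - w' = rst (Bh ∪ B1) (eh - a) + u := by
    rw [hu]; abel
  calc nrm (eh - w') ≤ nrm (rst (Bh ∪ B1) (eh - a)) + nrm u := by
        rw [hdec]; exact nrm_add_le _ _
    _ ≤ (1 / 4 * nrm r + 9 / 8 * nrm (A *ᵥ et)) + (1 / 4 * nrm r + 9 / 8 * nrm (A *ᵥ et)) :=
        add_le_add hu1 (hunrm.trans hu2)
    _ = 1 / 2 * nrm r + 9 / 4 * nrm (A *ᵥ et) := by ring

end rip

end IHT

open Classical in
theorem T5_iht : ∃ C : ℝ, 0 < C ∧ ∀ (m n k : ℕ) (_ : 1 ≤ k) (_ : 16 * k ≤ n)
    (A : Matrix (Fin m) (Fin n) ℝ)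
    (_ : ∀ v : Fin n → ℝ, nnz v ≤ 15 * k → |nsq (A *ᵥ v) - nsq v| ≤ 1 / 4 * nsq v)
    (thr : (Fin n → ℝ) → ℝ)
    (_ : ∀ v : Fin n → ℝ, (∀ i, 0 ≤ v i) →
        (univ.filter (fun i => thr v < v i)).card ≤ 6 * k ∧
        6 * k + 1 ≤ (univ.filter (fun i => thr v ≤ v i)).card)
    (x z : Fin n → ℝ) (_ : nnz z ≤ k) (T : ℕ),
    Real.sqrt (nsq (z + (ihtStep A thr (A *ᵥ x - A *ᵥ z))^[T] 0 - x)) ≤
      C * (sigma k x / Real.sqrt k) + C * (1 / 2) ^ T * (l1 (x - z) + sigma k x) := by
  refine ⟨20, by norm_num, ?_⟩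
  intro m n k hk hn A hA thr hthr x z hz T
  have hk0 : (0 : ℝ) < k := by exact_mod_cast hk
  have hsk : 0 < Real.sqrt k := Real.sqrt_pos.2 hk0
  set L : ℝ := Real.sqrt (nsq (z + (ihtStep A thr (A *ᵥ x - A *ᵥ z))^[T] 0 - x)) with hL
  -- the bound for every sparse competitor
  have main : ∀ x' : Fin n → ℝ, nnz x' ≤ k →
      L ≤ 20 * (l1 (x - x') / Real.sqrt k) + 20 * (1 / 2) ^ T * (l1 (x - z) + l1 (x - x')) := by
    intro x' hx'
    set s : ℝ := l1 (x - x') with hs
    have hs0 : 0 ≤ s := Finset.sum_nonneg fun _ _ => abs_nonneg _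
    set S : Finset (Fin n) := univ.filter (fun i => x' i ≠ 0) with hS
    have hSk : S.card ≤ k := by
      have : S.card = nnz x' := rfl
      rw [this]; exact hx'
    set H : Finset (Fin n) := univ.filter (fun i => s < k * |x i|) with hH
    -- entries outside `H` are small
    have hoff : ∀ i, i ∉ H → |x i| ≤ s / k := by
      intro i hi
      have : k * |x i| ≤ s := by simpa [hH] using hi
      rw [le_div_iff₀ hk0]; linarith
    -- l1 mass outside `S`
    have hSsum : ∀ D : Finset (Fin n), Disjoint D S → ∑ i ∈ D, |x i| ≤ s := by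
      intro D hD
      calc ∑ i ∈ D, |x i| = ∑ i ∈ D, |(x - x') i| := by
            apply Finset.sum_congr rfl
            intro i hi
            have : i ∉ S := Finset.disjoint_left.1 hD hi
            have h0 : x' i = 0 := by simpa [hS] using this
            simp [h0]
        _ ≤ s := by
            rw [hs]; unfold l1
            exact Finset.sum_le_sum_of_subset_of_nonneg (subset_univ _)
              fun _ _ _ => abs_nonneg _
    have hHcard : H.card ≤ 2 * k := by
      have h1 : (H \ S).card ≤ k := by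
        by_contra hc
        push Not at hc
        have hne : (H \ S).Nonempty := by
          rw [← Finset.card_pos]; omega
        have h2 := hSsum (H \ S) (Finset.sdiff_disjoint)
        have h3 : ∑ _i ∈ H \ S, s < ∑ i ∈ H \ S, (k * |x i|) := by
          apply Finset.sum_lt_sum_of_nonempty hne
          intro i hi
          rw [mem_sdiff] at hi
          simpa [hH] using hi.1
        rw [← Finset.mul_sum, Finset.sum_const, nsmul_eq_mul] at h3
        have h4 : (k : ℝ) ≤ (H \ S).card := by exact_mod_cast hc.le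
        have h5 : (k : ℝ) * s ≤ (H \ S).card * s := mul_le_mul_of_nonneg_right h4 hs0
        have h6 : (k : ℝ) * ∑ i ∈ H \ S, |x i| ≤ k * s := mul_le_mul_of_nonneg_left h2 hk0.le
        linarith
      have h2 : H.card ≤ (H \ S).card + S.card := by
        have := Finset.card_sdiff_add_card_inter H S
        have := Finset.card_le_card (Finset.inter_subset_right : H ∩ S ⊆ S)
        omega
      omega
    set et : Fin n → ℝ := IHT.rst Hᶜ x with het
    set eh : Fin n → ℝ := IHT.rst H x - z with heh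
    have hsum : eh + et = x - z := by
      funext i
      by_cases hi : i ∈ H
      · simp [heh, het, IHT.rst, hi]
      · simp [heh, het, IHT.rst, hi]; ring
    have hehn : nnz eh ≤ 3 * k := by
      have h1 := IHT.nnz_le_of_zero_off (H ∪ univ.filter (fun i => z i ≠ 0)) (v := eh) (by
        intro i hi
        rw [mem_union, not_or] at hi
        have h0 : z i = 0 := by simpa using hi.2
        simp [heh, IHT.rst_apply_not_mem hi.1, h0])
      have h2 := Finset.card_union_le H (univ.filter (fun i => z i ≠ 0))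
      have h3 : (univ.filter (fun i => z i ≠ 0)).card = nnz z := rfl
      omega
    have hetb : ∀ i, |et i| ≤ s / k := by
      intro i
      by_cases hi : i ∈ Hᶜ
      · rw [het, IHT.rst_apply_mem hi]; exact hoff i (by simpa using hi)
      · rw [het, IHT.rst_apply_not_mem hi, abs_zero]; positivity
    have het1 : l1 et ≤ 2 * s := by
      have h1 : l1 et = ∑ i ∈ Hᶜ, |x i| := by
        have e1 : ∑ i ∈ Hᶜ, |x i| = ∑ i ∈ Hᶜ, |et i| := by
          apply Finset.sum_congr rfl
          intro i hi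
          rw [het, IHT.rst_apply_mem hi]
        rw [e1]
        unfold l1
        symm
        apply Finset.sum_subset (subset_univ _)
        intro i _ hi
        rw [het, IHT.rst_apply_not_mem hi, abs_zero]
      rw [h1]
      have h2 : Hᶜ = (Hᶜ \ S) ∪ (Hᶜ ∩ S) := by
        rw [Finset.sdiff_union_inter]
      rw [h2, Finset.sum_union (Finset.disjoint_sdiff_inter _ _)]
      have h3 := hSsum (Hᶜ \ S) (Finset.sdiff_disjoint)
      have h4 : ∑ i ∈ Hᶜ ∩ S, |x i| ≤ s := by
        calc ∑ i ∈ Hᶜ ∩ S, |x i| ≤ ∑ _i ∈ Hᶜ ∩ S, s / k := by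
              apply Finset.sum_le_sum
              intro i hi
              rw [mem_inter] at hi
              exact hoff i (by simpa using hi.1)
          _ = (Hᶜ ∩ S).card * (s / k) := by rw [Finset.sum_const, nsmul_eq_mul]
          _ ≤ k * (s / k) := by
              apply mul_le_mul_of_nonneg_right _ (by positivity)
              have := Finset.card_le_card (Finset.inter_subset_right : Hᶜ ∩ S ⊆ S)
              exact_mod_cast this.trans hSk
          _ = s := by field_simp
      linarith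
    have hAet : IHT.nrm (A *ᵥ et) ≤ 27 / 8 * (s / Real.sqrt k) := by
      have h1 := IHT.shell hA hk (nnz et) et le_rfl (s / k) hetb (by positivity)
      have h2 : s / k * Real.sqrt k = s / Real.sqrt k := by
        rw [div_mul_eq_mul_div, div_eq_div_iff hk0.ne' hsk.ne', mul_assoc,
          Real.mul_self_sqrt hk0.le]
      have h3 : l1 et / Real.sqrt k ≤ 2 * s / Real.sqrt k :=
        div_le_div_of_nonneg_right het1 hsk.le
      have h4 : 2 * s / Real.sqrt k = 2 * (s / Real.sqrt k) := by ring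
      rw [h2] at h1
      linarith
    have hetn : IHT.nrm et ≤ 2 * (s / Real.sqrt k) := by
      unfold IHT.nrm
      rw [Real.sqrt_le_left (by positivity)]
      have h1 : nsq et ≤ s / k * l1 et := by
        unfold nsq l1
        rw [Finset.mul_sum]
        apply Finset.sum_le_sum
        intro i _
        rw [← sq_abs, sq]
        exact mul_le_mul_of_nonneg_right (hetb i) (abs_nonneg _)
      have h2 : (2 * (s / Real.sqrt k)) ^ 2 = 4 * (s * s / k) := by
        rw [mul_pow, div_pow, Real.sq_sqrt hk0.le]; ring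
      rw [h2]
      have h3 : s / k * l1 et ≤ s / k * (2 * s) :=
        mul_le_mul_of_nonneg_left het1 (by positivity)
      have h4 : s / k * (2 * s) = 2 * (s * s / k) := by ring
      have h5 : 0 ≤ s * s / k := by positivity
      linarith
    have hy : A *ᵥ x - A *ᵥ z = A *ᵥ (eh + et) := by
      rw [hsum, mulVec_sub]
    -- the iteration
    have hthr' : ∀ v : Fin n → ℝ, (∀ i, 0 ≤ v i) →
        ∀ (S S' : Finset (Fin n)), (∀ i, i ∈ S ↔ thr v < v i) → (∀ i, i ∈ S' ↔ thr v ≤ v i) →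
        S.card ≤ 6 * k ∧ 6 * k + 1 ≤ S'.card := by
      intro v hv S1 S2 h1 h2
      have e1 : S1 = univ.filter (fun i => thr v < v i) := by
        ext i; simp [h1 i]
      have e2 : S2 = univ.filter (fun i => thr v ≤ v i) := by
        ext i; simp [h2 i]
      rw [e1, e2]
      exact hthr v hv
    have iter : ∀ t : ℕ, nnz ((ihtStep A thr (A *ᵥ (eh + et)))^[t] 0) ≤ 6 * k ∧
        IHT.nrm (eh - (ihtStep A thr (A *ᵥ (eh + et)))^[t] 0) ≤
          (1 / 2) ^ t * IHT.nrm eh + 9 / 2 * IHT.nrm (A *ᵥ et) := by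
      intro t
      induction t with
      | zero =>
        refine ⟨?_, ?_⟩
        · simp [nnz]
        · have := IHT.nrm_nonneg (A *ᵥ et)
          simp
          linarith
      | succ t ih =>
        rw [Function.iterate_succ_apply']
        have h1 := IHT.step hA hn hk thr hthr' eh et _ hehn ih.1
        refine ⟨h1.1, h1.2.trans ?_⟩
        have h2 := ih.2
        rw [pow_succ]
        linarith
    have hfin := (iter T).2
    have hLe : L ≤ IHT.nrm (eh - (ihtStep A thr (A *ᵥ (eh + et)))^[T] 0) + IHT.nrm et := by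
      have e1 : L = IHT.nrm (z + (ihtStep A thr (A *ᵥ (eh + et)))^[T] 0 - x) := by
        rw [hL, hy]; rfl
      have e2 : z + (ihtStep A thr (A *ᵥ (eh + et)))^[T] 0 - x =
          -((eh - (ihtStep A thr (A *ᵥ (eh + et)))^[T] 0) + et) := by
        have : x = z + (eh + et) := by rw [hsum]; abel
        rw [this]
        abel_nf
      rw [e1, e2, IHT.nrm_neg]
      exact IHT.nrm_add_le _ _
    have hehl : IHT.nrm eh ≤ l1 (x - z) + 2 * s := by
      refine (IHT.nrm_le_l1 eh).trans ?_
      have e1 : eh = (x - z) - et := by rw [← hsum]; abel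
      have : l1 eh ≤ l1 (x - z) + l1 et := by
        rw [e1]
        unfold l1
        rw [← Finset.sum_add_distrib]
        apply Finset.sum_le_sum
        intro i _
        exact abs_sub _ _
      linarith
    have hp : (0 : ℝ) < (1 / 2) ^ T := by positivity
    have hl0 : 0 ≤ l1 (x - z) := Finset.sum_nonneg fun _ _ => abs_nonneg _
    have h7 : (1 / 2 : ℝ) ^ T * IHT.nrm eh ≤ (1 / 2) ^ T * (l1 (x - z) + 2 * s) :=
      mul_le_mul_of_nonneg_left hehl hp.le
    have h8 : 0 ≤ s / Real.sqrt k := by positivity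
    have h9 : 0 ≤ (1 / 2 : ℝ) ^ T * s := by positivity
    have h10 : 0 ≤ (1 / 2 : ℝ) ^ T * l1 (x - z) := by positivity
    nlinarith
  -- pass to the infimum
  have hne : {t : ℝ | ∃ x' : Fin n → ℝ, nnz x' ≤ k ∧ t = l1 (x - x')}.Nonempty :=
    ⟨l1 (x - 0), 0, by simp [nnz], rfl⟩
  have hc : 0 < 20 * (1 / Real.sqrt k) + 20 * (1 / 2 : ℝ) ^ T := by positivity
  have hle : (L - 20 * (1 / 2) ^ T * l1 (x - z)) / (20 * (1 / Real.sqrt k) + 20 * (1 / 2) ^ T)
      ≤ sigma k x := by
    unfold sigma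
    apply le_csInf hne
    rintro t ⟨x', hx', rfl⟩
    rw [div_le_iff₀ hc]
    have := main x' hx'
    have e : 20 * (l1 (x - x') / Real.sqrt k) + 20 * (1 / 2) ^ T * (l1 (x - z) + l1 (x - x'))
      = l1 (x - x') * (20 * (1 / Real.sqrt k) + 20 * (1 / 2) ^ T)
        + 20 * (1 / 2) ^ T * l1 (x - z) := by ring
    rw [e] at this
    linarith
  rw [div_le_iff₀ hc] at hle
  have e : 20 * (sigma k x / Real.sqrt k) + 20 * (1 / 2) ^ T * (l1 (x - z) + sigma k x)
      = sigma k x * (20 * (1 / Real.sqrt k) + 20 * (1 / 2) ^ T)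
        + 20 * (1 / 2) ^ T * l1 (x - z) := by ring
  rw [e]
  linarith

end Pool.Agent.MP_72d76c_lc
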