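import Pool.Agent.MP_72d76c_lc.T2
import Pool.Agent.MP_72d76c_lc.T3
import Pool.Agent.MP_72d76c_lc.T4
import Pool.Agent.MP_72d76c_lc.T5

/-!
# The decoder, given a fast matrix with the restricted isometry property
-/

namespace Pool.Agent.MP_72d76c_lc

open Finset Matrix

namespace T11a

/-! ### Best `k`-term approximation -/

theorem exists_best {n : ℕ} (k : ℕ) (x : Fin n → ℝ) :
    ∃ H : Finset (Fin n), H.card ≤ k ∧ ∑ i ∈ Hᶜ, |x i| ≤ sigma k x := by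
  classical
  have hne : ((univ : Finset (Finset (Fin n))).filter (fun H => H.card ≤ k)).Nonempty :=
    ⟨∅, by simp⟩
  obtain ⟨H, hH, hmin⟩ := Finset.exists_min_image _ (fun H : Finset (Fin n) => ∑ i ∈ Hᶜ, |x i|) hne
  refine ⟨H, (Finset.mem_filter.1 hH).2, ?_⟩
  unfold sigma
  refine le_csInf ⟨l1 (x - 0), 0, by simp [nnz], rfl⟩ ?_
  rintro t ⟨x', hx', rfl⟩
  unfold nnz at hx'
  have h1 := hmin (univ.filter (fun i => x' i ≠ 0)) (by
    simp only [Finset.mem_filter, Finset.mem_univ, true_and]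
    convert hx')
  refine h1.trans ?_
  unfold l1
  refine le_trans (Finset.sum_le_sum (g := fun j => |(x - x') j|) fun i hi => ?_)
    (Finset.sum_le_sum_of_subset_of_nonneg (Finset.subset_univ _) fun _ _ _ => abs_nonneg _)
  have : x' i = 0 := by
    by_contra h
    simp [h] at hi
  simp [this]

theorem sigma_nonneg {n : ℕ} (k : ℕ) (x : Fin n → ℝ) : 0 ≤ sigma k x := by
  obtain ⟨H, -, h⟩ := exists_best k x
  exact le_trans (Finset.sum_nonneg fun i _ => abs_nonneg _) h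

theorem l1_nonneg {n : ℕ} (x : Fin n → ℝ) : 0 ≤ l1 x :=
  Finset.sum_nonneg fun i _ => abs_nonneg _

/-! ### Pruning -/

/-- Keep the coordinates above the threshold. -/
noncomputable def prune {n : ℕ} (thr : (Fin n → ℝ) → ℝ) (z : Fin n → ℝ) : Fin n → ℝ :=
  fun i => if |z i| ≤ thr (fun i => |z i|) then 0 else z i

open Classical in
theorem nnz_prune {n k : ℕ} (thr : (Fin n → ℝ) → ℝ)
    (h : ∀ v : Fin n → ℝ, (∀ i, 0 ≤ v i) →
        (univ.filter (fun i => thr v < v i)).card ≤ k ∧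
        k + 1 ≤ (univ.filter (fun i => thr v ≤ v i)).card) (z : Fin n → ℝ) :
    nnz (prune thr z) ≤ k := by
  refine le_trans (Finset.card_le_card ?_) (h (fun i => |z i|) fun i => abs_nonneg _).1
  intro i hi
  simp only [Finset.mem_filter, Finset.mem_univ, true_and] at hi ⊢
  unfold prune at hi
  by_contra hc
  rw [if_pos (not_lt.1 hc)] at hi
  exact hi rfl

open Classical in
theorem l1_prune {n k : ℕ} (thr : (Fin n → ℝ) → ℝ)
    (h : ∀ v : Fin n → ℝ, (∀ i, 0 ≤ v i) →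
        (univ.filter (fun i => thr v < v i)).card ≤ k ∧
        k + 1 ≤ (univ.filter (fun i => thr v ≤ v i)).card) (x z : Fin n → ℝ) :
    l1 (x - prune thr z) ≤ (k + 2) * l1 (x - z) + (k + 1) * sigma k x := by
  obtain ⟨H, hH, hs⟩ := exists_best k x
  set t : ℝ := thr (fun i => |z i|) with ht
  set S : ℝ := ∑ i ∈ Hᶜ, |z i| with hS
  have hS0 : 0 ≤ S := Finset.sum_nonneg fun i _ => abs_nonneg _
  -- the threshold is at most S
  have htS : t ≤ S := by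
    have h2 : k + 1 ≤ (univ.filter (fun i => t ≤ |z i|)).card :=
      (h (fun i => |z i|) fun i => abs_nonneg _).2
    have : ∃ i, i ∈ univ.filter (fun i => t ≤ |z i|) ∧ i ∉ H := by
      by_contra hc
      push Not at hc
      have hc' : univ.filter (fun i => t ≤ |z i|) ⊆ H := fun i hi => hc i hi
      have := Finset.card_le_card hc'
      omega
    obtain ⟨i, hi, hiH⟩ := this
    refine le_trans (Finset.mem_filter.1 hi).2 ?_
    exact Finset.single_le_sum (f := fun i => |z i|) (fun i _ => abs_nonneg _)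
      (Finset.mem_compl.2 hiH)
  have hS1 : S ≤ sigma k x + l1 (x - z) := by
    have : S ≤ ∑ i ∈ Hᶜ, (|x i| + |(x - z) i|) := by
      refine Finset.sum_le_sum fun i _ => ?_
      have : z i = x i - (x - z) i := by simp
      calc |z i| = |x i - (x - z) i| := by rw [← this]
        _ ≤ |x i| + |(x - z) i| := abs_sub _ _
    rw [Finset.sum_add_distrib] at this
    have h3 : ∑ i ∈ Hᶜ, |(x - z) i| ≤ l1 (x - z) :=
      Finset.sum_le_sum_of_subset_of_nonneg (Finset.subset_univ _) fun i _ _ => abs_nonneg _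
    linarith
  have h4 : l1 (x - prune thr z) ≤ l1 (x - z) + ∑ i, |z i - prune thr z i| := by
    unfold l1
    rw [← Finset.sum_add_distrib]
    refine Finset.sum_le_sum fun i _ => ?_
    have : (x - prune thr z) i = (x - z) i + (z i - prune thr z i) := by
      simp only [Pi.sub_apply]; ring
    rw [this]
    exact abs_add_le _ _
  have h5 : ∑ i, |z i - prune thr z i| ≤ S + k * S := by
    rw [← Finset.sum_add_sum_compl H, add_comm]
    refine add_le_add ?_ ?_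
    · refine Finset.sum_le_sum fun i _ => ?_
      unfold prune
      split_ifs
      · simp
      · simp
    · calc ∑ i ∈ H, |z i - prune thr z i| ≤ ∑ i ∈ H, S := by
            refine Finset.sum_le_sum fun i _ => ?_
            unfold prune
            split_ifs with hc
            · simp only [sub_zero]
              exact hc.trans htS
            · simpa using hS0
        _ = H.card * S := by simp
        _ ≤ k * S := by
            refine mul_le_mul_of_nonneg_right ?_ hS0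
            exact_mod_cast hH
  have hk : (0 : ℝ) ≤ k := Nat.cast_nonneg k
  nlinarith [mul_le_mul_of_nonneg_left hS1 hk]

/-! ### Costs -/

theorem computesIn_zero {ι κ : Type*} [Fintype κ] [DecidableEq κ] :
    ComputesIn (Fintype.card κ) (fun (_ : ι → ℝ) (_ : κ) => (0 : ℝ)) := by
  have := ComputesIn.pi_const (ι := ι) (α := κ) (F := fun _ _ => (0 : ℝ)) 1
    (fun _ => computesIn_const 0)
  simpa using this

theorem prune_cost {n c : ℕ} (F : (Fin n → ℝ) → (Unit → ℝ)) (hF : ComputesIn c F) :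
    ComputesIn (6 * n + c) (fun z : Fin n → ℝ => prune (fun v => F v ()) z) := by
  -- stage 1: (z, |z|)
  have h1 : ComputesIn (n * 4)
      (fun z : Fin n → ℝ => (Sum.elim z (fun i => |z i|) : Fin n ⊕ Fin n → ℝ)) := by
    have := (computesIn_id (ι := Fin n)).pair (computesIn_id (ι := Fin n)).abs
    simpa using this
  -- stage 2: add the threshold
  have h2 : ComputesIn c (fun y : Fin n ⊕ Fin n → ℝ =>
      (Sum.elim y (F (fun i => y (Sum.inr i))) : (Fin n ⊕ Fin n) ⊕ Unit → ℝ)) := by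
    have := (computesIn_id (ι := Fin n ⊕ Fin n)).pair (hF.inp (fun i : Fin n => (Sum.inr i : Fin n ⊕ Fin n)))
    simpa using this
  -- stage 3: select
  have h3 : ComputesIn (n * 2) (fun (y : (Fin n ⊕ Fin n) ⊕ Unit → ℝ) (i : Fin n) =>
      if y (Sum.inl (Sum.inr i)) ≤ y (Sum.inr ()) then 0 else y (Sum.inl (Sum.inl i))) := by
    have := ComputesIn.pi_const (ι := (Fin n ⊕ Fin n) ⊕ Unit) (α := Fin n)
      (F := fun y i => if y (Sum.inl (Sum.inr i)) ≤ y (Sum.inr ()) then 0 else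
        y (Sum.inl (Sum.inl i))) 2 (fun i => by
        have := (ComputesIn.coord (Sum.inl (Sum.inr i) : (Fin n ⊕ Fin n) ⊕ Unit)).sel₁
          (ComputesIn.coord (Sum.inr ())) (computesIn_const 0)
          (ComputesIn.coord (Sum.inl (Sum.inl i)))
        simpa using this)
    simpa using this
  refine ((h3.comp (h2.comp h1)).mono (by omega)).congr fun z i => ?_
  rfl

theorem ihtStep_cost {m n c TA : ℕ} (A : Matrix (Fin m) (Fin n) ℝ)
    (hA : ComputesIn TA (fun x => A *ᵥ x)) (hAt : ComputesIn TA (fun y => Aᵀ *ᵥ y))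
    (F : (Fin n → ℝ) → (Unit → ℝ)) (hF : ComputesIn c F) :
    ComputesIn (2 * TA + m + 7 * n + c) (fun w : Fin m ⊕ Fin n → ℝ =>
      ihtStep A (fun v => F v ()) (fun i => w (Sum.inl i)) (fun j => w (Sum.inr j))) := by
  have h1 : ComputesIn TA (fun w : Fin m ⊕ Fin n → ℝ => A *ᵥ (fun j => w (Sum.inr j))) :=
    hA.inp (fun j : Fin n => (Sum.inr j : Fin m ⊕ Fin n))
  have h2 : ComputesIn (TA + m) (fun w : Fin m ⊕ Fin n → ℝ =>
      (fun i => w (Sum.inl i)) - A *ᵥ (fun j => w (Sum.inr j))) := by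
    refine (((computesIn_reindex (fun i : Fin m => (Sum.inl i : Fin m ⊕ Fin n))).sub h1).mono
      ?_).congr fun w j => rfl
    simp only [Fintype.card_fin]; omega
  have h3 := hAt.comp h2
  have h4 : ComputesIn (2 * TA + m + n) (fun w : Fin m ⊕ Fin n → ℝ =>
      (fun j => w (Sum.inr j)) + Aᵀ *ᵥ ((fun i => w (Sum.inl i)) - A *ᵥ (fun j => w (Sum.inr j)))) := by
    have := (computesIn_reindex (fun j : Fin n => (Sum.inr j : Fin m ⊕ Fin n))).add h3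
    refine (this.mono ?_).congr fun w j => rfl
    simp only [Fintype.card_fin]; omega
  refine (((prune_cost F hF).comp h4).mono (by omega)).congr fun w j => ?_
  rfl

/-- the step of the median phase, in terms of the measured bucket sums `b` -/
noncomputable def mstep {n d R m₁ m : ℕ} (e : Fin d × Fin R ≃ Fin m₁) (h : Fin d → Fin n → Fin R)
    (med : (Fin d → ℝ) → ℝ) (w : Fin m₁ ⊕ Fin m → ℝ) (z : Fin n → ℝ) : Fin n → ℝ :=
  fun i => z i + med (fun j => w (Sum.inl (e (j, h j i))) -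
    ∑ i' ∈ univ.filter (fun i' => h j i' = h j i), z i')

theorem sum_bucket {n d R : ℕ} (h : Fin d → Fin n → Fin R) :
    ∑ p : Fin d × Fin R, ((univ.filter (fun i' => h p.1 i' = p.2)).card + 1) = d * n + d * R := by
  rw [Finset.sum_add_distrib, Fintype.sum_prod_type]
  congr 1
  · simp_rw [← Finset.card_eq_sum_card_fiberwise (f := fun i => h _ i) (s := univ) (t := univ)
      (fun i _ => Finset.mem_univ _)]
    simp
  · simp

theorem mstep_cost {n d R m₁ m c : ℕ} (e : Fin d × Fin R ≃ Fin m₁) (h : Fin d → Fin n → Fin R)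
    (F : (Fin d → ℝ) → (Unit → ℝ)) (hF : ComputesIn c F) :
    ComputesIn (d * n + 2 * (d * R) + n * c + n) (fun u : (Fin m₁ ⊕ Fin m) ⊕ Fin n → ℝ =>
      mstep e h (fun v => F v ()) (fun i => u (Sum.inl i)) (fun j => u (Sum.inr j))) := by
  have h1 : ComputesIn (d * n + d * R) (fun (u : (Fin m₁ ⊕ Fin m) ⊕ Fin n → ℝ) (p : Fin d × Fin R) =>
      ∑ i' ∈ univ.filter (fun i' => h p.1 i' = p.2), u (Sum.inr i')) := by
    have := (computesIn_sums (fun p : Fin d × Fin R => univ.filter (fun i' => h p.1 i' = p.2))).inp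
      (fun i : Fin n => (Sum.inr i : (Fin m₁ ⊕ Fin m) ⊕ Fin n))
    rw [sum_bucket] at this
    exact this
  have h2 : ComputesIn (d * n + 2 * (d * R))
      (fun (u : (Fin m₁ ⊕ Fin m) ⊕ Fin n → ℝ) (p : Fin d × Fin R) =>
      u (Sum.inl (Sum.inl (e p))) -
      ∑ i' ∈ univ.filter (fun i' => h p.1 i' = p.2), u (Sum.inr i')) := by
    have := (computesIn_reindex (fun p : Fin d × Fin R =>
      (Sum.inl (Sum.inl (e p)) : (Fin m₁ ⊕ Fin m) ⊕ Fin n))).sub h1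
    refine this.mono ?_
    simp only [Fintype.card_prod, Fintype.card_fin]; omega
  have h3 : ComputesIn (n * c) (fun (y : Fin d × Fin R → ℝ) (i : Fin n) =>
      F (fun j => y (j, h j i)) ()) := by
    have := ComputesIn.pi_const (ι := Fin d × Fin R) (α := Fin n)
      (F := fun y i => F (fun j => y (j, h j i)) ()) c (fun i => hF.inp (fun j => (j, h j i)))
    simpa using this
  have h4 := (computesIn_reindex (fun j : Fin n => (Sum.inr j : (Fin m₁ ⊕ Fin m) ⊕ Fin n))).add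
    (h3.comp h2)
  refine (h4.mono ?_).congr fun u i => ?_
  · simp only [Fintype.card_fin]; omega
  · rfl


/-- the 0/1 matrix of the hash family -/
noncomputable def hashM {n d R m₁ : ℕ} (e : Fin d × Fin R ≃ Fin m₁) (h : Fin d → Fin n → Fin R) :
    Matrix (Fin m₁) (Fin n) ℝ :=
  fun r i => if h (e.symm r).1 i = (e.symm r).2 then 1 else 0

theorem hashM_mulVec {n d R m₁ : ℕ} (e : Fin d × Fin R ≃ Fin m₁) (h : Fin d → Fin n → Fin R)
    (x : Fin n → ℝ) (j : Fin d) (r : Fin R) :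
    (hashM e h *ᵥ x) (e (j, r)) = ∑ i' ∈ univ.filter (fun i' => h j i' = r), x i' := by
  unfold hashM Matrix.mulVec dotProduct
  rw [Finset.sum_filter]
  refine Finset.sum_congr rfl fun i _ => ?_
  simp only [Equiv.symm_apply_apply]
  split_ifs <;> simp

theorem mstep_eq {n d R m₁ m : ℕ} (e : Fin d × Fin R ≃ Fin m₁) (h : Fin d → Fin n → Fin R)
    (med : (Fin d → ℝ) → ℝ) (x : Fin n → ℝ) (y : Fin m → ℝ) :
    mstep e h med (Sum.elim (hashM e h *ᵥ x) y) = medStep h med x := by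
  funext z i
  unfold mstep medStep
  simp only [Sum.elim_inl, hashM_mulVec]
  simp_rw [Finset.sum_sub_distrib]

theorem hashM_cost {n d R m₁ : ℕ} (e : Fin d × Fin R ≃ Fin m₁) (h : Fin d → Fin n → Fin R) :
    ComputesIn (d * n + d * R) (fun x : Fin n → ℝ => hashM e h *ᵥ x) := by
  have h1 := computesIn_sums (fun p : Fin d × Fin R => univ.filter (fun i' => h p.1 i' = p.2))
  rw [sum_bucket] at h1
  refine (h1.out e.symm).congr fun x r => ?_
  have h2 := hashM_mulVec e h x (e.symm r).1 (e.symm r).2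
  rw [Prod.mk.eta, Equiv.apply_symm_apply] at h2
  exact h2.symm

/-- the whole decoder -/
noncomputable def dec {n d R m₁ m : ℕ} (e : Fin d × Fin R ≃ Fin m₁) (h : Fin d → Fin n → Fin R)
    (A : Matrix (Fin m) (Fin n) ℝ) (med : (Fin d → ℝ) → ℝ) (thr thr' : (Fin n → ℝ) → ℝ)
    (T₁ T₂ : ℕ) (w : Fin m₁ ⊕ Fin m → ℝ) : Fin n → ℝ :=
  let z : Fin n → ℝ := prune thr ((mstep e h med w)^[T₁] 0)
  z + (ihtStep A thr' ((fun i => w (Sum.inr i)) - A *ᵥ z))^[T₂] 0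

theorem dec_cost {n d R m₁ m TA cm ct ct' : ℕ} (e : Fin d × Fin R ≃ Fin m₁)
    (h : Fin d → Fin n → Fin R) (A : Matrix (Fin m) (Fin n) ℝ)
    (hA : ComputesIn TA (fun x => A *ᵥ x)) (hAt : ComputesIn TA (fun y => Aᵀ *ᵥ y))
    (med : (Fin d → ℝ) → (Unit → ℝ)) (hm : ComputesIn cm med)
    (thr thr' : (Fin n → ℝ) → (Unit → ℝ)) (ht : ComputesIn ct thr) (ht' : ComputesIn ct' thr')
    (T₁ T₂ : ℕ) :
    ComputesIn (n + T₁ * (d * n + 2 * (d * R) + n * cm + n) + (6 * n + ct) + (TA + m) +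
        (n + T₂ * (2 * TA + m + 7 * n + ct') + n))
      (dec e h A (fun v => med v ()) (fun v => thr v ()) (fun v => thr' v ()) T₁ T₂) := by
  -- stage 1
  have h1 : ComputesIn (n + T₁ * (d * n + 2 * (d * R) + n * cm + n))
      (fun w : Fin m₁ ⊕ Fin m → ℝ => (mstep e h (fun v => med v ()) w)^[T₁] 0) := by
    have hz : ComputesIn n (fun (_ : Fin m₁ ⊕ Fin m → ℝ) => (0 : Fin n → ℝ)) := by
      have := computesIn_zero (ι := Fin m₁ ⊕ Fin m) (κ := Fin n)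
      simp only [Fintype.card_fin] at this
      exact this
    exact ComputesIn.iterateWith (G := fun w z => mstep e h (fun v => med v ()) w z)
      (mstep_cost (m := m) e h med hm) hz T₁
  have h2 := (prune_cost thr ht).comp h1
  -- stage 2: keep the input
  have h3 := (computesIn_id (ι := Fin m₁ ⊕ Fin m)).pair h2
  -- stage 3: (w, z) ↦ (y - A z, z)
  have h4 : ComputesIn (TA + m) (fun u : (Fin m₁ ⊕ Fin m) ⊕ Fin n → ℝ =>
      (Sum.elim ((fun i => u (Sum.inl (Sum.inr i))) - A *ᵥ (fun j => u (Sum.inr j)))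
        (fun j => u (Sum.inr j)) : Fin m ⊕ Fin n → ℝ)) := by
    have h5 : ComputesIn (TA + m) (fun u : (Fin m₁ ⊕ Fin m) ⊕ Fin n → ℝ =>
        ((fun i => u (Sum.inl (Sum.inr i))) - A *ᵥ (fun j => u (Sum.inr j)) : Fin m → ℝ)) := by
      refine (((computesIn_reindex (fun i : Fin m =>
        (Sum.inl (Sum.inr i) : (Fin m₁ ⊕ Fin m) ⊕ Fin n))).sub
          (hA.inp (fun j : Fin n => (Sum.inr j : (Fin m₁ ⊕ Fin m) ⊕ Fin n)))).mono
        ?_).congr fun w j => rfl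
      simp only [Fintype.card_fin]; omega
    exact h5.pair (computesIn_reindex (fun j : Fin n => (Sum.inr j : (Fin m₁ ⊕ Fin m) ⊕ Fin n)))
  have h6 := h4.comp h3
  -- stage 4: (y', z) ↦ z + (iht y')^[T₂] 0
  have h7 : ComputesIn (n + T₂ * (2 * TA + m + 7 * n + ct') + n) (fun u : Fin m ⊕ Fin n → ℝ =>
      ((fun j => u (Sum.inr j)) +
        (ihtStep A (fun v => thr' v ()) (fun i => u (Sum.inl i)))^[T₂] 0 : Fin n → ℝ)) := by
    have hz : ComputesIn n (fun (_ : Fin m → ℝ) => (0 : Fin n → ℝ)) := by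
      have := computesIn_zero (ι := Fin m) (κ := Fin n)
      simp only [Fintype.card_fin] at this
      exact this
    have h8 := ComputesIn.iterateWith (G := fun y z => ihtStep A (fun v => thr' v ()) y z)
      (ihtStep_cost A hA hAt thr' ht') hz T₂
    refine (((computesIn_reindex (fun j : Fin n => (Sum.inr j : Fin m ⊕ Fin n))).add
      (h8.inp (fun i : Fin m => (Sum.inl i : Fin m ⊕ Fin n)))).mono ?_).congr fun u j => rfl
    simp only [Fintype.card_fin]; omega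
  refine ((h7.comp h6).mono ?_).congr fun w j => ?_
  · omega
  · rfl

open Classical in
theorem dec_error {n k d R m₁ m : ℕ} (hk : 1 ≤ k) (hn : 16 * k ≤ n) (C₅ : ℝ) (hC₅ : 0 < C₅)
    (A : Matrix (Fin m) (Fin n) ℝ) (T₁ T₂ : ℕ) (hT₁ : k < 2 ^ T₁)
    (hT₂ : 4 * n ^ (T₁ + 2) ≤ 2 ^ T₂)
    (e : Fin d × Fin R ≃ Fin m₁) (h : Fin d → Fin n → Fin R)
    (hh : ∀ B : Finset (Fin n), B.card ≤ k → 2 * (Cor h B).card ≤ B.card)
    (med : (Fin d → ℝ) → ℝ)
    (hmed : ∀ (v : Fin d → ℝ) (lo hi : ℝ),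
      d < 2 * (univ.filter (fun j => lo ≤ v j ∧ v j ≤ hi)).card → lo ≤ med v ∧ med v ≤ hi)
    (thr thr' : (Fin n → ℝ) → ℝ)
    (hthr : ∀ v : Fin n → ℝ, (∀ i, 0 ≤ v i) →
        (univ.filter (fun i => thr v < v i)).card ≤ k ∧
        k + 1 ≤ (univ.filter (fun i => thr v ≤ v i)).card)
    (h5 : ∀ (x z : Fin n → ℝ) (_ : nnz z ≤ k) (T : ℕ),
      Real.sqrt (nsq (z + (ihtStep A thr' (A *ᵥ x - A *ᵥ z))^[T] 0 - x)) ≤
        C₅ * (sigma k x / Real.sqrt k) + C₅ * (1 / 2) ^ T * (l1 (x - z) + sigma k x))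
    (x : Fin n → ℝ) :
    Real.sqrt (nsq (dec e h A med thr thr' T₁ T₂ (Sum.elim (hashM e h *ᵥ x) (A *ᵥ x)) - x)) ≤
      2 * C₅ * (sigma k x / Real.sqrt k) := by
  have hn1 : 1 ≤ n := by omega
  obtain ⟨H, hH, hs⟩ := exists_best k x
  have hσ := sigma_nonneg k x
  have e1 : dec e h A med thr thr' T₁ T₂ (Sum.elim (hashM e h *ᵥ x) (A *ᵥ x)) =
      prune thr ((medStep h med x)^[T₁] 0) +
        (ihtStep A thr' (A *ᵥ x - A *ᵥ prune thr ((medStep h med x)^[T₁] 0)))^[T₂] 0 := by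
    unfold dec
    rw [mstep_eq]
    rfl
  rw [e1]
  set z₁ := (medStep h med x)^[T₁] 0 with hz₁
  have hl1 : l1 (x - z₁) ≤ (n : ℝ) ^ T₁ * sigma k x := by
    refine (T4_medianPhase h med hmed hh x H hH T₁ hT₁ hn1).trans ?_
    exact mul_le_mul_of_nonneg_left hs (by positivity)
  have hl2 := l1_prune thr hthr x z₁
  have hl3 := h5 x (prune thr z₁) (nnz_prune thr hthr z₁) T₂
  refine hl3.trans ?_
  have hkR : (1 : ℝ) ≤ k := by exact_mod_cast hk
  have hnR : (1 : ℝ) ≤ n := by exact_mod_cast hn1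
  have hkn : (k : ℝ) + 2 ≤ n := by
    have : k + 2 ≤ n := by omega
    exact_mod_cast this
  have hpow : (1 : ℝ) ≤ (n : ℝ) ^ T₁ := one_le_pow₀ hnR
  have hsk : 0 < Real.sqrt k := Real.sqrt_pos.2 (by linarith)
  have hskn : Real.sqrt k ≤ n := by
    rw [Real.sqrt_le_left (by linarith)]
    nlinarith
  have hA : l1 (x - prune thr z₁) + sigma k x ≤ 2 * (n : ℝ) ^ (T₁ + 1) * sigma k x := by
    have h6 : ((k : ℝ) + 2) * l1 (x - z₁) ≤ n * ((n : ℝ) ^ T₁ * sigma k x) :=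
      mul_le_mul hkn hl1 (l1_nonneg _) (by linarith)
    have h7 : ((k : ℝ) + 1) * sigma k x + sigma k x ≤ n * ((n : ℝ) ^ T₁ * sigma k x) := by
      calc ((k : ℝ) + 1) * sigma k x + sigma k x = ((k : ℝ) + 2) * sigma k x := by ring
        _ ≤ n * sigma k x := mul_le_mul_of_nonneg_right hkn hσ
        _ ≤ n * ((n : ℝ) ^ T₁ * sigma k x) := by
            refine mul_le_mul_of_nonneg_left ?_ (by linarith)
            nlinarith
    calc l1 (x - prune thr z₁) + sigma k x ≤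
        (((k : ℝ) + 2) * l1 (x - z₁) + ((k : ℝ) + 1) * sigma k x) + sigma k x := by linarith
      _ ≤ 2 * (n : ℝ) ^ (T₁ + 1) * sigma k x := by
          rw [pow_succ]
          linarith
  have hB : (1 / 2 : ℝ) ^ T₂ * (l1 (x - prune thr z₁) + sigma k x) ≤ sigma k x / Real.sqrt k := by
    rw [le_div_iff₀ hsk]
    have h8 : (4 : ℝ) * (n : ℝ) ^ (T₁ + 2) ≤ 2 ^ T₂ := by exact_mod_cast hT₂
    have h9 : (l1 (x - prune thr z₁) + sigma k x) * Real.sqrt k ≤ 2 ^ T₂ * sigma k x := by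
      calc (l1 (x - prune thr z₁) + sigma k x) * Real.sqrt k ≤
          (2 * (n : ℝ) ^ (T₁ + 1) * sigma k x) * n :=
            mul_le_mul hA hskn hsk.le (by positivity)
        _ = (2 * (n : ℝ) ^ (T₁ + 2)) * sigma k x := by ring
        _ ≤ 2 ^ T₂ * sigma k x := by
            refine mul_le_mul_of_nonneg_right ?_ hσ
            have : (0 : ℝ) ≤ (n : ℝ) ^ (T₁ + 2) := by positivity
            linarith
    calc (1 / 2 : ℝ) ^ T₂ * (l1 (x - prune thr z₁) + sigma k x) * Real.sqrt k =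
        (1 / 2 : ℝ) ^ T₂ * ((l1 (x - prune thr z₁) + sigma k x) * Real.sqrt k) := by ring
      _ ≤ (1 / 2 : ℝ) ^ T₂ * (2 ^ T₂ * sigma k x) :=
          mul_le_mul_of_nonneg_left h9 (by positivity)
      _ = sigma k x := by
          rw [← mul_assoc, ← mul_pow]
          norm_num
  have := mul_le_mul_of_nonneg_left hB hC₅.le
  calc C₅ * (sigma k x / Real.sqrt k) + C₅ * (1 / 2) ^ T₂ * (l1 (x - prune thr z₁) + sigma k x) =
      C₅ * (sigma k x / Real.sqrt k) +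
        C₅ * ((1 / 2) ^ T₂ * (l1 (x - prune thr z₁) + sigma k x)) := by ring
    _ ≤ 2 * C₅ * (sigma k x / Real.sqrt k) := by linarith


/-- the arithmetic of the cost bound -/
theorem total_cost {n m TA ℓ d R cm ct ct' T₁ T₂ C₂ C₂' C₃ : ℕ} (hℓ : 1 ≤ ℓ)
    (hd : d ≤ C₃ * ℓ) (hR : R ≤ C₃ * n) (hcm : cm ≤ C₂ * C₃ ^ 3 * ℓ ^ 3)
    (hct : ct ≤ 8 * C₂' * n * ℓ ^ 2) (hct' : ct' ≤ 8 * C₂' * n * ℓ ^ 2) (hT₁ : T₁ ≤ ℓ)
    (hT₂ : T₂ ≤ 5 * ℓ ^ 2) :
    n + T₁ * (d * n + 2 * (d * R) + n * cm + n) + (6 * n + ct) + (TA + m) +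
        (n + T₂ * (2 * TA + m + 7 * n + ct') + n) ≤
      (C₃ + 2 * C₃ ^ 2 + C₂ * C₃ ^ 3 + 48 * C₂' + 60) * (n + m + TA) * ℓ ^ 4 := by
  have h1 : ℓ ≤ ℓ ^ 3 := Nat.le_self_pow (by norm_num) ℓ
  have h1' : 1 ≤ ℓ ^ 3 := Nat.one_le_pow _ _ hℓ
  have h2 : ℓ ^ 2 ≤ ℓ ^ 4 := Nat.pow_le_pow_right hℓ (by norm_num)
  have h2' : 1 ≤ ℓ ^ 4 := Nat.one_le_pow _ _ hℓ
  have a1 : d * n + 2 * (d * R) + n * cm + n ≤ (C₃ + 2 * C₃ ^ 2 + C₂ * C₃ ^ 3 + 1) * n * ℓ ^ 3 := by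
    have b1 : d * n ≤ C₃ * n * ℓ ^ 3 := by
      calc d * n ≤ (C₃ * ℓ) * n := Nat.mul_le_mul_right _ hd
        _ = C₃ * n * ℓ := by ring
        _ ≤ C₃ * n * ℓ ^ 3 := Nat.mul_le_mul_left _ h1
    have b2 : d * R ≤ C₃ ^ 2 * n * ℓ ^ 3 := by
      calc d * R ≤ (C₃ * ℓ) * (C₃ * n) := Nat.mul_le_mul hd hR
        _ = C₃ ^ 2 * n * ℓ := by ring
        _ ≤ C₃ ^ 2 * n * ℓ ^ 3 := Nat.mul_le_mul_left _ h1
    have b3 : n * cm ≤ C₂ * C₃ ^ 3 * n * ℓ ^ 3 := by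
      calc n * cm ≤ n * (C₂ * C₃ ^ 3 * ℓ ^ 3) := Nat.mul_le_mul_left _ hcm
        _ = C₂ * C₃ ^ 3 * n * ℓ ^ 3 := by ring
    have b4 : n ≤ n * ℓ ^ 3 := Nat.le_mul_of_pos_right _ (by omega)
    calc d * n + 2 * (d * R) + n * cm + n ≤ C₃ * n * ℓ ^ 3 + 2 * (C₃ ^ 2 * n * ℓ ^ 3) +
          C₂ * C₃ ^ 3 * n * ℓ ^ 3 + n * ℓ ^ 3 := by omega
      _ = (C₃ + 2 * C₃ ^ 2 + C₂ * C₃ ^ 3 + 1) * n * ℓ ^ 3 := by ring
  have a2 : T₁ * (d * n + 2 * (d * R) + n * cm + n) ≤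
      (C₃ + 2 * C₃ ^ 2 + C₂ * C₃ ^ 3 + 1) * n * ℓ ^ 4 := by
    calc T₁ * (d * n + 2 * (d * R) + n * cm + n) ≤
        ℓ * ((C₃ + 2 * C₃ ^ 2 + C₂ * C₃ ^ 3 + 1) * n * ℓ ^ 3) := Nat.mul_le_mul hT₁ a1
      _ = (C₃ + 2 * C₃ ^ 2 + C₂ * C₃ ^ 3 + 1) * n * ℓ ^ 4 := by ring
  have a3 : ct ≤ 8 * C₂' * n * ℓ ^ 4 := hct.trans (Nat.mul_le_mul_left _ h2)
  have a4 : T₂ * (2 * TA + m + 7 * n + ct') ≤
      (10 * TA + 5 * m + 35 * n + 40 * C₂' * n) * ℓ ^ 4 := by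
    have c1 : 2 * TA + m + 7 * n + ct' ≤ (2 * TA + m + 7 * n + 8 * C₂' * n) * ℓ ^ 2 := by
      have : 1 ≤ ℓ ^ 2 := Nat.one_le_pow _ _ hℓ
      calc 2 * TA + m + 7 * n + ct' ≤ (2 * TA + m + 7 * n) * 1 + 8 * C₂' * n * ℓ ^ 2 := by omega
        _ ≤ (2 * TA + m + 7 * n) * ℓ ^ 2 + 8 * C₂' * n * ℓ ^ 2 :=
            Nat.add_le_add_right (Nat.mul_le_mul_left _ this) _
        _ = (2 * TA + m + 7 * n + 8 * C₂' * n) * ℓ ^ 2 := by ring
    calc T₂ * (2 * TA + m + 7 * n + ct') ≤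
        (5 * ℓ ^ 2) * ((2 * TA + m + 7 * n + 8 * C₂' * n) * ℓ ^ 2) := Nat.mul_le_mul hT₂ c1
      _ = (10 * TA + 5 * m + 35 * n + 40 * C₂' * n) * ℓ ^ 4 := by ring
  have a5 : 9 * n + TA + m ≤ (9 * n + TA + m) * ℓ ^ 4 := Nat.le_mul_of_pos_right _ (by omega)
  calc n + T₁ * (d * n + 2 * (d * R) + n * cm + n) + (6 * n + ct) + (TA + m) +
        (n + T₂ * (2 * TA + m + 7 * n + ct') + n) ≤
      (C₃ + 2 * C₃ ^ 2 + C₂ * C₃ ^ 3 + 1) * n * ℓ ^ 4 + 8 * C₂' * n * ℓ ^ 4 +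
        (10 * TA + 5 * m + 35 * n + 40 * C₂' * n) * ℓ ^ 4 + (9 * n + TA + m) * ℓ ^ 4 := by omega
    _ = ((C₃ + 2 * C₃ ^ 2 + C₂ * C₃ ^ 3 + 48 * C₂' + 45) * n + 11 * TA + 6 * m) * ℓ ^ 4 := by ring
    _ ≤ (C₃ + 2 * C₃ ^ 2 + C₂ * C₃ ^ 3 + 48 * C₂' + 60) * (n + m + TA) * ℓ ^ 4 := by
        refine Nat.mul_le_mul_right _ ?_
        set K := C₃ + 2 * C₃ ^ 2 + C₂ * C₃ ^ 3 + 48 * C₂'
        nlinarith [Nat.zero_le (K * m), Nat.zero_le (K * TA)]

theorem log_bound {n : ℕ} (hn : 16 ≤ n) : ((Nat.log 2 n + 1 : ℕ) : ℝ) ≤ 2 * Real.log n := by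
  have h1 : (2 : ℝ) ^ (Nat.log 2 n) ≤ n := by
    exact_mod_cast Nat.pow_log_le_self 2 (by omega)
  have h2 : (Nat.log 2 n : ℝ) * Real.log 2 ≤ Real.log n := by
    rw [← Real.log_pow]
    exact Real.log_le_log (by positivity) h1
  have h3 : Real.log 16 ≤ Real.log n := Real.log_le_log (by norm_num) (by exact_mod_cast hn)
  have h4 : Real.log 16 = 4 * Real.log 2 := by
    rw [show (16 : ℝ) = 2 ^ 4 by norm_num, Real.log_pow]; norm_num
  have h5 := Real.log_two_gt_d9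
  push_cast
  nlinarith

end T11a

open T11a in
/-- T11a: the decoder, given a fast matrix with the restricted isometry property, with a fast
encoder. Uses T2-T5. -/
theorem T11a_decoder_enc : ∃ (C : ℝ) (a : ℕ), 0 < C ∧ ∀ n k m TA : ℕ, 1 ≤ k → 16 * k ≤ n →
    ∀ A : Matrix (Fin m) (Fin n) ℝ,
      ComputesIn TA (fun x => A *ᵥ x) → ComputesIn TA (fun y => Aᵀ *ᵥ y) →
      (∀ v : Fin n → ℝ, nnz v ≤ 15 * k → |nsq (A *ᵥ v) - nsq v| ≤ 1 / 4 * nsq v) →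
      ∃ (m₁ T : ℕ) (Φ : Matrix (Fin m₁) (Fin n) ℝ) (D : (Fin m₁ ⊕ Fin m → ℝ) → (Fin n → ℝ)),
        (m₁ : ℝ) ≤ C * k * Real.log (n / k) ∧ ComputesIn T (fun x => Φ *ᵥ x) ∧
        ComputesIn T D ∧ (T : ℝ) ≤ C * (n + m + TA) * Real.log n ^ a ∧
        ∀ x : Fin n → ℝ,
          Real.sqrt (nsq (D (Sum.elim (Φ *ᵥ x) (A *ᵥ x)) - x)) ≤ C / Real.sqrt k * sigma k x := by
  classical
  obtain ⟨C₂, hC₂⟩ := T2_median
  obtain ⟨C₂', hC₂'⟩ := T2_threshold
  obtain ⟨C₃, hC₃⟩ := T3_hash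
  obtain ⟨C₅, hC₅0, hC₅⟩ := T5_iht
  set K : ℕ := C₃ + 2 * C₃ ^ 2 + C₂ * C₃ ^ 3 + 48 * C₂' + 60 with hK
  refine ⟨(C₃ : ℝ) ^ 2 + K * 16 + 2 * C₅, 4, by positivity, ?_⟩
  intro n k m TA hk hn A hA hAt hrip
  obtain ⟨q, R, hq, hR, h, hh⟩ := hC₃ n k hk (by omega)
  obtain ⟨med, hmedc, hmed⟩ := hC₂ q
  set ℓ : ℕ := Nat.log 2 n + 1 with hℓ
  have hnℓ : n ≤ 2 ^ ℓ := (Nat.lt_pow_succ_log_self (by norm_num) n).le
  have hℓ2 : 2 ^ ℓ ≤ 2 * n := by
    rw [hℓ, pow_succ, mul_comm]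
    exact Nat.mul_le_mul_left _ (Nat.pow_log_le_self 2 (by omega))
  have hℓ1 : 1 ≤ ℓ := by omega
  obtain ⟨thr, hthrc, hthr⟩ := hC₂' n k ℓ hnℓ (by omega)
  obtain ⟨thr', hthrc', hthr'⟩ := hC₂' n (6 * k) ℓ hnℓ (by omega)
  set T₁ : ℕ := Nat.log 2 k + 1 with hT₁
  set T₂ : ℕ := (T₁ + 2) * ℓ + 2 with hT₂
  have hT₁k : k < 2 ^ T₁ := Nat.lt_pow_succ_log_self (by norm_num) k
  have hT₁ℓ : T₁ ≤ ℓ := by
    have : Nat.log 2 k ≤ Nat.log 2 n := Nat.log_mono_right (by omega)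
    omega
  have hT₂' : 4 * n ^ (T₁ + 2) ≤ 2 ^ T₂ := by
    have e1 : 2 ^ T₂ = (2 ^ ℓ) ^ (T₁ + 2) * 4 := by
      rw [hT₂, pow_add, ← pow_mul, mul_comm ℓ (T₁ + 2)]
      norm_num
    rw [e1, mul_comm]
    exact Nat.mul_le_mul_right _ (Nat.pow_le_pow_left hnℓ _)
  have hT₂ℓ : T₂ ≤ 5 * ℓ ^ 2 := by
    rw [hT₂]
    nlinarith
  have hlog2 : Real.log n ≤ ℓ := by
    have h1 : Real.log n ≤ Real.log ((2 : ℝ) ^ ℓ) :=
      Real.log_le_log (by have : 0 < n := by omega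
                          exact_mod_cast this) (by exact_mod_cast hnℓ)
    rw [Real.log_pow] at h1
    have h2 := Real.log_two_lt_d9
    have h3 : (0 : ℝ) ≤ ℓ := Nat.cast_nonneg _
    nlinarith
  have hkR : (1 : ℝ) ≤ k := by exact_mod_cast hk
  have hnR : (0 : ℝ) < n := by
    have : 0 < n := by omega
    exact_mod_cast this
  have hnk : Real.log (n / k) ≤ Real.log n := by
    refine Real.log_le_log (by positivity) ?_
    rw [div_le_iff₀ (by linarith)]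
    nlinarith
  have hnk0 : 0 ≤ Real.log ((n : ℝ) / k) := by
    refine Real.log_nonneg ?_
    rw [le_div_iff₀ (by linarith)]
    have : k ≤ n := by omega
    rw [one_mul]
    exact_mod_cast this
  have hd : 2 ^ q ≤ C₃ * ℓ := by
    have : (2 : ℝ) ^ q ≤ C₃ * ℓ := by
      refine hq.trans ?_
      exact mul_le_mul_of_nonneg_left (hnk.trans hlog2) (Nat.cast_nonneg _)
    exact_mod_cast this
  have hRn : R ≤ C₃ * n := hR.trans (Nat.mul_le_mul_left _ (by omega))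
  have hq1 : q + 1 ≤ 2 ^ q := Nat.lt_two_pow_self
  have hcm : C₂ * 2 ^ q * (q + 1) ^ 2 ≤ C₂ * C₃ ^ 3 * ℓ ^ 3 := by
    calc C₂ * 2 ^ q * (q + 1) ^ 2 ≤ C₂ * (C₃ * ℓ) * (C₃ * ℓ) ^ 2 :=
          Nat.mul_le_mul (Nat.mul_le_mul_left _ hd) (Nat.pow_le_pow_left (hq1.trans hd) 2)
      _ = C₂ * C₃ ^ 3 * ℓ ^ 3 := by ring
  have hct : C₂' * 2 ^ ℓ * (ℓ + 1) ^ 2 ≤ 8 * C₂' * n * ℓ ^ 2 := by
    calc C₂' * 2 ^ ℓ * (ℓ + 1) ^ 2 ≤ C₂' * (2 * n) * (2 * ℓ) ^ 2 :=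
          Nat.mul_le_mul (Nat.mul_le_mul_left _ hℓ2) (Nat.pow_le_pow_left (by omega) 2)
      _ = 8 * C₂' * n * ℓ ^ 2 := by ring
  set e : Fin (2 ^ q) × Fin R ≃ Fin (2 ^ q * R) := finProdFinEquiv
  refine ⟨2 ^ q * R, _, hashM e h,
    dec e h A (fun v => med v ()) (fun v => thr v ()) (fun v => thr' v ()) T₁ T₂, ?_, ?_,
    dec_cost e h A hA hAt med hmedc thr thr' hthrc hthrc' T₁ T₂, ?_, ?_⟩
  · -- number of rows
    have hRR : (R : ℝ) ≤ C₃ * k := by exact_mod_cast hR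
    have h1 : ((2 ^ q * R : ℕ) : ℝ) ≤ (C₃ * Real.log (n / k)) * (C₃ * k) := by
      push_cast
      exact mul_le_mul hq hRR (Nat.cast_nonneg _) (by positivity)
    refine h1.trans ?_
    have h2 : 0 ≤ (k : ℝ) * Real.log (n / k) := by positivity
    have h3 : 0 ≤ ((K : ℝ) * 16 + 2 * C₅) * (k * Real.log (n / k)) := by positivity
    nlinarith
  · -- encoding time
    refine (hashM_cost e h).mono ?_
    have hT1 : 1 ≤ T₁ := by omega
    have h1 : 2 ^ q * n + 2 ^ q * R ≤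
        2 ^ q * n + 2 * (2 ^ q * R) + n * (C₂ * 2 ^ q * (q + 1) ^ 2) + n := by omega
    have h2 : 2 ^ q * n + 2 * (2 ^ q * R) + n * (C₂ * 2 ^ q * (q + 1) ^ 2) + n ≤
        T₁ * (2 ^ q * n + 2 * (2 ^ q * R) + n * (C₂ * 2 ^ q * (q + 1) ^ 2) + n) :=
      Nat.le_mul_of_pos_left _ hT1
    omega
  · -- running time
    have h1 := total_cost (m := m) (TA := TA) hℓ1 hd hRn hcm hct hct hT₁ℓ hT₂ℓ
    rw [← hK] at h1
    have h2 : ((n + T₁ * (2 ^ q * n + 2 * (2 ^ q * R) + n * (C₂ * 2 ^ q * (q + 1) ^ 2) + n) +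
        (6 * n + C₂' * 2 ^ ℓ * (ℓ + 1) ^ 2) + (TA + m) +
        (n + T₂ * (2 * TA + m + 7 * n + C₂' * 2 ^ ℓ * (ℓ + 1) ^ 2) + n) : ℕ) : ℝ) ≤
        ((K * (n + m + TA) * ℓ ^ 4 : ℕ) : ℝ) := by exact_mod_cast h1
    refine h2.trans ?_
    have h3 : (ℓ : ℝ) ≤ 2 * Real.log n := log_bound (by omega)
    have h4 : (ℓ : ℝ) ^ 4 ≤ (2 * Real.log n) ^ 4 := pow_le_pow_left₀ (Nat.cast_nonneg _) h3 4
    have h5 : (0 : ℝ) ≤ (n : ℝ) + m + TA := by positivity
    have hlog0 : 0 ≤ Real.log n := le_trans hnk0 hnk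
    push_cast
    calc (K : ℝ) * (n + m + TA) * (ℓ : ℝ) ^ 4 ≤ (K : ℝ) * (n + m + TA) * (2 * Real.log n) ^ 4 :=
          mul_le_mul_of_nonneg_left h4 (by positivity)
      _ = (K * 16) * (n + m + TA) * Real.log n ^ 4 := by ring
      _ ≤ ((C₃ : ℝ) ^ 2 + K * 16 + 2 * C₅) * (n + m + TA) * Real.log n ^ 4 := by
          refine mul_le_mul_of_nonneg_right ?_ (by positivity)
          refine mul_le_mul_of_nonneg_right ?_ h5
          nlinarith [sq_nonneg (C₃ : ℝ)]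
  · -- error
    intro x
    have h1 := dec_error hk hn C₅ hC₅0 A T₁ T₂ hT₁k hT₂' e h hh (fun v => med v ())
      (fun v lo hi hv => hmed v lo hi hv) (fun v => thr v ()) (fun v => thr' v ())
      (fun v hv => hthr v hv)
      (fun x z hz T => hC₅ m n k hk hn A hrip (fun v => thr' v ()) (fun v hv => hthr' v hv) x z hz T) x
    refine h1.trans ?_
    have h2 : 0 ≤ sigma k x / Real.sqrt k := div_nonneg (sigma_nonneg k x) (Real.sqrt_nonneg _)
    have h3 : ((C₃ : ℝ) ^ 2 + K * 16 + 2 * C₅) / Real.sqrt k * sigma k x =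
        ((C₃ : ℝ) ^ 2 + K * 16 + 2 * C₅) * (sigma k x / Real.sqrt k) := by ring
    rw [h3]
    refine mul_le_mul_of_nonneg_right ?_ h2
    have : (0 : ℝ) ≤ (C₃ : ℝ) ^ 2 + K * 16 := by positivity
    linarith

/-- T11a: the decoder, given a fast matrix with the restricted isometry property. -/
theorem T11a_decoder : ∃ (C : ℝ) (a : ℕ), 0 < C ∧ ∀ n k m TA : ℕ, 1 ≤ k → 16 * k ≤ n →
    ∀ A : Matrix (Fin m) (Fin n) ℝ,
      ComputesIn TA (fun x => A *ᵥ x) → ComputesIn TA (fun y => Aᵀ *ᵥ y) →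
      (∀ v : Fin n → ℝ, nnz v ≤ 15 * k → |nsq (A *ᵥ v) - nsq v| ≤ 1 / 4 * nsq v) →
      ∃ (m₁ T : ℕ) (Φ : Matrix (Fin m₁) (Fin n) ℝ) (D : (Fin m₁ ⊕ Fin m → ℝ) → (Fin n → ℝ)),
        (m₁ : ℝ) ≤ C * k * Real.log (n / k) ∧
        ComputesIn T D ∧ (T : ℝ) ≤ C * (n + m + TA) * Real.log n ^ a ∧
        ∀ x : Fin n → ℝ,
          Real.sqrt (nsq (D (Sum.elim (Φ *ᵥ x) (A *ᵥ x)) - x)) ≤ C / Real.sqrt k * sigma k x := by
  obtain ⟨C, a, hC, h⟩ := T11a_decoder_enc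
  refine ⟨C, a, hC, fun n k m TA hk hn A hA hAt hrip => ?_⟩
  obtain ⟨m₁, T, Φ, D, h1, _, h3, h4, h5⟩ := h n k m TA hk hn A hA hAt hrip
  exact ⟨m₁, T, Φ, D, h1, h3, h4, h5⟩

end Pool.Agent.MP_72d76c_lc
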