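import Pool.Agent.MP_72d76c_lc.T10
import Pool.Agent.MP_72d76c_lc.T11a

/-!
# T11: the main theorem
-/

namespace Pool.Agent.MP_72d76c_lc

open Matrix Finset

theorem nnz_padM {n : ℕ} {κ : Type} [Fintype κ] [DecidableEq κ] (e : Fin n ↪ κ)
    (x : Fin n → ℝ) : nnz (padM e *ᵥ x) ≤ nnz x := by
  classical
  unfold nnz
  have h : (univ.filter fun q => (padM e *ᵥ x) q ≠ 0) ⊆ (univ.filter fun i => x i ≠ 0).map e := by
    intro q hq
    rw [mem_filter] at hq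
    by_cases h : ∃ i, e i = q
    · obtain ⟨i, rfl⟩ := h
      rw [padM_mulVec_apply] at hq
      exact mem_map_of_mem e (mem_filter.2 ⟨mem_univ _, hq.2⟩)
    · push Not at h
      exact absurd (padM_mulVec_notin e x q h) hq.2
  refine (card_le_card ?_).trans (card_map e).le
  convert h

theorem l1_padM {n : ℕ} {κ : Type} [Fintype κ] [DecidableEq κ] (e : Fin n ↪ κ)
    (x : Fin n → ℝ) : l1 (padM e *ᵥ x) = l1 x := by
  classical
  simp only [l1]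
  have h1 : ∑ q, |(padM e *ᵥ x) q| = ∑ q ∈ univ.map e, |(padM e *ᵥ x) q| := by
    symm
    refine sum_subset (subset_univ _) fun q _ hq => ?_
    rw [padM_mulVec_notin e x q fun i hi => hq (by simp [← hi])]
    simp
  rw [h1, Finset.sum_map]
  exact sum_congr rfl fun i _ => by rw [padM_mulVec_apply]

theorem sigma_padM {n : ℕ} {κ : Type} [Fintype κ] [DecidableEq κ] (e : Fin n ↪ κ)
    (k : ℕ) (x : Fin n → ℝ) : sigma k (padM e *ᵥ x) ≤ sigma k x := by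
  unfold sigma
  apply le_csInf
  · refine ⟨l1 (x - 0), 0, ?_, rfl⟩
    simp [nnz]
  · rintro t ⟨x', hx', rfl⟩
    refine csInf_le ⟨0, ?_⟩ ⟨padM e *ᵥ x', (nnz_padM e x').trans hx', ?_⟩
    · rintro t ⟨y, _, rfl⟩
      exact sum_nonneg fun _ _ => abs_nonneg _
    · rw [← mulVec_sub, l1_padM]

theorem nsq_padMT {n : ℕ} {κ : Type} [Fintype κ] [DecidableEq κ] (e : Fin n ↪ κ)
    (y : κ → ℝ) : nsq ((padM e)ᵀ *ᵥ y) ≤ nsq y := by
  classical
  simp only [nsq]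
  calc ∑ i, ((padM e)ᵀ *ᵥ y) i ^ 2 = ∑ i, y (e i) ^ 2 :=
        sum_congr rfl fun i _ => by rw [padMT_mulVec]
    _ = ∑ q ∈ univ.map e, y q ^ 2 := by rw [Finset.sum_map]
    _ ≤ ∑ q, y q ^ 2 := sum_le_sum_of_subset_of_nonneg (subset_univ _) fun _ _ _ => sq_nonneg _

theorem padMT_padM {n : ℕ} {κ : Type} [Fintype κ] [DecidableEq κ] (e : Fin n ↪ κ)
    (x : Fin n → ℝ) : (padM e)ᵀ *ᵥ (padM e *ᵥ x) = x := by
  funext i
  rw [padMT_mulVec, padM_mulVec_apply]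

/-- The numerical part of the cost bound. -/
theorem T11_numbers (C₁ C : ℝ) (a₁ a : ℕ) (hC₁ : 0 < C₁) (hC : 0 ≤ C) : ∃ C' : ℝ, 0 < C' ∧
    ∀ (n k m₁ m T TA : ℕ), 1 ≤ k → 2 * k ≤ n →
      (m₁ : ℝ) ≤ C₁ * k * Real.log ((8 * n : ℕ) / k) →
      (m : ℝ) ≤ C * (15 * k : ℕ) * Real.log (2 * (8 * n : ℕ) / (15 * k : ℕ)) →
      (T : ℝ) ≤ C₁ * ((8 * n : ℕ) + m + TA) * Real.log (8 * n : ℕ) ^ a₁ →
      (TA : ℝ) ≤ C * (8 * n : ℕ) * (Nat.log 2 (8 * n) + 1 : ℕ) ^ a →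
      ((m₁ + m : ℕ) : ℝ) ≤ C' * k * Real.log (n / k) ∧
      ((8 * n + T + TA : ℕ) : ℝ) ≤ C' * n * Real.log n ^ (a + a₁) := by
  obtain ⟨U, hU⟩ : ∃ U : ℝ, U = 8 * C * 8 ^ a := ⟨_, rfl⟩
  obtain ⟨V, hV⟩ : ∃ V : ℝ, V = C₁ * ((8 + 30 * C) * 2 ^ a + U) * 4 ^ a₁ := ⟨_, rfl⟩
  have hU0 : 0 ≤ U := by rw [hU]; positivity
  have hV0 : 0 ≤ V := by rw [hV]; positivity
  refine ⟨4 * C₁ + 30 * C + 8 * 2 ^ (a + a₁) + V + U * 2 ^ a₁, by positivity, ?_⟩
  intro n k m₁ m T TA hk hn hm₁ hm hT hTA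
  push_cast at hm₁ hm hT hTA ⊢
  have hkr : (1 : ℝ) ≤ k := by exact_mod_cast hk
  have hnr : 2 * (k : ℝ) ≤ n := by exact_mod_cast hn
  have hn2 : (2 : ℝ) ≤ n := by linarith
  have hl2 := Real.log_two_gt_d9
  have hl2' := Real.log_two_lt_d9
  obtain ⟨q, hq⟩ : ∃ q : ℝ, q = n / k := ⟨_, rfl⟩
  have hq2 : 2 ≤ q := by
    rw [hq, le_div_iff₀ (by linarith)]
    exact hnr
  have hlq : Real.log 2 ≤ Real.log q := Real.log_le_log (by norm_num) hq2
  have hlq0 : 0 < Real.log q := by linarith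
  have h8 : Real.log 8 = 3 * Real.log 2 := by
    rw [show (8 : ℝ) = 2 ^ 3 by norm_num, Real.log_pow]; norm_num
  -- rows
  have hr1 : Real.log (8 * n / k) ≤ 4 * Real.log q := by
    rw [mul_div_assoc, ← hq, Real.log_mul (by norm_num) (by linarith), h8]
    linarith
  have hr2 : Real.log (2 * (8 * n) / (15 * k)) ≤ 2 * Real.log q := by
    have h1 : (2 : ℝ) * (8 * n) / (15 * k) ≤ 2 * q := by
      rw [hq, div_le_iff₀ (by linarith)]
      have : 2 * ((n : ℝ) / k) * (15 * k) = 30 * n := by field_simp; ring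
      rw [this]
      linarith
    calc Real.log (2 * (8 * n) / (15 * k)) ≤ Real.log (2 * q) :=
          Real.log_le_log (by positivity) h1
      _ = Real.log 2 + Real.log q := Real.log_mul (by norm_num) (by linarith)
      _ ≤ 2 * Real.log q := by linarith
  have hm₁' : (m₁ : ℝ) ≤ 4 * C₁ * (k * Real.log q) := by
    calc (m₁ : ℝ) ≤ C₁ * k * Real.log (8 * n / k) := hm₁
      _ ≤ C₁ * k * (4 * Real.log q) := by gcongr
      _ = 4 * C₁ * (k * Real.log q) := by ring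
  have hm' : (m : ℝ) ≤ 30 * C * (k * Real.log q) := by
    calc (m : ℝ) ≤ C * (15 * k) * Real.log (2 * (8 * n) / (15 * k)) := hm
      _ ≤ C * (15 * k) * (2 * Real.log q) := by gcongr
      _ = 30 * C * (k * Real.log q) := by ring
  have hkq : (k : ℝ) * Real.log q ≤ n := by
    have h1 : Real.log q ≤ q := (Real.log_le_sub_one_of_pos (by linarith)).trans (by linarith)
    calc (k : ℝ) * Real.log q ≤ k * q := by gcongr
      _ = n := by rw [hq]; field_simp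
  have hkq0 : 0 ≤ (k : ℝ) * Real.log q := by positivity
  obtain ⟨l, hl⟩ : ∃ l : ℝ, l = Real.log n := ⟨_, rfl⟩
  have hln : Real.log 2 ≤ l := by rw [hl]; exact Real.log_le_log (by norm_num) hn2
  have hl0 : 0 < l := by linarith
  have h2l : 1 ≤ 2 * l := by linarith
  -- logarithms
  have hL1 : ((Nat.log 2 (8 * n) : ℕ) : ℝ) + 1 ≤ 8 * l := by
    have h1 : (2 : ℝ) ^ (Nat.log 2 (8 * n)) ≤ 8 * n := by
      exact_mod_cast Nat.pow_log_le_self 2 (by omega)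
    have h2 : ((Nat.log 2 (8 * n) : ℕ) : ℝ) * Real.log 2 ≤ 3 * Real.log 2 + l := by
      rw [← Real.log_pow, ← h8, hl, ← Real.log_mul (by norm_num) (by linarith)]
      exact Real.log_le_log (by positivity) h1
    nlinarith
  have hL2 : Real.log (8 * n) ≤ 4 * l := by
    rw [Real.log_mul (by norm_num) (by linarith), h8, ← hl]
    linarith
  have hL20 : 0 ≤ Real.log (8 * n) := Real.log_nonneg (by linarith)
  have hTA' : (TA : ℝ) ≤ U * (n * l ^ a) := by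
    calc (TA : ℝ) ≤ C * (8 * n) * ((Nat.log 2 (8 * n) : ℕ) + 1) ^ a := hTA
      _ ≤ C * (8 * n) * (8 * l) ^ a := by gcongr
      _ = U * (n * l ^ a) := by rw [hU, mul_pow]; ring
  have hmn : (m : ℝ) ≤ 30 * C * n := hm'.trans (by gcongr)
  have hone : ∀ b : ℕ, 1 ≤ (2 * l) ^ b := fun b => one_le_pow₀ h2l
  have hT' : (T : ℝ) ≤ V * (n * l ^ (a + a₁)) := by
    calc (T : ℝ) ≤ C₁ * (8 * n + m + TA) * Real.log (8 * n) ^ a₁ := hT
      _ ≤ C₁ * (8 * n + 30 * C * n + U * (n * l ^ a)) * (4 * l) ^ a₁ := by gcongr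
      _ ≤ C₁ * ((8 * n + 30 * C * n) * (2 * l) ^ a + U * (n * l ^ a)) * (4 * l) ^ a₁ := by
          gcongr
          exact le_mul_of_one_le_right (by positivity) (hone a)
      _ = V * (n * l ^ (a + a₁)) := by
          rw [hV, mul_pow, mul_pow, pow_add]
          ring
  rw [← hq, ← hl]
  constructor
  · have h1 : 0 ≤ (8 * 2 ^ (a + a₁) + V + U * 2 ^ a₁) * (k * Real.log q) := by positivity
    calc (m₁ : ℝ) + m ≤ 4 * C₁ * (k * Real.log q) + 30 * C * (k * Real.log q) :=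
          add_le_add hm₁' hm'
      _ ≤ 4 * C₁ * (k * Real.log q) + 30 * C * (k * Real.log q) +
          (8 * 2 ^ (a + a₁) + V + U * 2 ^ a₁) * (k * Real.log q) := le_add_of_nonneg_right h1
      _ = _ := by ring
  · have h1 : (8 * n : ℝ) ≤ 8 * 2 ^ (a + a₁) * (n * l ^ (a + a₁)) := by
      calc (8 * n : ℝ) ≤ 8 * n * (2 * l) ^ (a + a₁) :=
            le_mul_of_one_le_right (by positivity) (hone _)
        _ = 8 * 2 ^ (a + a₁) * (n * l ^ (a + a₁)) := by rw [mul_pow]; ring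
    have h2 : (TA : ℝ) ≤ U * 2 ^ a₁ * (n * l ^ (a + a₁)) := by
      calc (TA : ℝ) ≤ U * (n * l ^ a) := hTA'
        _ ≤ U * (n * l ^ a) * (2 * l) ^ a₁ := le_mul_of_one_le_right (by positivity) (hone _)
        _ = U * 2 ^ a₁ * (n * l ^ (a + a₁)) := by rw [mul_pow, pow_add]; ring
    have h3 : 0 ≤ (4 * C₁ + 30 * C) * (n * l ^ (a + a₁)) := by positivity
    calc (8 * n : ℝ) + T + TA ≤ 8 * 2 ^ (a + a₁) * (n * l ^ (a + a₁)) + V * (n * l ^ (a + a₁)) +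
          U * 2 ^ a₁ * (n * l ^ (a + a₁)) := add_le_add (add_le_add h1 hT') h2
      _ ≤ 8 * 2 ^ (a + a₁) * (n * l ^ (a + a₁)) + V * (n * l ^ (a + a₁)) +
          U * 2 ^ a₁ * (n * l ^ (a + a₁)) + (4 * C₁ + 30 * C) * (n * l ^ (a + a₁)) :=
          le_add_of_nonneg_right h3
      _ = _ := by ring

theorem T11_strong : ∃ (C : ℝ) (a : ℕ), 0 < C ∧ ∀ n k : ℕ, 1 ≤ k → 2 * k ≤ n →
    ∃ (m T : ℕ) (A : Matrix (Fin m) (Fin n) ℝ) (D : (Fin m → ℝ) → (Fin n → ℝ)),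
      (m : ℝ) ≤ C * k * Real.log (n / k) ∧
      (T : ℝ) ≤ C * n * Real.log n ^ a ∧
      ComputesIn T D ∧ ComputesIn T (fun x => A *ᵥ x) ∧
      ∀ x : Fin n → ℝ, Real.sqrt (nsq (D (A *ᵥ x) - x)) ≤ C / Real.sqrt k * sigma k x := by
  classical
  obtain ⟨C, a, hrip⟩ := T10_rip
  obtain ⟨C₁, a₁, hC₁, hdec⟩ := T11a_decoder_enc
  obtain ⟨C', hC', hnum⟩ := T11_numbers C₁ C a₁ a hC₁ (Nat.cast_nonneg C)
  refine ⟨C' + C₁, a + a₁, by positivity, fun n k hk hn => ?_⟩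
  obtain ⟨m', A', hm', hA', hAt', hR'⟩ := hrip (8 * n) (15 * k) (by omega) (by omega)
  obtain ⟨m₁, T, Φ, D, hm₁, hΦ, hD, hT, herr⟩ := hdec (8 * n) k m'
    (C * (8 * n) * (Nat.log 2 (8 * n) + 1) ^ a) hk (by omega) A' hA' hAt' hR'
  obtain ⟨hnum1, hnum2⟩ := hnum n k m₁ m' T (C * (8 * n) * (Nat.log 2 (8 * n) + 1) ^ a) hk hn
    hm₁ hm' (by exact_mod_cast hT) (by push_cast; exact le_rfl)
  have hkr : (1 : ℝ) ≤ k := by exact_mod_cast hk
  have hnr : 2 * (k : ℝ) ≤ n := by exact_mod_cast hn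
  have hlog0 : 0 ≤ Real.log n := Real.log_nonneg (by linarith)
  have hlogq : 0 ≤ Real.log ((n : ℝ) / k) := by
    refine Real.log_nonneg ?_
    rw [le_div_iff₀ (by linarith)]
    linarith
  obtain ⟨TA, hTA⟩ : ∃ TA : ℕ, TA = C * (8 * n) * (Nat.log 2 (8 * n) + 1) ^ a := ⟨_, rfl⟩
  rw [← hTA] at hnum2 hA'
  -- the padding
  obtain ⟨e⟩ : Nonempty (Fin n ↪ Fin (8 * n)) :=
    ⟨(Fin.castLEEmb (by omega))⟩
  set B : Matrix (Fin m₁ ⊕ Fin m') (Fin n) ℝ := fromRows Φ A' * padM e with hB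
  have hBx : ∀ x, B *ᵥ x = Sum.elim (Φ *ᵥ (padM e *ᵥ x)) (A' *ᵥ (padM e *ᵥ x)) := by
    intro x
    rw [hB, ← mulVec_mulVec, fromRows_mulVec]
  refine ⟨m₁ + m', 8 * n + T + TA, B.submatrix finSumFinEquiv.symm id,
    fun y => (padM e)ᵀ *ᵥ D (fun j => y (finSumFinEquiv j)), ?_, ?_, ?_, ?_, ?_⟩
  · refine hnum1.trans ?_
    gcongr
    linarith
  · refine hnum2.trans ?_
    gcongr
    linarith
  · have h := (computesIn_padMT e).comp (hD.inp (fun j => finSumFinEquiv j))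
    exact h.mono (by omega)
  · have h1 : ComputesIn (8 * n + (T + TA)) (fun x : Fin n → ℝ =>
        (Sum.elim (Φ *ᵥ (padM e *ᵥ x)) (A' *ᵥ (padM e *ᵥ x)) : Fin m₁ ⊕ Fin m' → ℝ)) := by
      have := (hΦ.pair hA').comp (computesIn_padM e)
      rw [Fintype.card_fin] at this
      exact this
    refine ((h1.out (fun j => finSumFinEquiv.symm j)).mono (by omega)).congr fun x j => ?_
    have : (B.submatrix finSumFinEquiv.symm id *ᵥ x) j = (B *ᵥ x) (finSumFinEquiv.symm j) := rfl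
    rw [this, hBx]
  · intro x
    have h0 : (fun j => (B.submatrix finSumFinEquiv.symm id *ᵥ x) (finSumFinEquiv j)) =
        Sum.elim (Φ *ᵥ (padM e *ᵥ x)) (A' *ᵥ (padM e *ᵥ x)) := by
      rw [← hBx]
      funext j
      have : (B.submatrix finSumFinEquiv.symm id *ᵥ x) (finSumFinEquiv j) =
        (B *ᵥ x) (finSumFinEquiv.symm (finSumFinEquiv j)) := rfl
      rw [this, Equiv.symm_apply_apply]
    have h1 : (padM e)ᵀ *ᵥ D (fun j => (B.submatrix finSumFinEquiv.symm id *ᵥ x)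
        (finSumFinEquiv j)) - x = (padM e)ᵀ *ᵥ (D (Sum.elim (Φ *ᵥ (padM e *ᵥ x))
          (A' *ᵥ (padM e *ᵥ x))) - padM e *ᵥ x) := by
      rw [h0, mulVec_sub, padMT_padM]
    show Real.sqrt (nsq ((padM e)ᵀ *ᵥ D (fun j => (B.submatrix finSumFinEquiv.symm id *ᵥ x)
        (finSumFinEquiv j)) - x)) ≤ _
    rw [h1]
    have hs0 : 0 ≤ sigma k x := by
      unfold sigma
      refine Real.sInf_nonneg ?_
      rintro t ⟨y, _, rfl⟩
      exact sum_nonneg fun _ _ => abs_nonneg _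
    calc Real.sqrt (nsq ((padM e)ᵀ *ᵥ (D (Sum.elim (Φ *ᵥ (padM e *ᵥ x))
          (A' *ᵥ (padM e *ᵥ x))) - padM e *ᵥ x)))
        ≤ Real.sqrt (nsq (D (Sum.elim (Φ *ᵥ (padM e *ᵥ x))
          (A' *ᵥ (padM e *ᵥ x))) - padM e *ᵥ x)) := Real.sqrt_le_sqrt (nsq_padMT e _)
      _ ≤ C₁ / Real.sqrt k * sigma k (padM e *ᵥ x) := herr (padM e *ᵥ x)
      _ ≤ C₁ / Real.sqrt k * sigma k x :=
          mul_le_mul_of_nonneg_left (sigma_padM e k x) (by positivity)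
      _ ≤ (C' + C₁) / Real.sqrt k * sigma k x := by
          gcongr
          linarith

end Pool.Agent.MP_72d76c_lc
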