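import Pool.Agent.MP_72d76c_lc.Circuit

/-!
# T2: Batcher's odd-even merge sort as a straight-line program; order statistics
-/

namespace Pool.Agent.MP_72d76c_lc

open Finset

open Classical in
/-- `s` is the `r`-th smallest (counting from `0`) of the values of `v`. -/
def IsOStat {α : Type*} [Fintype α] (v : α → ℝ) (r : ℕ) (s : ℝ) : Prop :=
  ∀ t : ℝ, s ≤ t ↔ r < (univ.filter (fun i => v i ≤ t)).card

namespace T2

/-- Merging two sorted sequences of length `2 ^ p`. -/
noncomputable def mrg : ℕ → (ℕ → ℝ) → (ℕ → ℝ) → (ℕ → ℝ)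
  | 0, a, b => fun i => if i = 0 then min (a 0) (b 0) else max (a 0) (b 0)
  | p + 1, a, b => fun i =>
      if i = 0 then mrg p (fun j => a (2 * j)) (fun j => b (2 * j)) 0
      else if i = 2 ^ (p + 2) - 1 then
        mrg p (fun j => a (2 * j + 1)) (fun j => b (2 * j + 1)) (2 ^ (p + 1) - 1)
      else if i % 2 = 1 then
        min (mrg p (fun j => a (2 * j + 1)) (fun j => b (2 * j + 1)) (i / 2))
          (mrg p (fun j => a (2 * j)) (fun j => b (2 * j)) (i / 2 + 1))
      else
        max (mrg p (fun j => a (2 * j + 1)) (fun j => b (2 * j + 1)) (i / 2 - 1))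
          (mrg p (fun j => a (2 * j)) (fun j => b (2 * j)) (i / 2))

/-- `f 0, ..., f (N-1)` is sorted and `γ t` of the entries are at most `t`. -/
def Srt (N : ℕ) (f : ℕ → ℝ) (γ : ℝ → ℕ) : Prop :=
  ∀ t, γ t ≤ N ∧ ∀ i < N, (f i ≤ t ↔ i < γ t)

theorem mrg_srt (p : ℕ) : ∀ (a b : ℕ → ℝ) (α β : ℝ → ℕ), Srt (2 ^ p) a α → Srt (2 ^ p) b β →
    Srt (2 ^ (p + 1)) (mrg p a b) (fun t => α t + β t) := by
  induction p with
  | zero =>
    intro a b α β ha hb t
    obtain ⟨ha1, ha2⟩ := ha t
    obtain ⟨hb1, hb2⟩ := hb t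
    simp only [pow_zero, zero_add, pow_one] at *
    refine ⟨by omega, ?_⟩
    intro i hi
    have h1 := ha2 0 (by omega)
    have h2 := hb2 0 (by omega)
    rcases Nat.lt_or_ge 0 i with h | h
    · obtain rfl : i = 1 := by omega
      simp only [mrg, one_ne_zero, if_false, max_le_iff, h1, h2]
      omega
    · obtain rfl : i = 0 := by omega
      simp only [mrg, if_true, min_le_iff, h1, h2]
      omega
  | succ p ih =>
    intro a b α β ha hb
    have hc := ih (fun j => a (2 * j)) (fun j => b (2 * j)) (fun t => (α t + 1) / 2)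
      (fun t => (β t + 1) / 2)
      (by
        intro t
        obtain ⟨h1, h2⟩ := ha t
        rw [pow_succ] at h1 h2
        refine ⟨by dsimp only; omega, ?_⟩
        intro i hi
        rw [h2 (2 * i) (by omega)]
        dsimp only
        omega)
      (by
        intro t
        obtain ⟨h1, h2⟩ := hb t
        rw [pow_succ] at h1 h2
        refine ⟨by dsimp only; omega, ?_⟩
        intro i hi
        rw [h2 (2 * i) (by omega)]
        dsimp only
        omega)
    have hd := ih (fun j => a (2 * j + 1)) (fun j => b (2 * j + 1)) (fun t => α t / 2)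
      (fun t => β t / 2)
      (by
        intro t
        obtain ⟨h1, h2⟩ := ha t
        rw [pow_succ] at h1 h2
        refine ⟨by dsimp only; omega, ?_⟩
        intro i hi
        rw [h2 (2 * i + 1) (by omega)]
        dsimp only
        omega)
      (by
        intro t
        obtain ⟨h1, h2⟩ := hb t
        rw [pow_succ] at h1 h2
        refine ⟨by dsimp only; omega, ?_⟩
        intro i hi
        rw [h2 (2 * i + 1) (by omega)]
        dsimp only
        omega)
    intro t
    obtain ⟨hc1, hc2⟩ := hc t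
    obtain ⟨hd1, hd2⟩ := hd t
    obtain ⟨ha1, -⟩ := ha t
    obtain ⟨hb1, -⟩ := hb t
    have hp : 0 < 2 ^ p := by positivity
    have e1 : 2 ^ (p + 1) = 2 * 2 ^ p := by rw [pow_succ]; ring
    have e2 : 2 ^ (p + 1 + 1) = 4 * 2 ^ p := by rw [pow_succ, pow_succ]; ring
    have e3 : 2 ^ (p + 2) = 4 * 2 ^ p := by rw [pow_succ, pow_succ]; ring
    simp only [e1] at hc1 hc2 hd1 hd2 ha1 hb1
    rw [e2]
    refine ⟨by dsimp only; omega, ?_⟩
    intro i hi
    simp only [mrg]
    split_ifs with h1 h2 h3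
    · subst h1
      rw [hc2 0 (by omega)]
      omega
    · rw [e3] at h2
      rw [e1, hd2 _ (by omega)]
      omega
    · rw [min_le_iff, hd2 _ (by omega), hc2 _ (by omega)]
      omega
    · rw [max_le_iff, hd2 _ (by omega), hc2 _ (by omega)]
      omega

/-- Sorting a sequence of length `2 ^ q`. -/
noncomputable def srt : ℕ → (ℕ → ℝ) → (ℕ → ℝ)
  | 0, f => f
  | q + 1, f => mrg q (fun j => srt q f (j % 2 ^ q)) (fun j => srt q (fun i => f (i + 2 ^ q)) (j % 2 ^ q))

open Classical in
theorem srt_srt (q : ℕ) : ∀ f : ℕ → ℝ,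
    Srt (2 ^ q) (srt q f) (fun t => ∑ i ∈ range (2 ^ q), if f i ≤ t then 1 else 0) := by
  induction q with
  | zero =>
    intro f t
    simp only [pow_zero, sum_range_one, srt]
    split_ifs with h
    · refine ⟨le_rfl, ?_⟩
      intro i hi
      obtain rfl : i = 0 := by omega
      simp [h]
    · refine ⟨by omega, ?_⟩
      intro i hi
      obtain rfl : i = 0 := by omega
      simp [h]
  | succ q ih =>
    intro f
    have key : ∀ g : ℕ → ℝ, Srt (2 ^ q) (fun j => srt q g (j % 2 ^ q))
        (fun t => ∑ i ∈ range (2 ^ q), if g i ≤ t then 1 else 0) := by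
      intro g t
      obtain ⟨h1, h2⟩ := ih g t
      refine ⟨h1, ?_⟩
      intro i hi
      simp only [Nat.mod_eq_of_lt hi]
      exact h2 i hi
    have h := mrg_srt q _ _ _ _ (key f) (key (fun i => f (i + 2 ^ q)))
    intro t
    obtain ⟨h1, h2⟩ := h t
    have e : ∑ i ∈ range (2 ^ (q + 1)), (if f i ≤ t then 1 else 0) =
        (∑ i ∈ range (2 ^ q), if f i ≤ t then 1 else 0) +
        ∑ i ∈ range (2 ^ q), if f (i + 2 ^ q) ≤ t then 1 else 0 := by
      rw [pow_succ, mul_two, sum_range_add]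
      congr 1
      refine Finset.sum_congr rfl fun i _ => ?_
      rw [add_comm (2 ^ q) i]
    dsimp only
    rw [e]
    exact ⟨h1, h2⟩

/-! ### Cost -/

theorem computesIn_min {κ : Type*} (a b : κ) :
    ComputesIn 1 (fun (x : κ → ℝ) (_ : Unit) => min (x a) (x b)) := by
  refine ((ComputesIn.coord a).sel₁ (ComputesIn.coord (ι := κ) b)
    (ComputesIn.coord a) (ComputesIn.coord b)).congr fun x j => ?_
  simp [min_def]

theorem computesIn_max {κ : Type*} (a b : κ) :
    ComputesIn 1 (fun (x : κ → ℝ) (_ : Unit) => max (x a) (x b)) := by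
  refine ((ComputesIn.coord a).sel₁ (ComputesIn.coord (ι := κ) b)
    (ComputesIn.coord b) (ComputesIn.coord a)).congr fun x j => ?_
  simp [max_def]

theorem mrg_cost (p : ℕ) : ComputesIn ((p + 1) * 2 ^ (p + 1))
    (fun (x : ℕ ⊕ ℕ → ℝ) (i : Fin (2 ^ (p + 1))) =>
      mrg p (fun j => x (.inl j)) (fun j => x (.inr j)) i) := by
  induction p with
  | zero =>
    have h : ∀ a : Fin (2 ^ (0 + 1)), ComputesIn 1 (fun (x : ℕ ⊕ ℕ → ℝ) (_ : Unit) =>
        mrg 0 (fun j => x (.inl j)) (fun j => x (.inr j)) a) := by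
      intro a
      by_cases ha : (a : ℕ) = 0
      · refine (computesIn_min (Sum.inl 0 : ℕ ⊕ ℕ) (Sum.inr 0)).congr fun x j => ?_
        simp only [mrg, ha, if_true]
      · refine (computesIn_max (Sum.inl 0 : ℕ ⊕ ℕ) (Sum.inr 0)).congr fun x j => ?_
        simp only [mrg, ha, if_false]
    have h2 := ComputesIn.pi_const 1 (F := fun (x : ℕ ⊕ ℕ → ℝ) (i : Fin (2 ^ (0 + 1))) =>
      mrg 0 (fun j => x (.inl j)) (fun j => x (.inr j)) i) h
    refine h2.mono ?_
    simp
  | succ p ih =>
    have hc := ih.inp (fun s : ℕ ⊕ ℕ =>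
      (Sum.elim (fun j => Sum.inl (2 * j)) (fun j => Sum.inr (2 * j)) s : ℕ ⊕ ℕ))
    have hd := ih.inp (fun s : ℕ ⊕ ℕ =>
      (Sum.elim (fun j => Sum.inl (2 * j + 1)) (fun j => Sum.inr (2 * j + 1)) s : ℕ ⊕ ℕ))
    have hcd := hc.pair hd
    have hp : 0 < 2 ^ p := by positivity
    have e1 : 2 ^ (p + 1) = 2 * 2 ^ p := by rw [pow_succ]; ring
    have e3 : 2 ^ (p + 2) = 4 * 2 ^ p := by rw [pow_succ, pow_succ]; ring
    have e4 : 2 ^ (p + 1 + 1) = 4 * 2 ^ p := by rw [pow_succ, pow_succ]; ring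
    have hl : ComputesIn (2 ^ (p + 1 + 1) * 1)
        (fun (y : Fin (2 ^ (p + 1)) ⊕ Fin (2 ^ (p + 1)) → ℝ) (i : Fin (2 ^ (p + 1 + 1))) =>
          if (i : ℕ) = 0 then y (.inl ⟨0, by positivity⟩)
          else if (i : ℕ) = 2 ^ (p + 2) - 1 then
            y (.inr ⟨2 ^ (p + 1) - 1, by omega⟩)
          else if (i : ℕ) % 2 = 1 then
            min (y (.inr ⟨(i / 2) % 2 ^ (p + 1), Nat.mod_lt _ (by positivity)⟩))
              (y (.inl ⟨(i / 2 + 1) % 2 ^ (p + 1), Nat.mod_lt _ (by positivity)⟩))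
          else
            max (y (.inr ⟨(i / 2 - 1) % 2 ^ (p + 1), Nat.mod_lt _ (by positivity)⟩))
              (y (.inl ⟨(i / 2) % 2 ^ (p + 1), Nat.mod_lt _ (by positivity)⟩))) := by
      have := ComputesIn.pi_const (ι := Fin (2 ^ (p + 1)) ⊕ Fin (2 ^ (p + 1))) 1 (F := (fun (y : Fin (2 ^ (p + 1)) ⊕ Fin (2 ^ (p + 1)) → ℝ) (i : Fin (2 ^ (p + 1 + 1))) =>
          if (i : ℕ) = 0 then y (.inl ⟨0, by positivity⟩)
          else if (i : ℕ) = 2 ^ (p + 2) - 1 then
            y (.inr ⟨2 ^ (p + 1) - 1, by omega⟩)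
          else if (i : ℕ) % 2 = 1 then
            min (y (.inr ⟨(i / 2) % 2 ^ (p + 1), Nat.mod_lt _ (by positivity)⟩))
              (y (.inl ⟨(i / 2 + 1) % 2 ^ (p + 1), Nat.mod_lt _ (by positivity)⟩))
          else
            max (y (.inr ⟨(i / 2 - 1) % 2 ^ (p + 1), Nat.mod_lt _ (by positivity)⟩))
              (y (.inl ⟨(i / 2) % 2 ^ (p + 1), Nat.mod_lt _ (by positivity)⟩)))) (by
        intro i
        by_cases h1 : (i : ℕ) = 0
        · simp only [h1, if_true]
          exact (ComputesIn.coord _).mono (by omega)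
        by_cases h2 : (i : ℕ) = 2 ^ (p + 2) - 1
        · simp only [h1, if_false]
          simp only [h2, if_true]
          exact (ComputesIn.coord _).mono (by omega)
        by_cases h3 : (i : ℕ) % 2 = 1
        · simp only [h1, h2, if_false, h3, if_true]
          exact computesIn_min _ _
        · simp only [h1, h2, if_false, h3]
          exact computesIn_max _ _)
      rw [Fintype.card_fin] at this
      exact this
    refine ((hl.comp hcd).mono ?_).congr fun x i => ?_
    · rw [e4, e1]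
      nlinarith
    · have hi := i.2
      simp only [mrg, Sum.elim_inl, Sum.elim_inr]
      split_ifs with h1 h2 h3
      · rfl
      · rfl
      · have h4 : (i : ℕ) / 2 % 2 ^ (p + 1) = i / 2 := Nat.mod_eq_of_lt (by omega)
        have h5 : ((i : ℕ) / 2 + 1) % 2 ^ (p + 1) = i / 2 + 1 := Nat.mod_eq_of_lt (by omega)
        rw [h4, h5]
      · have h4 : ((i : ℕ) / 2 - 1) % 2 ^ (p + 1) = i / 2 - 1 := Nat.mod_eq_of_lt (by omega)
        have h5 : ((i : ℕ) / 2) % 2 ^ (p + 1) = i / 2 := Nat.mod_eq_of_lt (by omega)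
        rw [h4, h5]

theorem srt_cost (q : ℕ) : ComputesIn (q ^ 2 * 2 ^ q)
    (fun (x : ℕ → ℝ) (i : Fin (2 ^ q)) => srt q x i) := by
  induction q with
  | zero =>
    simp only [srt]
    exact (computesIn_reindex (fun i : Fin (2 ^ 0) => (i : ℕ))).mono (by omega)
  | succ q ih =>
    have h1 := ih.out (fun j : ℕ => (⟨j % 2 ^ q, Nat.mod_lt _ (by positivity)⟩ : Fin (2 ^ q)))
    have h2 := (ih.inp (fun i : ℕ => i + 2 ^ q)).out
      (fun j : ℕ => (⟨j % 2 ^ q, Nat.mod_lt _ (by positivity)⟩ : Fin (2 ^ q)))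
    have h3 := (mrg_cost q).comp (h1.pair h2)
    refine (h3.mono ?_).congr fun x i => ?_
    · rw [pow_succ 2 q]
      nlinarith [Nat.zero_le (2 ^ q), Nat.zero_le (q * 2 ^ q)]
    · simp only [srt, Sum.elim_inl, Sum.elim_inr]

/-- Sorting of a vector with `2 ^ q` coordinates. -/
noncomputable def sortF (q : ℕ) (v : Fin (2 ^ q) → ℝ) : Fin (2 ^ q) → ℝ :=
  fun i => srt q (fun j => v ⟨j % 2 ^ q, Nat.mod_lt _ (by positivity)⟩) i

theorem sortF_cost (q : ℕ) : ComputesIn (q ^ 2 * 2 ^ q) (sortF q) :=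
  (srt_cost q).inp (fun j : ℕ => (⟨j % 2 ^ q, Nat.mod_lt _ (by positivity)⟩ : Fin (2 ^ q)))

open Classical in
theorem sortF_spec (q : ℕ) (v : Fin (2 ^ q) → ℝ) (r : Fin (2 ^ q)) :
    IsOStat v r (sortF q v r) := by
  intro t
  obtain ⟨h1, h2⟩ := srt_srt q (fun j => v ⟨j % 2 ^ q, Nat.mod_lt _ (by positivity)⟩) t
  have h3 := h2 r r.2
  unfold sortF
  rw [h3]
  have h4 : ∑ i ∈ range (2 ^ q), (if v ⟨i % 2 ^ q, Nat.mod_lt _ (by positivity)⟩ ≤ t
      then 1 else 0) = (univ.filter (fun i => v i ≤ t)).card := by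
    rw [Finset.sum_range, Finset.card_filter]
    refine Finset.sum_congr rfl fun i _ => ?_
    have : (⟨(i : ℕ) % 2 ^ q, Nat.mod_lt _ (by positivity)⟩ : Fin (2 ^ q)) = i := by
      apply Fin.ext
      exact Nat.mod_eq_of_lt i.2
    rw [this]
  rw [← h4]

end T2

theorem T2_sorting : ∃ C : ℕ, ∀ q : ℕ, ∃ F : (Fin (2 ^ q) → ℝ) → (Fin (2 ^ q) → ℝ),
    ComputesIn (C * 2 ^ q * (q + 1) ^ 2) F ∧ ∀ v (r : Fin (2 ^ q)), IsOStat v r (F v r) := by
  refine ⟨1, fun q => ⟨T2.sortF q, (T2.sortF_cost q).mono ?_, T2.sortF_spec q⟩⟩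
  rw [one_mul, mul_comm]
  exact Nat.mul_le_mul_left _ (Nat.pow_le_pow_left (by omega) 2)

open Classical in
theorem T2_median : ∃ C : ℕ, ∀ q : ℕ, ∃ F : (Fin (2 ^ q) → ℝ) → (Unit → ℝ),
    ComputesIn (C * 2 ^ q * (q + 1) ^ 2) F ∧
    ∀ (v : Fin (2 ^ q) → ℝ) (lo hi : ℝ),
      2 ^ q < 2 * (univ.filter (fun j => lo ≤ v j ∧ v j ≤ hi)).card →
      lo ≤ F v () ∧ F v () ≤ hi := by
  obtain ⟨C, hC⟩ := T2_sorting
  refine ⟨C, fun q => ?_⟩
  obtain ⟨F, hF1, hF2⟩ := hC q
  have hq : 0 < 2 ^ q := by positivity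
  refine ⟨fun v _ => F v ⟨2 ^ q / 2, by omega⟩, hF1.out (fun _ => ⟨2 ^ q / 2, by omega⟩), ?_⟩
  intro v lo hi hlh
  set s := F v ⟨2 ^ q / 2, by omega⟩ with hs
  have hO : ∀ t : ℝ, s ≤ t ↔ 2 ^ q / 2 < (univ.filter (fun i => v i ≤ t)).card := hF2 v _
  constructor
  · by_contra hlt
    push Not at hlt
    have h1 := (hO s).mp le_rfl
    have h2 : Disjoint (univ.filter (fun i => v i ≤ s))
        (univ.filter (fun j => lo ≤ v j ∧ v j ≤ hi)) := by
      rw [Finset.disjoint_filter]
      rintro i _ h3 ⟨h4, -⟩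
      linarith
    have h3 := Finset.card_union_of_disjoint h2
    have h4 := Finset.card_le_univ ((univ.filter (fun i => v i ≤ s)) ∪
        (univ.filter (fun j => lo ≤ v j ∧ v j ≤ hi)))
    rw [Fintype.card_fin] at h4
    omega
  · rw [hO hi]
    have h1 : (univ.filter (fun j => lo ≤ v j ∧ v j ≤ hi)).card ≤
        (univ.filter (fun i => v i ≤ hi)).card := by
      apply Finset.card_le_card
      intro i hi'
      simp only [mem_filter, mem_univ, true_and] at hi' ⊢
      exact hi'.2
    omega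

open Classical in
theorem T2_threshold : ∃ C : ℕ, ∀ n k q : ℕ, n ≤ 2 ^ q → k < n →
    ∃ F : (Fin n → ℝ) → (Unit → ℝ),
      ComputesIn (C * 2 ^ q * (q + 1) ^ 2) F ∧
      ∀ v : Fin n → ℝ, (∀ i, 0 ≤ v i) →
        (univ.filter (fun i => F v () < v i)).card ≤ k ∧
        k + 1 ≤ (univ.filter (fun i => F v () ≤ v i)).card := by
  refine ⟨1, fun n k q hn hk => ?_⟩
  have hq : 0 < 2 ^ q := by positivity
  let σ : Fin (2 ^ q) → Fin n ⊕ Unit := fun i => if h : (i : ℕ) < n then .inl ⟨i, h⟩ else .inr ()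
  have hpad : ComputesIn 1 (fun (x : Fin n → ℝ) (i : Fin (2 ^ q)) =>
      (Sum.elim x (fun _ => 0) : Fin n ⊕ Unit → ℝ) (σ i)) := by
    have := ((computesIn_id (ι := Fin n)).pair (computesIn_const (ι := Fin n) 0)).out σ
    exact this.mono (by omega)
  let r : Fin (2 ^ q) := ⟨2 ^ q - 1 - k, by omega⟩
  refine ⟨fun v _ => T2.sortF q (fun i => (Sum.elim v (fun _ => 0) : Fin n ⊕ Unit → ℝ) (σ i)) r,
    ?_, ?_⟩
  · have := (((T2.sortF_cost q).comp hpad).out (fun _ : Unit => r))
    refine this.mono ?_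
    have h2 : 1 + q ^ 2 * 2 ^ q ≤ 1 * 2 ^ q * (q + 1) ^ 2 := by
      nlinarith [Nat.zero_le (q * 2 ^ q)]
    exact h2
  · intro v hv
    set w : Fin (2 ^ q) → ℝ := fun i => (Sum.elim v (fun _ => 0) : Fin n ⊕ Unit → ℝ) (σ i)
      with hw
    set s := T2.sortF q w r with hs
    have hO : ∀ t : ℝ, s ≤ t ↔ 2 ^ q - 1 - k < (univ.filter (fun i => w i ≤ t)).card :=
      T2.sortF_spec q w r
    let e : Fin n ↪ Fin (2 ^ q) := Fin.castLEEmb hn
    have hwe : ∀ i : Fin n, w (e i) = v i := by
      intro i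
      simp only [hw, σ]
      have : ((e i : Fin (2 ^ q)) : ℕ) = i := rfl
      rw [dif_pos (by rw [this]; exact i.2)]
      rfl
    have hwn : ∀ i : Fin (2 ^ q), ¬ (i : ℕ) < n → w i = 0 := by
      intro i hi
      simp only [hw, σ]
      rw [dif_neg hi]
      rfl
    have hcompl : ∀ t : ℝ, (univ.filter (fun i => w i ≤ t)).card +
        (univ.filter (fun i => t < w i)).card = 2 ^ q := by
      intro t
      have h1 := Finset.card_filter_add_card_filter_not (s := (univ : Finset (Fin (2 ^ q))))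
        (fun i => w i ≤ t)
      rw [Finset.card_univ, Fintype.card_fin] at h1
      simp only [not_le] at h1
      exact h1
    constructor
    · have h1 := (hO s).mp le_rfl
      have h2 := hcompl s
      have h3 : (univ.filter (fun i => s < v i)).card ≤ (univ.filter (fun i => s < w i)).card := by
        rw [← Finset.card_map e]
        apply Finset.card_le_card
        intro i hi
        simp only [mem_map, mem_filter, mem_univ, true_and] at hi ⊢
        obtain ⟨j, hj, rfl⟩ := hi
        rw [hwe]; exact hj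
      change (univ.filter (fun i => s < v i)).card ≤ k
      omega
    · change k + 1 ≤ (univ.filter (fun i => s ≤ v i)).card
      by_cases hs0 : s ≤ 0
      · have : (univ.filter (fun i => s ≤ v i)) = (univ : Finset (Fin n)) := by
          ext i
          simp only [mem_filter, mem_univ, true_and, iff_true]
          exact hs0.trans (hv i)
        rw [this, Finset.card_univ, Fintype.card_fin]
        omega
      · push Not at hs0
        -- many w are at least s
        have h1 : (univ.filter (fun i => w i < s)).card ≤ 2 ^ q - 1 - k := by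
          by_contra hcon
          push Not at hcon
          have hne : (univ.filter (fun i => w i < s)).Nonempty := by
            rw [← Finset.card_pos]; omega
          obtain ⟨i0, hi0, hmax⟩ := Finset.exists_max_image _ w hne
          have h2 : s ≤ w i0 := by
            rw [hO]
            refine lt_of_lt_of_le hcon (Finset.card_le_card ?_)
            intro i hi
            have := hmax i hi
            simp only [mem_filter, mem_univ, true_and]
            exact this
          simp only [mem_filter, mem_univ, true_and] at hi0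
          linarith
        have h2 := Finset.card_filter_add_card_filter_not (s := (univ : Finset (Fin (2 ^ q))))
          (fun i => w i < s)
        rw [Finset.card_univ, Fintype.card_fin] at h2
        simp only [not_lt] at h2
        have h3 : (univ.filter (fun i => s ≤ w i)).card ≤ (univ.filter (fun i => s ≤ v i)).card := by
          rw [← Finset.card_map e (s := univ.filter (fun i => s ≤ v i))]
          apply Finset.card_le_card
          intro i hi
          simp only [mem_map, mem_filter, mem_univ, true_and] at hi ⊢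
          by_cases hin : (i : ℕ) < n
          · refine ⟨⟨i, hin⟩, ?_, ?_⟩
            · rw [← hwe]
              exact hi
            · rfl
          · rw [hwn i hin] at hi
            linarith
        omega

end Pool.Agent.MP_72d76c_lc
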