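import Pool.Agent.MP_72d76c_lc.Haar
import Pool.Agent.MP_72d76c_lc.Gauss

/-!
# T7: random block rotations
-/

namespace Pool.Agent.MP_72d76c_lc

open MeasureTheory Matrix Finset

section

variable {ι β : Type} [Fintype ι] [DecidableEq ι] [Fintype β] [DecidableEq β]

/-- The transformed vector `h_c = ∑_b Z_{cb} Q_b f_b`. -/
def hvec (Z : Matrix ι ι ℝ) (Q : ι → Matrix β β ℝ) (f : ι → β → ℝ) : ι → β → ℝ :=
  fun c j => ∑ b, Z c b * (Q b *ᵥ f b) j

/-- The covariance proxy on the blocks in `T`. -/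
noncomputable def covT (Z : Matrix ι ι ℝ) (f : ι → β → ℝ) (T : Finset ι) :
    Matrix (ι × β) (ι × β) ℝ :=
  fun p q => if p.2 = q.2 ∧ p.1 ∈ T ∧ q.1 ∈ T then
    ∑ b, Z p.1 b * Z q.1 b * (nsq (f b) / Fintype.card β) else 0

/-- The vector restricted to the blocks in `T`. -/
def hT (Z : Matrix ι ι ℝ) (Q : ι → Matrix β β ℝ) (f : ι → β → ℝ) (T : Finset ι) :
    ι × β → ℝ :=
  fun p => if p.1 ∈ T then hvec Z Q f p.1 p.2 else 0

/-- The adjoint vector. -/
def uvec (Z : Matrix ι ι ℝ) (T : Finset ι) (w : ι × β → ℝ) : ι → β → ℝ :=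
  fun b j => ∑ c ∈ T, Z c b * w (c, j)

omit [DecidableEq β] in
theorem hT_dotProduct (Z : Matrix ι ι ℝ) (Q : ι → Matrix β β ℝ) (f : ι → β → ℝ) (T : Finset ι)
    (w : ι × β → ℝ) : hT Z Q f T ⬝ᵥ w = ∑ b, (Q b *ᵥ f b) ⬝ᵥ uvec Z T w b := by
  simp only [dotProduct, hT, hvec, uvec, Fintype.sum_prod_type, ite_mul, zero_mul]
  have h1 : ∀ c, (∑ j, if c ∈ T then (∑ b, Z c b * (Q b *ᵥ f b) j) * w (c, j) else 0) =
      if c ∈ T then ∑ j, (∑ b, Z c b * (Q b *ᵥ f b) j) * w (c, j) else 0 := by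
    intro c; split_ifs <;> simp
  simp_rw [h1]
  rw [← Finset.sum_filter]
  simp only [Finset.filter_mem_eq_inter, Finset.univ_inter]
  simp_rw [Finset.sum_mul, Finset.mul_sum]
  -- `∑ c∈T, ∑ j, ∑ b` vs `∑ b, ∑ j, ∑ c∈T`
  rw [Finset.sum_comm]
  have h2 : ∀ j : β, ∑ c ∈ T, ∑ b, Z c b * (Q b *ᵥ f b) j * w (c, j) =
      ∑ b, ∑ c ∈ T, (Q b *ᵥ f b) j * (Z c b * w (c, j)) := by
    intro j
    rw [Finset.sum_comm]
    exact sum_congr rfl fun b _ => sum_congr rfl fun c _ => by ring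
  simp_rw [h2]
  rw [Finset.sum_comm]

theorem covT_quad (Z : Matrix ι ι ℝ) (f : ι → β → ℝ) (T : Finset ι) (w : ι × β → ℝ) :
    w ⬝ᵥ (covT Z f T *ᵥ w) = ∑ b, (nsq (f b) / Fintype.card β) * nsq (uvec Z T w b) := by
  have h1 : ∀ b, nsq (uvec Z T w b) =
      ∑ j, ∑ c ∈ T, ∑ c' ∈ T, (Z c b * w (c, j)) * (Z c' b * w (c', j)) := by
    intro b
    simp only [nsq, uvec]
    refine sum_congr rfl fun j _ => ?_
    rw [pow_two, Finset.sum_mul_sum]
  simp only [dotProduct, mulVec, covT, Fintype.sum_prod_type, h1]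
  -- simplify the left side
  have h2 : ∀ (c : ι) (j : β), (∑ c', ∑ j', (if j = j' ∧ c ∈ T ∧ c' ∈ T then
      ∑ b, Z c b * Z c' b * (nsq (f b) / Fintype.card β) else 0) * w (c', j')) =
      if c ∈ T then ∑ c' ∈ T, (∑ b, Z c b * Z c' b * (nsq (f b) / Fintype.card β)) * w (c', j)
      else 0 := by
    intro c j
    have h3 : ∀ c' : ι, (∑ j', (if j = j' ∧ c ∈ T ∧ c' ∈ T then
        ∑ b, Z c b * Z c' b * (nsq (f b) / Fintype.card β) else 0) * w (c', j')) =
        if c ∈ T ∧ c' ∈ T then (∑ b, Z c b * Z c' b * (nsq (f b) / Fintype.card β)) * w (c', j)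
        else 0 := by
      intro c'
      rw [Finset.sum_eq_single j]
      · by_cases h : c ∈ T ∧ c' ∈ T <;> simp [h]
      · intro j' _ hj'
        rw [if_neg (fun h => hj' h.1.symm), zero_mul]
      · simp
    simp_rw [h3]
    by_cases hc : c ∈ T
    · simp only [hc, true_and, if_true]
      rw [← Finset.sum_filter]
      simp only [Finset.filter_mem_eq_inter, Finset.univ_inter]
    · simp [hc]
  simp_rw [h2]
  have h4 : ∀ c : ι, (∑ j, w (c, j) * (if c ∈ T then ∑ c' ∈ T,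
      (∑ b, Z c b * Z c' b * (nsq (f b) / Fintype.card β)) * w (c', j) else 0)) =
      if c ∈ T then ∑ j, w (c, j) * ∑ c' ∈ T,
        (∑ b, Z c b * Z c' b * (nsq (f b) / Fintype.card β)) * w (c', j) else 0 := by
    intro c; split_ifs <;> simp
  simp_rw [h4]
  rw [← Finset.sum_filter]
  simp only [Finset.filter_mem_eq_inter, Finset.univ_inter]
  simp_rw [Finset.mul_sum, Finset.sum_mul, Finset.mul_sum]
  -- LHS: ∑ c∈T, ∑ j, ∑ c'∈T, ∑ b ; RHS: ∑ b, ∑ j, ∑ c∈T, ∑ c'∈T
  rw [Finset.sum_comm]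
  have h5 : ∀ j : β, ∑ c ∈ T, ∑ c' ∈ T, ∑ b, w (c, j) *
      (Z c b * Z c' b * (nsq (f b) / Fintype.card β) * w (c', j)) =
      ∑ b, ∑ c ∈ T, ∑ c' ∈ T, nsq (f b) / Fintype.card β *
        (Z c b * w (c, j) * (Z c' b * w (c', j))) := by
    intro j
    have h6 : ∀ c ∈ T, ∑ c' ∈ T, ∑ b, w (c, j) *
        (Z c b * Z c' b * (nsq (f b) / Fintype.card β) * w (c', j)) =
        ∑ b, ∑ c' ∈ T, nsq (f b) / Fintype.card β *
        (Z c b * w (c, j) * (Z c' b * w (c', j))) := by
      intro c _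
      rw [Finset.sum_comm]
      exact sum_congr rfl fun b _ => sum_congr rfl fun c' _ => by ring
    rw [sum_congr rfl h6, Finset.sum_comm]
  simp_rw [h5]
  rw [Finset.sum_comm]

theorem covT_isHermitian (Z : Matrix ι ι ℝ) (f : ι → β → ℝ) (T : Finset ι) :
    (covT Z f T).IsHermitian := by
  ext p q
  simp only [conjTranspose_apply, covT, star_trivial]
  have : (q.2 = p.2 ∧ q.1 ∈ T ∧ p.1 ∈ T) ↔ (p.2 = q.2 ∧ p.1 ∈ T ∧ q.1 ∈ T) := by
    constructor <;> rintro ⟨a, b, c⟩ <;> exact ⟨a.symm, c, b⟩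
  simp only [this]
  split_ifs
  · exact sum_congr rfl fun b _ => by ring
  · rfl

theorem covT_trace [Nonempty β] (Z : Matrix ι ι ℝ) (f : ι → β → ℝ) (T : Finset ι) :
    (covT Z f T).trace = ∑ c ∈ T, ∑ b, Z c b ^ 2 * nsq (f b) := by
  simp only [Matrix.trace, Matrix.diag, covT, Fintype.sum_prod_type, true_and, and_self]
  have hB : (Fintype.card β : ℝ) ≠ 0 := by
    have : 0 < Fintype.card β := Fintype.card_pos
    positivity
  have h1 : ∀ c : ι, (∑ _j : β, if c ∈ T then
      ∑ b, Z c b * Z c b * (nsq (f b) / Fintype.card β) else 0) =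
      if c ∈ T then ∑ b, Z c b ^ 2 * nsq (f b) else 0 := by
    intro c
    split_ifs
    · rw [sum_const, card_univ, nsmul_eq_mul, mul_sum]
      refine sum_congr rfl fun b _ => ?_
      field_simp
    · simp
  simp_rw [h1]
  rw [← Finset.sum_filter]
  simp only [Finset.filter_mem_eq_inter, Finset.univ_inter]

/-- `∑_b (∑_{c ∈ T} Z_{cb} v_c)² = ∑_{c ∈ T} v_c²`. -/
theorem sum_sq_orth (Z : Matrix ι ι ℝ) (hZ : Z * Zᵀ = 1) (T : Finset ι) (v : ι → ℝ) :
    ∑ b, (∑ c ∈ T, Z c b * v c) ^ 2 = ∑ c ∈ T, v c ^ 2 := by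
  have h1 : ∀ c c', ∑ b, Z c b * Z c' b = if c = c' then 1 else 0 := by
    intro c c'
    have := congrFun (congrFun hZ c) c'
    simpa [Matrix.mul_apply, Matrix.one_apply] using this
  simp_rw [pow_two, Finset.sum_mul_sum]
  rw [Finset.sum_comm]
  refine sum_congr rfl fun c hc => ?_
  rw [Finset.sum_comm]
  have h2 : ∀ c' ∈ T, ∑ b, Z c b * v c * (Z c' b * v c') = if c = c' then v c * v c' else 0 := by
    intro c' _
    have : ∀ b, Z c b * v c * (Z c' b * v c') = (v c * v c') * (Z c b * Z c' b) := fun b => by ring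
    simp_rw [this, ← Finset.mul_sum, h1]
    split_ifs <;> simp
  rw [sum_congr rfl h2, Finset.sum_ite_eq]
  simp [hc]

/-- The covariance proxy is bounded. -/
theorem covT_quad_le [Nonempty β] [Nonempty ι] (Z : Matrix ι ι ℝ) (hZ : Z * Zᵀ = 1)
    (f : ι → β → ℝ) (T : Finset ι) (κ : ℝ) (hκ : 0 < κ)
    (hf : ∀ b, nsq (f b) ≤ κ / Fintype.card ι) (w : ι × β → ℝ) :
    w ⬝ᵥ (covT Z f T *ᵥ w) ≤ κ / (Fintype.card ι * Fintype.card β) * nsq w := by
  have hB : (0 : ℝ) < Fintype.card β := by exact_mod_cast Fintype.card_pos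
  have hN : (0 : ℝ) < Fintype.card ι := by exact_mod_cast Fintype.card_pos
  rw [covT_quad]
  have h1 : ∑ b, nsq (f b) / Fintype.card β * nsq (uvec Z T w b) ≤
      ∑ b, κ / (Fintype.card ι * Fintype.card β) * nsq (uvec Z T w b) := by
    refine sum_le_sum fun b _ => mul_le_mul_of_nonneg_right ?_ (sum_nonneg fun _ _ => sq_nonneg _)
    rw [div_le_div_iff₀ hB (by positivity)]
    have := (le_div_iff₀ hN).1 (hf b)
    nlinarith
  refine h1.trans ?_
  rw [← Finset.mul_sum]
  refine mul_le_mul_of_nonneg_left ?_ (by positivity)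
  simp only [nsq, uvec]
  rw [Finset.sum_comm]
  simp_rw [sum_sq_orth Z hZ T]
  rw [Fintype.sum_prod_type, Finset.sum_comm]
  exact Finset.sum_le_sum_of_subset_of_nonneg (Finset.subset_univ _)
    fun c _ _ => sum_nonneg fun j _ => sq_nonneg _

theorem covT_quad_nonneg [Nonempty β] (Z : Matrix ι ι ℝ)
    (f : ι → β → ℝ) (T : Finset ι) (w : ι × β → ℝ) :
    0 ≤ w ⬝ᵥ (covT Z f T *ᵥ w) := by
  rw [covT_quad]
  refine sum_nonneg fun b _ => mul_nonneg (div_nonneg ?_ (Nat.cast_nonneg _)) ?_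
  · exact sum_nonneg fun _ _ => sq_nonneg _
  · exact sum_nonneg fun _ _ => sq_nonneg _

/-- The measure on families of rotations satisfies the quadratic exponential bound. -/
theorem block_quad [Nonempty β] [Nonempty ι] (Z : Matrix ι ι ℝ) (hZ : Z * Zᵀ = 1)
    {Ω : Type} [MeasurableSpace Ω] (P : Measure Ω) [IsProbabilityMeasure P]
    (Q : Ω → Matrix β β ℝ) (hQm : ∀ i j, Measurable fun ω => Q ω i j)
    (hQi : ∀ y u : β → ℝ, Integrable (fun ω => Real.exp ((Q ω *ᵥ y) ⬝ᵥ u)) P)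
    (hQ : ∀ y u : β → ℝ, ∫ ω, Real.exp ((Q ω *ᵥ y) ⬝ᵥ u) ∂P ≤
        Real.exp (nsq y * nsq u / (2 * Fintype.card β)))
    (f : ι → β → ℝ) (T : Finset ι) (κ : ℝ) (hκ : 0 < κ)
    (hf : ∀ b, nsq (f b) ≤ κ / Fintype.card ι) (μ : ℝ) (hμ : 0 ≤ μ)
    (hμκ : μ * (κ / (Fintype.card ι * Fintype.card β)) ≤ 1 / 4) :
    ∫⁻ ω, ENNReal.ofReal (Real.exp (μ * nsq (hT Z (fun b => Q (ω b)) f T)))
      ∂(Measure.pi fun _ : ι => P) ≤
      ENNReal.ofReal (Real.exp (7 / 5 * (μ * ∑ c ∈ T, ∑ b, Z c b ^ 2 * nsq (f b)))) := by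
  rw [← covT_trace]
  refine lintegral_exp_nsq_le (Measure.pi fun _ : ι => P)
    (fun ω => hT Z (fun b => Q (ω b)) f T) ?_ (covT Z f T) (covT_isHermitian Z f T) ?_ μ _ hμ
    (covT_quad_le Z hZ f T κ hκ hf) (covT_quad_nonneg Z f T) hμκ
  · intro p
    simp only [hT, hvec]
    by_cases hp : p.1 ∈ T
    · simp only [hp, if_true]
      refine Finset.measurable_sum _ fun b _ => Measurable.const_mul ?_ _
      simp only [mulVec, dotProduct]
      refine Finset.measurable_sum _ fun j _ => Measurable.mul_const ?_ _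
      exact (hQm _ _).comp (measurable_pi_apply b)
    · simp only [hp, if_false]; exact measurable_const
  · intro w
    simp_rw [hT_dotProduct, Real.exp_sum]
    have hint : Integrable (fun ω : ι → Ω => ∏ b, Real.exp ((Q (ω b) *ᵥ f b) ⬝ᵥ uvec Z T w b))
        (Measure.pi fun _ : ι => P) :=
      Integrable.fintype_prod (f := fun b ω => Real.exp ((Q ω *ᵥ f b) ⬝ᵥ uvec Z T w b))
        fun b => hQi _ _
    rw [← ofReal_integral_eq_lintegral_ofReal hint
      (Filter.Eventually.of_forall fun g => prod_nonneg fun i _ => (Real.exp_pos _).le)]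
    refine ENNReal.ofReal_le_ofReal ?_
    rw [integral_fintype_prod_eq_prod
      (fun b ω => Real.exp ((Q ω *ᵥ f b) ⬝ᵥ uvec Z T w b)), covT_quad]
    calc ∏ b, ∫ ω, Real.exp ((Q ω *ᵥ f b) ⬝ᵥ uvec Z T w b) ∂P
        ≤ ∏ b, Real.exp (nsq (f b) * nsq (uvec Z T w b) / (2 * Fintype.card β)) :=
          prod_le_prod (fun b _ => integral_nonneg fun ω => (Real.exp_pos _).le)
            fun b _ => hQ _ _
      _ = Real.exp ((∑ b, nsq (f b) / Fintype.card β * nsq (uvec Z T w b)) / 2) := by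
          rw [← Real.exp_sum, Finset.sum_div]
          congr 1
          refine sum_congr rfl fun b _ => ?_
          ring

/-- Sum over the set of heavy blocks. -/
theorem exp_excess_le (N : ℕ) (E : ι → ℝ) (μ τ : ℝ) :
    Real.exp (μ * ∑ c, max 0 (E c - 2 * τ / N)) ≤
      ∑ T : Finset ι, Real.exp (-(μ * (2 * τ / N)) * T.card) * Real.exp (μ * ∑ c ∈ T, E c) := by
  by_cases hμ : 0 ≤ μ
  · have h1 : Real.exp (μ * ∑ c, max 0 (E c - 2 * τ / N)) =
        ∏ c, Real.exp (μ * max 0 (E c - 2 * τ / N)) := by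
      rw [← Real.exp_sum, mul_sum]
    have h2 : ∀ c, Real.exp (μ * max 0 (E c - 2 * τ / N)) ≤
        Real.exp (μ * (E c - 2 * τ / N)) + 1 := by
      intro c
      rcases le_total (E c - 2 * τ / N) 0 with h | h
      · rw [max_eq_left h, mul_zero, Real.exp_zero]
        linarith [Real.exp_pos (μ * (E c - 2 * τ / N))]
      · rw [max_eq_right h]
        linarith
    rw [h1]
    refine (prod_le_prod (fun c _ => (Real.exp_pos _).le) fun c _ => h2 c).trans ?_
    rw [Finset.prod_add]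
    simp only [prod_const_one, mul_one, Finset.powerset_univ]
    refine le_of_eq (sum_congr rfl fun T _ => ?_)
    rw [← Real.exp_sum, ← Real.exp_add]
    congr 1
    rw [mul_sum]
    simp only [mul_sub, Finset.sum_sub_distrib, sum_const, nsmul_eq_mul]
    ring
  · push Not at hμ
    -- not needed in applications, but true: take `T = ∅`
    have h0 : Real.exp (μ * ∑ c, max 0 (E c - 2 * τ / N)) ≤ 1 := by
      rw [Real.exp_le_one_iff]
      exact mul_nonpos_of_nonpos_of_nonneg hμ.le (sum_nonneg fun c _ => le_max_left _ _)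
    refine h0.trans ?_
    have : (1 : ℝ) = Real.exp (-(μ * (2 * τ / N)) * (∅ : Finset ι).card) *
        Real.exp (μ * ∑ c ∈ (∅ : Finset ι), E c) := by simp
    rw [this]
    exact Finset.single_le_sum (f := fun T : Finset ι =>
      Real.exp (-(μ * (2 * τ / N)) * T.card) * Real.exp (μ * ∑ c ∈ T, E c))
      (fun T _ => by positivity) (Finset.mem_univ ∅)

end

theorem nsq_hT {ι β : Type} [Fintype ι] [DecidableEq ι] [Fintype β]
    (Z : Matrix ι ι ℝ) (Q : ι → Matrix β β ℝ) (f : ι → β → ℝ)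
    (T : Finset ι) : nsq (hT Z Q f T) = ∑ c ∈ T, nsq (hvec Z Q f c) := by
  simp only [nsq, hT, Fintype.sum_prod_type]
  have h1 : ∀ c, (∑ j, (if c ∈ T then hvec Z Q f c j else 0) ^ 2) =
      if c ∈ T then ∑ j, hvec Z Q f c j ^ 2 else 0 := by
    intro c; split_ifs <;> simp
  simp_rw [h1]
  rw [← Finset.sum_filter]
  simp only [Finset.filter_mem_eq_inter, Finset.univ_inter]

theorem integrable_exp_rotation {β : Type} [Fintype β] [DecidableEq β]
    {Ω : Type} [MeasurableSpace Ω] (P : Measure Ω) [IsProbabilityMeasure P]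
    (Q : Ω → Matrix β β ℝ) (hQm : ∀ i j, Measurable fun ω => Q ω i j)
    (hQo : ∀ ω, Q ω * (Q ω)ᵀ = 1) (y u : β → ℝ) :
    Integrable (fun ω => Real.exp ((Q ω *ᵥ y) ⬝ᵥ u)) P := by
  have hent : ∀ ω i j, |Q ω i j| ≤ 1 := by
    intro ω i j
    have h1 : ∑ k, Q ω i k ^ 2 = 1 := by
      have := congrFun (congrFun (hQo ω) i) i
      simpa [Matrix.mul_apply, pow_two] using this
    have h2 : Q ω i j ^ 2 ≤ 1 := by
      rw [← h1]
      exact Finset.single_le_sum (f := fun k => Q ω i k ^ 2) (fun k _ => sq_nonneg _)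
        (Finset.mem_univ j)
    exact abs_le_one_iff_mul_self_le_one.2 (by rw [← pow_two]; exact h2)
  have hmeas : Measurable (fun ω => (Q ω *ᵥ y) ⬝ᵥ u) := by
    simp only [mulVec, dotProduct]
    refine Finset.measurable_sum _ fun i _ => Measurable.mul_const ?_ _
    exact Finset.measurable_sum _ fun j _ => (hQm i j).mul_const _
  refine Integrable.of_bound (Real.measurable_exp.comp hmeas).aestronglyMeasurable
    (Real.exp (∑ i, (∑ j, |y j|) * |u i|)) (Filter.Eventually.of_forall fun ω => ?_)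
  rw [Real.norm_eq_abs, abs_of_pos (Real.exp_pos _), Real.exp_le_exp]
  refine (le_abs_self _).trans ?_
  simp only [dotProduct, mulVec]
  refine (Finset.abs_sum_le_sum_abs _ _).trans (sum_le_sum fun i _ => ?_)
  rw [abs_mul]
  refine mul_le_mul_of_nonneg_right ?_ (abs_nonneg _)
  refine (Finset.abs_sum_le_sum_abs _ _).trans (sum_le_sum fun j _ => ?_)
  rw [abs_mul]
  exact mul_le_of_le_one_left (abs_nonneg _) (hent ω i j)

theorem T7_rotations {ι β : Type} [Fintype ι] [DecidableEq ι] [Nonempty ι] [Fintype β]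
    [DecidableEq β] [Nonempty β] (Z : Matrix ι ι ℝ) (hZ : Z * Zᵀ = 1) (κ τ : ℝ) (hκ : 0 < κ)
    (hτ : 0 < τ)
    (hB : (Fintype.card ι : ℝ) * Real.exp (-(3 / 20) * (Fintype.card β * τ / κ)) ≤ Real.log 2)
    (Y : Finset (ι → β → ℝ)) (hY1 : ∀ f ∈ Y, ∀ b, nsq (f b) ≤ κ / Fintype.card ι)
    (hY2 : ∀ f ∈ Y, ∀ c, ∑ b, Z c b ^ 2 * nsq (f b) ≤ τ / Fintype.card ι)
    (θ : ℝ)
    (hθ : (Y.card : ℝ) * (2 * Real.exp (-(Fintype.card ι * Fintype.card β / (4 * κ)) * θ)) < 1) :
    ∃ Q : ι → Matrix β β ℝ, (∀ b, Q b * (Q b)ᵀ = 1) ∧ ∀ f ∈ Y,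
      ∑ c, max 0 (nsq (fun j => ∑ b, Z c b * (Q b *ᵥ f b) j) - 2 * τ / Fintype.card ι) ≤ θ := by
  classical
  obtain ⟨Ω, mΩ, P, hP, Q, hQm, hQo, hQ⟩ := exists_random_rotation β
  have hN : (0 : ℝ) < (Fintype.card ι : ℝ) := by exact_mod_cast Fintype.card_pos
  have hBc : (0 : ℝ) < (Fintype.card β : ℝ) := by exact_mod_cast Fintype.card_pos
  set N : ℝ := (Fintype.card ι : ℝ) with hNdef
  set B : ℝ := (Fintype.card β : ℝ) with hBdef
  set μ : ℝ := N * B / (4 * κ) with hμdef
  have hμ : 0 < μ := by positivity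
  have hμκ : μ * (κ / (N * B)) ≤ 1 / 4 := by
    rw [hμdef]; apply le_of_eq; field_simp
  set G : (ι → β → ℝ) → (ι → Ω) → ℝ := fun f ω =>
    ∑ c, max 0 (nsq (hvec Z (fun b => Q (ω b)) f c) - 2 * τ / N) with hG
  set PP : Measure (ι → Ω) := Measure.pi fun _ : ι => P with hPP
  have hmeas_nsq : ∀ (f : ι → β → ℝ) (T : Finset ι), Measurable fun ω : ι → Ω =>
      nsq (hT Z (fun b => Q (ω b)) f T) := by
    intro f T
    simp only [nsq]
    refine Finset.measurable_sum _ fun p _ => Measurable.pow_const ?_ _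
    simp only [hT, hvec]
    by_cases hp : p.1 ∈ T
    · simp only [hp, if_true]
      refine Finset.measurable_sum _ fun b _ => Measurable.const_mul ?_ _
      simp only [mulVec, dotProduct]
      refine Finset.measurable_sum _ fun j _ => Measurable.mul_const ?_ _
      exact (hQm _ _).comp (measurable_pi_apply b)
    · simp only [hp, if_false]; exact measurable_const
  -- the main exponential moment
  have hmain : ∀ f ∈ Y, ∫⁻ ω, ENNReal.ofReal (Real.exp (μ * G f ω)) ∂PP ≤ ENNReal.ofReal 2 := by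
    intro f hf
    have h1 : ∀ ω : ι → Ω, ENNReal.ofReal (Real.exp (μ * G f ω)) ≤
        ∑ T : Finset ι, ENNReal.ofReal (Real.exp (-(μ * (2 * τ / N)) * T.card)) *
          ENNReal.ofReal (Real.exp (μ * nsq (hT Z (fun b => Q (ω b)) f T))) := by
      intro ω
      have := exp_excess_le (Fintype.card ι) (fun c => nsq (hvec Z (fun b => Q (ω b)) f c)) μ τ
      simp_rw [← ENNReal.ofReal_mul (Real.exp_pos _).le]
      rw [← ENNReal.ofReal_sum_of_nonneg fun T _ => by positivity]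
      refine ENNReal.ofReal_le_ofReal (this.trans (le_of_eq ?_))
      exact sum_congr rfl fun T _ => by rw [nsq_hT]
    calc ∫⁻ ω, ENNReal.ofReal (Real.exp (μ * G f ω)) ∂PP
        ≤ ∫⁻ ω, ∑ T : Finset ι, ENNReal.ofReal (Real.exp (-(μ * (2 * τ / N)) * T.card)) *
          ENNReal.ofReal (Real.exp (μ * nsq (hT Z (fun b => Q (ω b)) f T))) ∂PP :=
          lintegral_mono h1
      _ = ∑ T : Finset ι, ENNReal.ofReal (Real.exp (-(μ * (2 * τ / N)) * T.card)) *
          ∫⁻ ω, ENNReal.ofReal (Real.exp (μ * nsq (hT Z (fun b => Q (ω b)) f T))) ∂PP := by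
          rw [lintegral_finsetSum]
          · refine sum_congr rfl fun T _ => ?_
            rw [lintegral_const_mul]
            exact ENNReal.measurable_ofReal.comp
              (Real.measurable_exp.comp ((hmeas_nsq f T).const_mul _))
          · intro T _
            exact (ENNReal.measurable_ofReal.comp
              (Real.measurable_exp.comp ((hmeas_nsq f T).const_mul _))).const_mul _
      _ ≤ ∑ T : Finset ι, ENNReal.ofReal (Real.exp (-(μ * (2 * τ / N)) * T.card)) *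
          ENNReal.ofReal (Real.exp (7 / 5 * (μ * (τ / N)) * T.card)) := by
          refine sum_le_sum fun T _ => mul_le_mul_right ?_ _
          refine (block_quad Z hZ P Q hQm (integrable_exp_rotation P Q hQm hQo) hQ f T κ hκ
            (hY1 f hf) μ hμ.le hμκ).trans ?_
          refine ENNReal.ofReal_le_ofReal (Real.exp_le_exp.2 ?_)
          have : ∑ c ∈ T, ∑ b, Z c b ^ 2 * nsq (f b) ≤ T.card * (τ / N) := by
            rw [← nsmul_eq_mul]
            exact sum_le_card_nsmul _ _ _ fun c _ => hY2 f hf c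
          calc 7 / 5 * (μ * ∑ c ∈ T, ∑ b, Z c b ^ 2 * nsq (f b))
              ≤ 7 / 5 * (μ * (T.card * (τ / N))) := by gcongr
            _ = 7 / 5 * (μ * (τ / N)) * T.card := by ring
      _ = ENNReal.ofReal (∑ T : Finset ι, Real.exp (-(3 / 20) * (B * τ / κ)) ^ T.card) := by
          rw [ENNReal.ofReal_sum_of_nonneg fun T _ => by positivity]
          refine sum_congr rfl fun T _ => ?_
          rw [← ENNReal.ofReal_mul (Real.exp_pos _).le, ← Real.exp_add, ← Real.exp_nat_mul]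
          congr 2
          rw [hμdef]
          field_simp
          ring
      _ ≤ ENNReal.ofReal 2 := by
          refine ENNReal.ofReal_le_ofReal ?_
          set q : ℝ := Real.exp (-(3 / 20) * (B * τ / κ)) with hq
          have h2 := Fintype.sum_pow_mul_eq_add_pow ι q (1 : ℝ)
          simp only [one_pow, mul_one] at h2
          rw [h2]
          calc (q + 1) ^ Fintype.card ι ≤ (Real.exp q) ^ Fintype.card ι :=
                pow_le_pow_left₀ (by positivity) (Real.add_one_le_exp q) _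
            _ = Real.exp (N * q) := by rw [← Real.exp_nat_mul]
            _ ≤ Real.exp (Real.log 2) := Real.exp_le_exp.2 hB
            _ = 2 := Real.exp_log (by norm_num)
  -- conclude by contradiction
  by_contra hcon
  push Not at hcon
  have hbad : ∀ ω : ι → Ω, (1 : ENNReal) ≤
      ∑ f ∈ Y, ENNReal.ofReal (Real.exp (-(μ * θ))) * ENNReal.ofReal (Real.exp (μ * G f ω)) := by
    intro ω
    obtain ⟨f, hf, hfθ⟩ := hcon (fun b => Q (ω b)) fun b => hQo (ω b)
    have h3 : θ ≤ G f ω := hfθ.le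
    refine le_trans ?_ (Finset.single_le_sum (f := fun f => ENNReal.ofReal (Real.exp (-(μ * θ))) *
      ENNReal.ofReal (Real.exp (μ * G f ω))) (fun _ _ => zero_le) hf)
    rw [← ENNReal.ofReal_mul (Real.exp_pos _).le, ← Real.exp_add]
    rw [← ENNReal.ofReal_one]
    refine ENNReal.ofReal_le_ofReal ?_
    rw [Real.one_le_exp_iff]
    nlinarith
  have hmeasG : ∀ f : ι → β → ℝ, Measurable (G f) := by
    intro f
    refine Finset.measurable_sum _ fun c _ => measurable_const.max (Measurable.sub_const ?_ _)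
    have h4 := hmeas_nsq f {c}
    have h5 : (fun ω : ι → Ω => nsq (hT Z (fun b => Q (ω b)) f {c})) =
        fun ω => nsq (hvec Z (fun b => Q (ω b)) f c) := by
      funext ω; rw [nsq_hT]; simp
    rw [h5] at h4
    exact h4
  have hfin : (1 : ENNReal) ≤ ENNReal.ofReal ((Y.card : ℝ) * (2 * Real.exp (-(μ) * θ))) := by
    calc (1 : ENNReal) = ∫⁻ _ω : ι → Ω, 1 ∂PP := by simp [hPP]
      _ ≤ ∫⁻ ω, ∑ f ∈ Y, ENNReal.ofReal (Real.exp (-(μ * θ))) *
          ENNReal.ofReal (Real.exp (μ * G f ω)) ∂PP := lintegral_mono hbad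
      _ = ∑ f ∈ Y, ENNReal.ofReal (Real.exp (-(μ * θ))) *
          ∫⁻ ω, ENNReal.ofReal (Real.exp (μ * G f ω)) ∂PP := by
          rw [lintegral_finsetSum]
          · refine sum_congr rfl fun f _ => ?_
            rw [lintegral_const_mul]
            exact ENNReal.measurable_ofReal.comp
              (Real.measurable_exp.comp ((hmeasG f).const_mul _))
          · intro f _
            exact (ENNReal.measurable_ofReal.comp
              (Real.measurable_exp.comp ((hmeasG f).const_mul _))).const_mul _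
      _ ≤ ∑ _f ∈ Y, ENNReal.ofReal (Real.exp (-(μ * θ))) * ENNReal.ofReal 2 := by
          exact sum_le_sum fun f hf => mul_le_mul_right (hmain f hf) _
      _ = ENNReal.ofReal ((Y.card : ℝ) * (2 * Real.exp (-(μ) * θ))) := by
          rw [sum_const, nsmul_eq_mul, ← ENNReal.ofReal_mul (Real.exp_pos _).le,
            ENNReal.ofReal_mul (Nat.cast_nonneg _), ENNReal.ofReal_natCast]
          congr 2
          rw [mul_comm]
          congr 2
          ring
  have : (Y.card : ℝ) * (2 * Real.exp (-(μ) * θ)) < 1 := hθ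
  have h6 : ENNReal.ofReal ((Y.card : ℝ) * (2 * Real.exp (-(μ) * θ))) < 1 := by
    rw [← ENNReal.ofReal_one]
    exact (ENNReal.ofReal_lt_ofReal_iff one_pos).2 this
  exact absurd hfin (not_le.2 h6)

end Pool.Agent.MP_72d76c_lc
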